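import Pool.Agent.H79.Eul.Defs

set_option autoImplicit false

open Filter Topology Polynomial Metric Set

namespace Pool.Agent.H79.Eul

open Pool.Agent.H44.Fatou Pool.Agent.H32.BT

theorem pol_coeff' {d : ℕ} (v : Fin (d + 1) → ℂ) (n : ℕ) :
    (pol v).coeff n = if h : n < d + 1 then v ⟨n, h⟩ else 0 := by
  unfold pol
  rw [finsetSum_coeff]
  simp only [coeff_C_mul, coeff_X_pow]
  split_ifs with h
  · rw [Finset.sum_eq_single (⟨n, h⟩ : Fin (d + 1))]
    · simp
    · intro b _ hb
      have : n ≠ (b : ℕ) := fun h' => hb (Fin.ext h'.symm)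
      simp [this]
    · intro h'
      exact absurd (Finset.mem_univ _) h'
  · apply Finset.sum_eq_zero
    intro b _
    have : n ≠ (b : ℕ) := by
      have := b.2
      omega
    simp [this]

theorem pol_coeff {d : ℕ} (v : Fin (d + 1) → ℂ) (i : Fin (d + 1)) : (pol v).coeff i = v i := by
  rw [pol_coeff', dif_pos i.2]

theorem pol_deg {d : ℕ} (v : Fin (d + 1) → ℂ) : (pol v).natDegree ≤ d := by
  rw [natDegree_le_iff_coeff_eq_zero]
  intro n hn
  rw [pol_coeff', dif_neg (by omega)]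

theorem cf_pol {d : ℕ} (v : Fin (d + 1) → ℂ) : cf d (pol v) = v := by
  funext i
  exact pol_coeff v i

theorem pol_cf {d : ℕ} {A : Polynomial ℂ} (hA : A.natDegree ≤ d) : pol (cf d A) = A := by
  ext n
  rw [pol_coeff']
  split_ifs with h
  · rfl
  · exact (coeff_eq_zero_of_natDegree_lt (by omega)).symm

theorem pol_eval {d : ℕ} (v : Fin (d + 1) → ℂ) (z : ℂ) : (pol v).eval z = ev v z := by
  rw [← ev_cf (pol_deg v), cf_pol]

theorem pol_deriv_eval {d : ℕ} (v : Fin (d + 1) → ℂ) (z : ℂ) :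
    (derivative (pol v)).eval z = dev v z := by
  rw [← dev_cf (pol_deg v), cf_pol]

theorem pol_add {d : ℕ} (v w : Fin (d + 1) → ℂ) : pol (v + w) = pol v + pol w := by
  unfold pol
  rw [← Finset.sum_add_distrib]
  apply Finset.sum_congr rfl
  intro i _
  rw [Pi.add_apply, C_add, add_mul]

theorem pol_smul {d : ℕ} (u : ℂ) (v : Fin (d + 1) → ℂ) : pol (u • v) = C u * pol v := by
  unfold pol
  rw [Finset.mul_sum]
  apply Finset.sum_congr rfl
  intro i _
  rw [Pi.smul_apply, smul_eq_mul, C_mul, mul_assoc]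

theorem pol_single {d : ℕ} (u : ℂ) : pol (Pi.single (0 : Fin (d + 1)) u) = C u := by
  unfold pol
  rw [Finset.sum_eq_single (0 : Fin (d + 1))]
  · simp
  · intro b _ hb
    simp [hb]
  · intro h
    exact absurd (Finset.mem_univ _) h

theorem nu_eval {d : ℕ} (Q : Polynomial ℂ) (v : E d) (h : ℝ) (z : ℂ) :
    (nu Q v h).eval z = z * Q.eval z + h * ev v.1 z := by
  unfold nu
  rw [eval_add, eval_mul, eval_mul, eval_X, eval_C, pol_eval]

theorem de_eval {d : ℕ} (Q : Polynomial ℂ) (v : E d) (h : ℝ) (z : ℂ) :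
    (de Q v h).eval z = Q.eval z + h * ev v.2 z := by
  unfold de
  rw [eval_add, eval_mul, eval_C, pol_eval]

theorem nu_deg {d : ℕ} {Q : Polynomial ℂ} (hQ : Q.natDegree + 1 ≤ d) (v : E d) (h : ℝ) :
    (nu Q v h).natDegree ≤ d := by
  unfold nu
  refine (natDegree_add_le _ _).trans (max_le ?_ ?_)
  · refine natDegree_mul_le.trans ?_
    rw [natDegree_X]
    omega
  · exact (natDegree_C_mul_le _ _).trans (pol_deg _)

theorem de_deg {d : ℕ} {Q : Polynomial ℂ} (hQ : Q.natDegree + 1 ≤ d) (v : E d) (h : ℝ) :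
    (de Q v h).natDegree ≤ d := by
  unfold de
  refine (natDegree_add_le _ _).trans (max_le (by omega) ?_)
  exact (natDegree_C_mul_le _ _).trans (pol_deg _)

end Pool.Agent.H79.Eul
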