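import Pool.Agent.H79.Eul.OrbUnique

set_option autoImplicit false

open Filter Topology Polynomial Metric Set

namespace Pool.Agent.H79.Eul

open Pool.Agent.H44.Fatou Pool.Agent.H32.BT

/-
PROOF of orb_conv. Let Rt be the finite set of zeros of P and Q. For ε > 0 the set
K = closedBall 0 R \ ⋃_{a ∈ Rt} ball a ε is compact and consists of regular points, so by hleave and
compactness x s ∉ K for s large, i.e. x s ∈ ⋃_{a ∈ Rt} ball a ε for s ≥ S(ε). Take first ε0 = half of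
the minimal distance of two points of Rt (if Rt has at most one point take 1): the balls are disjoint
and open, x is continuous on [S(ε0), ∞), which is preconnected, so x stays in one ball
ball a ε0 for s ≥ S(ε0). (Rt is not empty since x S(ε0) lies in the union.) For every ε < ε0 and s large
x s is in ⋃ ball b ε and in ball a ε0, hence in ball a ε (b ≠ a is impossible by disjointness). So
x → a.
-/

theorem orb_conv {P Q : Polynomial ℂ} (hP : P ≠ 0) (hQ : Q ≠ 0) {x : ℝ → ℂ} (hx : IsOrb P Q x)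
    {R : ℝ} (hR : ∀ s : ℝ, 0 ≤ s → ‖x s‖ ≤ R)
    (hleave : ∀ p : ℂ, Reg P Q p → ∃ W ∈ 𝓝 p, ∃ S0 : ℝ, ∀ s : ℝ, S0 ≤ s → x s ∉ W) :
    ∃ a : ℂ, (P.eval a = 0 ∨ Q.eval a = 0) ∧ Tendsto x atTop (𝓝 a) := by
  classical
  set Rt : Finset ℂ := P.roots.toFinset ∪ Q.roots.toFinset with hRt
  have hmem : ∀ a : ℂ, a ∈ Rt ↔ (P.eval a = 0 ∨ Q.eval a = 0) := by
    intro a
    rw [hRt, Finset.mem_union, Multiset.mem_toFinset, Multiset.mem_toFinset,
      Polynomial.mem_roots hP, Polynomial.mem_roots hQ]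
    rfl
  have hA : ∀ ε : ℝ, 0 < ε → ∀ᶠ s in (atTop : Filter ℝ), ∃ a ∈ Rt, dist (x s) a < ε := by
    intro ε hε
    by_contra hcon
    have hfreq : ∃ᶠ s in (atTop : Filter ℝ),
        x s ∈ closedBall (0 : ℂ) R \ ⋃ a ∈ Rt, ball a ε := by
      have h1 : ∃ᶠ s in (atTop : Filter ℝ), ¬ ∃ a ∈ Rt, dist (x s) a < ε := Filter.not_eventually.1 hcon
      refine (h1.and_eventually (eventually_ge_atTop (0 : ℝ))).mono ?_
      rintro s ⟨hs1, hs2⟩
      refine ⟨by rw [mem_closedBall_zero_iff]; exact hR s hs2, ?_⟩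
      intro hmem'
      simp only [Set.mem_iUnion, mem_ball] at hmem'
      obtain ⟨a, ha, hd⟩ := hmem'
      exact hs1 ⟨a, ha, hd⟩
    have hK : IsCompact (closedBall (0 : ℂ) R \ ⋃ a ∈ Rt, ball a ε) :=
      (isCompact_closedBall _ _).diff (isOpen_biUnion fun a _ => isOpen_ball)
    obtain ⟨p, hpK, hp⟩ := hK.exists_mapClusterPt_of_frequently hfreq
    have hreg : Reg P Q p := by
      have hnot : p ∉ Rt := by
        intro hpR
        exact hpK.2 (Set.mem_biUnion hpR (mem_ball_self hε))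
      rw [hmem, not_or] at hnot
      exact hnot
    obtain ⟨W, hW, S0, hS0⟩ := hleave p hreg
    have h2 : ∃ᶠ s in (atTop : Filter ℝ), x s ∈ W := hp.frequently hW
    exact h2 ((eventually_ge_atTop S0).mono fun s hs => hS0 s hs)
  obtain ⟨ε0, hε0, hsep⟩ : ∃ ε0 : ℝ, 0 < ε0 ∧ ∀ p ∈ Rt.offDiag, 2 * ε0 < dist p.1 p.2 := by
    have h1 : ∀ᶠ ε in 𝓝[>] (0 : ℝ), ∀ p ∈ Rt.offDiag, 2 * ε < dist p.1 p.2 := by
      rw [Filter.eventually_all_finset]
      intro p hp
      rw [Finset.mem_offDiag] at hp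
      have hd : 0 < dist p.1 p.2 := dist_pos.2 hp.2.2
      have ht : Tendsto (fun ε : ℝ => 2 * ε) (𝓝[>] (0 : ℝ)) (𝓝 (2 * 0)) :=
        ((continuous_const.mul continuous_id).tendsto (0 : ℝ)).mono_left nhdsWithin_le_nhds
      rw [mul_zero] at ht
      exact ht.eventually (gt_mem_nhds hd)
    obtain ⟨ε, h2, h3⟩ := (h1.and self_mem_nhdsWithin).exists
    exact ⟨ε, h3, h2⟩
  have hsep' : ∀ a ∈ Rt, ∀ b ∈ Rt, ∀ z : ℂ, dist z a < ε0 → dist z b < ε0 → a = b := by
    intro a ha b hb z hza hzb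
    by_contra hab
    have h1 := hsep (a, b) (Finset.mem_offDiag.2 ⟨ha, hb, hab⟩)
    have h2 : dist a b ≤ dist z a + dist z b := dist_triangle_left a b z
    simp only at h1
    linarith
  obtain ⟨S, hS⟩ := ((hA ε0 hε0).and (eventually_ge_atTop (0 : ℝ))).exists_forall_of_atTop
  obtain ⟨a0, ha0, hd0⟩ := (hS S le_rfl).1
  have hstay : x '' Ici S ⊆ ball a0 ε0 := by
    have hpre : IsPreconnected (x '' Ici S) := by
      refine isPreconnected_Ici.image x ?_
      intro s hs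
      exact (hx s (hS s hs).2).continuousAt.continuousWithinAt
    refine hpre.subset_left_of_subset_union (v := ⋃ b ∈ Rt.erase a0, ball b ε0) isOpen_ball
      (isOpen_biUnion fun b _ => isOpen_ball) ?_ ?_ ?_
    · rw [Set.disjoint_left]
      intro z hz1 hz2
      simp only [Set.mem_iUnion, mem_ball, Finset.mem_erase] at hz1 hz2
      obtain ⟨b, ⟨hb1, hb2⟩, hb3⟩ := hz2
      exact hb1 (hsep' b hb2 a0 ha0 z hb3 hz1)
    · rintro _ ⟨s, hs, rfl⟩
      obtain ⟨b, hb, hd⟩ := (hS s hs).1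
      by_cases hba : b = a0
      · left; rw [← hba]; exact hd
      · right
        exact Set.mem_biUnion (Finset.mem_coe.2 (Finset.mem_erase.2 ⟨hba, hb⟩)) hd
    · exact ⟨x S, ⟨S, self_mem_Ici, rfl⟩, hd0⟩
  refine ⟨a0, (hmem a0).1 ha0, ?_⟩
  rw [Metric.tendsto_nhds]
  intro ε hε
  filter_upwards [hA (min ε ε0) (lt_min hε hε0), eventually_ge_atTop S] with s hs1 hs2
  obtain ⟨b, hb, hd⟩ := hs1
  have h1 : dist (x s) a0 < ε0 := hstay ⟨s, hs2, rfl⟩
  have h2 : b = a0 := hsep' b hb a0 ha0 (x s) (hd.trans_le (min_le_right _ _)) h1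
  rw [← h2]
  exact hd.trans_le (min_le_left _ _)

end Pool.Agent.H79.Eul
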