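import Pool.Agent.H79.Eul.Defs

set_option autoImplicit false

open Filter Topology Polynomial Metric Set

namespace Pool.Agent.H79.Eul

open Pool.Agent.H44.Fatou Pool.Agent.H32.BT

/-
PROOF of global_sol. F is Lipschitz (ContDiff.lipschitzWith_of_hasCompactSupport) and bounded, say
‖F‖ ≤ L (HasCompactSupport, Continuous). For every T > 0 the structure IsPicardLindelof holds for
the autonomous field on [-T, T], centre x0, radius a = L T, r = 0 (IsPicardLindelof.of_time_independent),
so IsPicardLindelof.exists_eq_forall_mem_Icc_hasDerivWithinAt₀ gives a solution on Icc (-T) T, which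
has a two-sided derivative on Ioo (-T) T. By ODE_solution_unique_of_mem_Ioo two such solutions
agree on the smaller interval. Put x s = (solution for T = |s| + 1) s. Near a point s0 the function x
agrees with the solution for T = |s0| + 2.
-/

/-- global solutions of a compactly supported autonomous differential equation -/
theorem global_sol (F : ℂ → ℂ) (hF : ContDiff ℝ 1 F) (hc : HasCompactSupport F) (x0 : ℂ) :
    ∃ x : ℝ → ℂ, x 0 = x0 ∧ ∀ s, HasDerivAt x (F (x s)) s := by
  obtain ⟨K, hK⟩ := ContDiff.lipschitzWith_of_hasCompactSupport hc hF one_ne_zero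
  obtain ⟨C, hC⟩ := hF.continuous.bounded_above_of_compact_support hc
  set L : NNReal := Real.toNNReal C with hLdef
  have hL : ∀ z, ‖F z‖ ≤ L := fun z => (hC z).trans (Real.le_coe_toNNReal C)
  have key : ∀ T : ℝ, 0 < T → ∃ x : ℝ → ℂ, x 0 = x0 ∧
      ∀ s ∈ Ioo (-T) T, HasDerivAt x (F (x s)) s := by
    intro T hT
    have h0 : (0 : ℝ) ∈ Icc (-T) T := ⟨by linarith, by linarith⟩
    have hp : IsPicardLindelof (fun _ => F) (⟨0, h0⟩ : Icc (-T) T) x0 (L * Real.toNNReal T) 0 L K := by
      refine IsPicardLindelof.of_time_independent (fun z _ => hL z) hK.lipschitzOnWith ?_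
      have hmax : max (T - (0 : ℝ)) ((0 : ℝ) - -T) = T := by simp
      rw [hmax, NNReal.coe_mul, NNReal.coe_zero, sub_zero, Real.coe_toNNReal T hT.le]
    obtain ⟨α, h1, h2⟩ := hp.exists_eq_forall_mem_Icc_hasDerivWithinAt₀
    exact ⟨α, h1, fun s hs => (h2 s (Ioo_subset_Icc_self hs)).hasDerivAt (Icc_mem_nhds hs.1 hs.2)⟩
  choose! sol hs0 hsd using key
  have agree : ∀ T T' : ℝ, 0 < T → T ≤ T' → ∀ s ∈ Ioo (-T) T, sol T s = sol T' s := by
    intro T T' hT hTT' s hs
    have h0 : (0 : ℝ) ∈ Ioo (-T) T := ⟨by linarith, by linarith⟩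
    exact ODE_solution_unique_of_mem_Ioo (v := fun _ => F) (s := fun _ => univ) (K := K)
      (fun t _ => hK.lipschitzOnWith) h0
      (fun t ht => ⟨hsd T hT t ht, mem_univ _⟩)
      (fun t ht => ⟨hsd T' (hT.trans_le hTT') t ⟨by linarith [ht.1], by linarith [ht.2]⟩,
        mem_univ _⟩)
      (by rw [hs0 T hT, hs0 T' (hT.trans_le hTT')]) hs
  refine ⟨fun s => sol (|s| + 1) s, ?_, ?_⟩
  · exact hs0 _ (by positivity)
  · intro s
    have hmem : s ∈ Ioo (-(|s| + 2)) (|s| + 2) :=
      ⟨by linarith [neg_abs_le s], by linarith [le_abs_self s]⟩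
    have hd := hsd (|s| + 2) (by positivity) s hmem
    have heq : (fun t => sol (|t| + 1) t) =ᶠ[𝓝 s] sol (|s| + 2) := by
      have hcont : ContinuousAt (fun t : ℝ => |t|) s := continuous_abs.continuousAt
      have hev : ∀ᶠ t in 𝓝 s, |t| < |s| + 1 :=
        hcont.eventually (gt_mem_nhds (lt_add_one |s|))
      filter_upwards [hev] with t ht
      exact agree _ _ (by positivity) (by linarith) t
        ⟨by linarith [neg_abs_le t], by linarith [le_abs_self t]⟩
    have hval : sol (|s| + 1) s = sol (|s| + 2) s := heq.self_of_nhds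
    have := hd.congr_of_eventuallyEq heq
    show HasDerivAt (fun s => sol (|s| + 1) s) (F (sol (|s| + 1) s)) s
    rw [hval]
    exact this

end Pool.Agent.H79.Eul
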