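import Pool.Agent.H79.Eul.OrbUnique
import Pool.Agent.H79.Eul.GlobalSol

set_option autoImplicit false

open Filter Topology Polynomial Metric Set

namespace Pool.Agent.H79.Eul

open Pool.Agent.H44.Fatou Pool.Agent.H32.BT

/-
PROOF of inward: as z → ∞, P z / Q z / z → lc P / lc Q =: κ with Re κ < 0 (Q ≠ 0 since κ ≠ 0), and
Xf P Q z * conj z = |Q z|^2 |z|^2 (P z / Q z / z), so its real part is negative for |z| large.
PROOF of exists_orb: let R0 be from inward and R = max R0 ‖x0‖. Take a smooth bump function χ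
(ContDiffBump at 0 with inner radius R + 1 and outer radius R + 2; real valued, between 0 and 1) and
F z = χ z • Xf P Q z, a compactly supported C^1 field (real sense). Let x be the solution of
global_sol. d/ds ‖x‖^2 = 2 Re (F (x) conj x) = 2 χ Re (Xf conj x) ≤ 0 whenever ‖x s‖ ≥ R0; so
‖x s‖ ≤ R for all s ≥ 0 (if ‖x s1‖ > R let s2 be the last time before s1 with ‖x‖ ≤ R; on [s2, s1] the
norm squared is antitone, contradiction). So χ = 1 along x for s ≥ 0, and x is an orbit.
Regularity: orb_reg.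
-/

theorem inward {P Q : Polynomial ℂ} (hdeg : P.natDegree = Q.natDegree + 1)
    (hrep : (P.leadingCoeff / Q.leadingCoeff).re < 0) :
    ∃ R0 : ℝ, 0 < R0 ∧ ∀ z : ℂ, R0 ≤ ‖z‖ → (Xf P Q z * (starRingEnd ℂ) z).re < 0 := by
  have hQ0 : Q ≠ 0 := by
    rintro rfl
    simp at hrep
  have hlQ : Q.leadingCoeff ≠ 0 := leadingCoeff_ne_zero.mpr hQ0
  have key : ∀ z : ℂ, z ≠ 0 → ∀ f : Polynomial ℂ,
      f.eval z = (reverse f).eval z⁻¹ * z ^ f.natDegree := by
    intro z hz f
    let _ : Invertible z := invertibleOfNonzero hz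
    have h := eval₂_reverse_mul_pow (RingHom.id ℂ) z f
    rw [invOf_eq_inv] at h
    simpa [eval₂_id] using h.symm
  set f : ℂ → ℝ := fun w =>
    ((reverse P).eval w * (starRingEnd ℂ) ((reverse Q).eval w)).re with hf
  have hfc : Continuous f := by
    have h1 : Continuous fun w : ℂ => (reverse P).eval w := (reverse P).continuous
    have h2 : Continuous fun w : ℂ => (reverse Q).eval w := (reverse Q).continuous
    exact Complex.continuous_re.comp (h1.mul (Complex.continuous_conj.comp h2))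
  have hf0 : f 0 < 0 := by
    have e1 : (reverse P).eval 0 = P.leadingCoeff := by
      rw [← coeff_zero_eq_eval_zero, coeff_zero_reverse]
    have e2 : (reverse Q).eval 0 = Q.leadingCoeff := by
      rw [← coeff_zero_eq_eval_zero, coeff_zero_reverse]
    have e3 : P.leadingCoeff * (starRingEnd ℂ) Q.leadingCoeff =
        ((Complex.normSq Q.leadingCoeff : ℝ) : ℂ) * (P.leadingCoeff / Q.leadingCoeff) := by
      rw [← Complex.mul_conj]
      field_simp
    show ((reverse P).eval 0 * (starRingEnd ℂ) ((reverse Q).eval 0)).re < 0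
    rw [e1, e2, e3, Complex.re_ofReal_mul]
    exact mul_neg_of_pos_of_neg (Complex.normSq_pos.mpr hlQ) hrep
  obtain ⟨δ, hδ, hball⟩ := Metric.eventually_nhds_iff.mp
    (hfc.continuousAt.eventually (gt_mem_nhds hf0))
  refine ⟨2 / δ, by positivity, fun z hz => ?_⟩
  have hz0 : 0 < ‖z‖ := lt_of_lt_of_le (by positivity) hz
  have hzne : z ≠ 0 := norm_pos_iff.mp hz0
  have hw : dist z⁻¹ 0 < δ := by
    rw [dist_zero_right, norm_inv]
    rw [inv_lt_comm₀ hz0 hδ]
    calc δ⁻¹ < 2 / δ := by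
          rw [div_eq_mul_inv]
          have : 0 < δ⁻¹ := inv_pos.mpr hδ
          linarith
      _ ≤ ‖z‖ := hz
  have hneg : f z⁻¹ < 0 := hball hw
  have e : Xf P Q z * (starRingEnd ℂ) z =
      ((Complex.normSq (z ^ P.natDegree) : ℝ) : ℂ) *
        ((reverse P).eval z⁻¹ * (starRingEnd ℂ) ((reverse Q).eval z⁻¹)) := by
    unfold Xf
    rw [key z hzne P, key z hzne Q, ← Complex.mul_conj, hdeg]
    simp only [map_mul, map_pow]
    ring
  rw [e, Complex.re_ofReal_mul]
  exact mul_neg_of_pos_of_neg (Complex.normSq_pos.mpr (pow_ne_zero _ hzne)) hneg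

theorem exists_orb_contDiff (P Q : Polynomial ℂ) : ContDiff ℝ 1 (Xf P Q) := by
  have h : ∀ f : Polynomial ℂ, ContDiff ℝ 1 fun z : ℂ => f.eval z := by
    intro f
    have h1 : ContDiff ℂ 1 fun z : ℂ => f.eval z := f.differentiable.contDiff
    exact h1.restrict_scalars ℝ
  exact (h P).mul (Complex.conjCLE.contDiff.comp (h Q))

theorem exists_orb {P Q : Polynomial ℂ} (hdeg : P.natDegree = Q.natDegree + 1)
    (hrep : (P.leadingCoeff / Q.leadingCoeff).re < 0) {x0 : ℂ} (h0 : Reg P Q x0) :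
    ∃ x : ℝ → ℂ, x 0 = x0 ∧ IsOrb P Q x ∧ (∀ s : ℝ, 0 ≤ s → Reg P Q (x s)) ∧
      ∃ R : ℝ, ∀ s : ℝ, 0 ≤ s → ‖x s‖ ≤ R := by
  obtain ⟨R0, hR0, hin⟩ := inward hdeg hrep
  set R : ℝ := max R0 ‖x0‖ with hR
  have hRpos : 0 < R := lt_of_lt_of_le hR0 (le_max_left _ _)
  let χ : ContDiffBump (0 : ℂ) := ⟨R + 1, R + 2, by linarith, by linarith⟩
  set F : ℂ → ℂ := fun z => χ z • Xf P Q z with hF
  have hFc : ContDiff ℝ 1 F := χ.contDiff.smul (exists_orb_contDiff P Q)
  have hFs : HasCompactSupport F := χ.hasCompactSupport.smul_right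
  obtain ⟨x, hx0, hx⟩ := global_sol F hFc hFs x0
  have hxc : Continuous x := continuous_iff_continuousAt.mpr fun s => (hx s).continuousAt
  have hN : ∀ s, HasDerivAt (fun t => ‖x t‖ ^ 2) (2 * (χ (x s) *
      (Xf P Q (x s) * (starRingEnd ℂ) (x s)).re)) s := by
    intro s
    have h := (hx s).norm_sq
    have e : (inner ℝ (x s) (F (x s)) : ℝ) =
        χ (x s) * (Xf P Q (x s) * (starRingEnd ℂ) (x s)).re := by
      rw [Complex.inner, hF]
      simp only [Complex.real_smul]
      rw [← Complex.re_ofReal_mul]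
      congr 1
      ring
    rw [e] at h
    exact h
  have hbound : ∀ s : ℝ, 0 ≤ s → ‖x s‖ ≤ R := by
    intro s1 hs1
    by_contra hcon
    push Not at hcon
    have hK : IsCompact (Icc (0 : ℝ) s1 ∩ {s | ‖x s‖ ≤ R}) :=
      isCompact_Icc.inter_right (isClosed_le hxc.norm continuous_const)
    have hne : (Icc (0 : ℝ) s1 ∩ {s | ‖x s‖ ≤ R}).Nonempty :=
      ⟨0, ⟨le_refl _, hs1⟩, by
        show ‖x 0‖ ≤ R
        rw [hx0]
        exact le_max_right _ _⟩
    obtain ⟨s2, ⟨hs2, hs2R⟩, hmax⟩ := hK.exists_isGreatest hne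
    have hs2R' : ‖x s2‖ ≤ R := hs2R
    have hlt : ∀ s ∈ Ioo s2 s1, R < ‖x s‖ := by
      intro s hs
      by_contra hc
      push Not at hc
      have hh : s ≤ s2 := hmax ⟨⟨hs2.1.trans hs.1.le, hs.2.le⟩, hc⟩
      exact absurd hh (not_le.mpr hs.1)
    have hanti : AntitoneOn (fun t => ‖x t‖ ^ 2) (Icc s2 s1) := by
      apply antitoneOn_of_deriv_nonpos (convex_Icc _ _)
      · exact (hxc.norm.pow 2).continuousOn
      · intro s _
        exact (hN s).differentiableAt.differentiableWithinAt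
      · intro s hs
        rw [interior_Icc] at hs
        rw [(hN s).deriv]
        have h1 : (Xf P Q (x s) * (starRingEnd ℂ) (x s)).re < 0 :=
          hin _ ((le_max_left _ _).trans (hlt s hs).le)
        have h2 : 0 ≤ χ (x s) := χ.nonneg
        nlinarith [mul_nonneg h2 (neg_nonneg.mpr h1.le)]
    have hfin := hanti (left_mem_Icc.mpr hs2.2) (right_mem_Icc.mpr hs2.2) hs2.2
    have hfin' : ‖x s1‖ ^ 2 ≤ ‖x s2‖ ^ 2 := hfin
    have h3 : ‖x s1‖ ≤ ‖x s2‖ := by
      exact le_of_sq_le_sq hfin' (norm_nonneg _)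
    linarith
  have horb : IsOrb P Q x := by
    intro s hs
    have h := hx s
    have hone : χ (x s) = 1 := by
      apply χ.one_of_mem_closedBall
      rw [mem_closedBall, dist_zero_right]
      show ‖x s‖ ≤ R + 1
      linarith [hbound s hs]
    have e : F (x s) = Xf P Q (x s) := by
      show χ (x s) • Xf P Q (x s) = Xf P Q (x s)
      rw [hone, one_smul]
    rw [e] at h
    exact h
  refine ⟨x, hx0, horb, orb_reg horb (by rw [hx0]; exact h0), R, hbound⟩

end Pool.Agent.H79.Eul
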