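import Pool.Agent.H79.Eul.OrbUnique

set_option autoImplicit false

open Filter Topology Polynomial Metric Set

namespace Pool.Agent.H79.Eul

open Pool.Agent.H44.Fatou Pool.Agent.H32.BT

/-
PROOF of not_source. P z = (z - a) (P' a + o(1)) as z → a, so
Xf P Q z * conj (z - a) = |z - a|^2 (P' a conj (Q a) + o(1)) = |z - a|^2 |Q a|^2 (P' a / Q a + o(1)),
with positive real part for z near a, z ≠ a. Let S be such that x s is in this
neighbourhood for s ≥ S. Then d/ds ‖x s - a‖^2 = 2 Re (Xf (x s) conj (x s - a)) > 0 for s ≥ S (x s ≠ a as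
P (x s) ≠ 0), so ‖x s - a‖^2 ≥ ‖x S - a‖^2 > 0 for s ≥ S, contradicting x → a.
-/

theorem not_source {P Q : Polynomial ℂ} {a : ℂ} (hP : P.eval a = 0) (hQ : Q.eval a ≠ 0)
    (hpos : 0 < ((derivative P).eval a / Q.eval a).re) {x : ℝ → ℂ} (hx : IsOrb P Q x)
    (hreg : ∀ s : ℝ, 0 ≤ s → Reg P Q (x s)) (hlim : Tendsto x atTop (𝓝 a)) : False := by
  obtain ⟨P1, hP1⟩ := dvd_iff_isRoot.mpr (show P.IsRoot a from hP)
  have hd : (derivative P).eval a = P1.eval a := by
    rw [hP1]
    simp
  have hev : ∀ z : ℂ, P.eval z = (z - a) * P1.eval z := by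
    intro z
    rw [hP1]
    simp
  -- the real part of `P1 conj Q` is positive at `a`
  have hpos' : 0 < (P1.eval a * (starRingEnd ℂ) (Q.eval a)).re := by
    rw [hd] at hpos
    have h1 : P1.eval a * (starRingEnd ℂ) (Q.eval a) =
        (P1.eval a / Q.eval a) * ((Complex.normSq (Q.eval a) : ℝ) : ℂ) := by
      rw [Complex.normSq_eq_conj_mul_self]
      field_simp
    rw [h1, Complex.re_mul_ofReal]
    exact mul_pos hpos (Complex.normSq_pos.mpr hQ)
  have hcont : ContinuousAt (fun z : ℂ => (P1.eval z * (starRingEnd ℂ) (Q.eval z)).re) a := by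
    apply Continuous.continuousAt
    exact Complex.continuous_re.comp
      (P1.continuous.mul (Complex.continuous_conj.comp Q.continuous))
  have hnear : ∀ᶠ z in 𝓝 a, 0 < (P1.eval z * (starRingEnd ℂ) (Q.eval z)).re :=
    hcont.eventually (lt_mem_nhds hpos')
  obtain ⟨S0, hS0⟩ := (hlim.eventually hnear).exists_forall_of_atTop
  obtain ⟨S, hS⟩ : ∃ S : ℝ, S = max S0 0 := ⟨_, rfl⟩
  have hSS : S0 ≤ S := hS ▸ le_max_left _ _
  have hS1 : 0 ≤ S := hS ▸ le_max_right _ _
  have hder : ∀ s : ℝ, S ≤ s → HasDerivAt (fun s => ‖x s - a‖ ^ 2)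
      (2 * inner ℝ (x s - a) (Xf P Q (x s))) s := by
    intro s hs
    exact ((hx s (hS1.trans hs)).sub_const a).norm_sq
  have hin : ∀ s : ℝ, S ≤ s → 0 ≤ 2 * inner ℝ (x s - a) (Xf P Q (x s)) := by
    intro s hs
    have h1 := hS0 s (hSS.trans hs)
    have h2 : inner ℝ (x s - a) (Xf P Q (x s)) =
        Complex.normSq (x s - a) * (P1.eval (x s) * (starRingEnd ℂ) (Q.eval (x s))).re := by
      rw [Complex.inner, Xf, hev]
      have h3 : (x s - a) * P1.eval (x s) * (starRingEnd ℂ) (Q.eval (x s)) *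
          (starRingEnd ℂ) (x s - a) =
          ((Complex.normSq (x s - a) : ℝ) : ℂ) *
            (P1.eval (x s) * (starRingEnd ℂ) (Q.eval (x s))) := by
        rw [Complex.normSq_eq_conj_mul_self]
        ring
      rw [h3, Complex.re_ofReal_mul]
    rw [h2]
    exact mul_nonneg (by norm_num) (mul_nonneg (Complex.normSq_nonneg _) h1.le)
  have hmono : MonotoneOn (fun s => ‖x s - a‖ ^ 2) (Ici S) := by
    apply monotoneOn_of_deriv_nonneg (convex_Ici S)
    · intro s hs
      exact (hder s hs).continuousAt.continuousWithinAt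
    · intro s hs
      rw [interior_Ici] at hs
      exact (hder s (le_of_lt hs)).differentiableAt.differentiableWithinAt
    · intro s hs
      rw [interior_Ici] at hs
      rw [(hder s (le_of_lt hs)).deriv]
      exact hin s (le_of_lt hs)
  have hlim2 : Tendsto (fun s => ‖x s - a‖ ^ 2) atTop (𝓝 0) := by
    have h1 : Tendsto (fun s => x s - a) atTop (𝓝 0) := by
      have := hlim.sub_const a
      rwa [sub_self] at this
    have h2 := (h1.norm).pow 2
    simpa using h2
  have hge : ‖x S - a‖ ^ 2 ≤ 0 := by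
    apply ge_of_tendsto hlim2
    filter_upwards [eventually_ge_atTop S] with s hs
    exact hmono self_mem_Ici hs hs
  have h0 : x S - a = 0 := by
    have h1 : ‖x S - a‖ ^ 2 = 0 := le_antisymm hge (by positivity)
    exact norm_eq_zero.mp (pow_eq_zero_iff (two_ne_zero) |>.mp h1)
  have h1 := (hreg S hS1).1
  apply h1
  rw [hev, h0, zero_mul]

end Pool.Agent.H79.Eul
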