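import Pool.Agent.H79.Eul.Defs

set_option autoImplicit false

open Filter Topology Polynomial Metric Set

namespace Pool.Agent.H79.Eul

open Pool.Agent.H44.Fatou Pool.Agent.H32.BT

/-
PROOF of lift_exp: as in wind_int, the function exp (- L s) (x s - a), L s = ∫ u in 0..s, x' u/(x u - a), has
derivative 0 on (0, ∞) and is continuous on [0, ∞) (the integrand is continuous on Ici 0;
intervalIntegral.integral_hasDerivAt_right at s > 0, continuousOn_primitive_interval or
integral_hasDerivWithinAt_right at 0), so it is constant.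
PROOF of lift_conv. For s0 large and s ≥ s0 the quotient r s = (x s - a)/(x s0 - a) = exp (L s - L s0) stays in
ball 1 1 (slitPlane), as x s - a → b - a ≠ 0. The function L s - L s0 - log (r s) is continuous on [s0, ∞), has
exponential 1, so its values are in 2 π I Z, and it vanishes at s0; the half line is preconnected, so it
is 0. Hence L s = L s0 + log (r s) → L s0 + log ((b - a)/(x s0 - a)) =: l and exp l = (b - a)/(x 0 - a) by
continuity of exp and lift_exp.
-/

/-- The logarithmic derivative is continuous on the half line. -/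
theorem lift_cont {x x' : ℝ → ℂ} (hx : ∀ s : ℝ, 0 ≤ s → HasDerivAt x (x' s) s)
    (hc : ContinuousOn x' (Ici 0)) {a : ℂ} (hne : ∀ s : ℝ, 0 ≤ s → x s ≠ a) :
    ContinuousOn (fun u : ℝ => x' u / (x u - a)) (Ici 0) := by
  apply hc.div
  · intro s hs
    exact ((hx s hs).continuousAt.sub continuousAt_const).continuousWithinAt
  · intro s hs
    exact sub_ne_zero.mpr (hne s hs)

/-- Right derivative of the logarithm. -/
theorem lift_deriv {x x' : ℝ → ℂ} (hx : ∀ s : ℝ, 0 ≤ s → HasDerivAt x (x' s) s)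
    (hc : ContinuousOn x' (Ici 0)) {a : ℂ} (hne : ∀ s : ℝ, 0 ≤ s → x s ≠ a) {s : ℝ}
    (hs : 0 ≤ s) : HasDerivWithinAt (fun s : ℝ => ∫ u in (0 : ℝ)..s, x' u / (x u - a))
      (x' s / (x s - a)) (Ici s) s := by
  have hg := lift_cont hx hc hne
  apply intervalIntegral.integral_hasDerivWithinAt_right (t := Ioi s)
  · apply ContinuousOn.intervalIntegrable
    apply hg.mono
    intro u hu
    rw [uIcc_of_le hs] at hu
    exact hu.1
  · apply ContinuousOn.stronglyMeasurableAtFilter_nhdsWithin _ measurableSet_Ioi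
    apply hg.mono
    intro u hu
    exact hs.trans (le_of_lt hu)
  · apply (hg s hs).mono
    intro u hu
    exact hs.trans (le_of_lt hu)

/-- Continuity of the logarithm. -/
theorem lift_contOn {x x' : ℝ → ℂ} (hx : ∀ s : ℝ, 0 ≤ s → HasDerivAt x (x' s) s)
    (hc : ContinuousOn x' (Ici 0)) {a : ℂ} (hne : ∀ s : ℝ, 0 ≤ s → x s ≠ a) {s : ℝ}
    (hs : 0 ≤ s) : ContinuousOn (fun s : ℝ => ∫ u in (0 : ℝ)..s, x' u / (x u - a)) (Icc 0 s) := by
  have hg := lift_cont hx hc hne
  rw [← uIcc_of_le hs]
  apply intervalIntegral.continuousOn_primitive_interval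
  apply ContinuousOn.integrableOn_compact isCompact_uIcc
  apply hg.mono
  intro u hu
  rw [uIcc_of_le hs] at hu
  exact hu.1

theorem lift_exp {x x' : ℝ → ℂ} (hx : ∀ s : ℝ, 0 ≤ s → HasDerivAt x (x' s) s)
    (hc : ContinuousOn x' (Ici 0)) {a : ℂ} (hne : ∀ s : ℝ, 0 ≤ s → x s ≠ a) {s : ℝ}
    (hs : 0 ≤ s) : Complex.exp (∫ u in (0 : ℝ)..s, x' u / (x u - a)) = (x s - a) / (x 0 - a) := by
  have hconst := constant_of_has_deriv_right_zero (a := 0) (b := s)
    (f := fun t : ℝ => Complex.exp (-(∫ u in (0 : ℝ)..t, x' u / (x u - a))) * (x t - a))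
    (by
      apply ContinuousOn.mul
      · exact Complex.continuous_exp.comp_continuousOn (lift_contOn hx hc hne hs).neg
      · intro t ht
        exact ((hx t ht.1).continuousAt.sub continuousAt_const).continuousWithinAt)
    (by
      intro t ht
      have h1 := (lift_deriv hx hc hne ht.1).neg.cexp
      have h2 := ((hx t ht.1).sub_const a).hasDerivWithinAt (s := Ici t)
      have h3 := h1.mul h2
      have hz : x t - a ≠ 0 := sub_ne_zero.mpr (hne t ht.1)
      refine h3.congr_deriv ?_
      simp only [Pi.neg_apply]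
      field_simp
      ring)
    s (right_mem_Icc.mpr hs)
  simp only [intervalIntegral.integral_same, neg_zero, Complex.exp_zero, one_mul] at hconst
  have hz0 : x 0 - a ≠ 0 := sub_ne_zero.mpr (hne 0 le_rfl)
  rw [eq_div_iff hz0, ← hconst, ← mul_assoc, ← Complex.exp_add, add_neg_cancel,
    Complex.exp_zero, one_mul]

theorem lift_conv {x x' : ℝ → ℂ} (hx : ∀ s : ℝ, 0 ≤ s → HasDerivAt x (x' s) s)
    (hc : ContinuousOn x' (Ici 0)) {a b : ℂ} (hne : ∀ s : ℝ, 0 ≤ s → x s ≠ a) (hb : b ≠ a)
    (hlim : Tendsto x atTop (𝓝 b)) :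
    ∃ l : ℂ, Tendsto (fun s : ℝ => ∫ u in (0 : ℝ)..s, x' u / (x u - a)) atTop (𝓝 l) ∧
      Complex.exp l = (b - a) / (x 0 - a) := by
  have hba : 0 < ‖b - a‖ := norm_pos_iff.mpr (sub_ne_zero.mpr hb)
  obtain ⟨s1, hs1⟩ : ∃ s1 : ℝ, ∀ s ≥ s1, ‖x s - b‖ < ‖b - a‖ / 4 := by
    have := (Metric.tendsto_atTop.mp hlim) (‖b - a‖ / 4) (by positivity)
    obtain ⟨N, hN⟩ := this
    exact ⟨N, fun s hs => by simpa [dist_eq_norm] using hN s hs⟩
  set s0 : ℝ := max s1 0 with hs0
  have hs00 : 0 ≤ s0 := le_max_right _ _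
  have hnear : ∀ s, s0 ≤ s → ‖x s - b‖ < ‖b - a‖ / 4 := fun s hs =>
    hs1 s (le_trans (le_max_left _ _) hs)
  have hz0 : x s0 - a ≠ 0 := sub_ne_zero.mpr (hne s0 hs00)
  have hlow : 3 / 4 * ‖b - a‖ < ‖x s0 - a‖ := by
    have h1 : ‖b - a‖ ≤ ‖x s0 - a‖ + ‖x s0 - b‖ := by
      have : b - a = (x s0 - a) - (x s0 - b) := by ring
      calc ‖b - a‖ = ‖(x s0 - a) - (x s0 - b)‖ := by rw [← this]
        _ ≤ _ := norm_sub_le _ _
    have h2 := hnear s0 le_rfl
    linarith
  have hslit : ∀ z : ℂ, ‖z - b‖ < ‖b - a‖ / 4 → (z - a) / (x s0 - a) ∈ Complex.slitPlane := by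
    intro z hz
    have h1 : (z - a) / (x s0 - a) = 1 + (z - x s0) / (x s0 - a) := by
      field_simp
      ring
    rw [h1]
    apply Complex.mem_slitPlane_of_norm_lt_one
    rw [norm_div, div_lt_one (norm_pos_iff.mpr hz0)]
    have h2 : ‖z - x s0‖ ≤ ‖z - b‖ + ‖x s0 - b‖ := by
      have : z - x s0 = (z - b) - (x s0 - b) := by ring
      rw [this]
      exact norm_sub_le _ _
    have h3 := hnear s0 le_rfl
    linarith
  have hlog : ∀ s, s0 ≤ s → (∫ u in (0 : ℝ)..s, x' u / (x u - a)) =
      (∫ u in (0 : ℝ)..s0, x' u / (x u - a)) + Complex.log ((x s - a) / (x s0 - a)) := by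
    intro s hs
    have hconst := constant_of_has_deriv_right_zero (a := s0) (b := s)
      (f := fun t : ℝ => (∫ u in (0 : ℝ)..t, x' u / (x u - a)) -
        Complex.log ((x t - a) / (x s0 - a)))
      (by
        apply ContinuousOn.sub
        · exact (lift_contOn hx hc hne (hs00.trans hs)).mono (Icc_subset_Icc hs00 le_rfl)
        · intro t ht
          have h1 : ContinuousAt (fun t : ℝ => (x t - a) / (x s0 - a)) t :=
            ((hx t (hs00.trans ht.1)).continuousAt.sub continuousAt_const).div_const _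
          exact (h1.clog (hslit _ (hnear t ht.1))).continuousWithinAt)
      (by
        intro t ht
        have h1 := lift_deriv hx hc hne (hs00.trans ht.1)
        have h2 : HasDerivAt (fun t : ℝ => (x t - a) / (x s0 - a)) (x' t / (x s0 - a)) t :=
          ((hx t (hs00.trans ht.1)).sub_const a).div_const _
        have h3 := (h2.clog_real (hslit _ (hnear t ht.1))).hasDerivWithinAt (s := Ici t)
        have h4 := h1.sub h3
        have hz : x t - a ≠ 0 := sub_ne_zero.mpr (hne t (hs00.trans ht.1))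
        refine h4.congr_deriv ?_
        field_simp
        ring)
      s (right_mem_Icc.mpr hs)
    simp only [div_self hz0, Complex.log_one, sub_zero] at hconst
    rw [← hconst]
    ring
  refine ⟨(∫ u in (0 : ℝ)..s0, x' u / (x u - a)) + Complex.log ((b - a) / (x s0 - a)), ?_, ?_⟩
  · have h1 : Tendsto (fun s : ℝ => (∫ u in (0 : ℝ)..s0, x' u / (x u - a)) +
        Complex.log ((x s - a) / (x s0 - a))) atTop
        (𝓝 ((∫ u in (0 : ℝ)..s0, x' u / (x u - a)) + Complex.log ((b - a) / (x s0 - a)))) := by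
      apply Tendsto.const_add
      apply Tendsto.clog
      · exact (hlim.sub_const a).div_const _
      · apply hslit
        simpa using hba
    apply h1.congr'
    filter_upwards [eventually_ge_atTop s0] with s hs
    exact (hlog s hs).symm
  · rw [Complex.exp_add, lift_exp hx hc hne hs00, Complex.exp_log]
    · have hz1 : x 0 - a ≠ 0 := sub_ne_zero.mpr (hne 0 le_rfl)
      field_simp
    · exact div_ne_zero (sub_ne_zero.mpr hb) hz0

end Pool.Agent.H79.Eul
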