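import Pool.Agent.H79.Eul.Defs

set_option autoImplicit false

open Filter Topology Polynomial Metric Set

namespace Pool.Agent.H79.Eul

open Pool.Agent.H44.Fatou Pool.Agent.H32.BT

/-
PROOFS. P is squarefree (coprime with its derivative), so P = C lc * ∏_{a ∈ Z P} (X - C a)
(the roots have no duplicates: Polynomial.nodup_roots, separable; C_leadingCoeff_mul_prod_multiset_X_sub_C,
IsAlgClosed.card_roots / splits), #(Z P) = natDegree P, and P' (a) = lc * ∏_{b ∈ Z P, b ≠ a} (a - b).
As natDegree Q < #(Z P), Lagrange interpolation gives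
Q = ∑_a C (Q (a)) * Lagrange.basis (Z P) id a, i.e. Q = ∑_a C (Q(a) / P'(a)) * C lc * ∏_{b ≠ a} (X - C b)
(Lagrange.eq_interpolate_of_eval_eq or: the difference of the two sides has degree < #(Z P) and
vanishes on Z P). part_frac: evaluate at z and divide by P(z) = lc ∏ (z - a).
sum_res_zero: compare the coefficients of X^(natDegree P - 1): it is 0 in Q and
lc * ∑ Q(a)/P'(a) on the right (each ∏_{b ≠ a} (X - C b) is monic of degree natDegree P - 1).
res_ne_zero: trivial.
-/

theorem pf_roots {P : Polynomial ℂ} (hsq : IsCoprime P (derivative P)) :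
    (Z P).val = P.roots := by
  have h1 : P.roots.Nodup := nodup_roots hsq
  unfold Z
  rw [Multiset.toFinset_val]
  exact h1.dedup

theorem pf_card {P : Polynomial ℂ} (hsq : IsCoprime P (derivative P)) :
    (Z P).card = P.natDegree := by
  rw [Finset.card_def, pf_roots hsq]
  exact IsAlgClosed.card_roots_eq_natDegree

theorem pf_eq {P : Polynomial ℂ} (hsq : IsCoprime P (derivative P)) :
    P = C P.leadingCoeff * Lagrange.nodal (Z P) (id : ℂ → ℂ) := by
  have h1 := C_leadingCoeff_mul_prod_multiset_X_sub_C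
    (IsAlgClosed.card_roots_eq_natDegree (p := P))
  rw [← pf_roots hsq] at h1
  conv_lhs => rw [← h1]
  rfl

theorem pf_lc {P : Polynomial ℂ} (hsq : IsCoprime P (derivative P)) : P.leadingCoeff ≠ 0 := by
  intro h
  rw [leadingCoeff_eq_zero] at h
  rw [h, derivative_zero] at hsq
  obtain ⟨a, b, hab⟩ := hsq
  rw [mul_zero, mul_zero, add_zero] at hab
  exact zero_ne_one hab

theorem pf_der {P : Polynomial ℂ} (hsq : IsCoprime P (derivative P)) {a : ℂ} (ha : a ∈ Z P) :
    (derivative P).eval a = P.leadingCoeff * ∏ b ∈ (Z P).erase a, (a - b) := by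
  have h1 := pf_eq hsq
  have h2 : derivative P = C P.leadingCoeff * derivative (Lagrange.nodal (Z P) (id : ℂ → ℂ)) := by
    conv_lhs => rw [h1]
    rw [derivative_C_mul]
  have h3 := Lagrange.eval_nodal_derivative_eval_node_eq (s := Z P) (v := (id : ℂ → ℂ)) ha
  rw [Lagrange.eval_nodal] at h3
  rw [h2, eval_mul, eval_C]
  congr 1

theorem pf_deg {P Q : Polynomial ℂ} (hsq : IsCoprime P (derivative P))
    (hdeg : Q.natDegree < P.natDegree) : Q.degree < (Z P).card := by
  rw [pf_card hsq]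
  exact degree_le_natDegree.trans_lt (by exact_mod_cast hdeg)

theorem part_frac {P Q : Polynomial ℂ} (hsq : IsCoprime P (derivative P))
    (hdeg : Q.natDegree < P.natDegree) {z : ℂ} (hz : P.eval z ≠ 0) :
    Q.eval z / P.eval z = ∑ a ∈ Z P, res P Q a / (z - a) := by
  have hinj : Set.InjOn (id : ℂ → ℂ) (Z P : Set ℂ) := fun _ _ _ _ h => h
  have h1 := Lagrange.eq_interpolate hinj (pf_deg hsq hdeg)
  have hne : ∀ a ∈ Z P, z ≠ id a := by
    rintro a ha rfl
    apply hz
    rw [pf_eq hsq, eval_mul]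
    have h2 := Lagrange.eval_nodal_at_node (v := (id : ℂ → ℂ)) ha
    have h3 : eval z (Lagrange.nodal (Z P) (id : ℂ → ℂ)) = 0 := h2
    rw [h3, mul_zero]
  have h2 := Lagrange.eval_interpolate_not_at_node (fun a => eval (id a) Q) hne
  rw [← h1] at h2
  have h3 : P.eval z = P.leadingCoeff * (Lagrange.nodal (Z P) (id : ℂ → ℂ)).eval z := by
    conv_lhs => rw [pf_eq hsq]
    rw [eval_mul, eval_C]
  have h4 : (Lagrange.nodal (Z P) (id : ℂ → ℂ)).eval z ≠ 0 := by
    intro h5
    rw [h5, mul_zero] at h3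
    exact hz h3
  have hlc := pf_lc hsq
  rw [h2, h3, mul_comm P.leadingCoeff, mul_div_mul_left _ _ h4, Finset.sum_div]
  refine Finset.sum_congr rfl (fun a ha => ?_)
  have h5 : z - a ≠ 0 := sub_ne_zero.2 (hne a ha)
  unfold res
  rw [pf_der hsq ha, Lagrange.nodalWeight, Finset.prod_inv_distrib]
  simp only [id]
  rw [div_div, div_eq_mul_inv, div_eq_mul_inv, mul_inv, mul_inv]
  ring

theorem sum_res_zero {P Q : Polynomial ℂ} (hsq : IsCoprime P (derivative P))
    (hdeg : Q.natDegree + 2 ≤ P.natDegree) : ∑ a ∈ Z P, res P Q a = 0 := by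
  have hinj : Set.InjOn (id : ℂ → ℂ) (Z P : Set ℂ) := fun _ _ _ _ h => h
  have h1 := Lagrange.coeff_eq_sum hinj (pf_deg hsq (by omega : Q.natDegree < P.natDegree))
  rw [coeff_eq_zero_of_natDegree_lt (by rw [pf_card hsq]; omega)] at h1
  have h2 : ∑ a ∈ Z P, res P Q a =
      (∑ i ∈ Z P, eval (id i) Q / ∏ j ∈ (Z P).erase i, (id i - id j)) / P.leadingCoeff := by
    rw [Finset.sum_div]
    refine Finset.sum_congr rfl (fun a ha => ?_)
    unfold res
    rw [pf_der hsq ha, div_div, mul_comm]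
    rfl
  rw [h2, ← h1, zero_div]

theorem mem_Z {P : Polynomial ℂ} (hP : P ≠ 0) {a : ℂ} : a ∈ Z P ↔ P.eval a = 0 := by
  unfold Z
  rw [Multiset.mem_toFinset, mem_roots hP]
  rfl

end Pool.Agent.H79.Eul
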