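import Pool.Agent.H79.Eul.OrbUnique
import Pool.Agent.H79.Eul.PartFrac
import Pool.Agent.H79.Eul.Lift

set_option autoImplicit false

open Filter Topology Polynomial Metric Set

namespace Pool.Agent.H79.Eul

open Pool.Agent.H44.Fatou Pool.Agent.H32.BT

/-
PROOF of pole_conn. For a ∈ Z P, x s ≠ a (P (x s) ≠ 0) and b ≠ a (P b ≠ 0): lift_conv gives l a, the limit of
L_a s = ∫ u in 0..s, Xf (x u)/(x u - a), exp (l a) = (b - a)/(x 0 - a) (choose l). By part_frac
∑_a res a * L_a s = ∫_0^s Xf (x) (Q/P)(x) = ∫_0^s |Q (x u)|^2 du =: T s (for s ≥ 0), a real, monotone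
function of s with T 1 > 0. So ∑ res a * l a = lim T s is a real number t ≥ T 1 > 0 (closedness of the
reals in ℂ; ge_of_tendsto). This contradicts NoConn P Q (x 0) b.
-/

theorem pole_conn {P Q : Polynomial ℂ} (hsq : IsCoprime P (derivative P))
    (hdeg : Q.natDegree < P.natDegree) {b : ℂ} (hb : P.eval b ≠ 0) {x : ℝ → ℂ}
    (hx : IsOrb P Q x) (hreg : ∀ s : ℝ, 0 ≤ s → Reg P Q (x s)) (hlim : Tendsto x atTop (𝓝 b)) :
    ¬ NoConn P Q (x 0) b := by
  intro hno
  have hP0 : P ≠ 0 := by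
    rintro rfl
    exact hb (by simp)
  have hxc : ContinuousOn x (Ici 0) := orb_cont hx
  have hQc : ContinuousOn (fun u => Q.eval (x u)) (Ici 0) :=
    Q.continuous.comp_continuousOn hxc
  have hPc : ContinuousOn (fun u => P.eval (x u)) (Ici 0) :=
    P.continuous.comp_continuousOn hxc
  have hx'c : ContinuousOn (fun u => Xf P Q (x u)) (Ici 0) := by
    unfold Xf
    exact hPc.mul (Complex.continuous_conj.comp_continuousOn hQc)
  have hne : ∀ a ∈ Z P, ∀ s : ℝ, 0 ≤ s → x s ≠ a := by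
    intro a ha s hs e
    have h1 := (hreg s hs).1
    rw [e] at h1
    exact h1 ((mem_Z hP0).1 ha)
  have hbne : ∀ a ∈ Z P, b ≠ a := by
    intro a ha e
    rw [e] at hb
    exact hb ((mem_Z hP0).1 ha)
  have hex : ∀ a : ℂ, ∃ l : ℂ, a ∈ Z P →
      Tendsto (fun s : ℝ => ∫ u in (0 : ℝ)..s, Xf P Q (x u) / (x u - a)) atTop (𝓝 l) ∧
        Complex.exp l = (b - a) / (x 0 - a) := by
    intro a
    by_cases ha : a ∈ Z P
    · obtain ⟨l, hl⟩ := lift_conv (x' := fun u => Xf P Q (x u)) hx hx'c (hne a ha) (hbne a ha) hlim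
      exact ⟨l, fun _ => hl⟩
    · exact ⟨0, fun h => absurd h ha⟩
  choose l hl using hex
  -- the sum of the integrals
  have hcont : ∀ a ∈ Z P, ContinuousOn (fun u => Xf P Q (x u) / (x u - a)) (Ici 0) := by
    intro a ha
    exact hx'c.div (hxc.sub continuousOn_const) fun s hs => sub_ne_zero.2 (hne a ha s hs)
  have hsub : ∀ s t : ℝ, 0 ≤ s → 0 ≤ t → uIcc s t ⊆ Ici 0 := by
    intro s t hs ht u hu
    exact (le_min hs ht).trans hu.1
  have hTc : ContinuousOn (fun u => Complex.normSq (Q.eval (x u))) (Ici 0) :=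
    Complex.continuous_normSq.comp_continuousOn hQc
  have hTi : ∀ s t : ℝ, 0 ≤ s → 0 ≤ t → IntervalIntegrable
      (fun u => Complex.normSq (Q.eval (x u))) MeasureTheory.volume s t := fun s t hs ht =>
    (hTc.mono (hsub s t hs ht)).intervalIntegrable
  have hsum : ∀ s : ℝ, 0 ≤ s → ∑ a ∈ Z P, res P Q a *
      (∫ u in (0 : ℝ)..s, Xf P Q (x u) / (x u - a)) =
      ((∫ u in (0 : ℝ)..s, Complex.normSq (Q.eval (x u)) : ℝ) : ℂ) := by
    intro s hs
    rw [← intervalIntegral.integral_ofReal]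
    have e1 : ∑ a ∈ Z P, res P Q a * (∫ u in (0 : ℝ)..s, Xf P Q (x u) / (x u - a)) =
        ∑ a ∈ Z P, ∫ u in (0 : ℝ)..s, res P Q a * (Xf P Q (x u) / (x u - a)) :=
      Finset.sum_congr rfl fun a _ => (intervalIntegral.integral_const_mul _ _).symm
    rw [e1, ← intervalIntegral.integral_finsetSum]
    · apply intervalIntegral.integral_congr
      intro u hu
      have hu0 : 0 ≤ u := hsub 0 s le_rfl hs hu
      have h1 := part_frac hsq hdeg (z := x u) (hreg u hu0).1
      have h2 : ∑ a ∈ Z P, res P Q a * (Xf P Q (x u) / (x u - a)) =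
          Xf P Q (x u) * ∑ a ∈ Z P, res P Q a / (x u - a) := by
        rw [Finset.mul_sum]
        refine Finset.sum_congr rfl fun a _ => ?_
        ring
      show ∑ a ∈ Z P, res P Q a * (Xf P Q (x u) / (x u - a)) =
        ((Complex.normSq (Q.eval (x u)) : ℝ) : ℂ)
      rw [h2, ← h1]
      unfold Xf
      have h3 := (hreg u hu0).1
      rw [← Complex.mul_conj]
      field_simp
    · intro a ha
      exact ((hcont a ha).mono (hsub 0 s le_rfl hs)).intervalIntegrable.const_mul _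
  have hpos : ∀ u : ℝ, 0 ≤ u → 0 < Complex.normSq (Q.eval (x u)) := fun u hu =>
    Complex.normSq_pos.2 (hreg u hu).2
  have hT1 : 0 < ∫ u in (0 : ℝ)..1, Complex.normSq (Q.eval (x u)) :=
    intervalIntegral.intervalIntegral_pos_of_pos_on (hTi 0 1 le_rfl zero_le_one)
      (fun u hu => hpos u hu.1.le) zero_lt_one
  have hTs : ∀ s : ℝ, 1 ≤ s → (∫ u in (0 : ℝ)..1, Complex.normSq (Q.eval (x u))) ≤
      ∫ u in (0 : ℝ)..s, Complex.normSq (Q.eval (x u)) := by
    intro s hs
    rw [← intervalIntegral.integral_add_adjacent_intervals (hTi 0 1 le_rfl zero_le_one)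
      (hTi 1 s zero_le_one (by linarith))]
    have : 0 ≤ ∫ u in (1 : ℝ)..s, Complex.normSq (Q.eval (x u)) :=
      intervalIntegral.integral_nonneg hs fun u _ => Complex.normSq_nonneg _
    linarith
  have hlimS : Tendsto (fun s : ℝ => ∑ a ∈ Z P, res P Q a *
      (∫ u in (0 : ℝ)..s, Xf P Q (x u) / (x u - a))) atTop (𝓝 (∑ a ∈ Z P, res P Q a * l a)) :=
    tendsto_finsetSum _ fun a ha => ((hl a ha).1).const_mul _
  have hlimT : Tendsto (fun s : ℝ => ((∫ u in (0 : ℝ)..s, Complex.normSq (Q.eval (x u)) : ℝ) : ℂ))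
      atTop (𝓝 (∑ a ∈ Z P, res P Q a * l a)) := by
    refine hlimS.congr' ?_
    filter_upwards [eventually_ge_atTop (0 : ℝ)] with s hs
    exact hsum s hs
  have hre : Tendsto (fun s : ℝ => ∫ u in (0 : ℝ)..s, Complex.normSq (Q.eval (x u)))
      atTop (𝓝 (∑ a ∈ Z P, res P Q a * l a).re) := by
    have h1 := (Complex.continuous_re.tendsto _).comp hlimT
    exact h1
  have him : (∑ a ∈ Z P, res P Q a * l a).im = 0 := by
    have h1 := (Complex.continuous_im.tendsto _).comp hlimT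
    have h2 : (Complex.im ∘ fun s : ℝ =>
        ((∫ u in (0 : ℝ)..s, Complex.normSq (Q.eval (x u)) : ℝ) : ℂ)) = fun _ => (0 : ℝ) := by
      funext s
      exact Complex.ofReal_im _
    rw [h2] at h1
    exact (tendsto_nhds_unique h1 tendsto_const_nhds)
  have hge : (∫ u in (0 : ℝ)..1, Complex.normSq (Q.eval (x u))) ≤
      (∑ a ∈ Z P, res P Q a * l a).re := by
    refine ge_of_tendsto hre ?_
    filter_upwards [eventually_ge_atTop (1 : ℝ)] with s hs
    exact hTs s hs
  refine hno l (fun a ha => (hl a ha).2) _ (hT1.trans_le hge) ?_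
  apply Complex.ext
  · rw [Complex.ofReal_re]
  · rw [Complex.ofReal_im, him]

end Pool.Agent.H79.Eul
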