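import Pool.Agent.H79.Eul.Leave
import Pool.Agent.H79.Eul.ExistsOrb
import Pool.Agent.H79.Eul.Conv
import Pool.Agent.H79.Eul.NotSource
import Pool.Agent.H79.Eul.PoleConn

set_option autoImplicit false

open Filter Topology Polynomial Metric Set

namespace Pool.Agent.H79.Eul

open Pool.Agent.H44.Fatou Pool.Agent.H32.BT

/-- trajectories converge to sinks -/
theorem flow_to_sink {P Q : Polynomial ℂ} (hsq : IsCoprime P (derivative P))
    (hdeg : P.natDegree = Q.natDegree + 1) (hcop : IsCoprime P Q)
    (hrep : (P.leadingCoeff / Q.leadingCoeff).re < 0) (hG : G1 P Q) {x0 : ℂ} (h0 : Reg P Q x0)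
    (hN : ∀ b : ℂ, Q.eval b = 0 → NoConn P Q x0 b) :
    ∃ x : ℝ → ℂ, x 0 = x0 ∧ IsOrb P Q x ∧ (∀ s : ℝ, 0 ≤ s → Reg P Q (x s)) ∧
      ∃ a : ℂ, P.eval a = 0 ∧ Q.eval a ≠ 0 ∧ ((derivative P).eval a / Q.eval a).re < 0 ∧
        Tendsto x atTop (𝓝 a) := by
  obtain ⟨x, hx0, hx, hreg, R, hR⟩ := exists_orb hdeg hrep h0
  have hQ0 : Q ≠ 0 := by
    rintro rfl
    simp at hrep
  have hP0 : P ≠ 0 := by
    rintro rfl
    simp at hrep
  have hlt : Q.natDegree < P.natDegree := by omega
  obtain ⟨a, ha, hlim⟩ := orb_conv hP0 hQ0 hx hR (fun p hp => by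
    obtain ⟨W, hW, h⟩ := leave_box hsq hlt hG hp
    exact ⟨W, hW, h x hx⟩)
  refine ⟨x, hx0, hx, hreg, a, ?_⟩
  rcases ha with ha | ha
  · have hQa : Q.eval a ≠ 0 := by
      rcases coprime_eval hcop a with h | h
      · exact absurd ha h
      · exact h
    have hPa : (derivative P).eval a ≠ 0 := by
      rcases coprime_eval hsq a with h | h
      · exact absurd ha h
      · exact h
    refine ⟨ha, hQa, ?_, hlim⟩
    rcases lt_trichotomy ((derivative P).eval a / Q.eval a).re 0 with h | h | h
    · exact h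
    · exfalso
      have hmem : ({a} : Finset ℂ) ⊆ Z P := by
        intro b hb
        rw [Finset.mem_singleton] at hb
        rw [hb]
        exact (mem_Z hP0).2 ha
      have h1 : (∑ b ∈ ({a} : Finset ℂ), res P Q b).re = 0 := by
        rw [Finset.sum_singleton]
        unfold res
        have h2 : Q.eval a / (derivative P).eval a = ((derivative P).eval a / Q.eval a)⁻¹ := by
          rw [inv_div]
        rw [h2, Complex.inv_re, h, zero_div]
      have h2 := hG _ hmem h1
      rw [Finset.sum_singleton] at h2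
      unfold res at h2
      exact (div_ne_zero hQa hPa) h2
    · exact (not_source ha hQa h hx hreg hlim).elim
  · exfalso
    have hPa : P.eval a ≠ 0 := by
      rcases coprime_eval hcop a with h | h
      · exact h
      · exact absurd ha h
    refine pole_conn hsq hlt hPa hx hreg hlim ?_
    rw [hx0]
    exact hN a ha

end Pool.Agent.H79.Eul
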