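import Pool.Agent.H79.Eul.Defs

set_option autoImplicit false

open Filter Topology Polynomial Metric Set

namespace Pool.Agent.H79.Eul

open Pool.Agent.H44.Fatou Pool.Agent.H32.BT

/-
PROOF. Choose a ball around p on which P and Q have no zero. Q/P is holomorphic there, so it has a
primitive Φ on the ball (DifferentiableOn.isExactOn_ball or similar in
Mathlib.Analysis.Complex.HasPrimitives; or part_frac and logarithms), normalise Φ p = 0. Φ is
analytic with Φ' p ≠ 0: HasStrictDerivAt.toOpenPartialHomeomorph (inverse function theorem),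
restricted to a smaller open set (OpenPartialHomeomorph.restrOpen) contained in the ball, gives e; deriv_symm is
OpenPartialHomeomorph.hasDerivAt_symm: ((Q/P)(e.symm w))⁻¹ = (P/Q)(e.symm w).
-/

theorem exists_chart {P Q : Polynomial ℂ} {p : ℂ} (hp : Reg P Q p) :
    Nonempty (Chart P Q p) := by
  -- a ball of regular points
  have hopen : IsOpen {z : ℂ | Reg P Q z} := by
    unfold Reg
    exact (isOpen_ne_fun P.continuous continuous_const).inter
      (isOpen_ne_fun Q.continuous continuous_const)
  obtain ⟨r, hr, hball⟩ := Metric.isOpen_iff.1 hopen p hp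
  -- the primitive
  have hdiff : DifferentiableOn ℂ (fun z => Q.eval z / P.eval z) (ball p r) := by
    intro z hz
    exact (Q.differentiableAt.div P.differentiableAt (hball hz).1).differentiableWithinAt
  obtain ⟨Φ0, hΦ0⟩ := hdiff.isExactOn_ball
  set Φ : ℂ → ℂ := fun z => Φ0 z - Φ0 p with hΦdef
  have hΦ : ∀ z ∈ ball p r, HasDerivAt Φ (Q.eval z / P.eval z) z := fun z hz =>
    (hΦ0 z hz).sub_const _
  have hΦan : AnalyticOnNhd ℂ Φ (ball p r) := by
    apply DifferentiableOn.analyticOnNhd _ isOpen_ball
    intro z hz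
    exact (hΦ z hz).differentiableAt.differentiableWithinAt
  have hpb : p ∈ ball p r := mem_ball_self hr
  have hne : Q.eval p / P.eval p ≠ 0 := div_ne_zero hp.2 hp.1
  have hstrict : HasStrictDerivAt Φ (Q.eval p / P.eval p) p := by
    have h1 := (hΦan p hpb).hasStrictDerivAt
    rwa [(hΦ p hpb).deriv] at h1
  have hF := hstrict.hasStrictFDerivAt_equiv hne
  set e0 := HasStrictFDerivAt.toOpenPartialHomeomorph Φ hF with he0
  have he0c : ∀ z, e0 z = Φ z := fun z => rfl
  set e := e0.restrOpen (ball p r) isOpen_ball with he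
  have hsrc : e.source = e0.source ∩ ball p r := e0.restrOpen_source _ _
  have hec : ∀ z, e z = Φ z := fun z => rfl
  have hder : ∀ z ∈ e.source, HasDerivAt e (Q.eval z / P.eval z) z := by
    intro z hz
    rw [hsrc] at hz
    exact hΦ z hz.2
  refine ⟨⟨e, ?_, ?_, ?_, hder, ?_⟩⟩
  · rw [hsrc]
    exact ⟨HasStrictFDerivAt.mem_toOpenPartialHomeomorph_source hF, hpb⟩
  · rw [hec, hΦdef]
    exact sub_self _
  · intro z hz
    rw [hsrc] at hz
    exact hball hz.2
  · intro w hw
    have h1 : e.symm w ∈ e.source := e.map_target hw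
    have h2 := h1
    rw [hsrc] at h2
    have h3 := hball h2.2
    have h4 := e.hasDerivAt_symm hw (div_ne_zero h3.2 h3.1) (hder _ h1)
    rwa [inv_div] at h4

end Pool.Agent.H79.Eul
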