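import Pool.Agent.H79.Eul.OrbUnique

set_option autoImplicit false

open Filter Topology Polynomial Metric Set

namespace Pool.Agent.H79.Eul

open Pool.Agent.H44.Fatou Pool.Agent.H32.BT

/-- membership in the chart image of a box -/
theorem mem_box {P Q : Polynomial ℂ} {p : ℂ} (c : Chart P Q p) {δ η : ℝ}
    (hB : Box δ η ⊆ c.e.target) {z : ℂ} :
    z ∈ c.e.symm '' Box δ η ↔ z ∈ c.e.source ∧ c.e z ∈ Box δ η := by
  constructor
  · rintro ⟨w, hw, rfl⟩
    refine ⟨c.e.map_target (hB hw), ?_⟩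
    rw [c.e.right_inv (hB hw)]
    exact hw
  · rintro ⟨h1, h2⟩
    exact ⟨c.e z, h2, c.e.left_inv h1⟩

theorem box_closed (δ η : ℝ) : IsClosed (Box δ η) :=
  (isClosed_le (continuous_abs.comp Complex.continuous_re) continuous_const).inter
    (isClosed_le (continuous_abs.comp Complex.continuous_im) continuous_const)

theorem box_compact (δ η : ℝ) : IsCompact (Box δ η) := by
  refine Metric.isCompact_of_isClosed_isBounded (box_closed δ η) ?_
  refine (Metric.isBounded_closedBall (x := (0 : ℂ)) (r := δ + η)).subset ?_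
  rintro w ⟨h1, h2⟩
  rw [mem_closedBall_zero_iff]
  exact (Complex.norm_le_abs_re_add_abs_im w).trans (add_le_add h1 h2)

theorem box_image_compact {P Q : Polynomial ℂ} {p : ℂ} (c : Chart P Q p) {δ η : ℝ}
    (hB : Box δ η ⊆ c.e.target) : IsCompact (c.e.symm '' Box δ η) :=
  (box_compact δ η).image_of_continuousOn (c.e.continuousOn_symm.mono hB)

/-- the rate in the chart -/
theorem chart_rate {P Q : Polynomial ℂ} {p : ℂ} (c : Chart P Q p) {x : ℝ → ℂ} (hx : IsOrb P Q x)
    {s : ℝ} (hs : 0 ≤ s) (hin : x s ∈ c.e.source) :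
    HasDerivAt (fun s => c.e (x s)) (((‖Q.eval (x s)‖ ^ 2 : ℝ) : ℂ)) s := by
  have h1 := (c.deriv (x s) hin).comp_of_eq s (hx s hs) rfl
  have h2 : Q.eval (x s) / P.eval (x s) * Xf P Q (x s) = ((‖Q.eval (x s)‖ ^ 2 : ℝ) : ℂ) := by
    unfold Xf
    have hP := (c.reg (x s) hin).1
    rw [← Complex.normSq_eq_norm_sq, ← Complex.mul_conj]
    field_simp
  rw [h2] at h1
  exact h1

end Pool.Agent.H79.Eul
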