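import Pool.Agent.H79.Eul.LocalEuler
import Pool.Agent.H79.Eul.ChartEx
import Pool.Agent.H79.Eul.ExitA

set_option autoImplicit false

open Filter Topology Polynomial Metric Set

namespace Pool.Agent.H79.Eul

open Pool.Agent.H44.Fatou Pool.Agent.H32.BT

theorem local_back {T : Type} {l : Filter T} {P Q B : Polynomial ℂ} (s : Sys T l P Q B)
    {x : ℝ → ℂ} (hx : IsOrb P Q x) (hreg : ∀ u : ℝ, 0 ≤ u → Reg P Q (x u)) {s0 : ℝ}
    (hs0 : 0 ≤ s0) : ∃ ε : ℝ, 0 < ε ∧ ∀ s' s'' : ℝ, 0 ≤ s' → s' < s'' → |s' - s0| < ε →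
      |s'' - s0| < ε → s.Good (x s'') → s.Good (x s') := by
  obtain ⟨c⟩ := exists_chart (hreg s0 hs0)
  have h0 : (0 : ℂ) ∈ c.e.target := by
    rw [← c.zero]
    exact c.e.map_source c.mem
  obtain ⟨ρ, hρ, hball⟩ := Metric.isOpen_iff.1 c.e.open_target 0 h0
  have hxc : ContinuousAt x s0 := (hx s0 hs0).continuousAt
  have h1 : ∀ᶠ u in 𝓝 s0, x u ∈ c.e.source :=
    hxc.eventually (c.e.open_source.mem_nhds c.mem)
  have h2 : ∀ᶠ u in 𝓝 s0, c.e (x u) ∈ ball (0 : ℂ) ρ := by
    have h3 : ContinuousAt (fun u => c.e (x u)) s0 :=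
      (chart_rate c hx hs0 c.mem).continuousAt
    apply h3.eventually
    have h4 : c.e (x s0) = 0 := c.zero
    show ∀ᶠ y in 𝓝 (c.e (x s0)), y ∈ ball (0 : ℂ) ρ
    rw [h4]
    exact ball_mem_nhds _ hρ
  obtain ⟨ε, hε, h3⟩ := Metric.eventually_nhds_iff.1 (h1.and h2)
  refine ⟨ε, hε, fun s' s'' hs' hlt ha hb hg => ?_⟩
  have hin : ∀ u ∈ Icc s' s'', 0 ≤ u ∧ x u ∈ c.e.source ∧ c.e (x u) ∈ ball (0 : ℂ) ρ := by
    intro u hu
    refine ⟨hs'.trans hu.1, h3 ?_⟩
    rw [Real.dist_eq, abs_lt]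
    rw [abs_lt] at ha hb
    constructor
    · linarith [hu.1]
    · linarith [hu.2]
  have hd : ∀ u ∈ Icc s' s'', HasDerivAt (fun u => c.e (x u))
      (((‖Q.eval (x u)‖ ^ 2 : ℝ) : ℂ)) u := by
    intro u hu
    obtain ⟨k1, k2, -⟩ := hin u hu
    exact chart_rate c hx k1 k2
  have hcont : ContinuousOn (fun u => ‖Q.eval (x u)‖ ^ 2) (Icc s' s'') := by
    intro u hu
    have : ContinuousAt x u := (hx u (hin u hu).1).continuousAt
    exact ((Q.continuous.continuousAt.comp this).norm.pow 2).continuousWithinAt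
  have hcontc : ContinuousOn (fun u => ((‖Q.eval (x u)‖ ^ 2 : ℝ) : ℂ)) (Icc s' s'') :=
    Complex.continuous_ofReal.comp_continuousOn hcont
  have hint := intervalIntegral.integral_eq_sub_of_hasDerivAt
    (f := fun u => c.e (x u)) (f' := fun u => ((‖Q.eval (x u)‖ ^ 2 : ℝ) : ℂ)) (a := s')
    (b := s'') (by rw [uIcc_of_le hlt.le]; exact hd)
    (by
      apply ContinuousOn.intervalIntegrable
      rw [uIcc_of_le hlt.le]
      exact hcontc)
  rw [intervalIntegral.integral_ofReal] at hint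
  set t := ∫ u in s'..s'', ‖Q.eval (x u)‖ ^ 2 with ht
  have htpos : 0 < t := by
    apply intervalIntegral.intervalIntegral_pos_of_pos_on
    · apply ContinuousOn.intervalIntegrable
      rw [uIcc_of_le hlt.le]
      exact hcont
    · intro u hu
      have h4 := (hreg u (hin u (Ioo_subset_Icc_self hu)).1).2
      have := norm_pos_iff.2 h4
      positivity
    · exact hlt
  have hend : c.e (x s') + t = c.e (x s'') := by
    rw [hint]
    ring
  have hA := hin s' (left_mem_Icc.2 hlt.le)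
  have hB := hin s'' (right_mem_Icc.2 hlt.le)
  have key := local_euler s c (w0 := c.e (x s')) htpos (by
    intro θ hθ
    apply hball
    have h4 := (convex_ball (0 : ℂ) ρ) hA.2.2 hB.2.2
      (a := 1 - θ / t) (b := θ / t) (by
        rw [sub_nonneg, div_le_one htpos]
        exact hθ.2) (div_nonneg hθ.1 htpos.le) (by ring)
    have e : (1 - θ / t) • c.e (x s') + (θ / t) • c.e (x s'') = c.e (x s') + θ := by
      rw [← hend]
      simp only [Complex.real_smul]
      push_cast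
      have : (t : ℂ) ≠ 0 := by exact_mod_cast htpos.ne'
      field_simp
      ring
    rw [e] at h4
    exact h4) (by
    rw [hend, c.e.left_inv hB.2.1]
    exact hg)
  rw [c.e.left_inv hA.2.1] at key
  exact key

theorem good_back {T : Type} {l : Filter T} {P Q B : Polynomial ℂ} (s : Sys T l P Q B)
    {x : ℝ → ℂ} (hx : IsOrb P Q x) (hreg : ∀ u : ℝ, 0 ≤ u → Reg P Q (x u)) {S : ℝ} (hS : 0 ≤ S)
    (hg : s.Good (x S)) : s.Good (x 0) := by
  set A : Set ℝ := {v | v ∈ Icc 0 S ∧ ∀ u ∈ Icc v S, s.Good (x u)} with hA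
  have hSA : S ∈ A := by
    refine ⟨⟨hS, le_rfl⟩, fun u hu => ?_⟩
    have : u = S := le_antisymm hu.2 hu.1
    rw [this]
    exact hg
  have hbdd : BddBelow A := ⟨0, fun v hv => hv.1.1⟩
  have hne : A.Nonempty := ⟨S, hSA⟩
  set v := sInf A with hv
  have hv0 : 0 ≤ v := le_csInf hne fun u hu => hu.1.1
  obtain ⟨ε, hε, hloc⟩ := local_back s hx hreg hv0
  obtain ⟨v1, hv1, hv1lt⟩ := exists_lt_of_csInf_lt hne (show sInf A < v + ε by
    rw [← hv]
    linarith)
  have hvv1 : v ≤ v1 := csInf_le hbdd hv1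
  have hmem : max 0 (v - ε / 2) ∈ A := by
    refine ⟨⟨le_max_left _ _, max_le hS ?_⟩, fun u hu => ?_⟩
    · have := hv1.1.2
      linarith
    · by_cases hcase : v1 ≤ u
      · exact hv1.2 u ⟨hcase, hu.2⟩
      · push Not at hcase
        have h1 : 0 ≤ u := (le_max_left _ _).trans hu.1
        have h2 : v - ε / 2 ≤ u := (le_max_right _ _).trans hu.1
        refine hloc u v1 h1 hcase ?_ ?_ (hv1.2 v1 ⟨le_rfl, hv1.1.2⟩)
        · rw [abs_lt]
          constructor <;> linarith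
        · rw [abs_lt]
          constructor <;> linarith
  have hle : v ≤ max 0 (v - ε / 2) := csInf_le hbdd hmem
  have hzero : max 0 (v - ε / 2) = 0 := by
    rcases le_total 0 (v - ε / 2) with h | h
    · rw [max_eq_right h] at hle
      linarith
    · exact max_eq_left h
  rw [hzero] at hmem
  exact hmem.2 0 ⟨le_rfl, hS⟩

end Pool.Agent.H79.Eul
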