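import Pool.Agent.H79.Eul.Defs

set_option autoImplicit false

open Filter Topology Polynomial Metric Set

namespace Pool.Agent.H79.Eul

open Pool.Agent.H44.Fatou Pool.Agent.H32.BT

/-
PROOFS. ev_compact: for every z ∈ K there are A ∈ l and a neighbourhood N of z with p on A × N
(mem_prod_iff); finitely many N cover K (hK.elim_nhds_subcover); intersect the finitely many A.
unif_compact: apply ev_compact to p (τ, z) := ‖f τ z - F z‖ < ε: near z0 both f τ z and F z are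
within ε/2 of F z0 (continuity of F at z0).
-/

theorem ev_compact {T : Type} {l : Filter T} {K : Set ℂ} (hK : IsCompact K) {p : T → ℂ → Prop}
    (h : ∀ z ∈ K, ∀ᶠ y : T × ℂ in l ×ˢ 𝓝 z, p y.1 y.2) : ∀ᶠ τ in l, ∀ z ∈ K, p τ z := by
  have key : ∃ A ∈ l, ∀ τ ∈ A, ∀ z ∈ K, p τ z := by
    refine hK.induction_on (p := fun S => ∃ A ∈ l, ∀ τ ∈ A, ∀ z ∈ S, p τ z) ?_ ?_ ?_ ?_
    · exact ⟨univ, univ_mem, fun _ _ z hz => hz.elim⟩
    · rintro S S' hS ⟨A, hA, h'⟩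
      exact ⟨A, hA, fun τ hτ z hz => h' τ hτ z (hS hz)⟩
    · rintro S S' ⟨A, hA, h1⟩ ⟨A', hA', h2⟩
      refine ⟨A ∩ A', inter_mem hA hA', fun τ hτ z hz => ?_⟩
      rcases hz with hz | hz
      · exact h1 τ hτ.1 z hz
      · exact h2 τ hτ.2 z hz
    · intro z hz
      have h1 := h z hz
      rw [Filter.eventually_iff, mem_prod_iff] at h1
      obtain ⟨A, hA, N, hN, hsub⟩ := h1
      refine ⟨N, mem_nhdsWithin_of_mem_nhds hN, A, hA, fun τ hτ w hw => ?_⟩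
      exact hsub (mk_mem_prod hτ hw)
  obtain ⟨A, hA, h1⟩ := key
  filter_upwards [hA] with τ hτ z hz
  exact h1 τ hτ z hz

theorem unif_compact {T : Type} {l : Filter T} {K : Set ℂ} (hK : IsCompact K) {f : T → ℂ → ℂ}
    {F : ℂ → ℂ} (hF : ∀ z ∈ K, ContinuousAt F z)
    (h : ∀ z ∈ K, Tendsto (fun y : T × ℂ => f y.1 y.2) (l ×ˢ 𝓝 z) (𝓝 (F z))) {ε : ℝ}
    (hε : 0 < ε) : ∀ᶠ τ in l, ∀ z ∈ K, ‖f τ z - F z‖ < ε := by
  apply ev_compact hK
  intro z hz
  have h1 : Tendsto (fun y : T × ℂ => F y.2) (l ×ˢ 𝓝 z) (𝓝 (F z)) :=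
    (hF z hz).tendsto.comp tendsto_snd
  have h2 := ((h z hz).sub h1).norm
  rw [sub_self, norm_zero] at h2
  exact h2.eventually (gt_mem_nhds hε)

/-- an element of the product filter restricted to the second variable in a neighbourhood -/
theorem ev_ball {T : Type} {l : Filter T} {a : ℂ} {p : T → ℂ → Prop}
    (h : ∀ᶠ y : T × ℂ in l ×ˢ 𝓝 a, p y.1 y.2) :
    ∃ r : ℝ, 0 < r ∧ ∀ᶠ τ in l, ∀ z ∈ ball a r, p τ z := by
  rw [Filter.eventually_iff, mem_prod_iff] at h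
  obtain ⟨A, hA, N, hN, hsub⟩ := h
  obtain ⟨r, hr, hball⟩ := Metric.mem_nhds_iff.1 hN
  refine ⟨r, hr, ?_⟩
  filter_upwards [hA] with τ hτ z hz
  exact hsub (mk_mem_prod hτ (hball hz))

end Pool.Agent.H79.Eul
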