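import Pool.Agent.H79.Eul.Pol
import Pool.Agent.H79.Eul.Cpt

set_option autoImplicit false

open Filter Topology Polynomial Metric Set

namespace Pool.Agent.H79.Eul

open Pool.Agent.H44.Fatou Pool.Agent.H32.BT

/-
PROOF of cop_deg. Write A' = pol τ.1.1, B' = pol τ.1.2, h = τ.2 → 0+, A' → A, B' → B.
Degree: the coefficient of X^d in nu is lc Q + h (coefficient d of A') ≠ 0 for τ far (coefficient d of
X Q is the coefficient d - 1 of Q, which is its leading coefficient, and h A'_d → 0); with nu_deg,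
de_deg the maximum is d.
Coprimality (isCoprime_iff_aeval_ne_zero_of_isAlgClosed, or isCoprime_of_roots in H32/BT/Bdry): there
is R with: for τ far and ‖z‖ ≥ R, nu z ≠ 0. Indeed nu z/z^d = (z Q z)/z^d + h (A' z)/z^d, the first term
tends to lc Q ≠ 0 and the second is ≤ h * (sum of the norms of the coefficients of A') for ‖z‖ ≥ 1.
For z ∈ closedBall 0 R a common zero of nu and de is a zero of nu - z de = h (A' z - z B' z), so of
A' z - z B' z, and of Q + h B'. By compactness (ev_compact) this is impossible for τ far: at each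
z0 either (A - X B)(z0) ≠ 0 or Q z0 ≠ 0 (hcop), and ev (or ev_cont) gives continuous convergence.
-/

/-- the numerator in the coordinate at infinity -/
noncomputable def nuInf {d : ℕ} (Q : Polynomial ℂ) (τ : E d × ℝ) (w : ℂ) : ℂ :=
  ∑ i : Fin (d + 1), ((X * Q).coeff i + (τ.2 : ℂ) * τ.1.1 i) * w ^ (d - (i : ℕ))

theorem nuInf_cont {d : ℕ} (Q : Polynomial ℂ) :
    Continuous (fun y : (E d × ℝ) × ℂ => nuInf Q y.1 y.2) := by
  unfold nuInf
  apply continuous_finsetSum
  intro i _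
  refine Continuous.mul (continuous_const.add (Continuous.mul ?_ ?_)) (continuous_snd.pow _)
  · exact Complex.continuous_ofReal.comp (continuous_snd.comp continuous_fst)
  · exact (continuous_apply i).comp (continuous_fst.comp (continuous_fst.comp continuous_fst))

theorem nuInf_zero {d : ℕ} (Q : Polynomial ℂ) (v : E d) :
    nuInf Q (v, (0 : ℝ)) 0 = (X * Q).coeff d := by
  unfold nuInf
  rw [Finset.sum_eq_single (Fin.last d)]
  · simp
  · intro b _ hb
    have h1 : (b : ℕ) < d := by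
      have h2 := b.2
      have h3 : (b : ℕ) ≠ d := fun h => hb (Fin.ext h)
      omega
    have h4 : d - (b : ℕ) ≠ 0 := by omega
    rw [zero_pow h4, mul_zero]
  · intro h
    exact absurd (Finset.mem_univ _) h

theorem nuInf_eval {d : ℕ} {Q : Polynomial ℂ} (hQ : Q.natDegree + 1 ≤ d) (τ : E d × ℝ) {z : ℂ}
    (hz : z ≠ 0) : (nu Q τ.1 τ.2).eval z = z ^ d * nuInf Q τ z⁻¹ := by
  have h0 : (X * Q).natDegree ≤ d := by
    refine natDegree_mul_le.trans ?_
    rw [natDegree_X]
    omega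
  have h1 : z * Q.eval z = ev (cf d (X * Q)) z := by
    rw [ev_cf h0, eval_mul, eval_X]
  rw [nu_eval, h1]
  unfold ev nuInf cf
  rw [Finset.mul_sum, Finset.mul_sum, ← Finset.sum_add_distrib]
  apply Finset.sum_congr rfl
  intro i _
  have h2 : z ^ d * (z⁻¹) ^ (d - (i : ℕ)) = z ^ (i : ℕ) := by
    have h3 : d = (i : ℕ) + (d - (i : ℕ)) := by
      have := i.2
      omega
    calc z ^ d * (z⁻¹) ^ (d - (i : ℕ))
        = z ^ ((i : ℕ) + (d - (i : ℕ))) * (z⁻¹) ^ (d - (i : ℕ)) := by rw [← h3]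
      _ = z ^ (i : ℕ) * (z * z⁻¹) ^ (d - (i : ℕ)) := by rw [pow_add, mul_assoc, ← mul_pow]
      _ = z ^ (i : ℕ) := by rw [mul_inv_cancel₀ hz, one_pow, mul_one]
  rw [← h2]
  ring

theorem flt_le {d : ℕ} (v : E d) : flt v ≤ 𝓝 (v, (0 : ℝ)) := by
  rw [nhds_prod_eq]
  exact Filter.prod_mono le_rfl nhdsWithin_le_nhds

theorem flt_prod_le {d : ℕ} (v : E d) (z : ℂ) : flt v ×ˢ 𝓝 z ≤ 𝓝 ((v, (0 : ℝ)), z) := by
  rw [nhds_prod_eq]
  exact Filter.prod_mono (flt_le v) le_rfl

theorem flt_pos {d : ℕ} (v : E d) : ∀ᶠ τ in flt v, 0 < τ.2 := by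
  have h : ∀ᶠ h : ℝ in 𝓝[>] (0 : ℝ), 0 < h := self_mem_nhdsWithin
  exact h.prod_inr _

theorem cop_of_roots {P Q : Polynomial ℂ} (h : ∀ z : ℂ, P.eval z ≠ 0 ∨ Q.eval z ≠ 0) :
    IsCoprime P Q := by
  rw [isCoprime_iff_aeval_ne_zero_of_isAlgClosed ℂ ℂ]
  intro z
  simpa using h z

theorem cop_deg {d : ℕ} {Q A B : Polynomial ℂ} (hQ : Q.natDegree + 1 = d) (hQ0 : Q ≠ 0)
    (hA : A.natDegree ≤ d) (hB : B.natDegree ≤ d) (hcop : IsCoprime (A - X * B) Q) :
    ∀ᶠ τ in flt (cf d A, cf d B), IsCoprime (nu Q τ.1 τ.2) (de Q τ.1 τ.2) ∧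
      max (nu Q τ.1 τ.2).natDegree (de Q τ.1 τ.2).natDegree = d := by
  have hXd : (X * Q).coeff d = Q.leadingCoeff := by
    rw [← hQ, coeff_X_mul]
    rfl
  have hL : (X * Q).coeff d ≠ 0 := by
    rw [hXd]
    exact leadingCoeff_ne_zero.2 hQ0
  -- behaviour at infinity
  have hinf : ∀ᶠ y : (E d × ℝ) × ℂ in flt (cf d A, cf d B) ×ˢ 𝓝 (0 : ℂ),
      nuInf Q y.1 y.2 ≠ 0 := by
    have h1 : ∀ᶠ y : (E d × ℝ) × ℂ in 𝓝 (((cf d A, cf d B), (0 : ℝ)), (0 : ℂ)),
        nuInf Q y.1 y.2 ≠ 0 := by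
      apply (nuInf_cont Q).continuousAt.eventually_ne
      show nuInf Q ((cf d A, cf d B), (0 : ℝ)) 0 ≠ 0
      rw [nuInf_zero]
      exact hL
    exact h1.filter_mono (flt_prod_le _ _)
  obtain ⟨r, hr, hball⟩ := ev_ball (p := fun τ w => nuInf Q τ w ≠ 0) hinf
  -- the compact part
  have hcpt : ∀ᶠ τ in flt (cf d A, cf d B), ∀ z ∈ closedBall (0 : ℂ) (2 / r),
      ev τ.1.1 z - z * ev τ.1.2 z ≠ 0 ∨ Q.eval z + (τ.2 : ℂ) * ev τ.1.2 z ≠ 0 := by
    apply ev_compact (isCompact_closedBall (0 : ℂ) (2 / r))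
      (p := fun (τ : E d × ℝ) (z : ℂ) =>
        ev τ.1.1 z - z * ev τ.1.2 z ≠ 0 ∨ Q.eval z + (τ.2 : ℂ) * ev τ.1.2 z ≠ 0)
    intro z _
    have hc1 : Continuous (fun y : (E d × ℝ) × ℂ => ev y.1.1.1 y.2) :=
      ev_cont.comp ((continuous_fst.comp (continuous_fst.comp continuous_fst)).prodMk
        continuous_snd)
    have hc2 : Continuous (fun y : (E d × ℝ) × ℂ => ev y.1.1.2 y.2) :=
      ev_cont.comp ((continuous_snd.comp (continuous_fst.comp continuous_fst)).prodMk
        continuous_snd)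
    have hcase : (A - X * B).eval z ≠ 0 ∨ Q.eval z ≠ 0 := by
      by_contra hcon
      push Not at hcon
      obtain ⟨a, b, hab⟩ := hcop
      have h1 := congrArg (fun p : Polynomial ℂ => p.eval z) hab
      simp only [eval_add, eval_mul, eval_one] at h1
      rw [hcon.1, hcon.2, mul_zero, mul_zero, add_zero] at h1
      exact zero_ne_one h1
    rcases hcase with hcase | hcase
    · have h1 : ∀ᶠ y : (E d × ℝ) × ℂ in 𝓝 (((cf d A, cf d B), (0 : ℝ)), z),
          ev y.1.1.1 y.2 - y.2 * ev y.1.1.2 y.2 ≠ 0 := by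
        apply (hc1.sub (continuous_snd.mul hc2)).continuousAt.eventually_ne
        show ev (cf d A) z - z * ev (cf d B) z ≠ 0
        rw [ev_cf hA, ev_cf hB]
        rw [eval_sub, eval_mul, eval_X] at hcase
        exact hcase
      exact (h1.filter_mono (flt_prod_le _ _)).mono fun y hy => Or.inl hy
    · have h1 : ∀ᶠ y : (E d × ℝ) × ℂ in 𝓝 (((cf d A, cf d B), (0 : ℝ)), z),
          Q.eval y.2 + (y.1.2 : ℂ) * ev y.1.1.2 y.2 ≠ 0 := by
        have hc3 : Continuous (fun y : (E d × ℝ) × ℂ =>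
            Q.eval y.2 + (y.1.2 : ℂ) * ev y.1.1.2 y.2) :=
          (Q.continuous.comp continuous_snd).add
            ((Complex.continuous_ofReal.comp (continuous_snd.comp continuous_fst)).mul hc2)
        apply hc3.continuousAt.eventually_ne
        show Q.eval z + ((0 : ℝ) : ℂ) * ev (cf d B) z ≠ 0
        rw [Complex.ofReal_zero, zero_mul, add_zero]
        exact hcase
      exact (h1.filter_mono (flt_prod_le _ _)).mono fun y hy => Or.inr hy
  -- the leading coefficient
  have hdeg : ∀ᶠ τ in flt (cf d A, cf d B), (nu Q τ.1 τ.2).coeff d ≠ 0 := by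
    have h1 : ∀ᶠ τ : E d × ℝ in 𝓝 ((cf d A, cf d B), (0 : ℝ)),
        (X * Q).coeff d + (τ.2 : ℂ) * τ.1.1 (Fin.last d) ≠ 0 := by
      have hc : Continuous (fun τ : E d × ℝ =>
          (X * Q).coeff d + (τ.2 : ℂ) * τ.1.1 (Fin.last d)) :=
        continuous_const.add ((Complex.continuous_ofReal.comp continuous_snd).mul
          ((continuous_apply (Fin.last d)).comp (continuous_fst.comp continuous_fst)))
      apply hc.continuousAt.eventually_ne
      show (X * Q).coeff d + ((0 : ℝ) : ℂ) * cf d A (Fin.last d) ≠ 0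
      rw [Complex.ofReal_zero, zero_mul, add_zero]
      exact hL
    refine (h1.filter_mono (flt_le _)).mono fun τ hτ => ?_
    unfold nu
    rw [coeff_add, coeff_C_mul]
    have h2 : (pol τ.1.1).coeff d = τ.1.1 (Fin.last d) := pol_coeff τ.1.1 (Fin.last d)
    rw [h2]
    exact hτ
  filter_upwards [hball, hcpt, hdeg, flt_pos (cf d A, cf d B)] with τ h1 h2 h3 h4
  refine ⟨cop_of_roots fun z => ?_, ?_⟩
  · by_contra hcon
    push Not at hcon
    obtain ⟨hn, hd⟩ := hcon
    by_cases hz : z ∈ closedBall (0 : ℂ) (2 / r)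
    · have h5 := h2 z hz
      rw [nu_eval] at hn
      rw [de_eval] at hd
      rcases h5 with h5 | h5
      · have h6 : (τ.2 : ℂ) * (ev τ.1.1 z - z * ev τ.1.2 z) = 0 := by
          linear_combination hn - z * hd
        rcases mul_eq_zero.1 h6 with h7 | h7
        · exact h4.ne' (Complex.ofReal_eq_zero.1 h7)
        · exact h5 h7
      · exact h5 hd
    · have h6 : 2 / r < ‖z‖ := by
        rw [mem_closedBall, dist_zero_right, not_le] at hz
        exact hz
      have h6' : 0 < 2 / r := div_pos two_pos hr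
      have hz0 : z ≠ 0 := by
        rintro rfl
        rw [norm_zero] at h6
        exact absurd h6 (not_lt.2 h6'.le)
      rw [nuInf_eval hQ.le τ hz0] at hn
      have h7 : nuInf Q τ z⁻¹ ≠ 0 := by
        apply h1
        rw [mem_ball, dist_zero_right, norm_inv]
        have h8 : 1 / r < ‖z‖ := by
          refine lt_of_le_of_lt ?_ h6
          exact div_le_div_of_nonneg_right (by norm_num) hr.le
        have h9 : 0 < ‖z‖ := h6'.trans h6
        rw [inv_lt_comm₀ h9 hr]
        rw [one_div] at h8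
        exact h8
      rcases mul_eq_zero.1 hn with h8 | h8
      · exact pow_ne_zero d hz0 h8
      · exact h7 h8
  · apply le_antisymm
    · exact max_le (nu_deg hQ.le τ.1 τ.2) (de_deg hQ.le τ.1 τ.2)
    · exact le_max_of_le_left (le_natDegree_of_ne_zero h3)

end Pool.Agent.H79.Eul
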