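import Pool.Agent.H79.Eul.Cpt

set_option autoImplicit false

open Filter Topology Polynomial Metric Set

namespace Pool.Agent.H79.Eul

open Pool.Agent.H44.Fatou Pool.Agent.H32.BT

/-
PROOF of trap_sink. Let λ = P'(a)/Q(a), Re λ = -4κ < 0. V τ z = p τ z / den τ z is holomorphic near
closedBall a ρ0 for τ far (den → Q ≠ 0 there), with derivative
(dp * den - p * (Q' + h db)) / den^2 → (P' Q - P Q') / Q^2, whose value at a is λ. Choose ρ ≤ ρ0 so small that
‖(P'Q - PQ')/Q^2 - λ‖ ≤ κ/2 on closedBall a ρ; by unif_compact eventually ‖(V τ)' - λ‖ ≤ κ there, so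
by the mean value inequality on the convex ball ‖V z - V w - λ (z - w)‖ ≤ κ ‖z - w‖. Hence with
g z = z + h V z: ‖g z - g w‖ ≤ (‖1 + h λ‖ + h κ) ‖z - w‖ and ‖1 + hλ‖^2 = 1 - 8 κ h + h^2 ‖λ‖^2 ≤ (1 - 3 κ h)^2 for
h small (8κh - h²‖λ‖² ≥ 6κh - 9κ²h²), so the Lipschitz constant is ≤ q = 1 - 2 κ h ∈ [0, 1). And
‖g a - a‖ = h ‖V τ a‖ < κ ρ h for τ far (P a = 0). So ‖g z - a‖ ≤ q ρ + κ ρ h < ρ for z ∈ closedBall a ρ.
s.trap with c = a, r = ρ gives att τ z for all z ∈ closedBall a ρ, eventually; so Good z for z ∈ ball a ρ.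
-/

namespace Sys

variable {T : Type} {l : Filter T} {P Q B : Polynomial ℂ} (s : Sys T l P Q B)

/-- continuous convergence of the denominator -/
theorem h61_den_lim (z : ℂ) :
    Tendsto (fun y : T × ℂ => s.den y.1 y.2) (l ×ˢ 𝓝 z) (𝓝 (Q.eval z)) := by
  have h1 : Tendsto (fun y : T × ℂ => (s.h y.1 : ℂ)) (l ×ˢ 𝓝 z) (𝓝 ((0 : ℝ) : ℂ)) :=
    (Complex.continuous_ofReal.tendsto 0).comp (s.h_lim.comp tendsto_fst)
  have h2 : Tendsto (fun y : T × ℂ => Q.eval y.2) (l ×ˢ 𝓝 z) (𝓝 (Q.eval z)) :=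
    (Q.continuous.tendsto z).comp tendsto_snd
  have h3 := h2.add (h1.mul (s.b_lim z))
  simpa [Sys.den] using h3

/-- derivative of the denominator -/
theorem h61_den_deriv (τ : T) (z : ℂ) :
    HasDerivAt (s.den τ) ((derivative Q).eval z + s.h τ * s.db τ z) z := by
  have h1 := (Q.hasDerivAt z).add ((s.b_deriv τ z).const_mul (s.h τ : ℂ))
  exact h1

/-- the derivative of `p / den` -/
noncomputable def h61_dV (τ : T) (z : ℂ) : ℂ :=
  (s.dp τ z * s.den τ z - s.p τ z * ((derivative Q).eval z + s.h τ * s.db τ z)) / s.den τ z ^ 2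

theorem h61_V_deriv (τ : T) {z : ℂ} (h : s.den τ z ≠ 0) :
    HasDerivAt (fun w => s.p τ w / s.den τ w) (s.h61_dV τ z) z :=
  (s.p_deriv τ z).div (s.h61_den_deriv τ z) h

theorem h61_dV_lim {z : ℂ} (h : Q.eval z ≠ 0) :
    Tendsto (fun y : T × ℂ => s.h61_dV y.1 y.2) (l ×ˢ 𝓝 z)
      (𝓝 (((derivative P).eval z * Q.eval z - P.eval z * (derivative Q).eval z) /
        Q.eval z ^ 2)) := by
  have h1 : Tendsto (fun y : T × ℂ => (s.h y.1 : ℂ)) (l ×ˢ 𝓝 z) (𝓝 ((0 : ℝ) : ℂ)) :=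
    (Complex.continuous_ofReal.tendsto 0).comp (s.h_lim.comp tendsto_fst)
  have h2 : Tendsto (fun y : T × ℂ => (derivative Q).eval y.2) (l ×ˢ 𝓝 z)
      (𝓝 ((derivative Q).eval z)) :=
    ((derivative Q).continuous.tendsto z).comp tendsto_snd
  have h3 := s.h61_den_lim z
  have h4 := h2.add (h1.mul (s.db_lim z))
  have h5 := (((s.dp_lim z).mul h3).sub ((s.p_lim z).mul h4)).div (h3.pow 2) (pow_ne_zero 2 h)
  rw [Complex.ofReal_zero, zero_mul, add_zero] at h5
  exact h5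

end Sys

theorem trap_sink {T : Type} {l : Filter T} {P Q B : Polynomial ℂ} (s : Sys T l P Q B) {a : ℂ}
    (hP : P.eval a = 0) (hQ : Q.eval a ≠ 0) (hneg : ((derivative P).eval a / Q.eval a).re < 0) :
    ∃ ρ : ℝ, 0 < ρ ∧ ∀ z ∈ ball a ρ, s.Good z := by
  set lam : ℂ := (derivative P).eval a / Q.eval a with hlam
  obtain ⟨κ, hκ, hre⟩ : ∃ κ : ℝ, 0 < κ ∧ lam.re = -(4 * κ) :=
    ⟨-lam.re / 4, by linarith, by ring⟩
  have hD : ((derivative P).eval a * Q.eval a - P.eval a * (derivative Q).eval a) /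
      Q.eval a ^ 2 = lam := by
    rw [hP, hlam]; field_simp; ring
  have hlim := s.h61_dV_lim hQ
  rw [hD] at hlim
  have hden := s.h61_den_lim a
  have e1 : ∀ᶠ y : T × ℂ in l ×ˢ 𝓝 a, s.den y.1 y.2 ≠ 0 := hden.eventually_ne hQ
  have e2 : ∀ᶠ y : T × ℂ in l ×ˢ 𝓝 a, ‖s.h61_dV y.1 y.2 - lam‖ < κ := by
    have := (hlim.sub_const lam).norm
    rw [sub_self, norm_zero] at this
    exact this.eventually (gt_mem_nhds hκ)
  obtain ⟨r, hr, hev⟩ := ev_ball (p := fun τ z => s.den τ z ≠ 0 ∧ ‖s.h61_dV τ z - lam‖ < κ)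
    (e1.and e2)
  set ρ : ℝ := r / 2 with hρ
  have hρ0 : 0 < ρ := by positivity
  have hsub : closedBall a ρ ⊆ ball a r := closedBall_subset_ball (by linarith)
  -- V at a tends to 0
  have hVa : Tendsto (fun τ => s.p τ a / s.den τ a) l (𝓝 0) := by
    have h1 : Tendsto (fun τ : T => (τ, a)) l (l ×ˢ 𝓝 a) :=
      tendsto_id.prodMk tendsto_const_nhds
    have h2 := ((s.p_lim a).comp h1).div (hden.comp h1) hQ
    rw [hP, zero_div] at h2
    exact h2
  have e3 : ∀ᶠ τ in l, ‖s.p τ a / s.den τ a‖ < κ * ρ := by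
    have := hVa.norm
    rw [norm_zero] at this
    exact this.eventually (gt_mem_nhds (by positivity))
  have e4 : ∀ᶠ τ in l, s.h τ * ‖lam‖ ^ 2 < 2 * κ := by
    have := s.h_lim.mul_const (‖lam‖ ^ 2)
    rw [zero_mul] at this
    exact this.eventually (gt_mem_nhds (by positivity))
  have e5 : ∀ᶠ τ in l, s.h τ * (3 * κ) < 1 := by
    have := s.h_lim.mul_const (3 * κ)
    rw [zero_mul] at this
    exact this.eventually (gt_mem_nhds one_pos)
  have main : ∀ᶠ τ in l, ∀ z ∈ closedBall a ρ, s.att τ z := by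
    filter_upwards [hev, e3, e4, e5, s.h_pos, s.trap] with τ h1 h3 h4 h5 hpos htrap
    have hq0 : 0 ≤ 1 - 2 * κ * s.h τ := by nlinarith
    have hq1 : 1 - 2 * κ * s.h τ < 1 := by nlinarith
    have hdenne : ∀ z ∈ closedBall a ρ, s.den τ z ≠ 0 := fun z hz => (h1 z (hsub hz)).1
    -- Lipschitz
    have hnorm : ‖1 + (s.h τ : ℂ) * lam‖ ≤ 1 - 3 * κ * s.h τ := by
      have hnn : 0 ≤ 1 - 3 * κ * s.h τ := by nlinarith
      apply le_of_sq_le_sq _ hnn
      rw [Complex.sq_norm, Complex.normSq_apply]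
      have hl : ‖lam‖ ^ 2 = lam.re * lam.re + lam.im * lam.im := by
        rw [Complex.sq_norm, Complex.normSq_apply]
      have r1 : (1 + (s.h τ : ℂ) * lam).re = 1 + s.h τ * lam.re := by simp
      have r2 : (1 + (s.h τ : ℂ) * lam).im = s.h τ * lam.im := by simp
      rw [r1, r2]
      have h6 : s.h τ * (s.h τ * ‖lam‖ ^ 2) ≤ s.h τ * (2 * κ) :=
        mul_le_mul_of_nonneg_left h4.le hpos.le
      rw [hl] at h6
      rw [hre] at h6 ⊢
      nlinarith [mul_pos hκ hpos]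
    have hlip : ∀ z ∈ closedBall a ρ, ∀ w ∈ closedBall a ρ,
        ‖(z + s.h τ * s.p τ z / s.den τ z) - (w + s.h τ * s.p τ w / s.den τ w)‖ ≤
          (1 - 2 * κ * s.h τ) * ‖z - w‖ := by
      intro z hz w hw
      have hder : ∀ x ∈ closedBall a ρ, HasDerivWithinAt
          (fun x => x + (s.h τ : ℂ) * (s.p τ x / s.den τ x))
          (1 + (s.h τ : ℂ) * s.h61_dV τ x) (closedBall a ρ) x := by
        intro x hx
        exact ((hasDerivAt_id x).add
          ((s.h61_V_deriv τ (hdenne x hx)).const_mul (s.h τ : ℂ))).hasDerivWithinAt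
      have hbd : ∀ x ∈ closedBall a ρ,
          ‖1 + (s.h τ : ℂ) * s.h61_dV τ x‖ ≤ 1 - 2 * κ * s.h τ := by
        intro x hx
        have h7 : 1 + (s.h τ : ℂ) * s.h61_dV τ x =
            (1 + (s.h τ : ℂ) * lam) + (s.h τ : ℂ) * (s.h61_dV τ x - lam) := by ring
        rw [h7]
        refine (norm_add_le _ _).trans ?_
        rw [norm_mul, Complex.norm_real, Real.norm_eq_abs, abs_of_pos hpos]
        have h8 := (h1 x (hsub hx)).2
        have h9 : s.h τ * ‖s.h61_dV τ x - lam‖ ≤ s.h τ * κ :=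
          mul_le_mul_of_nonneg_left h8.le hpos.le
        linarith
      have := (convex_closedBall a ρ).norm_image_sub_le_of_norm_hasDerivWithin_le hder hbd hw hz
      simp only [mul_div_assoc]
      exact this
    have ha : a ∈ closedBall a ρ := mem_closedBall_self hρ0.le
    refine htrap a ρ (1 - 2 * κ * s.h τ) hρ0 hq0 hq1 hdenne ?_ hlip
    intro z hz
    rw [mem_ball, dist_eq_norm]
    have h10 := hlip z hz a ha
    have h11 : ‖z - a‖ ≤ ρ := by rwa [← dist_eq_norm, ← mem_closedBall]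
    have h12 : ‖(a + s.h τ * s.p τ a / s.den τ a) - a‖ ≤ s.h τ * (κ * ρ) := by
      rw [add_sub_cancel_left, mul_div_assoc, norm_mul, Complex.norm_real, Real.norm_eq_abs,
        abs_of_pos hpos]
      exact mul_le_mul_of_nonneg_left h3.le hpos.le
    calc ‖z + s.h τ * s.p τ z / s.den τ z - a‖
        = ‖((z + s.h τ * s.p τ z / s.den τ z) - (a + s.h τ * s.p τ a / s.den τ a)) +
            ((a + s.h τ * s.p τ a / s.den τ a) - a)‖ := by congr 1; ring
      _ ≤ (1 - 2 * κ * s.h τ) * ρ + s.h τ * (κ * ρ) := by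
          refine (norm_add_le _ _).trans (add_le_add (h10.trans ?_) h12)
          exact mul_le_mul_of_nonneg_left h11 hq0
      _ < ρ := by nlinarith [mul_pos (mul_pos hκ hpos) hρ0]
  refine ⟨ρ, hρ0, fun z hz => ?_⟩
  have h1 : ∀ᶠ z' in 𝓝 z, z' ∈ ball a ρ := isOpen_ball.mem_nhds hz
  have h2 := main.prod_mk h1
  exact h2.mono (fun y hy => hy.1 _ (ball_subset_closedBall hy.2))

end Pool.Agent.H79.Eul
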