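import Pool.Agent.H79.Eul.FlowSink
import Pool.Agent.H79.Eul.GoodBack
import Pool.Agent.H79.Eul.Trap

set_option autoImplicit false

open Filter Topology Polynomial Metric Set

namespace Pool.Agent.H79.Eul

open Pool.Agent.H44.Fatou Pool.Agent.H32.BT

theorem flow_good {T : Type} {l : Filter T} {P Q B : Polynomial ℂ} (s : Sys T l P Q B)
    (hsq : IsCoprime P (derivative P)) (hdeg : P.natDegree = Q.natDegree + 1)
    (hcop : IsCoprime P Q) (hrep : (P.leadingCoeff / Q.leadingCoeff).re < 0) (hG : G1 P Q)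
    {x0 : ℂ} (h0 : Reg P Q x0) (hN : ∀ b : ℂ, Q.eval b = 0 → NoConn P Q x0 b) :
    s.Good x0 := by
  obtain ⟨x, hx0, hx, hreg, a, ha, hQa, hneg, hlim⟩ :=
    flow_to_sink hsq hdeg hcop hrep hG h0 hN
  obtain ⟨ρ, hρ, hgood⟩ := trap_sink s ha hQa hneg
  obtain ⟨S, hS0, hS⟩ := ((eventually_ge_atTop (0 : ℝ)).and
    (hlim.eventually (ball_mem_nhds a hρ))).exists
  rw [← hx0]
  exact good_back s hx hreg hS0 (hgood _ hS)

end Pool.Agent.H79.Eul
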