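import Pool.Agent.H79.Eul.PhiLocal

set_option autoImplicit false

open Filter Topology Polynomial Metric Set

namespace Pool.Agent.H79.Eul

open Pool.Agent.H44.Fatou Pool.Agent.H32.BT

/-- derivative of `(X - a)^m q` -/
theorem deriv_pole {P Q q : Polynomial ℂ} {a : ℂ} {m : ℕ} {ρ : ℝ} {Φ k : ℂ → ℂ}
    (hp : Pole P Q q a m ρ Φ k) (z : ℂ) :
    (derivative Q).eval z =
      (z - a) ^ (m - 1) * (m * q.eval z + (z - a) * (derivative q).eval z) := by
  have hm := hp.hm
  rw [hp.hQ, derivative_mul, derivative_X_sub_C_pow]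
  simp only [eval_add, eval_mul, eval_pow, eval_sub, eval_X, eval_C]
  obtain ⟨n, rfl⟩ : ∃ n, m = n + 1 := ⟨m - 1, by omega⟩
  simp only [Nat.add_sub_cancel]
  push_cast
  ring

theorem eval_pole {P Q q : Polynomial ℂ} {a : ℂ} {m : ℕ} {ρ : ℝ} {Φ k : ℂ → ℂ}
    (hp : Pole P Q q a m ρ Φ k) (z : ℂ) : Q.eval z = (z - a) ^ m * q.eval z := by
  rw [hp.hQ]
  simp only [eval_mul, eval_pow, eval_sub, eval_X, eval_C]

theorem dichotomy {T : Type} {l : Filter T} {P Q B : Polynomial ℂ} (s : Sys T l P Q B)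
    {q : Polynomial ℂ} {a : ℂ} {m : ℕ} {ρ : ℝ} {Φ k : ℂ → ℂ} (hp : Pole P Q q a m ρ Φ k)
    (hB : 2 ≤ m → B.eval a ≠ 0) (U : Ultrafilter (T × ℂ)) (hU : (U : Filter (T × ℂ)) ≤ l ×ˢ 𝓝 a)
    (hc : ∀ᶠ y in (U : Filter (T × ℂ)), s.crit y.1 y.2) :
    Tendsto (fun y : T × ℂ => Φ y.2 / s.h y.1) U (𝓝 ((m : ℂ) / (m + 1))) ∨
      (2 ≤ m ∧ (∀ᶠ y in (U : Filter (T × ℂ)), s.den y.1 y.2 ≠ 0) ∧
        Tendsto (fun y : T × ℂ => s.g y.1 y.2) U (𝓝 (a + P.eval a / B.eval a))) := by
  have hfst : Tendsto (fun y : T × ℂ => y.1) U l := tendsto_fst.mono_left hU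
  have hsnd : Tendsto (fun y : T × ℂ => y.2) U (𝓝 a) := tendsto_snd.mono_left hU
  have hpos : ∀ᶠ y in (U : Filter (T × ℂ)), 0 < s.h y.1 := hfst.eventually s.h_pos
  have hh : Tendsto (fun y : T × ℂ => s.h y.1) U (𝓝 0) := s.h_lim.comp hfst
  have hhc : Tendsto (fun y : T × ℂ => (s.h y.1 : ℂ)) U (𝓝 0) := by
    have := (Complex.continuous_ofReal.tendsto 0).comp hh
    rw [Complex.ofReal_zero] at this
    exact this
  have hpl : Tendsto (fun y : T × ℂ => s.p y.1 y.2) U (𝓝 (P.eval a)) := (s.p_lim a).mono_left hU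
  have hbl : Tendsto (fun y : T × ℂ => s.b y.1 y.2) U (𝓝 (B.eval a)) := (s.b_lim a).mono_left hU
  have hdp : Tendsto (fun y : T × ℂ => s.dp y.1 y.2) U (𝓝 ((derivative P).eval a)) :=
    (s.dp_lim a).mono_left hU
  have hdb : Tendsto (fun y : T × ℂ => s.db y.1 y.2) U (𝓝 ((derivative B).eval a)) :=
    (s.db_lim a).mono_left hU
  have hql : Tendsto (fun y : T × ℂ => q.eval y.2) U (𝓝 (q.eval a)) :=
    (q.continuous.tendsto a).comp hsnd
  have hq'l : Tendsto (fun y : T × ℂ => (derivative q).eval y.2) U (𝓝 ((derivative q).eval a)) :=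
    ((derivative q).continuous.tendsto a).comp hsnd
  have hza : Tendsto (fun y : T × ℂ => y.2 - a) U (𝓝 0) := by
    have := hsnd.sub_const a
    rwa [sub_self] at this
  have hPa : P.eval a ≠ 0 := hp.hP a (mem_ball_self hp.hρ)
  have hqa := hp.hq
  have hm := hp.hm
  have hm0 : (m : ℂ) ≠ 0 := by
    have : m ≠ 0 := by omega
    exact_mod_cast this
  have hm1 : (m : ℂ) + 1 ≠ 0 := by exact_mod_cast Nat.succ_ne_zero m
  -- the factor m q + (z - a) q'
  have hfac : Tendsto (fun y : T × ℂ => (m : ℂ) * q.eval y.2 +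
      (y.2 - a) * (derivative q).eval y.2) U (𝓝 (m * q.eval a)) := by
    have := (hql.const_mul (m : ℂ)).add (hza.mul hq'l)
    rwa [zero_mul, add_zero] at this
  have hfa : (m : ℂ) * q.eval a ≠ 0 := mul_ne_zero hm0 hqa
  by_cases hcase : ∀ n : ℕ, ∀ᶠ y in (U : Filter (T × ℂ)), (n : ℝ) * s.h y.1 ≤ ‖s.den y.1 y.2‖
  · -- case (A)
    left
    have hDne : ∀ᶠ y in (U : Filter (T × ℂ)), s.den y.1 y.2 ≠ 0 := by
      filter_upwards [hcase 1, hpos] with y h1 h2 h0
      rw [h0, norm_zero] at h1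
      push_cast at h1
      linarith
    have hr : Tendsto (fun y : T × ℂ => (s.h y.1 : ℂ) / s.den y.1 y.2) U (𝓝 0) := by
      rw [Metric.tendsto_nhds]
      intro ε hε
      obtain ⟨n, hn⟩ := exists_nat_gt (1 / ε)
      filter_upwards [hcase n, hpos, hDne] with y h1 h2 h3
      rw [dist_zero_right, norm_div, Complex.norm_real, Real.norm_eq_abs, abs_of_pos h2,
        div_lt_iff₀ (norm_pos_iff.2 h3)]
      have h4 : 1 < ε * n := by
        rw [div_lt_iff₀ hε] at hn
        linarith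
      calc s.h y.1 = 1 * s.h y.1 := (one_mul _).symm
        _ < ε * n * s.h y.1 := by
            apply mul_lt_mul_of_pos_right h4 h2
        _ = ε * (n * s.h y.1) := by ring
        _ ≤ ε * ‖s.den y.1 y.2‖ := by gcongr
    have hQD : Tendsto (fun y : T × ℂ => Q.eval y.2 / s.den y.1 y.2) U (𝓝 1) := by
      have h1 : Tendsto (fun y : T × ℂ => 1 - s.b y.1 y.2 * ((s.h y.1 : ℂ) / s.den y.1 y.2)) U
          (𝓝 1) := by
        have := (hbl.mul hr).const_sub 1
        simpa using this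
      refine h1.congr' ?_
      filter_upwards [hDne] with y hy
      rw [eq_div_iff hy]
      field_simp
      unfold Sys.den
      ring
    have hQne : ∀ᶠ y in (U : Filter (T × ℂ)), Q.eval y.2 ≠ 0 := by
      have := hQD.eventually_ne one_ne_zero
      filter_upwards [this] with y hy h0
      rw [h0, zero_div] at hy
      exact hy rfl
    have hzne : ∀ᶠ y in (U : Filter (T × ℂ)), y.2 - a ≠ 0 := by
      filter_upwards [hQne] with y hy h0
      apply hy
      rw [eval_pole hp, h0, zero_pow (by omega), zero_mul]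
    -- h p Q' / D^2 → 1
    have h1 : Tendsto (fun y : T × ℂ => s.h y.1 * s.p y.1 y.2 * (derivative Q).eval y.2 /
        s.den y.1 y.2 ^ 2) U (𝓝 1) := by
      have h2 : Tendsto (fun y : T × ℂ => 1 + s.dp y.1 y.2 * ((s.h y.1 : ℂ) / s.den y.1 y.2) -
          s.p y.1 y.2 * s.db y.1 y.2 * ((s.h y.1 : ℂ) / s.den y.1 y.2) ^ 2) U (𝓝 1) := by
        have := ((hdp.mul hr).const_add 1).sub ((hpl.mul hdb).mul (hr.pow 2))
        simpa using this
      refine h2.congr' ?_
      filter_upwards [hDne, hc] with y hy hy2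
      unfold Sys.crit at hy2
      rw [eq_div_iff (pow_ne_zero 2 hy)]
      field_simp
      linear_combination hy2
    have h2 : Tendsto (fun y : T × ℂ => s.h y.1 * s.p y.1 y.2 * (derivative Q).eval y.2 /
        Q.eval y.2 ^ 2) U (𝓝 1) := by
      have h3 := h1.div (hQD.pow 2) (by norm_num)
      rw [one_pow, div_one] at h3
      refine h3.congr' ?_
      filter_upwards [hDne, hQne] with y hy hy2
      simp only [Pi.div_apply]
      field_simp
    -- h / (z - a)^(m+1)
    have h3 : Tendsto (fun y : T × ℂ => (s.h y.1 : ℂ) / (y.2 - a) ^ (m + 1)) U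
        (𝓝 (q.eval a / (m * P.eval a))) := by
      have hG : Tendsto (fun y : T × ℂ => s.p y.1 y.2 * ((m : ℂ) * q.eval y.2 +
          (y.2 - a) * (derivative q).eval y.2) / q.eval y.2 ^ 2) U
          (𝓝 (P.eval a * (m * q.eval a) / q.eval a ^ 2)) :=
        (hpl.mul hfac).div (hql.pow 2) (pow_ne_zero 2 hqa)
      have hGne : P.eval a * (m * q.eval a) / q.eval a ^ 2 ≠ 0 :=
        div_ne_zero (mul_ne_zero hPa hfa) (pow_ne_zero 2 hqa)
      have h4 := h2.div hG hGne
      have e : 1 / (P.eval a * (m * q.eval a) / q.eval a ^ 2) = q.eval a / (m * P.eval a) := by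
        field_simp
      rw [e] at h4
      refine h4.congr' ?_
      filter_upwards [hzne, hQne, hG.eventually_ne hGne] with y hy hy2 hy3
      simp only [Pi.div_apply]
      rw [eval_pole hp] at hy2 ⊢
      rw [deriv_pole hp]
      have hqy : q.eval y.2 ≠ 0 := right_ne_zero_of_mul hy2
      have hfy : (m : ℂ) * q.eval y.2 + (y.2 - a) * (derivative q).eval y.2 ≠ 0 := by
        intro h0
        apply hy3
        rw [h0, mul_zero, zero_div]
      have hpy : s.p y.1 y.2 ≠ 0 := by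
        intro h0
        apply hy3
        rw [h0, zero_mul, zero_div]
      obtain ⟨n, rfl⟩ : ∃ n, m = n + 1 := ⟨m - 1, by omega⟩
      simp only [Nat.add_sub_cancel] at hfy ⊢
      rw [div_eq_iff (div_ne_zero (mul_ne_zero hpy hfy) (pow_ne_zero 2 hqy))]
      rw [div_mul_div_comm, div_eq_div_iff (pow_ne_zero 2 (mul_ne_zero (pow_ne_zero _ hy) hqy))
        (mul_ne_zero (pow_ne_zero _ hy) (pow_ne_zero 2 hqy))]
      ring
    have h4 : Tendsto (fun y : T × ℂ => (y.2 - a) ^ (m + 1) / (s.h y.1 : ℂ)) U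
        (𝓝 (m * P.eval a / q.eval a)) := by
      have h5 := h3.inv₀ (div_ne_zero hqa (mul_ne_zero hm0 hPa))
      rw [inv_div] at h5
      refine h5.congr (fun y => ?_)
      rw [inv_div]
    have hk : Tendsto (fun y : T × ℂ => k y.2) U (𝓝 (k a)) := hp.kcont.tendsto.comp hsnd
    have h5 := h4.mul hk
    have e : m * P.eval a / q.eval a * k a = (m : ℂ) / (m + 1) := by
      rw [hp.ka]
      field_simp
    rw [e] at h5
    refine h5.congr' ?_
    filter_upwards [hsnd.eventually (ball_mem_nhds a hp.hρ)] with y hy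
    rw [hp.hk _ hy]
    ring
  · -- case (B)
    right
    push Not at hcase
    obtain ⟨n, hn⟩ := hcase
    have hlt : ∀ᶠ y in (U : Filter (T × ℂ)), ‖s.den y.1 y.2‖ < (n : ℝ) * s.h y.1 := hn
    set C0 : ℝ := ‖(derivative P).eval a‖ + 1 with hC0
    set C1 : ℝ := ‖(derivative B).eval a‖ + 1 with hC1
    have e1 : ∀ᶠ y in (U : Filter (T × ℂ)), ‖s.dp y.1 y.2‖ < C0 :=
      hdp.norm.eventually (gt_mem_nhds (by rw [hC0]; linarith))
    have e2 : ∀ᶠ y in (U : Filter (T × ℂ)), ‖s.db y.1 y.2‖ < C1 :=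
      hdb.norm.eventually (gt_mem_nhds (by rw [hC1]; linarith))
    have hPn : 0 < ‖P.eval a‖ := norm_pos_iff.2 hPa
    have e3 : ∀ᶠ y in (U : Filter (T × ℂ)), ‖P.eval a‖ / 2 < ‖s.p y.1 y.2‖ :=
      hpl.norm.eventually (lt_mem_nhds (by linarith))
    have hC0p : 0 < C0 := by rw [hC0]; positivity
    have hC1p : 0 < C1 := by rw [hC1]; positivity
    set C2 : ℝ := n * (n + C0) / (‖P.eval a‖ / 2) + C1 with hC2
    have hQ' : ∀ᶠ y in (U : Filter (T × ℂ)), ‖(derivative Q).eval y.2‖ ≤ C2 * s.h y.1 := by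
      filter_upwards [hlt, e1, e2, e3, hpos, hc] with y y1 y2 y3 y4 y5 y6
      unfold Sys.crit at y6
      have h1 : (s.h y.1 : ℂ) * (s.p y.1 y.2 * ((derivative Q).eval y.2 +
          s.h y.1 * s.db y.1 y.2)) = s.den y.1 y.2 * (s.den y.1 y.2 + s.h y.1 * s.dp y.1 y.2) := by
        linear_combination -y6
      have h2 : s.h y.1 * (‖s.p y.1 y.2‖ * ‖(derivative Q).eval y.2 + s.h y.1 * s.db y.1 y.2‖) ≤
          (n * s.h y.1) * (n * s.h y.1 + s.h y.1 * C0) := by
        have h3 := congrArg norm h1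
        rw [norm_mul, norm_mul, norm_mul, Complex.norm_real, Real.norm_eq_abs,
          abs_of_pos y5] at h3
        rw [h3]
        have h4 : ‖s.den y.1 y.2 + s.h y.1 * s.dp y.1 y.2‖ ≤ n * s.h y.1 + s.h y.1 * C0 := by
          refine (norm_add_le _ _).trans ?_
          rw [norm_mul, Complex.norm_real, Real.norm_eq_abs, abs_of_pos y5]
          gcongr
        gcongr
      have h3 : ‖s.p y.1 y.2‖ * ‖(derivative Q).eval y.2 + s.h y.1 * s.db y.1 y.2‖ ≤
          n * (n + C0) * s.h y.1 := by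
        have h4 : s.h y.1 * (‖s.p y.1 y.2‖ * ‖(derivative Q).eval y.2 +
            s.h y.1 * s.db y.1 y.2‖) ≤ s.h y.1 * (n * (n + C0) * s.h y.1) := by
          refine h2.trans (le_of_eq ?_)
          ring
        exact le_of_mul_le_mul_left h4 y5
      have h4 : ‖(derivative Q).eval y.2 + s.h y.1 * s.db y.1 y.2‖ ≤
          n * (n + C0) / (‖P.eval a‖ / 2) * s.h y.1 := by
        have h5 : ‖P.eval a‖ / 2 * ‖(derivative Q).eval y.2 + s.h y.1 * s.db y.1 y.2‖ ≤
            n * (n + C0) * s.h y.1 := by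
          refine le_trans ?_ h3
          gcongr
        rw [div_mul_eq_mul_div, le_div_iff₀ (by positivity)]
        linarith
      have h5 : ‖(derivative Q).eval y.2‖ ≤
          ‖(derivative Q).eval y.2 + s.h y.1 * s.db y.1 y.2‖ + s.h y.1 * C1 := by
        have h6 : (derivative Q).eval y.2 = ((derivative Q).eval y.2 + s.h y.1 * s.db y.1 y.2) -
            s.h y.1 * s.db y.1 y.2 := by ring
        have h7 := norm_sub_le ((derivative Q).eval y.2 + s.h y.1 * s.db y.1 y.2)
          (s.h y.1 * s.db y.1 y.2)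
        rw [← h6, norm_mul, Complex.norm_real, Real.norm_eq_abs, abs_of_pos y5] at h7
        refine h7.trans ?_
        gcongr
      rw [hC2, add_mul]
      linarith
    -- the factor is bounded below
    have hfn : 0 < ‖(m : ℂ) * q.eval a‖ := norm_pos_iff.2 hfa
    have e4 : ∀ᶠ y in (U : Filter (T × ℂ)), ‖(m : ℂ) * q.eval a‖ / 2 <
        ‖(m : ℂ) * q.eval y.2 + (y.2 - a) * (derivative q).eval y.2‖ :=
      hfac.norm.eventually (lt_mem_nhds (by linarith))
    set C3 : ℝ := C2 / (‖(m : ℂ) * q.eval a‖ / 2) with hC3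
    have hzm : ∀ᶠ y in (U : Filter (T × ℂ)), ‖y.2 - a‖ ^ (m - 1) ≤ C3 * s.h y.1 := by
      filter_upwards [hQ', e4] with y y1 y2
      rw [deriv_pole hp, norm_mul, norm_pow] at y1
      have h1 : ‖y.2 - a‖ ^ (m - 1) * (‖(m : ℂ) * q.eval a‖ / 2) ≤ C2 * s.h y.1 := by
        refine le_trans ?_ y1
        gcongr
      rw [hC3, div_mul_eq_mul_div, le_div_iff₀ (by positivity)]
      exact h1
    have hm2 : 2 ≤ m := by
      by_contra hcon
      have hm1' : m = 1 := by omega
      have h1 : Tendsto (fun y : T × ℂ => C3 * s.h y.1) U (𝓝 (C3 * 0)) := hh.const_mul C3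
      rw [mul_zero] at h1
      have h2 := h1.eventually (gt_mem_nhds (one_pos (α := ℝ)))
      obtain ⟨y, y1, y2⟩ := (h2.and hzm).exists
      rw [hm1', Nat.sub_self, pow_zero] at y2
      linarith
    have hBa := hB hm2
    have hQh : Tendsto (fun y : T × ℂ => Q.eval y.2 / (s.h y.1 : ℂ)) U (𝓝 0) := by
      have h1 : Tendsto (fun y : T × ℂ => ‖y.2 - a‖ * (C3 * ‖q.eval y.2‖)) U (𝓝 0) := by
        have := hza.norm.mul (hql.norm.const_mul C3)
        simpa using this
      refine squeeze_zero_norm' ?_ h1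
      filter_upwards [hzm, hpos] with y y1 y2
      rw [eval_pole hp, norm_div, norm_mul, norm_pow, Complex.norm_real, Real.norm_eq_abs,
        abs_of_pos y2, div_le_iff₀ y2]
      obtain ⟨j, rfl⟩ : ∃ j, m = j + 1 := ⟨m - 1, by omega⟩
      simp only [Nat.add_sub_cancel] at y1
      calc ‖y.2 - a‖ ^ (j + 1) * ‖q.eval y.2‖ = ‖y.2 - a‖ ^ j * (‖y.2 - a‖ * ‖q.eval y.2‖) := by
            ring
        _ ≤ C3 * s.h y.1 * (‖y.2 - a‖ * ‖q.eval y.2‖) := by gcongr
        _ = _ := by ring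
    have hDh : Tendsto (fun y : T × ℂ => s.den y.1 y.2 / (s.h y.1 : ℂ)) U (𝓝 (B.eval a)) := by
      have h1 := hQh.add hbl
      rw [zero_add] at h1
      refine h1.congr' ?_
      filter_upwards [hpos] with y hy
      have : (s.h y.1 : ℂ) ≠ 0 := by exact_mod_cast hy.ne'
      unfold Sys.den
      field_simp
    refine ⟨hm2, ?_, ?_⟩
    · filter_upwards [hDh.eventually_ne hBa] with y hy h0
      apply hy
      rw [h0, zero_div]
    · have h1 := hsnd.add (hpl.div hDh hBa)
      refine h1.congr' ?_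
      filter_upwards [hDh.eventually_ne hBa, hpos] with y hy y2
      have h3 : (s.h y.1 : ℂ) ≠ 0 := by exact_mod_cast y2.ne'
      have h4 : s.den y.1 y.2 ≠ 0 := by
        intro h0
        apply hy
        rw [h0, zero_div]
      unfold Sys.g
      simp only [Pi.div_apply]
      congr 1
      field_simp

end Pool.Agent.H79.Eul
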