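import Pool.Agent.H79.Eul.PhiLocal
import Pool.Agent.H79.Eul.Cpt

set_option autoImplicit false

open Filter Topology Polynomial Metric Set

namespace Pool.Agent.H79.Eul

open Pool.Agent.H44.Fatou Pool.Agent.H32.BT

/-
PROOF of macro_end. E = {z ∈ closedBall a r | Φ z = t0} is compact (Φ is continuous on ball a ρ) and all its
points are Good (hG). For every z ∈ closedBall a r there are a neighbourhood N z and η z > 0 such that
eventually in l ×ˢ 𝓝 z: (‖Φ w - t0‖ < η z → att τ w): if Φ z = t0 this is Good; if Φ z ≠ t0 then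
‖Φ w - t0‖ > ‖Φ z - t0‖/2 near z. By compactness finitely many suffice; η = the minimum.
(Formally: IsCompact.induction_on with the property of S: ∃ η > 0, ∀ᶠ τ in l, ∀ w ∈ S, ... as in
the proof of ev_compact in Cpt.lean.)
-/

theorem macro_end {T : Type} {l : Filter T} {P Q B : Polynomial ℂ} (s : Sys T l P Q B)
    {q : Polynomial ℂ} {a : ℂ} {m : ℕ} {ρ : ℝ} {Φ k : ℂ → ℂ} (hp : Pole P Q q a m ρ Φ k)
    (hG : ∀ z ∈ ball a ρ, ∀ t : ℝ, 0 < t → Φ z = t → s.Good z) {r t0 : ℝ} (hr : r < ρ)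
    (ht0 : 0 < t0) : ∃ η : ℝ, 0 < η ∧ ∀ᶠ τ in l, ∀ z ∈ closedBall a r,
      ‖Φ z - t0‖ < η → s.att τ z := by
  have hK : IsCompact (closedBall a r) := isCompact_closedBall a r
  have hsub : closedBall a r ⊆ ball a ρ := closedBall_subset_ball hr
  refine hK.induction_on (p := fun S => ∃ η : ℝ, 0 < η ∧ ∀ᶠ τ in l, ∀ z ∈ S,
    ‖Φ z - t0‖ < η → s.att τ z) ?_ ?_ ?_ ?_
  · exact ⟨1, one_pos, Eventually.of_forall fun _ z hz => hz.elim⟩
  · rintro S S' hS ⟨η, hη, h'⟩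
    exact ⟨η, hη, h'.mono fun τ hτ z hz => hτ z (hS hz)⟩
  · rintro S S' ⟨η, hη, h1⟩ ⟨η', hη', h2⟩
    refine ⟨min η η', lt_min hη hη', ?_⟩
    filter_upwards [h1, h2] with τ h1 h2 z hz hzz
    rcases hz with hz | hz
    · exact h1 z hz (lt_of_lt_of_le hzz (min_le_left _ _))
    · exact h2 z hz (lt_of_lt_of_le hzz (min_le_right _ _))
  · intro z hz
    by_cases hzt : Φ z = t0
    · have hgood := hG z (hsub hz) t0 ht0 hzt
      unfold Sys.Good at hgood
      rw [Filter.eventually_iff, mem_prod_iff] at hgood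
      obtain ⟨A, hA, N, hN, hNA⟩ := hgood
      refine ⟨N, mem_nhdsWithin_of_mem_nhds hN, 1, one_pos, ?_⟩
      filter_upwards [hA] with τ hτ w hw _
      exact hNA (mk_mem_prod hτ hw)
    · have hc : ContinuousAt Φ z := (hp.deriv z (hsub hz)).continuousAt
      have hpos : 0 < ‖Φ z - t0‖ := norm_pos_iff.2 (sub_ne_zero.2 hzt)
      have hev : ∀ᶠ w in 𝓝 z, ‖Φ z - t0‖ / 2 < ‖Φ w - t0‖ := by
        have h1 : Tendsto (fun w => ‖Φ w - t0‖) (𝓝 z) (𝓝 ‖Φ z - t0‖) :=
          (hc.sub continuousAt_const).norm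
        exact h1.eventually (lt_mem_nhds (by linarith))
      refine ⟨{w | ‖Φ z - t0‖ / 2 < ‖Φ w - t0‖}, mem_nhdsWithin_of_mem_nhds hev,
        ‖Φ z - t0‖ / 2, by linarith, ?_⟩
      exact Eventually.of_forall fun τ w hw hw' => absurd hw' (not_lt.2 (le_of_lt hw))

end Pool.Agent.H79.Eul
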