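import Pool.Agent.H79.Eul.MacroStep
import Pool.Agent.H79.Eul.MacroEnd

set_option autoImplicit false

open Filter Topology Polynomial Metric Set

namespace Pool.Agent.H79.Eul

open Pool.Agent.H44.Fatou Pool.Agent.H32.BT

/-
PROOF of macro_iter. Let ρ1, K, C0 be from macro_step. Choose t0 > 0 so small that
C0 * 4 t0 ≤ (ρ1/2)^(m+1), so z ∈ ball a ρ1, ‖Φ z‖ ≤ 4 t0 imply ‖z - a‖ ≤ ρ1/2. By macro_end
(r = ρ1/2) there is η > 0 such that eventually att τ z for all z ∈ closedBall a (ρ1/2) with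
‖Φ z - t0‖ < η. Take N0 ≥ 2 K + 2 with 2 C0/N0 ≤ 1/8 and (2 C0/N0) t0 < η/4; δ ≤ 1/8 with δ t0 < η/4.
Let x ≥ N0, ρ2 = ρ1/2, z ∈ ball a ρ2 with ‖Φ z/h - x‖ < 1, h small (depending on x).
Put z_n = (g τ)^[n] z, X_n = Φ(z_n)/h. By induction for n h ≤ t0:
z_n ∈ closedBall a (ρ1/2), den ≠ 0 along the way, ‖X_n - X_0 - n‖ ≤ n (δ + 2 C0/N0) ≤ n/4, hence
Re X_n ≥ x - 1 ≥ N0/2 ≥ K (so C0/‖X_n‖ ≤ 2 C0/N0) and ‖Φ z_n‖ ≤ h (x + 1) + (5/4) t0 ≤ 4 t0;
z_(n+1): ‖z_(n+1) - a‖ ≤ (3/2) ‖z_n - a‖ < ρ1, so z_(n+1) ∈ ball a ρ1 and the bound on Φ puts it in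
closedBall a (ρ1/2). For n = ⌊t0/h⌋: ‖Φ z_n - t0‖ ≤ h(x+1) + t0 (δ + 2C0/N0) + h < η, so att τ z_n and
backwards (s.step) att τ z.
-/

theorem macro_iter {T : Type} {l : Filter T} {P Q B : Polynomial ℂ} (s : Sys T l P Q B)
    {q : Polynomial ℂ} {a : ℂ} {m : ℕ} {ρ : ℝ} {Φ k : ℂ → ℂ} (hp : Pole P Q q a m ρ Φ k)
    (hG : ∀ z ∈ ball a ρ, ∀ t : ℝ, 0 < t → Φ z = t → s.Good z) :
    ∃ ρ2 N0 : ℝ, 0 < ρ2 ∧ ∀ x : ℝ, N0 ≤ x → ∀ᶠ τ in l, ∀ z ∈ ball a ρ2,
      ‖Φ z / s.h τ - x‖ < 1 → s.att τ z := by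
  obtain ⟨ρ1, K, C0, hρ1, hρ12, hK, hC0, hΦ, hstep⟩ := macro_step s hp
  have ht0' : ∃ t0 : ℝ, 0 < t0 ∧ C0 * (4 * t0) = (ρ1 / 2) ^ (m + 1) := by
    refine ⟨(ρ1 / 2) ^ (m + 1) / (4 * C0), by positivity, ?_⟩
    field_simp
  obtain ⟨t0, ht0, ht0e⟩ := ht0'
  obtain ⟨η, hη, hend⟩ := macro_end s hp hG (r := ρ1 / 2) (t0 := t0) (by linarith) ht0
  have hδ' : ∃ δ : ℝ, 0 < δ ∧ δ ≤ 1 / 8 ∧ δ * t0 ≤ η / 8 := by
    refine ⟨min (1 / 8) (η / (8 * t0)), by positivity, min_le_left _ _, ?_⟩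
    calc min (1 / 8) (η / (8 * t0)) * t0 ≤ (η / (8 * t0)) * t0 :=
          mul_le_mul_of_nonneg_right (min_le_right _ _) ht0.le
      _ = η / 8 := by field_simp
  obtain ⟨δ, hδ, hδ8, hδt⟩ := hδ'
  have hN' : ∃ N0 : ℝ, 2 * K + 2 ≤ N0 ∧ 2 * C0 / N0 ≤ 1 / 8 ∧ 2 * C0 / N0 * t0 ≤ η / 8 := by
    refine ⟨max (2 * K + 2) (max (16 * C0) (16 * C0 * t0 / η)), le_max_left _ _, ?_, ?_⟩
    · have h1 : 16 * C0 ≤ max (2 * K + 2) (max (16 * C0) (16 * C0 * t0 / η)) :=
        le_trans (le_max_left _ _) (le_max_right _ _)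
      have h2 : 0 < max (2 * K + 2) (max (16 * C0) (16 * C0 * t0 / η)) :=
        lt_of_lt_of_le (by positivity) h1
      rw [div_le_iff₀ h2]
      linarith
    · have h1 : 16 * C0 * t0 / η ≤ max (2 * K + 2) (max (16 * C0) (16 * C0 * t0 / η)) :=
        le_trans (le_max_right _ _) (le_max_right _ _)
      have h2 : 0 < max (2 * K + 2) (max (16 * C0) (16 * C0 * t0 / η)) :=
        lt_of_lt_of_le (by positivity) h1
      rw [div_mul_eq_mul_div, div_le_iff₀ h2]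
      rw [div_le_iff₀ hη] at h1
      linarith
  obtain ⟨N0, hN0K, hN08, hN0t⟩ := hN'
  have hN0 : 0 < N0 := by linarith
  refine ⟨ρ1 / 2, N0, by positivity, ?_⟩
  intro x hx
  have hsm : ∀ᶠ τ in l, s.h τ * (x + 2) ≤ min t0 (η / 4) := by
    have h1 : Tendsto (fun τ => s.h τ * (x + 2)) l (𝓝 (0 * (x + 2))) :=
      s.h_lim.mul_const _
    rw [zero_mul] at h1
    have h2 : (0 : ℝ) < min t0 (η / 4) := by positivity
    exact (h1.eventually_lt_const h2).mono fun τ h => h.le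
  filter_upwards [hstep δ hδ, hend, s.step, s.h_pos, hsm] with τ h1 h2 h3 h4 h5
  intro z hz hzx
  set h : ℝ := s.h τ with hh
  have h5a : h * (x + 2) ≤ t0 := h5.trans (min_le_left _ _)
  have h5b : h * (x + 2) ≤ η / 4 := h5.trans (min_le_right _ _)
  have hhc : (h : ℂ) ≠ 0 := by
    exact_mod_cast h4.ne'
  have hzx' : ‖Φ z - h * x‖ < h := by
    have e : Φ z - h * x = (Φ z / h - x) * h := by
      field_simp
    rw [e, norm_mul, Complex.norm_real, Real.norm_of_nonneg h4.le]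
    calc ‖Φ z / h - x‖ * h < 1 * h := mul_lt_mul_of_pos_right hzx h4
      _ = h := one_mul h
  have hΦz : ‖Φ z‖ ≤ h * (x + 1) := by
    have e : Φ z = (Φ z - h * x) + h * x := by ring
    have e2 : ‖((h : ℂ) * (x : ℂ))‖ = h * x := by
      rw [norm_mul, Complex.norm_real, Complex.norm_real, Real.norm_of_nonneg h4.le,
        Real.norm_of_nonneg (by linarith)]
    calc ‖Φ z‖ = ‖(Φ z - h * x) + h * x‖ := by rw [← e]
      _ ≤ ‖Φ z - h * x‖ + ‖((h : ℂ) * (x : ℂ))‖ := norm_add_le _ _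
      _ ≤ h + h * x := by rw [e2]; linarith
      _ = h * (x + 1) := by ring
  have hre : h * (x - 1) ≤ (Φ z).re := by
    have h6 : |(Φ z - h * x).re| ≤ ‖Φ z - h * x‖ := Complex.abs_re_le_norm _
    have h7 : (Φ z - h * x).re = (Φ z).re - h * x := by
      simp
    rw [h7] at h6
    have h8 := (abs_le.mp (h6.trans hzx'.le)).1
    linarith
  set ε : ℝ := δ + 2 * C0 / N0 with hε
  have hε0 : 0 ≤ ε := by positivity
  have hε4 : ε ≤ 1 / 4 := by linarith
  have key : ∀ n : ℕ, n * h ≤ t0 →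
      ‖(s.g τ)^[n] z - a‖ ≤ ρ1 / 2 ∧ ‖Φ ((s.g τ)^[n] z) - Φ z - n * h‖ ≤ n * h * ε ∧
        (s.att τ ((s.g τ)^[n] z) → s.att τ z) := by
    intro n
    induction n with
    | zero =>
      intro _
      refine ⟨?_, ?_, ?_⟩
      · rw [Function.iterate_zero, id]
        have := mem_ball.mp hz
        rw [dist_eq_norm] at this
        exact this.le
      · simp
      · simp
    | succ n ih =>
      intro hn
      have hn1 : (n : ℝ) * h ≤ t0 := by
        push_cast at hn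
        linarith
      obtain ⟨i1, i2, i3⟩ := ih hn1
      set w : ℂ := (s.g τ)^[n] z with hw
      have hnn : (0 : ℝ) ≤ n * h := by positivity
      have hwre : h * (x - 1) ≤ (Φ w).re := by
        have h6 : |(Φ w - Φ z - n * h).re| ≤ ‖Φ w - Φ z - n * h‖ := Complex.abs_re_le_norm _
        have h7 : (Φ w - Φ z - n * h).re = (Φ w).re - (Φ z).re - n * h := by
          simp
        rw [h7] at h6
        have h8 := (abs_le.mp (h6.trans i2)).1
        have h9 : n * h * ε ≤ n * h * 1 := mul_le_mul_of_nonneg_left (by linarith) hnn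
        linarith
      have hwn : h * (N0 / 2) ≤ ‖Φ w‖ := by
        calc h * (N0 / 2) ≤ h * (x - 1) := mul_le_mul_of_nonneg_left (by linarith) h4.le
          _ ≤ (Φ w).re := hwre
          _ ≤ ‖Φ w‖ := Complex.re_le_norm _
      have hwK : K * h ≤ ‖Φ w‖ := by
        refine le_trans ?_ hwn
        calc K * h = h * K := mul_comm _ _
          _ ≤ h * (N0 / 2) := mul_le_mul_of_nonneg_left (by linarith) h4.le
      have hwball : w ∈ ball a ρ1 := by
        rw [mem_ball, dist_eq_norm]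
        linarith
      obtain ⟨j1, j2, j3⟩ := h1 w hwball hwK
      have hfr : C0 * h / ‖Φ w‖ ≤ 2 * C0 / N0 := by
        have hpos : 0 < h * (N0 / 2) := by positivity
        rw [div_le_div_iff₀ (lt_of_lt_of_le hpos hwn) hN0]
        calc C0 * h * N0 = 2 * C0 * (h * (N0 / 2)) := by ring
          _ ≤ 2 * C0 * ‖Φ w‖ := mul_le_mul_of_nonneg_left hwn (by positivity)
      have j3' : ‖Φ (s.g τ w) - Φ w - h‖ ≤ h * ε := by
        refine j3.trans (mul_le_mul_of_nonneg_left ?_ h4.le)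
        rw [hε]
        linarith
      have hit : (s.g τ)^[n + 1] z = s.g τ w := by
        rw [Function.iterate_succ_apply']
      rw [hit]
      have k2 : ‖Φ (s.g τ w) - Φ z - ((n + 1 : ℕ) : ℂ) * h‖ ≤ ((n + 1 : ℕ) : ℝ) * h * ε := by
        have e : Φ (s.g τ w) - Φ z - ((n + 1 : ℕ) : ℂ) * h =
            (Φ (s.g τ w) - Φ w - h) + (Φ w - Φ z - n * h) := by
          push_cast
          ring
        rw [e]
        refine (norm_add_le _ _).trans ?_
        push_cast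
        linarith
      have hwball' : ‖s.g τ w - a‖ < ρ1 := by
        have e : s.g τ w - a = (s.g τ w - w) + (w - a) := by ring
        rw [e]
        refine lt_of_le_of_lt (norm_add_le _ _) ?_
        linarith
      have hnΦ : ‖Φ (s.g τ w)‖ ≤ 4 * t0 := by
        have e : Φ (s.g τ w) = (Φ (s.g τ w) - Φ z - ((n + 1 : ℕ) : ℂ) * h) + Φ z +
            ((n + 1 : ℕ) : ℂ) * h := by ring
        have e2 : ‖((n + 1 : ℕ) : ℂ) * (h : ℂ)‖ = ((n + 1 : ℕ) : ℝ) * h := by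
          rw [norm_mul, Complex.norm_natCast, Complex.norm_real, Real.norm_of_nonneg h4.le]
        have hnn' : (0 : ℝ) ≤ ((n + 1 : ℕ) : ℝ) * h := by positivity
        have e3 : ((n + 1 : ℕ) : ℝ) * h * ε ≤ ((n + 1 : ℕ) : ℝ) * h * (1 / 4) :=
          mul_le_mul_of_nonneg_left hε4 hnn'
        rw [e]
        refine (norm_add₃_le).trans ?_
        rw [e2]
        have e4 : h * (x + 1) ≤ t0 := by
          refine le_trans ?_ h5a
          exact mul_le_mul_of_nonneg_left (by linarith) h4.le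
        linarith
      have hball2 : ‖s.g τ w - a‖ ≤ ρ1 / 2 := by
        have k3 := (hΦ (s.g τ w) (by rw [mem_ball, dist_eq_norm]; exact hwball')).1
        have k4 : ‖s.g τ w - a‖ ^ (m + 1) ≤ (ρ1 / 2) ^ (m + 1) := by
          refine k3.trans ?_
          rw [← ht0e]
          exact mul_le_mul_of_nonneg_left hnΦ hC0.le
        exact (pow_le_pow_iff_left₀ (norm_nonneg _) (by positivity) (by omega)).mp k4
      refine ⟨hball2, k2, ?_⟩
      intro hatt
      exact i3 (h3 w j1 hatt)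
  set n : ℕ := ⌊t0 / h⌋₊ with hn
  have hn1 : (n : ℝ) * h ≤ t0 := by
    have := Nat.floor_le (show 0 ≤ t0 / h by positivity)
    rw [← hn] at this
    rwa [le_div_iff₀ h4] at this
  have hn2 : t0 < ((n : ℝ) + 1) * h := by
    have := Nat.lt_floor_add_one (t0 / h)
    rw [← hn] at this
    rwa [div_lt_iff₀ h4] at this
  obtain ⟨k1, k2, k3⟩ := key n hn1
  apply k3
  apply h2
  · rw [mem_closedBall, dist_eq_norm]
    exact k1
  · have e : Φ ((s.g τ)^[n] z) - t0 = (Φ ((s.g τ)^[n] z) - Φ z - n * h) + Φ z +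
        (((n * h - t0 : ℝ)) : ℂ) := by
      push_cast
      ring
    rw [e]
    refine lt_of_le_of_lt (norm_add₃_le) ?_
    have e2 : ‖(((n * h - t0 : ℝ)) : ℂ)‖ ≤ h := by
      rw [Complex.norm_real, Real.norm_eq_abs, abs_le]
      constructor <;> linarith
    have e3 : n * h * ε ≤ η / 4 := by
      calc n * h * ε ≤ t0 * ε := mul_le_mul_of_nonneg_right hn1 hε0
        _ = δ * t0 + 2 * C0 / N0 * t0 := by rw [hε]; ring
        _ ≤ η / 4 := by linarith
    linarith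

end Pool.Agent.H79.Eul
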