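import Pool.Agent.H79.Eul.MicroStep
import Pool.Agent.H79.Eul.MacroIter
import Pool.Agent.H79.Eul.Dichotomy

set_option autoImplicit false

open Filter Topology Polynomial Metric Set

namespace Pool.Agent.H79.Eul

open Pool.Agent.H44.Fatou Pool.Agent.H32.BT

/-- the limit orbit -/
noncomputable def xs (m : ℕ) : ℕ → ℝ
  | 0 => (m : ℝ) / (m + 1)
  | n + 1 => xs m n * (1 + 1 / ((m + 1) * xs m n)) ^ (m + 1)

theorem xs_pos {m : ℕ} (hm : 1 ≤ m) : ∀ n, 0 < xs m n
  | 0 => by
    have : (0 : ℝ) < m := by exact_mod_cast hm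
    show 0 < (m : ℝ) / (m + 1)
    positivity
  | n + 1 => by
    have h := xs_pos hm n
    show 0 < xs m n * (1 + 1 / ((m + 1) * xs m n)) ^ (m + 1)
    positivity

theorem xs_succ {m : ℕ} (hm : 1 ≤ m) (n : ℕ) : xs m n + 1 ≤ xs m (n + 1) := by
  have h := xs_pos hm n
  have h1 : (1 : ℝ) + ((m + 1 : ℕ) : ℝ) * (1 / ((m + 1) * xs m n)) ≤
      (1 + 1 / ((m + 1) * xs m n)) ^ (m + 1) := by
    apply one_add_mul_le_pow
    have : 0 < 1 / ((m + 1) * xs m n) := by positivity
    linarith
  have h2 : (1 : ℝ) + ((m + 1 : ℕ) : ℝ) * (1 / ((m + 1) * xs m n)) = 1 + 1 / xs m n := by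
    push_cast
    field_simp
  rw [h2] at h1
  calc xs m n + 1 = xs m n * (1 + 1 / xs m n) := by field_simp
    _ ≤ xs m n * (1 + 1 / ((m + 1) * xs m n)) ^ (m + 1) := by gcongr
    _ = xs m (n + 1) := rfl

theorem xs_large {m : ℕ} (hm : 1 ≤ m) (n : ℕ) : (n : ℝ) ≤ xs m n := by
  induction n with
  | zero => simpa using (xs_pos hm 0).le
  | succ n ih =>
    have := xs_succ hm n
    push_cast
    linarith

/-- all critical points near a pole are attracted -/
theorem near_pole {T : Type} {l : Filter T} {P Q B : Polynomial ℂ} (s : Sys T l P Q B)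
    {q : Polynomial ℂ} {a : ℂ} {m : ℕ} {ρ : ℝ} {Φ k : ℂ → ℂ} (hp : Pole P Q q a m ρ Φ k)
    (hG : ∀ z ∈ ball a ρ, ∀ t : ℝ, 0 < t → Φ z = t → s.Good z)
    (hB : 2 ≤ m → B.eval a ≠ 0 ∧ s.Good (a + P.eval a / B.eval a)) :
    ∀ᶠ y : T × ℂ in l ×ˢ 𝓝 a, s.crit y.1 y.2 → s.att y.1 y.2 := by
  rw [Filter.eventually_iff, Filter.mem_iff_ultrafilter]
  intro U hU
  by_contra hcon
  rw [← Ultrafilter.compl_mem_iff_notMem] at hcon
  have hcrit : ∀ᶠ y in (U : Filter (T × ℂ)), s.crit y.1 y.2 := by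
    filter_upwards [hcon] with y hy
    by_contra h
    exact hy (fun h' => absurd h' h)
  have hnatt : ∀ᶠ y in (U : Filter (T × ℂ)), ¬ s.att y.1 y.2 := by
    filter_upwards [hcon] with y hy h
    exact hy (fun _ => h)
  have hfst : Tendsto (fun y : T × ℂ => y.1) U l := tendsto_fst.mono_left hU
  have hstep : ∀ᶠ y in (U : Filter (T × ℂ)), ∀ z : ℂ, s.den y.1 z ≠ 0 →
      s.att y.1 (s.g y.1 z) → s.att y.1 z := hfst.eventually s.step
  rcases dichotomy s hp (fun h => (hB h).1) U hU hcrit with hA | ⟨h2, hden, hlim⟩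
  · -- microscopic phase
    have key : ∀ n : ℕ, Tendsto (fun y : T × ℂ => Φ ((s.g y.1)^[n] y.2) / s.h y.1) U
        (𝓝 ((xs m n : ℝ) : ℂ)) ∧ Tendsto (fun y : T × ℂ => (s.g y.1)^[n] y.2) U (𝓝 a) ∧
        ∀ᶠ y in (U : Filter (T × ℂ)), s.att y.1 ((s.g y.1)^[n] y.2) → s.att y.1 y.2 := by
      intro n
      induction n with
      | zero =>
        refine ⟨?_, tendsto_snd.mono_left hU, Eventually.of_forall fun y h => h⟩
        have : ((xs m 0 : ℝ) : ℂ) = (m : ℂ) / (m + 1) := by
          show (((m : ℝ) / (m + 1) : ℝ) : ℂ) = _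
          push_cast
          rfl
        rw [this]
        exact hA
      | succ n ih =>
        obtain ⟨h1, h2, h3⟩ := ih
        have hx : ((xs m n : ℝ) : ℂ) ≠ 0 := by
          exact_mod_cast (xs_pos hp.hm n).ne'
        set G : Filter (T × ℂ) := map (fun y : T × ℂ => (y.1, (s.g y.1)^[n] y.2)) U with hGdef
        have hGle : G ≤ l ×ˢ 𝓝 a := hfst.prodMk h2
        have hmic := micro_step s hp (G := G) hGle hx (by
          rw [hGdef, tendsto_map'_iff]
          exact h1)
        obtain ⟨m1, m2, m3⟩ := hmic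
        rw [hGdef, tendsto_map'_iff] at m1 m2
        rw [hGdef, eventually_map] at m3
        refine ⟨?_, ?_, ?_⟩
        · have e : ((xs m (n + 1) : ℝ) : ℂ) =
              (xs m n : ℂ) * (1 + 1 / ((m + 1) * (xs m n : ℂ))) ^ (m + 1) := by
            show ((xs m n * (1 + 1 / ((m + 1) * xs m n)) ^ (m + 1) : ℝ) : ℂ) = _
            push_cast
            rfl
          rw [e]
          refine m1.congr (fun y => ?_)
          simp only [Function.comp_apply, Function.iterate_succ_apply']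
        · refine m2.congr (fun y => ?_)
          simp only [Function.comp_apply, Function.iterate_succ_apply']
        · filter_upwards [h3, m3, hstep] with y y1 y2 y3 y4
          apply y1
          apply y3 _ y2
          rw [Function.iterate_succ_apply'] at y4
          exact y4
    obtain ⟨ρ2, N0, hρ2, hmac⟩ := macro_iter s hp hG
    obtain ⟨n, hn⟩ := exists_nat_ge N0
    obtain ⟨k1, k2, k3⟩ := key n
    have h1 := hfst.eventually (hmac (xs m n) (hn.trans (xs_large hp.hm n)))
    have h2 := k2.eventually (ball_mem_nhds a hρ2)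
    have h3 := k1.eventually (ball_mem_nhds _ one_pos)
    obtain ⟨y, y1, y2, y3, y4, y5⟩ := (h1.and (h2.and (h3.and (k3.and hnatt)))).exists
    apply y5
    apply y4
    apply y1 _ y2
    rw [← dist_eq_norm]
    exact y3
  · -- thrown far away
    have hgood := (hB h2).2
    have h3 : Tendsto (fun y : T × ℂ => (y.1, s.g y.1 y.2)) U
        (l ×ˢ 𝓝 (a + P.eval a / B.eval a)) := hfst.prodMk hlim
    have h4 := h3.eventually hgood
    obtain ⟨y, y1, y2, y3, y4⟩ := (h4.and (hden.and (hstep.and hnatt))).exists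
    exact y4 (y3 _ y2 y1)

end Pool.Agent.H79.Eul
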