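import Pool.Agent.H79.Eul.PartFrac

set_option autoImplicit false

open Filter Topology Polynomial Metric Set

namespace Pool.Agent.H79.Eul

open Pool.Agent.H44.Fatou Pool.Agent.H32.BT

/-
PROOF of pole_chart. Φ z = ∑_{c ∈ Z P} res c * log ((z - c)/(a - c)). Take ρ > 0 with ρ ≤ ‖a - c‖ for all
c ∈ Z P and such that Q has no zero in ball a ρ except a (finitely many zeros). For z ∈ ball a ρ:
(z - c)/(a - c) = 1 + (z - a)/(a - c) ∈ ball 1 1 ⊆ slitPlane, so the logarithm is differentiable with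
derivative 1/(z - c), and Φ' = ∑ res c/(z - c) = Q/P by part_frac (P z ≠ 0 as z ≠ c for all c ∈ Z P).
Φ a = ∑ res c * log 1 = 0. If NoConn P Q a b, z ∈ ball a ρ, Φ z = t > 0, and l satisfies
exp (l c) = (b - c)/(z - c) with ∑ res c * l c = t' > 0 then l' c = l c + log ((z - c)/(a - c)) satisfies
exp (l' c) = (b - c)/(a - c) and ∑ res c * l' c = t' + t > 0, contradicting NoConn P Q a b.
-/

theorem pole_chart {P Q : Polynomial ℂ} (hsq : IsCoprime P (derivative P))
    (hdeg : Q.natDegree < P.natDegree) (hQ : Q ≠ 0) {a : ℂ} (hPa : P.eval a ≠ 0) :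
    ∃ (ρ : ℝ) (Φ : ℂ → ℂ), 0 < ρ ∧ Φ a = 0 ∧
      (∀ z ∈ ball a ρ, P.eval z ≠ 0 ∧ (z ≠ a → Q.eval z ≠ 0) ∧
        HasDerivAt Φ (Q.eval z / P.eval z) z) ∧
      ∀ b : ℂ, NoConn P Q a b → ∀ z ∈ ball a ρ, ∀ t : ℝ, 0 < t → Φ z = t → NoConn P Q z b := by
  classical
  have hP0 : P ≠ 0 := by
    rintro rfl
    simp at hdeg
  obtain ⟨ρ, hρ, hball⟩ : ∃ ρ > 0, ball a ρ ⊆ ((↑(Z P ∪ (Z Q).erase a) : Set ℂ))ᶜ := by
    apply Metric.mem_nhds_iff.1
    apply IsOpen.mem_nhds
    · exact (Finset.finite_toSet _).isClosed.isOpen_compl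
    · rw [Set.mem_compl_iff, Finset.mem_coe, Finset.mem_union, not_or]
      refine ⟨fun h => hPa ((mem_Z hP0).1 h), fun h => ?_⟩
      exact (Finset.mem_erase.1 h).1 rfl
  have hZP : ∀ z ∈ ball a ρ, P.eval z ≠ 0 := by
    intro z hz h
    apply hball hz
    rw [Finset.mem_coe, Finset.mem_union]
    exact Or.inl ((mem_Z hP0).2 h)
  have hZQ : ∀ z ∈ ball a ρ, z ≠ a → Q.eval z ≠ 0 := by
    intro z hz hza h
    apply hball hz
    rw [Finset.mem_coe, Finset.mem_union]
    exact Or.inr (Finset.mem_erase.2 ⟨hza, (mem_Z hQ).2 h⟩)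
  have hac : ∀ c ∈ Z P, a - c ≠ 0 := by
    intro c hc h
    have : a = c := by linear_combination h
    rw [this] at hPa
    exact hPa ((mem_Z hP0).1 hc)
  have hzc : ∀ z ∈ ball a ρ, ∀ c ∈ Z P, z - c ≠ 0 := by
    intro z hz c hc h
    have : z = c := by linear_combination h
    exact hZP z hz (this ▸ (mem_Z hP0).1 hc)
  have hslit : ∀ z ∈ ball a ρ, ∀ c ∈ Z P, (z - c) / (a - c) ∈ Complex.slitPlane := by
    intro z hz c hc
    have h1 : (z - c) / (a - c) = 1 + (z - a) / (a - c) := by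
      have := hac c hc
      field_simp
      ring
    rw [h1]
    apply Complex.mem_slitPlane_of_norm_lt_one
    have h2 : ρ ≤ ‖a - c‖ := by
      by_contra hlt
      push Not at hlt
      have h3 : c ∈ ball a ρ := by
        rw [mem_ball, dist_comm, dist_eq_norm]
        exact hlt
      exact hZP c h3 ((mem_Z hP0).1 hc)
    rw [mem_ball, dist_eq_norm] at hz
    rw [norm_div, div_lt_one (by linarith)]
    linarith
  refine ⟨ρ, fun z => ∑ c ∈ Z P, res P Q c * Complex.log ((z - c) / (a - c)), hρ, ?_, ?_, ?_⟩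
  · refine Finset.sum_eq_zero fun c hc => ?_
    rw [div_self (hac c hc), Complex.log_one, mul_zero]
  · intro z hz
    refine ⟨hZP z hz, hZQ z hz, ?_⟩
    rw [part_frac hsq hdeg (hZP z hz)]
    have h1 : ∀ c ∈ Z P, HasDerivAt (fun z => res P Q c * Complex.log ((z - c) / (a - c)))
        (res P Q c / (z - c)) z := by
      intro c hc
      have h2 : HasDerivAt (fun z : ℂ => (z - c) / (a - c)) (1 / (a - c)) z :=
        ((hasDerivAt_id z).sub_const c).div_const (a - c)
      have h3 := (h2.clog (hslit z hz c hc)).const_mul (res P Q c)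
      have h4 := hac c hc
      have h5 := hzc z hz c hc
      have h6 : res P Q c / (z - c) = res P Q c * (1 / (a - c) / ((z - c) / (a - c))) := by
        field_simp
      rw [h6]
      exact h3
    exact HasDerivAt.fun_sum h1
  · intro b hab z hz t ht hΦ l hl t' ht' hsum
    apply hab (fun c => l c + Complex.log ((z - c) / (a - c))) _ (t' + t) (by positivity)
    · push_cast
      rw [← hsum, ← hΦ, ← Finset.sum_add_distrib]
      exact Finset.sum_congr rfl fun c _ => by ring
    · intro c hc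
      have h4 := hac c hc
      have h5 := hzc z hz c hc
      rw [Complex.exp_add, hl c hc, Complex.exp_log (div_ne_zero h5 h4)]
      field_simp

end Pool.Agent.H79.Eul
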