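import Pool.Agent.H79.Eul.CopDeg

set_option autoImplicit false

open Filter Topology Polynomial Metric Set

namespace Pool.Agent.H79.Eul

open Pool.Agent.H44.Fatou Pool.Agent.H32.BT

/-
PROOF of wr_inf: near infinity. Put Rn = reflect d nu, Rd = reflect d de (dg nu de = d eventually by cop_deg),
continuous in τ coefficientwise; Wr Rn Rd at u is continuous in (τ, u), and at h = 0, u = 0 it is
Wr (reflect d (X Q)) (reflect d Q) at 0 = - lc(Q)^2 ≠ 0: reflect d (X Q) = reflect (d-1) Q =: R and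
reflect d Q = X R, so Wr R (X R) = R' X R - R (R + X R') = - R^2, and R(0) = lc Q. (Directly:
Wr Rn Rd (0) = Rn.coeff 1 * Rd.coeff 0 - Rn.coeff 0 * Rd.coeff 1, and Rn.coeff j = nu.coeff (d-j).)
So there is r > 0 with Wr Rn Rd (u) ≠ 0 for ‖u‖ ≤ r, eventually. (a) infinity: crit_infty.
(b) for ‖z‖ ≥ 1/r a zero of W at z gives a zero of Wr Rn Rd at 1/z: from nu z = Rn (1/z) z^d,
de z = Rd (1/z) z^d (eval_reflect), differentiating, W z = - z^(2d-2) Wr Rn Rd (1/z) (see also wv_rev in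
H44/Fatou/Mob2, rv_cf, wv_cf).
-/

private theorem cf_add' {d : ℕ} (P R : Polynomial ℂ) : cf d (P + R) = cf d P + cf d R := by
  funext i
  exact coeff_add _ _ _

private theorem cf_mulC {d : ℕ} (u : ℂ) (v : Fin (d + 1) → ℂ) :
    cf d (C u * pol v) = u • v := by
  funext i
  show (C u * pol v).coeff i = u * v i
  rw [coeff_C_mul, pol_coeff]

theorem wr_inf {d : ℕ} {Q A B : Polynomial ℂ} (hQ : Q.natDegree + 1 = d) (hQ0 : Q ≠ 0)
    (hA : A.natDegree ≤ d) (hB : B.natDegree ≤ d) (hcop : IsCoprime (A - X * B) Q) :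
    ∃ R : ℝ, ∀ᶠ τ in flt (cf d A, cf d B),
      (∀ z : ℂ, R ≤ ‖z‖ → (Wr (nu Q τ.1 τ.2) (de Q τ.1 τ.2)).eval z ≠ 0) ∧
      ¬ IsCrit (rat (nu Q τ.1 τ.2) (de Q τ.1 τ.2)) OnePoint.infty := by
  have hXQ : (X * Q).natDegree ≤ d := by
    refine natDegree_mul_le.trans ?_
    rw [natDegree_X]
    omega
  have hQd : Q.natDegree ≤ d := by omega
  have h0 : wv (rv (cf d (X * Q), cf d Q)) 0 ≠ 0 := by
    rw [rv_cf, wv_cf (natDegree_reflect_le' hXQ) (natDegree_reflect_le' hQd)]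
    have h1 := wr_infty 1 0 0 1 hQ0 (by norm_num)
    have e1 : ((C 1 * X + C 0) * Q : Polynomial ℂ) = X * Q := by simp
    have e2 : ((C 0 * X + C 1) * Q : Polynomial ℂ) = Q := by simp
    rw [e1, e2, hQ] at h1
    exact h1
  obtain ⟨R, hR, hev⟩ := no_crit_infty (d := d) (cf d (X * Q), cf d Q) h0
  have hF : ∀ τ : E d × ℝ, (cf d (nu Q τ.1 τ.2), cf d (de Q τ.1 τ.2)) =
      (cf d (X * Q) + (τ.2 : ℂ) • τ.1.1, cf d Q + (τ.2 : ℂ) • τ.1.2) := by
    intro τ
    unfold nu de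
    rw [cf_add', cf_add', cf_mulC, cf_mulC]
  have hcont : Continuous (fun τ : E d × ℝ =>
      (cf d (X * Q) + (τ.2 : ℂ) • τ.1.1, cf d Q + (τ.2 : ℂ) • τ.1.2)) := by
    have hc : Continuous (fun τ : E d × ℝ => (τ.2 : ℂ)) :=
      Complex.continuous_ofReal.comp continuous_snd
    have h1 : Continuous (fun τ : E d × ℝ => τ.1.1) := continuous_fst.comp continuous_fst
    have h2 : Continuous (fun τ : E d × ℝ => τ.1.2) := continuous_snd.comp continuous_fst
    have h3 : Continuous (fun τ : E d × ℝ => cf d (X * Q) + (τ.2 : ℂ) • τ.1.1) :=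
      continuous_const.add (hc.smul h1)
    have h4 : Continuous (fun τ : E d × ℝ => cf d Q + (τ.2 : ℂ) • τ.1.2) :=
      continuous_const.add (hc.smul h2)
    exact h3.prodMk h4
  have hle : flt (cf d A, cf d B) ≤ 𝓝 ((cf d A, cf d B), (0 : ℝ)) := by
    have h1 : flt (cf d A, cf d B) = 𝓝 ((cf d A, cf d B) : E d) ×ˢ 𝓝[>] (0 : ℝ) := rfl
    rw [h1, nhds_prod_eq (x := ((cf d A, cf d B) : E d)) (y := (0 : ℝ))]
    exact Filter.prod_mono le_rfl nhdsWithin_le_nhds
  have htend : Tendsto (fun τ : E d × ℝ => (cf d (nu Q τ.1 τ.2), cf d (de Q τ.1 τ.2)))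
      (flt (cf d A, cf d B)) (𝓝 (cf d (X * Q), cf d Q)) := by
    have h1 := (hcont.tendsto ((cf d A, cf d B), (0 : ℝ))).mono_left hle
    simp only [Complex.ofReal_zero, zero_smul, add_zero] at h1
    refine h1.congr (fun τ => (hF τ).symm)
  refine ⟨R + 1, ?_⟩
  filter_upwards [htend.eventually hev, cop_deg hQ hQ0 hA hB hcop] with τ h1 h2
  have hn := nu_deg (d := d) (Q := Q) hQ.le τ.1 τ.2
  have hd := de_deg (d := d) (Q := Q) hQ.le τ.1 τ.2
  constructor
  · intro z hz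
    have h3 := h1.1 z (by linarith)
    rwa [wv_cf hn hd] at h3
  · intro hc
    have h3 := crit_infty hc
    have h4 : dg (nu Q τ.1 τ.2) (de Q τ.1 τ.2) = d := h2.2
    rw [h4] at h3
    apply h1.2
    rw [rv_cf, wv_cf (natDegree_reflect_le' hn) (natDegree_reflect_le' hd)]
    exact h3

end Pool.Agent.H79.Eul
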