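import Pool.Agent.H79.Eul.CopDeg

set_option autoImplicit false

open Filter Topology Polynomial Metric Set

namespace Pool.Agent.H79.Eul

open Pool.Agent.H44.Fatou Pool.Agent.H32.BT

/-
PROOF. With nu = z de + h p (p = ev v.1 z - z ev v.2 z): Wr nu de = nu' de - nu de' =
de^2 + h (p' de - p de') (evaluations; pol_eval, pol_deriv_eval, nu_eval, de_eval), a continuous function
of (v, h, z) (ev1_cont, ev2_cont, dev1_cont, dev2_cont in H44/Fatou/Mob), equal to (Q z0)^2 ≠ 0 at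
h = 0, z = z0; flt v ≤ 𝓝 (v, 0).
-/

theorem wr_near {d : ℕ} {Q A B : Polynomial ℂ} (hQ : Q.natDegree + 1 = d)
    (hA : A.natDegree ≤ d) (hB : B.natDegree ≤ d) {z0 : ℂ} (hz : Q.eval z0 ≠ 0) :
    ∀ᶠ y : (E d × ℝ) × ℂ in flt (cf d A, cf d B) ×ˢ 𝓝 z0,
      (Wr (nu Q y.1.1 y.1.2) (de Q y.1.1 y.1.2)).eval y.2 ≠ 0 := by
  have hle : flt (cf d A, cf d B) ×ˢ 𝓝 z0 ≤ 𝓝 (((cf d A, cf d B), (0 : ℝ)), z0) := by
    rw [nhds_prod_eq, nhds_prod_eq]
    unfold flt
    exact Filter.prod_mono (Filter.prod_mono le_rfl nhdsWithin_le_nhds) le_rfl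
  have heq : ∀ y : (E d × ℝ) × ℂ, (Wr (nu Q y.1.1 y.1.2) (de Q y.1.1 y.1.2)).eval y.2 =
      (Q.eval y.2 + y.2 * (derivative Q).eval y.2 + (y.1.2 : ℂ) * dev y.1.1.1 y.2) *
        (Q.eval y.2 + (y.1.2 : ℂ) * ev y.1.1.2 y.2) -
      (y.2 * Q.eval y.2 + (y.1.2 : ℂ) * ev y.1.1.1 y.2) *
        ((derivative Q).eval y.2 + (y.1.2 : ℂ) * dev y.1.1.2 y.2) := by
    intro y
    unfold Wr
    rw [eval_sub, eval_mul, eval_mul, nu_eval, de_eval]
    unfold nu de
    simp only [derivative_add, derivative_mul, derivative_X, derivative_C, eval_add, eval_mul,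
      eval_X, eval_C, pol_deriv_eval, zero_mul, zero_add, one_mul]
  have hev1 : Continuous fun y : (E d × ℝ) × ℂ => ev y.1.1.1 y.2 :=
    ev1_cont.comp ((continuous_fst.comp continuous_fst).prodMk continuous_snd)
  have hev2 : Continuous fun y : (E d × ℝ) × ℂ => ev y.1.1.2 y.2 :=
    ev2_cont.comp ((continuous_fst.comp continuous_fst).prodMk continuous_snd)
  have hdev1 : Continuous fun y : (E d × ℝ) × ℂ => dev y.1.1.1 y.2 :=
    dev1_cont.comp ((continuous_fst.comp continuous_fst).prodMk continuous_snd)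
  have hdev2 : Continuous fun y : (E d × ℝ) × ℂ => dev y.1.1.2 y.2 :=
    dev2_cont.comp ((continuous_fst.comp continuous_fst).prodMk continuous_snd)
  have hh : Continuous fun y : (E d × ℝ) × ℂ => (y.1.2 : ℂ) :=
    Complex.continuous_ofReal.comp (continuous_snd.comp continuous_fst)
  have hQc : Continuous fun y : (E d × ℝ) × ℂ => Q.eval y.2 :=
    Q.continuous.comp continuous_snd
  have hQ' : Continuous fun y : (E d × ℝ) × ℂ => (derivative Q).eval y.2 :=
    (derivative Q).continuous.comp continuous_snd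
  have hc : Continuous fun y : (E d × ℝ) × ℂ =>
      (Q.eval y.2 + y.2 * (derivative Q).eval y.2 + (y.1.2 : ℂ) * dev y.1.1.1 y.2) *
        (Q.eval y.2 + (y.1.2 : ℂ) * ev y.1.1.2 y.2) -
      (y.2 * Q.eval y.2 + (y.1.2 : ℂ) * ev y.1.1.1 y.2) *
        ((derivative Q).eval y.2 + (y.1.2 : ℂ) * dev y.1.1.2 y.2) :=
    (((hQc.add (continuous_snd.mul hQ')).add (hh.mul hdev1)).mul (hQc.add (hh.mul hev2))).sub
      (((continuous_snd.mul hQc).add (hh.mul hev1)).mul (hQ'.add (hh.mul hdev2)))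
  have hne := hc.continuousAt (x := (((cf d A, cf d B), (0 : ℝ)), z0))
  have h1 := hne.eventually_ne (y := (0 : ℂ)) (by
    simp only [Complex.ofReal_zero, zero_mul, add_zero]
    have : (eval z0 Q + z0 * eval z0 (derivative Q)) * eval z0 Q -
        z0 * eval z0 Q * eval z0 (derivative Q) = (Q.eval z0) ^ 2 := by ring
    rw [this]
    exact pow_ne_zero 2 hz)
  filter_upwards [hle h1] with y hy
  rw [heq]
  exact hy

end Pool.Agent.H79.Eul
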