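import Pool.Agent.H79.Eul.SysInst
import Pool.Agent.H79.Eul.WrNear
import Pool.Agent.H79.Eul.WrInf
import Pool.Agent.H79.Eul.FlowGood
import Pool.Agent.H79.Eul.PoleChart
import Pool.Agent.H79.Eul.NearPole

set_option autoImplicit false

open Filter Topology Polynomial Metric Set

namespace Pool.Agent.H79.Eul

open Pool.Agent.H44.Fatou Pool.Agent.H32.BT

/-- generic data: all nearby maps at all small scales are hyperbolic -/
theorem core {d : ℕ} {Q A B : Polynomial ℂ} (hd : 2 ≤ d) (hg : GenN d Q A B) :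
    ∀ᶠ τ in flt (cf d A, cf d B), HypAt Q τ.1 τ.2 := by
  have hQ0 : Q ≠ 0 := by
    rintro rfl
    have := hg.rep
    simp at this
  have hdeg : (A - X * B).natDegree = Q.natDegree + 1 := by rw [hg.hP, hg.hQ]
  have hlt : Q.natDegree < (A - X * B).natDegree := by omega
  obtain ⟨s, hatt, hcrit⟩ := exists_sys hg.hQ hQ0 hg.hA hg.hB hg.cop
  obtain ⟨R, hR⟩ := wr_inf hg.hQ hQ0 hg.hA hg.hB hg.cop
  have hlocal : ∀ z0 ∈ closedBall (0 : ℂ) R,
      ∀ᶠ y : (E d × ℝ) × ℂ in flt (cf d A, cf d B) ×ˢ 𝓝 z0, s.crit y.1 y.2 → s.att y.1 y.2 := by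
    intro a _
    by_cases ha : Q.eval a = 0
    · have hPa : (A - X * B).eval a ≠ 0 := by
        rcases coprime_eval hg.cop a with h | h
        · exact h
        · exact absurd ha h
      obtain ⟨ρ, Φ, hρ, h0, hΦ, hNC⟩ := pole_chart hg.sq hlt hQ0 hPa
      obtain ⟨q, m, k, hp⟩ := exists_pole hQ0 ha hρ h0 hΦ
      refine near_pole s hp ?_ ?_
      · intro z hz t ht hzt
        have hza : z ≠ a := by
          rintro rfl
          rw [h0] at hzt
          have : t = 0 := by exact_mod_cast hzt.symm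
          exact ht.ne' this
        have hreg : Reg (A - X * B) Q z := ⟨(hΦ z hz).1, (hΦ z hz).2.1 hza⟩
        refine flow_good s hg.sq hdeg hg.cop hg.rep hg.g1 hreg (fun b hb => ?_)
        exact hNC b (hg.g2 a b ha hb) z hz t ht hzt
      · intro hm
        obtain ⟨-, hQ'⟩ := mult_two hp hm
        obtain ⟨h1, h2, h3⟩ := hg.mul a ha hQ'
        refine ⟨h1, ?_⟩
        have e : a + (A - X * B).eval a / B.eval a = A.eval a / B.eval a := by
          rw [eval_sub, eval_mul, eval_X]
          field_simp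
          ring
        rw [e]
        exact flow_good s hg.sq hdeg hg.cop hg.rep hg.g1 h2 h3
    · filter_upwards [wr_near hg.hQ hg.hA hg.hB ha] with y hy h
      exact absurd ((hcrit _ _).1 h) hy
  have hall := ev_compact (p := fun τ z => s.crit τ z → s.att τ z)
    (isCompact_closedBall (0 : ℂ) R) hlocal
  filter_upwards [hall, hR, cop_deg hg.hQ hQ0 hg.hA hg.hB hg.cop] with τ h1 h2 h3
  refine ⟨h3.1, h3.2, fun c hc => ?_⟩
  induction c using OnePoint.rec with
  | infty => exact absurd hc h2.2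
  | coe z =>
    have hW := crit_coe hc
    have hz : ‖z‖ < R := by
      by_contra hcon
      exact h2.1 z (not_lt.1 hcon) hW
    exact (hatt τ z).1 (h1 z (by rw [mem_closedBall_zero_iff]; exact hz.le)
      ((hcrit τ z).2 hW))

end Pool.Agent.H79.Eul
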