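import Pool.Agent.H79.Eul.CjFamily
import Pool.Agent.H79.Eul.Core

set_option autoImplicit false

open Filter Topology Polynomial Metric Set

namespace Pool.Agent.H79.Eul

open Pool.Agent.H44.Fatou Pool.Agent.H32.BT

/-
PROOF of transport: by lin_cont τ ↦ (Lin s τ.1, τ.2) tends to flt (Lin s v0) along flt v0,
v0 = (cf d A, cf d B), and Lin s v0 = (cf d (cj1 s d A B), cf d (cj2 s d A B)) by pol_cf. So core gives
eventually HypAt (qh s d Q0) (Lin s τ.1) τ.2. By cj_family (and pol_cf; natDegree of cj1, cj2 ≤ d: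
natDegree_reflect_le', mob_deg1, mob_deg2) nu (qh s d Q0) (Lin s v) h = cj1 s d (nu Q0 v h) (de Q0 v h)
and de (qh s d Q0) (Lin s v) h = cj2 s d (nu Q0 v h) (de Q0 v h). Then cj_back gives coprimality and
degree of the original pair (nu_deg, de_deg), exists_mob and hypMap_conj give HypMap.
-/

theorem transport {d : ℕ} (hd : 2 ≤ d) {Q0 A B : Polynomial ℂ} (hQ : Q0.natDegree + 1 ≤ d)
    (hA : A.natDegree ≤ d) (hB : B.natDegree ≤ d) {s : ℂ}
    (hg : GenN d (qh s d Q0) (cj1 s d A B) (cj2 s d A B)) :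
    ∀ᶠ τ in flt (cf d A, cf d B), HypAt Q0 τ.1 τ.2 := by
  have hc := core hd hg
  have h0 : Lin s ((cf d A, cf d B) : E d) =
      ((cf d (cj1 s d A B), cf d (cj2 s d A B)) : E d) := by
    unfold Lin
    rw [pol_cf hA, pol_cf hB]
  have hlim : Tendsto (fun τ : E d × ℝ => (Lin s τ.1, τ.2)) (flt (cf d A, cf d B))
      (flt (cf d (cj1 s d A B), cf d (cj2 s d A B))) := by
    rw [← h0]
    exact ((lin_cont s).tendsto _).prodMap tendsto_id
  filter_upwards [hlim.eventually hc] with τ hτ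
  obtain ⟨h1, h2, h3⟩ := hτ
  have hd1 : (nu Q0 τ.1 τ.2).natDegree ≤ d := nu_deg hQ τ.1 τ.2
  have hd2 : (de Q0 τ.1 τ.2).natDegree ≤ d := de_deg hQ τ.1 τ.2
  have e1 : nu (qh s d Q0) (Lin s τ.1) τ.2 = cj1 s d (nu Q0 τ.1 τ.2) (de Q0 τ.1 τ.2) := by
    have e3 : pol (Lin s τ.1).1 = cj1 s d (pol τ.1.1) (pol τ.1.2) :=
      pol_cf (natDegree_reflect_le' (mob_deg1 s (pol_deg _)))
    unfold nu de
    rw [(cj_family s hQ _ _ _).1, e3]
  have e2 : de (qh s d Q0) (Lin s τ.1) τ.2 = cj2 s d (nu Q0 τ.1 τ.2) (de Q0 τ.1 τ.2) := by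
    have e3 : pol (Lin s τ.1).2 = cj2 s d (pol τ.1.1) (pol τ.1.2) :=
      pol_cf (natDegree_reflect_le' (mob_deg1 s (mob_deg2 s (pol_deg _) (pol_deg _))))
    unfold nu de
    rw [(cj_family s hQ _ _ _).2, e3]
  simp only [e1, e2] at h1 h2 h3
  obtain ⟨k1, k2⟩ := cj_back s hd1 hd2 h1 h2
  refine ⟨k1, k2, ?_⟩
  obtain ⟨φ, -, -, -, hφ⟩ := exists_mob s
  obtain ⟨-, -, h4⟩ := hφ d _ _ k1 k2 (by omega)
  exact (hypMap_conj φ h4).1 h3

end Pool.Agent.H79.Eul
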