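import Pool.Agent.H79.Eul.NullA

set_option autoImplicit false

open Filter Topology Polynomial Metric Set

namespace Pool.Agent.H79.Eul

open Pool.Agent.H44.Fatou Pool.Agent.H32.BT

/-
PROOF of null_affine. F is the image of M = {v | u • (v + w) ∈ F} under the Lipschitz map v ↦ u • (v + w)
(surjective as u ≠ 0), a translation (measure_preimage_add_right) followed by a real linear map
(Measure.addHaar_image_linearMap: volume (f '' s) = |det f| * volume s, so 0). Or: preimage version
addHaar_preimage_linearMap with f = multiplication by u, det f ≠ 0 (f is injective / a LinearEquiv).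
Or: Lipschitz maps of a finite dimensional space map null sets to null sets.
-/

open MeasureTheory in
theorem volume_haar (d : ℕ) : (volume : Measure (E d)).IsAddHaarMeasure := by
  exact Measure.prod.instIsAddHaarMeasure (volume : Measure (Fin (d + 1) → ℂ))
    (volume : Measure (Fin (d + 1) → ℂ))

open MeasureTheory in
theorem null_affine {d : ℕ} {F : Set (E d)} {u : ℂ} (hu : u ≠ 0) (w : E d)
    (h : volume {v : E d | u • (v + w) ∈ F} = 0) : volume F = 0 := by
  haveI := volume_haar d
  have h1 : volume {v : E d | u • v ∈ F} = 0 := by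
    have h2 := measure_preimage_add_right (volume : Measure (E d)) w {v : E d | u • v ∈ F}
    rw [← h2]
    exact h
  have h3 : F = (fun v : E d => u • v) '' {v : E d | u • v ∈ F} := by
    ext x
    constructor
    · intro hx
      refine ⟨u⁻¹ • x, ?_, ?_⟩
      · change u • u⁻¹ • x ∈ F
        rw [smul_inv_smul₀ hu]
        exact hx
      · exact smul_inv_smul₀ hu x
    · rintro ⟨v, hv, rfl⟩
      exact hv
  let f : E d →ₗ[ℝ] E d := (LinearMap.lsmul ℂ (E d) u).restrictScalars ℝ
  have h4 : (fun v : E d => u • v) '' {v : E d | u • v ∈ F} = f '' {v : E d | u • v ∈ F} := rfl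
  rw [h3, h4, Measure.addHaar_image_linearMap, h1, mul_zero]

open MeasureTheory in
theorem null_of_lines {d : ℕ} {F : Set (E d)} (hF : IsClosed F) (e : E d) {N0 : Set (E d)}
    (hN : volume N0 = 0) (h : ∀ v : E d, v ∉ N0 → ∃ Fc : Set ℂ, Fc.Countable ∧ ∀ c : ℂ, c ∉ Fc →
      ∃ Fφ : Set ℝ, Fφ.Countable ∧ ∀ φ : ℝ, φ ∉ Fφ →
        Complex.exp (φ * Complex.I) • (v + c • e) ∉ F) :
    volume F = 0 := by
  obtain ⟨c, φ, h1⟩ := fubini_line hF e hN h
  exact null_affine (Complex.exp_ne_zero _) (c • e) h1

end Pool.Agent.H79.Eul
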