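import Pool.Agent.H79.Eul.CountA

set_option autoImplicit false

open Filter Topology Polynomial Metric Set

namespace Pool.Agent.H79.Eul

open Pool.Agent.H44.Fatou Pool.Agent.H32.BT

/-
PROOF of nc_countable: the set Ws = {∑_{a ∈ Z P} res P Q a * l a | l : ℂ → ℂ, ∀ a ∈ Z P, exp (l a) = (b-a)/(z-a)} is
countable: for each a the set {w | exp w = c} is countable (empty, or w0 + 2 π I k, k ∈ ℤ:
Complex.exp_eq_exp_iff_exists_int); prove by induction on a finset S (Finset.induction_on) that
{∑_{a ∈ S} r a * l a | ∀ a ∈ S, exp (l a) = c a} is countable (the image of a product of countable sets: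
Set.Countable.image2). NoConn (C u * P) Q z b fails for φ only if u⁻¹ W is a positive real number for some
W ∈ Ws (Z_mul, res_mul, Finset.mul_sum): a countable union (Set.Countable.biUnion) of sets which are
countable by pos_countable.
-/

private theorem exp_countable (c : ℂ) : {w : ℂ | Complex.exp w = c}.Countable := by
  rcases Set.eq_empty_or_nonempty {w : ℂ | Complex.exp w = c} with h | ⟨w0, hw0⟩
  · rw [h]
    exact Set.countable_empty
  · refine (Set.countable_range (fun k : ℤ => w0 + k * (2 * Real.pi * Complex.I))).mono ?_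
    intro w hw
    have h1 : Complex.exp w = Complex.exp w0 := by
      rw [show Complex.exp w = c from hw, show Complex.exp w0 = c from hw0]
    obtain ⟨n, hn⟩ := Complex.exp_eq_exp_iff_exists_int.mp h1
    exact ⟨n, hn.symm⟩

private theorem sums_countable (c r : ℂ → ℂ) (S : Finset ℂ) :
    {W : ℂ | ∃ l : ℂ → ℂ, (∀ a ∈ S, Complex.exp (l a) = c a) ∧ W = ∑ a ∈ S, r a * l a}.Countable := by
  classical
  induction S using Finset.induction_on with
  | empty =>
    refine (Set.countable_singleton (0 : ℂ)).mono ?_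
    rintro W ⟨l, _, hW⟩
    rw [Finset.sum_empty] at hW
    exact hW
  | insert a S ha ih =>
    refine (Set.Countable.image2 (exp_countable (c a)) ih (fun w W' => r a * w + W')).mono ?_
    rintro W ⟨l, hl, hW⟩
    rw [Finset.sum_insert ha] at hW
    exact ⟨l a, hl a (Finset.mem_insert_self a S), ∑ a ∈ S, r a * l a,
      ⟨l, fun b hb => hl b (Finset.mem_insert_of_mem hb), rfl⟩, hW.symm⟩

theorem nc_countable (P Q : Polynomial ℂ) (z b : ℂ) :
    {φ : ℝ | ¬ NoConn (C (Complex.exp (φ * Complex.I)) * P) Q z b}.Countable := by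
  have hWs := sums_countable (fun a => (b - a) / (z - a)) (fun a => res P Q a) (Z P)
  refine (hWs.biUnion (t := fun W _ => {φ : ℝ | ∃ t : ℝ, 0 < t ∧
    (Complex.exp (φ * Complex.I))⁻¹ * W = t}) (fun W _ => pos_countable W)).mono ?_
  intro φ hφ
  have hφ' : ¬ NoConn (C (Complex.exp (φ * Complex.I)) * P) Q z b := hφ
  unfold NoConn at hφ'
  push Not at hφ'
  obtain ⟨l, hl, t, ht, hsum⟩ := hφ'
  rw [Z_mul P (Complex.exp_ne_zero _)] at hl hsum
  rw [Set.mem_iUnion₂]
  refine ⟨∑ a ∈ Z P, res P Q a * l a, ⟨l, hl, rfl⟩, t, ht, ?_⟩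
  rw [← hsum, Finset.mul_sum]
  refine Finset.sum_congr rfl fun a _ => ?_
  rw [res_mul, mul_assoc]

end Pool.Agent.H79.Eul
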