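import Pool.Agent.H79.Eul.GenEval

set_option autoImplicit false

open Filter Topology Polynomial Metric Set

namespace Pool.Agent.H79.Eul

open Pool.Agent.H44.Fatou Pool.Agent.H32.BT

/-
P = A - X B, Ph = cj1 s d A B - X * cj2 s d A B, Qh = qh s d Q. Use the criterion of no common zeros
(isCoprime_iff_aeval_ne_zero_of_isAlgClosed, as in H32/BT/Mob; isCoprime_of_roots in H32/BT/Bdry).
PROOF. Zeros ζ0 of Ph are not 0: Ph(0) = B.coeff d = - P.coeff (d+1) ≠ 0 (ph_zero, top_coeff, hn.hP).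
gen_sq: at ζ0 ≠ 0 with Ph ζ0 = 0, P(s + ζ0⁻¹) = 0; near ζ0, Ph ζ = - ζ^(d+1) P(s + ζ⁻¹) (ph_eval), and
differentiating (uniqueness of derivatives) Ph'(ζ0) = - ζ0^(d+1) P'(s + ζ0⁻¹) * (- ζ0⁻²) ≠ 0 as
P'(s + ζ0⁻¹) ≠ 0 by hn.sq.
gen_cop: a common zero ζ of Ph and Qh is not 0 and gives a common zero s + ζ⁻¹ of P and Q
(ph_eval, qh_eval), contradicting hn.cop.
-/

private theorem genCop_no_common {P Q : Polynomial ℂ} (h : IsCoprime P Q) {z : ℂ}
    (h1 : P.eval z = 0) (h2 : Q.eval z = 0) : False := by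
  obtain ⟨a, b, hab⟩ := h
  have h3 := congrArg (eval z) hab
  rw [eval_add, eval_mul, eval_mul, h1, h2, mul_zero, mul_zero, add_zero, eval_one] at h3
  exact zero_ne_one h3

private theorem genCop_of_no_common {P Q : Polynomial ℂ}
    (h : ∀ z : ℂ, P.eval z = 0 → Q.eval z = 0 → False) : IsCoprime P Q := by
  rw [Polynomial.isCoprime_iff_aeval_ne_zero_of_isAlgClosed ℂ ℂ]
  intro z
  by_contra hcon
  push Not at hcon
  exact h z (by simpa using hcon.1) (by simpa using hcon.2)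

private theorem genCop_zero {d : ℕ} {Q A B : Polynomial ℂ} (hn : Nice d Q A B) (s : ℂ) :
    (cj1 s d A B - X * cj2 s d A B).eval 0 ≠ 0 := by
  rw [ph_zero hn.hB]
  have h1 := top_coeff (B := B) hn.hA
  have h2 : (A - X * B).coeff (d + 1) ≠ 0 := by
    rw [← hn.hP, coeff_natDegree, Ne, leadingCoeff_eq_zero]
    intro h0
    have h3 := hn.hP
    rw [h0, natDegree_zero] at h3
    omega
  intro h3
  rw [h1, h3, neg_zero] at h2
  exact h2 rfl

theorem gen_sq {d : ℕ} (hd : 2 ≤ d) {Q A B : Polynomial ℂ} (hn : Nice d Q A B) (s : ℂ) :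
    IsCoprime (cj1 s d A B - X * cj2 s d A B)
      (derivative (cj1 s d A B - X * cj2 s d A B)) := by
  apply genCop_of_no_common
  intro ζ h1 h2
  have hζ : ζ ≠ 0 := by
    rintro rfl
    exact genCop_zero hn s h1
  have h3 := ph_eval hn.hA hn.hB s hζ
  rw [h1] at h3
  have hpow : ζ ^ (d + 1) ≠ 0 := pow_ne_zero _ hζ
  have h4 : (A - X * B).eval (s + ζ⁻¹) = 0 := by
    have h5 : ζ ^ (d + 1) * (A - X * B).eval (s + ζ⁻¹) = 0 := by linear_combination h3
    exact (mul_eq_zero.1 h5).resolve_left hpow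
  have hder1 : HasDerivAt (fun z => (cj1 s d A B - X * cj2 s d A B).eval z)
      ((derivative (cj1 s d A B - X * cj2 s d A B)).eval ζ) ζ := Polynomial.hasDerivAt _ _
  have hinv : HasDerivAt (fun z : ℂ => s + z⁻¹) (-(ζ ^ 2)⁻¹) ζ :=
    (hasDerivAt_inv hζ).const_add s
  have hder3 : HasDerivAt (fun z : ℂ => (A - X * B).eval (s + z⁻¹))
      ((derivative (A - X * B)).eval (s + ζ⁻¹) * (-(ζ ^ 2)⁻¹)) ζ := by
    have h5 : HasDerivAt (fun z => (A - X * B).eval z)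
      ((derivative (A - X * B)).eval ((fun z : ℂ => s + z⁻¹) ζ)) ((fun z : ℂ => s + z⁻¹) ζ) :=
      Polynomial.hasDerivAt (A - X * B) (s + ζ⁻¹)
    exact h5.comp ζ hinv
  have hder4 : HasDerivAt (fun z : ℂ => -(z ^ (d + 1) * (A - X * B).eval (s + z⁻¹)))
      (-((((d + 1 : ℕ) : ℂ) * ζ ^ d) * (A - X * B).eval (s + ζ⁻¹) +
        ζ ^ (d + 1) * ((derivative (A - X * B)).eval (s + ζ⁻¹) * (-(ζ ^ 2)⁻¹)))) ζ := by
    have h5 := (hasDerivAt_pow (d + 1) ζ).mul hder3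
    rw [Nat.add_sub_cancel] at h5
    exact h5.neg
  have hev : (fun z => (cj1 s d A B - X * cj2 s d A B).eval z) =ᶠ[𝓝 ζ]
      (fun z : ℂ => -(z ^ (d + 1) * (A - X * B).eval (s + z⁻¹))) := by
    filter_upwards [isOpen_ne.mem_nhds hζ] with z hz
    exact ph_eval hn.hA hn.hB s hz
  have h6 := hder1.unique (hder4.congr_of_eventuallyEq hev)
  rw [h2, h4] at h6
  have h7 : (derivative (A - X * B)).eval (s + ζ⁻¹) = 0 := by
    have h8 : ζ ^ (d + 1) * (ζ ^ 2)⁻¹ * (derivative (A - X * B)).eval (s + ζ⁻¹) = 0 := by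
      linear_combination -h6
    exact (mul_eq_zero.1 h8).resolve_left (mul_ne_zero hpow (inv_ne_zero (pow_ne_zero 2 hζ)))
  exact genCop_no_common hn.sq h4 h7

theorem gen_cop {d : ℕ} (hd : 2 ≤ d) {Q A B : Polynomial ℂ} (hn : Nice d Q A B) (s : ℂ) :
    IsCoprime (cj1 s d A B - X * cj2 s d A B) (qh s d Q) := by
  apply genCop_of_no_common
  intro ζ h1 h2
  have hζ : ζ ≠ 0 := by
    rintro rfl
    exact genCop_zero hn s h1
  have h3 := ph_eval hn.hA hn.hB s hζ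
  rw [h1] at h3
  have h4 : (A - X * B).eval (s + ζ⁻¹) = 0 := by
    have h5 : ζ ^ (d + 1) * (A - X * B).eval (s + ζ⁻¹) = 0 := by linear_combination h3
    exact (mul_eq_zero.1 h5).resolve_left (pow_ne_zero _ hζ)
  have h5 := qh_eval hn.hQ s hζ
  rw [h2] at h5
  have h6 : Q.eval (s + ζ⁻¹) = 0 := (mul_eq_zero.1 h5.symm).resolve_left (pow_ne_zero _ hζ)
  exact genCop_no_common hn.cop h4 h6

end Pool.Agent.H79.Eul
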