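import Pool.Agent.H79.Eul.GenEval

set_option autoImplicit false

open Filter Topology Polynomial Metric Set

namespace Pool.Agent.H79.Eul

open Pool.Agent.H44.Fatou Pool.Agent.H32.BT

/-
P = A - X B. PROOF. Let Qh a = 0. If a ≠ 0: b = s + a⁻¹ is a zero of Q (qh_eval); by hn.mul B b ≠ 0,
y = A b/B b is regular, y ≠ s as P s = 0 ≠ P y; cj2 (a) = a^d (A b - s B b) = a^d B b (y - s) ≠ 0,
cj1(a)/cj2(a) = (y - s)⁻¹ =: w ≠ 0, s + w⁻¹ = y, and Ph w = - w^(d+1) P y ≠ 0, Qh w = w^(d-1) Q y ≠ 0.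
If a = 0: Qh 0 = Q.coeff (d-1) = 0 (qh_zero). Q ≠ 0 (hn.cop and natDegree P = d + 1 > 0), so
natDegree Q + 1 < d; use hn.inf with y = A.coeff d/B.coeff d, where B.coeff d = - P.coeff (d+1) ≠ 0
(top_coeff, hn.hP); cj1 (0) = B.coeff d, cj2 (0) = A.coeff d - s B.coeff d = B.coeff d (y - s) ≠ 0, and then
as before with w = (y - s)⁻¹.
-/

theorem gm_final {d : ℕ} {Q A B : Polynomial ℂ} (hn : Nice d Q A B) {s y : ℂ} (hy : y ≠ s)
    (hr : Reg (A - X * B) Q y) :
    Reg (cj1 s d A B - X * cj2 s d A B) (qh s d Q) ((y - s)⁻¹) := by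
  have h0 : (y - s)⁻¹ ≠ 0 := inv_ne_zero (sub_ne_zero.2 hy)
  have h1 : s + ((y - s)⁻¹)⁻¹ = y := by rw [inv_inv, add_sub_cancel]
  constructor
  · rw [ph_eval hn.hA hn.hB s h0, h1]
    exact neg_ne_zero.2 (mul_ne_zero (pow_ne_zero _ h0) hr.1)
  · rw [qh_eval hn.hQ s h0, h1]
    exact mul_ne_zero (pow_ne_zero _ h0) hr.2

theorem gm_alg {A B s c : ℂ} (hB : B ≠ 0) (hc : c ≠ 0) (h : A / B ≠ s) :
    c * (A - s * B) ≠ 0 ∧ c * B / (c * (A - s * B)) = (A / B - s)⁻¹ := by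
  have h1 : A - s * B ≠ 0 := by
    intro h2
    apply h
    rw [div_eq_iff hB]
    exact sub_eq_zero.1 h2
  refine ⟨mul_ne_zero hc h1, ?_⟩
  rw [mul_div_mul_left _ _ hc]
  have h3 : A / B - s = (A - s * B) / B := by
    rw [sub_div, mul_div_assoc, div_self hB, mul_one]
  rw [h3, inv_div]

theorem gen_mul {d : ℕ} (hd : 2 ≤ d) {Q A B : Polynomial ℂ} (hn : Nice d Q A B) {s : ℂ}
    (hs : (A - X * B).eval s = 0) (a : ℂ) (ha : (qh s d Q).eval a = 0) :
    (cj2 s d A B).eval a ≠ 0 ∧ Reg (cj1 s d A B - X * cj2 s d A B) (qh s d Q)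
      ((cj1 s d A B).eval a / (cj2 s d A B).eval a) := by
  by_cases h0 : a = 0
  · subst h0
    rw [qh_zero hn.hQ] at ha
    have hQ0 : Q ≠ 0 := by
      intro h
      have h1 := hn.cop
      rw [h, isCoprime_zero_right] at h1
      have h2 := natDegree_eq_zero_of_isUnit h1
      have h3 := hn.hP
      omega
    have hlt : Q.natDegree + 1 < d := by
      refine lt_of_le_of_ne hn.hQ ?_
      intro h
      have h1 : d - 1 = Q.natDegree := by omega
      rw [h1] at ha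
      exact hQ0 (leadingCoeff_eq_zero.1 ha)
    have hBd : B.coeff d ≠ 0 := by
      intro h
      have h1 := top_coeff (d := d) (A := A) (B := B) hn.hA
      rw [h, neg_zero, ← hn.hP] at h1
      have h2 : A - X * B = 0 := leadingCoeff_eq_zero.1 h1
      have h3 := hn.hP
      rw [h2, natDegree_zero] at h3
      omega
    have hr := hn.inf hlt
    have hy : A.coeff d / B.coeff d ≠ s := by
      intro h
      exact hr.1 (h ▸ hs)
    obtain ⟨h1, h2⟩ := gm_alg hBd one_ne_zero hy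
    rw [one_mul, one_mul] at h2
    rw [one_mul] at h1
    rw [cj1_zero hn.hB, cj2_zero hn.hA hn.hB]
    refine ⟨h1, ?_⟩
    rw [h2]
    exact gm_final hn hy hr
  · rw [qh_eval hn.hQ s h0, mul_eq_zero, or_iff_right (pow_ne_zero _ h0)] at ha
    obtain ⟨hB, hr⟩ := hn.mul _ ha
    have hy : A.eval (s + a⁻¹) / B.eval (s + a⁻¹) ≠ s := by
      intro h
      apply hr.1
      rw [h]
      exact hs
    obtain ⟨h1, h2⟩ := gm_alg hB (pow_ne_zero d h0) hy
    rw [cj1_eval hn.hB s h0, cj2_eval hn.hA hn.hB s h0]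
    refine ⟨h1, ?_⟩
    rw [h2]
    exact gm_final hn hy hr

end Pool.Agent.H79.Eul
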