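import Pool.Agent.H79.Eul.GenDeg
import Pool.Agent.H79.Eul.GenCop
import Pool.Agent.H79.Eul.GenMul
import Pool.Agent.H79.Eul.CountB

set_option autoImplicit false

open Filter Topology Polynomial Metric Set

namespace Pool.Agent.H79.Eul

open Pool.Agent.H44.Fatou Pool.Agent.H32.BT

/-
PROOF of exists_source: ∑_{s ∈ Z P} Q s/P' s = 0 by sum_res_zero (natDegree Q + 2 ≤ natDegree P), so
∑ u⁻¹ Q s/P' s = 0, with u⁻¹ Q s/P' s = 1/(u P' s/Q s), whose real part has the sign of
Re (u P' s/Q s) ≠ 0 (Complex.inv_re); Z P is nonempty (IsAlgClosed.exists_root, natDegree P ≥ 1), and a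
nonempty sum of nonzero reals which is 0 has a positive term.
PROOF of nice_rot. P = A - X B, natDegree d + 1. For s ∈ Z P put Ph s = cj1 s d A B - X * cj2 s d A B,
Qh s = qh s d Q ≠ 0. bad = union over s ∈ Z P of {φ | ¬ G1 (C u * Ph s) (Qh s)}, of
{φ | ¬ NoConn (C u * Ph s) (Qh s) a b} over the zeros a, b of Qh s (a finite set), of
{φ | ¬ NoConn (C u * Ph s) (Qh s) (cj1(a)/cj2(a)) b} over zeros a, b of Qh s, and of
{φ | Re (u * (P'(s)/Q(s))) = 0} (re_countable; P' s ≠ 0, Q s ≠ 0). Countable (finite unions,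
Set.Finite.countable_biUnion). Let φ ∉ bad and s from exists_source. cj1 s d (C u * A) (C u * B) = C u * cj1 s d A B,
same for cj2 (reflect_C_mul, mul_comp, C_comp), the difference is C u * Ph s; natDegree (natDegree_C_mul),
coprimality (C u is a unit: isCoprime_mul_unit_left_left, isCoprime_mul_unit_left), squarefreeness
(derivative_C_mul) are those of Ph s; quotient of leading coefficients = - u P' s/Q s (gen_deg,
leadingCoeff_mul) with negative real part; the quotients cj1(a)/cj2(a) are unchanged; Reg is unchanged.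
-/

theorem exists_source {P Q : Polynomial ℂ} (hsq : IsCoprime P (derivative P))
    (hcop : IsCoprime P Q) (hdeg : Q.natDegree + 2 ≤ P.natDegree) {u : ℂ} (hu : u ≠ 0)
    (hre : ∀ s ∈ Z P, (u * ((derivative P).eval s / Q.eval s)).re ≠ 0) :
    ∃ s ∈ Z P, 0 < (u * ((derivative P).eval s / Q.eval s)).re := by
  have hres : ∑ s ∈ Z P, res P Q s = 0 := sum_res_zero hsq hdeg
  by_contra hcon
  push Not at hcon
  have hP0 : P ≠ 0 := by
    rintro rfl
    rw [natDegree_zero] at hdeg
    omega
  obtain ⟨z0, hz0⟩ := IsAlgClosed.exists_root P (by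
    intro h0
    have h1 := natDegree_eq_zero_iff_degree_le_zero.2 h0.le
    omega)
  have hz0Z : z0 ∈ Z P := (mem_Z hP0).2 hz0
  have h1 : ∑ s ∈ Z P, (u⁻¹ * res P Q s).re = 0 := by
    rw [← Complex.re_sum, ← Finset.mul_sum, hres, mul_zero, Complex.zero_re]
  have h2 : ∀ s ∈ Z P, (u⁻¹ * res P Q s).re < 0 := by
    intro s hs
    have hlt : (u * ((derivative P).eval s / Q.eval s)).re < 0 :=
      lt_of_le_of_ne (hcon s hs) (hre s hs)
    have e : u⁻¹ * res P Q s = (u * ((derivative P).eval s / Q.eval s))⁻¹ := by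
      unfold res
      rw [mul_inv, inv_div]
    have hne : u * ((derivative P).eval s / Q.eval s) ≠ 0 := by
      intro h0
      rw [h0, Complex.zero_re] at hlt
      exact lt_irrefl _ hlt
    rw [e, Complex.inv_re]
    exact div_neg_of_neg_of_pos hlt (Complex.normSq_pos.2 hne)
  have h3 := Finset.sum_neg h2 ⟨z0, hz0Z⟩
  linarith

theorem nice_rot {d : ℕ} (hd : 2 ≤ d) {Q A B : Polynomial ℂ} (hn : Nice d Q A B) :
    ∃ bad : Set ℝ, bad.Countable ∧ ∀ φ : ℝ, φ ∉ bad → ∃ s : ℂ,
      GenN d (qh s d Q) (cj1 s d (C (Complex.exp (φ * Complex.I)) * A)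
          (C (Complex.exp (φ * Complex.I)) * B))
        (cj2 s d (C (Complex.exp (φ * Complex.I)) * A)
          (C (Complex.exp (φ * Complex.I)) * B)) := by
  have hP0 : A - X * B ≠ 0 := by
    intro h0
    have h1 := hn.hP
    rw [h0, natDegree_zero] at h1
    omega
  refine ⟨⋃ s ∈ (Z (A - X * B) : Set ℂ),
    (({φ : ℝ | ¬ G1 (C (Complex.exp (φ * Complex.I)) * (cj1 s d A B - X * cj2 s d A B))
        (qh s d Q)} ∪
      {φ : ℝ | (Complex.exp (φ * Complex.I) *
        ((derivative (A - X * B)).eval s / Q.eval s)).re = 0}) ∪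
      ⋃ a ∈ (Z (qh s d Q) : Set ℂ), ⋃ b ∈ (Z (qh s d Q) : Set ℂ),
        ({φ : ℝ | ¬ NoConn (C (Complex.exp (φ * Complex.I)) * (cj1 s d A B - X * cj2 s d A B))
          (qh s d Q) a b} ∪
        {φ : ℝ | ¬ NoConn (C (Complex.exp (φ * Complex.I)) * (cj1 s d A B - X * cj2 s d A B))
          (qh s d Q) ((cj1 s d A B).eval a / (cj2 s d A B).eval a) b})), ?_, ?_⟩
  · refine Set.Countable.biUnion (Finset.countable_toSet _) fun s hs => ?_
    have hPs : (A - X * B).eval s = 0 := (mem_Z hP0).1 hs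
    refine (Set.Countable.union (g1_countable _ _) (re_countable ?_)).union ?_
    · refine div_ne_zero ?_ ?_
      · intro h0
        obtain ⟨a, b, hab⟩ := hn.sq
        have h1 := congrArg (eval s) hab
        rw [eval_add, eval_mul, eval_mul, hPs, h0, mul_zero, mul_zero, add_zero, eval_one] at h1
        exact zero_ne_one h1
      · intro h0
        obtain ⟨a, b, hab⟩ := hn.cop
        have h1 := congrArg (eval s) hab
        rw [eval_add, eval_mul, eval_mul, hPs, h0, mul_zero, mul_zero, add_zero, eval_one] at h1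
        exact zero_ne_one h1
    · refine Set.Countable.biUnion (Finset.countable_toSet _) fun a _ => ?_
      refine Set.Countable.biUnion (Finset.countable_toSet _) fun b _ => ?_
      exact (nc_countable _ _ _ _).union (nc_countable _ _ _ _)
  · intro φ hφ
    simp only [Set.mem_iUnion, Set.mem_union, Set.mem_ofPred_eq, Finset.mem_coe, not_exists,
      not_or, not_not] at hφ
    set u : ℂ := Complex.exp (φ * Complex.I) with hu
    have hu0 : u ≠ 0 := Complex.exp_ne_zero _
    obtain ⟨s, hs, hpos⟩ := exists_source hn.sq hn.cop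
      (by have h1 := hn.hP; have h2 := hn.hQ; omega) hu0 (fun s hs => (hφ s hs).1.2)
    have hPs : (A - X * B).eval s = 0 := (mem_Z hP0).1 hs
    obtain ⟨⟨hG1, -⟩, hNC⟩ := hφ s hs
    obtain ⟨g1, g2, g3, g4, g5⟩ := gen_deg hd hn hPs
    have hQh0 : qh s d Q ≠ 0 := by
      intro h0
      rw [h0, natDegree_zero] at g1
      omega
    have hCu : IsUnit (C u : Polynomial ℂ) := isUnit_C.2 (isUnit_iff_ne_zero.2 hu0)
    have e1 : cj1 s d (C u * A) (C u * B) = C u * cj1 s d A B := by
      unfold cj1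
      rw [mul_comp, C_comp, reflect_C_mul]
    have e2 : cj2 s d (C u * A) (C u * B) = C u * cj2 s d A B := by
      unfold cj2
      have h : C u * A - C s * (C u * B) = C u * (A - C s * B) := by ring
      rw [h, mul_comp, C_comp, reflect_C_mul]
    have e3 : C u * cj1 s d A B - X * (C u * cj2 s d A B) =
        C u * (cj1 s d A B - X * cj2 s d A B) := by ring
    refine ⟨s, ?_⟩
    rw [e1, e2]
    refine ⟨g1, ?_, ?_, ?_, ?_, ?_, ?_, ?_, ?_, ?_⟩
    · rw [natDegree_C_mul hu0]
      exact g2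
    · rw [natDegree_C_mul hu0]
      exact g3
    · rw [e3, natDegree_C_mul hu0]
      exact g4
    · rw [e3, derivative_C_mul]
      exact (isCoprime_mul_unit_left hCu _ _).2 (gen_sq hd hn s)
    · rw [e3]
      exact (isCoprime_mul_unit_left_left hCu _ _).2 (gen_cop hd hn s)
    · rw [e3, leadingCoeff_mul, leadingCoeff_C, mul_div_assoc, g5, mul_neg, Complex.neg_re]
      linarith
    · rw [e3]
      exact hG1
    · intro a b ha hb
      rw [e3]
      exact (hNC a ((mem_Z hQh0).2 ha) b ((mem_Z hQh0).2 hb)).1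
    · intro a ha _
      obtain ⟨m1, m2⟩ := gen_mul hd hn hPs a ha
      have e4 : (C u * cj1 s d A B).eval a / (C u * cj2 s d A B).eval a =
          (cj1 s d A B).eval a / (cj2 s d A B).eval a := by
        rw [eval_mul, eval_mul, eval_C, mul_div_mul_left _ _ hu0]
      rw [e3, e4]
      refine ⟨?_, ⟨?_, m2.2⟩, ?_⟩
      · rw [eval_mul, eval_C]
        exact mul_ne_zero hu0 m1
      · rw [eval_mul, eval_C]
        exact mul_ne_zero hu0 m2.1
      · intro b hb
        exact (hNC a ((mem_Z hQh0).2 ha) b ((mem_Z hQh0).2 hb)).2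

end Pool.Agent.H79.Eul
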