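import Pool.Agent.H79.Eul.Defs

set_option autoImplicit false

open Filter Topology Polynomial Metric Set

namespace Pool.Agent.H79.Eul

open Pool.Agent.H44.Fatou Pool.Agent.H32.BT

/-- local data at a pole `a` of order `m` of `P / Q`: `Φ` is the primitive of `Q / P` with
`Φ a = 0`, and `Φ z = (z - a)^(m+1) k z` -/
structure Pole (P Q q : Polynomial ℂ) (a : ℂ) (m : ℕ) (ρ : ℝ) (Φ k : ℂ → ℂ) : Prop where
  hm : 1 ≤ m
  hρ : 0 < ρ
  hQ : Q = (X - C a) ^ m * q
  hq : q.eval a ≠ 0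
  hP : ∀ z ∈ ball a ρ, P.eval z ≠ 0
  reg : ∀ z ∈ ball a ρ, z ≠ a → Q.eval z ≠ 0
  zero : Φ a = 0
  deriv : ∀ z ∈ ball a ρ, HasDerivAt Φ (Q.eval z / P.eval z) z
  kcont : ContinuousAt k a
  ka : k a = q.eval a / ((m + 1) * P.eval a)
  hk : ∀ z ∈ ball a ρ, Φ z = (z - a) ^ (m + 1) * k z

/-
PROOF of exists_pole. Take k a = q a/((m+1) P a) and k z = Φ z/(z - a)^(m+1) for z ≠ a. Only continuity at a
needs an argument: r z = q z/P z is continuous at a, so for ε > 0 there is δ with ‖r z - r a‖ ≤ ε on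
ball a δ; the function D z = Φ z - (r a/(m+1)) (z - a)^(m+1) has derivative (z - a)^m (r z - r a), of norm
≤ ε ‖z - a‖^m on ball a δ, so by the mean value inequality on the segment [a, z]
(norm ≤ ε ‖w - a‖^m ≤ ε ‖z - a‖^m there) ‖D z‖ ≤ ε ‖z - a‖^(m+1), i.e. ‖k z - k a‖ ≤ ε.
m and q: Q = (X - C a)^m q with m = rootMultiplicity, q a ≠ 0
(Polynomial.exists_eq_pow_rootMultiplicity_mul_and_not_dvd), m ≥ 1 since Q a = 0.
mult_two: 2 ≤ m iff Q' a = 0: Q' = m (X-a)^(m-1) q + (X-a)^m q'.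
-/

theorem exists_pole {P Q : Polynomial ℂ} (hQ0 : Q ≠ 0) {a : ℂ} (ha : Q.eval a = 0) {ρ : ℝ}
    (hρ : 0 < ρ) {Φ : ℂ → ℂ} (h0 : Φ a = 0) (hΦ : ∀ z ∈ ball a ρ, P.eval z ≠ 0 ∧
      (z ≠ a → Q.eval z ≠ 0) ∧ HasDerivAt Φ (Q.eval z / P.eval z) z) :
    ∃ (q : Polynomial ℂ) (m : ℕ) (k : ℂ → ℂ), Pole P Q q a m ρ Φ k := by
  classical
  obtain ⟨q, hq, hnd⟩ := exists_eq_pow_rootMultiplicity_mul_and_not_dvd Q hQ0 a
  obtain ⟨m, hm⟩ : ∃ m, m = rootMultiplicity a Q := ⟨_, rfl⟩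
  rw [← hm] at hq
  have hqa : q.eval a ≠ 0 := by
    intro h
    exact hnd (dvd_iff_isRoot.mpr h)
  have hm1 : 1 ≤ m := by
    rw [hm]
    exact (rootMultiplicity_pos hQ0).mpr ha
  have hPa : P.eval a ≠ 0 := (hΦ a (mem_ball_self hρ)).1
  have hQe : ∀ w, Q.eval w = (w - a) ^ m * q.eval w := by
    intro w
    conv_lhs => rw [hq]
    simp
  have hm0 : ((m : ℂ) + 1) ≠ 0 := by exact_mod_cast Nat.succ_ne_zero m
  obtain ⟨k, hk⟩ : ∃ k : ℂ → ℂ, k = fun z => if z = a then q.eval a / ((m + 1) * P.eval a)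
    else Φ z / (z - a) ^ (m + 1) := ⟨_, rfl⟩
  have hka : k a = q.eval a / ((m + 1) * P.eval a) := by rw [hk]; simp
  have hkz : ∀ z, z ≠ a → k z = Φ z / (z - a) ^ (m + 1) := by
    intro z hz
    rw [hk]
    simp [hz]
  refine ⟨q, m, k, ⟨hm1, hρ, hq, hqa, fun z hz => (hΦ z hz).1, fun z hz => (hΦ z hz).2.1, h0,
    fun z hz => (hΦ z hz).2.2, ?_, hka, ?_⟩⟩
  · -- continuity
    rw [Metric.continuousAt_iff]
    intro ε hε
    have hr : ContinuousAt (fun w => q.eval w / P.eval w) a :=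
      (q.continuous.continuousAt).div (P.continuous.continuousAt) hPa
    obtain ⟨δ1, hδ1, hd1⟩ := Metric.continuousAt_iff.mp hr (ε / 2) (by linarith)
    refine ⟨min δ1 ρ, lt_min hδ1 hρ, ?_⟩
    intro z hz
    rcases eq_or_ne z a with rfl | hza
    · simpa using hε
    have hz1 : dist z a < δ1 := lt_of_lt_of_le hz (min_le_left _ _)
    have hz2 : dist z a < ρ := lt_of_lt_of_le hz (min_le_right _ _)
    obtain ⟨c, hc⟩ : ∃ c : ℂ, c = q.eval a / P.eval a := ⟨_, rfl⟩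
    have hsub : ∀ w ∈ closedBall a (dist z a), w ∈ ball a ρ ∧ dist w a < δ1 := by
      intro w hw
      rw [mem_closedBall] at hw
      exact ⟨mem_ball.mpr (hw.trans_lt hz2), hw.trans_lt hz1⟩
    have hD : ∀ w ∈ closedBall a (dist z a), HasDerivWithinAt
        (fun w => Φ w - c / (m + 1) * (w - a) ^ (m + 1))
        ((w - a) ^ m * (q.eval w / P.eval w - c)) (closedBall a (dist z a)) w := by
      intro w hw
      have h1 := (hΦ w (hsub w hw).1).2.2
      have h2 : HasDerivAt (fun w : ℂ => c / (m + 1) * (w - a) ^ (m + 1))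
          (c / (m + 1) * (((m + 1 : ℕ) : ℂ) * (w - a) ^ m * 1)) w := by
        have := ((hasDerivAt_id w).sub_const a).pow (m + 1)
        simpa using this.const_mul (c / ((m : ℂ) + 1))
      have h3 := (h1.sub h2).hasDerivWithinAt (s := closedBall a (dist z a))
      refine h3.congr_deriv ?_
      rw [hQe w]
      push_cast
      field_simp
    have hb : ∀ w ∈ closedBall a (dist z a),
        ‖(w - a) ^ m * (q.eval w / P.eval w - c)‖ ≤ dist z a ^ m * (ε / 2) := by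
      intro w hw
      have hw' : ‖w - a‖ ≤ dist z a := by
        rw [← dist_eq_norm]
        exact hw
      have h4 := hd1 (hsub w hw).2
      rw [dist_eq_norm, ← hc] at h4
      rw [norm_mul, norm_pow]
      gcongr
    have hmv := Convex.norm_image_sub_le_of_norm_hasDerivWithin_le hD hb (convex_closedBall a _)
      (mem_closedBall_self dist_nonneg) (mem_closedBall.mpr (le_refl (dist z a)))
    simp only [sub_self, h0] at hmv
    rw [zero_pow (Nat.succ_ne_zero m), mul_zero, sub_zero, sub_zero] at hmv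
    have hza' : (z - a) ≠ 0 := sub_ne_zero.mpr hza
    have hpos : 0 < ‖z - a‖ := norm_pos_iff.mpr hza'
    have h5 : k z - k a = (Φ z - c / (m + 1) * (z - a) ^ (m + 1)) / (z - a) ^ (m + 1) := by
      rw [hkz z hza, hka, hc]
      field_simp
    rw [dist_eq_norm, h5, norm_div, norm_pow, div_lt_iff₀ (by positivity)]
    rw [dist_eq_norm] at hmv
    refine hmv.trans_lt ?_
    have h6 : ‖z - a‖ ^ m * (ε / 2) * ‖z - a‖ = (ε / 2) * ‖z - a‖ ^ (m + 1) := by ring
    rw [h6]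
    have h7 : 0 < ‖z - a‖ ^ (m + 1) := by positivity
    nlinarith
  · intro z hz
    rcases eq_or_ne z a with rfl | hza
    · rw [h0, sub_self, zero_pow (Nat.succ_ne_zero m), zero_mul]
    · rw [hkz z hza]
      have hza' : (z - a) ≠ 0 := sub_ne_zero.mpr hza
      field_simp

theorem mult_two {P Q q : Polynomial ℂ} {a : ℂ} {m : ℕ} {ρ : ℝ} {Φ k : ℂ → ℂ}
    (h : Pole P Q q a m ρ Φ k) (hm : 2 ≤ m) : Q.eval a = 0 ∧ (derivative Q).eval a = 0 := by
  obtain ⟨j, rfl⟩ := Nat.exists_eq_add_of_le hm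
  have hQ := h.hQ
  have h1 : Q = (X - C a) ^ 2 * ((X - C a) ^ j * q) := by
    rw [hQ, pow_add, mul_assoc]
  constructor
  · rw [h1]
    simp
  · rw [h1, derivative_mul, derivative_pow]
    simp

end Pool.Agent.H79.Eul
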