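import Pool.Agent.H79.Eul.Defs

set_option autoImplicit false

open Filter Topology Polynomial Metric Set

namespace Pool.Agent.H79.Eul

open Pool.Agent.H44.Fatou Pool.Agent.H32.BT

/-
PROOF of density. For n : ℕ let O n = interior {v | ∀ r, 0 < r → r < 1/(n+1) → v ∉ bad r}, an increasing
sequence of open sets. By h every v ∈ S lies in O n for n large (eventually in 𝓝 v ×ˢ 𝓝[>] 0: there are a
neighbourhood N of v and ε > 0 with w ∉ bad r for w ∈ N, 0 < r < ε). So ⋂ (ball 0 1 \ O n) ⊆ Sᶜ has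
measure 0, and volume (ball 0 1 \ O n) → 0 (tendsto_measure_iInter_atTop, finite measure of the ball).
For 0 < r < 1/(n+1): ball 0 1 ∩ bad r ⊆ ball 0 1 \ O n.
-/

open MeasureTheory in
theorem density {d : ℕ} {bad : ℝ → Set (E d)} {S : Set (E d)} (hS : volume Sᶜ = 0)
    (h : ∀ v ∈ S, ∀ᶠ τ in flt v, τ.1 ∉ bad τ.2) :
    Tendsto (fun r : ℝ => volume (ball (0 : E d) 1 ∩ bad r)) (𝓝[>] 0) (𝓝 0) := by
  classical
  let O : ℕ → Set (E d) := fun n =>
    interior {v | ∀ r : ℝ, 0 < r → r < 1 / ((n : ℝ) + 1) → v ∉ bad r}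
  have hOopen : ∀ n, IsOpen (O n) := fun n => isOpen_interior
  have hOmono : ∀ m n : ℕ, m ≤ n → O m ⊆ O n := by
    intro m n hmn
    apply interior_mono
    intro v hv r hr hrn
    apply hv r hr
    refine lt_of_lt_of_le hrn ?_
    apply one_div_le_one_div_of_le
    · positivity
    · have : (m : ℝ) ≤ n := by exact_mod_cast hmn
      linarith
  have hcover : ∀ v ∈ S, ∃ n, v ∈ O n := by
    intro v hv
    have h1 := h v hv
    rw [flt, Filter.eventually_prod_iff] at h1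
    obtain ⟨pa, hpa, pb, hpb, hab⟩ := h1
    obtain ⟨N, hN, hNopen, hvN⟩ := _root_.eventually_nhds_iff.1 hpa
    rw [eventually_nhdsWithin_iff, Metric.eventually_nhds_iff] at hpb
    obtain ⟨ε, hε, hε2⟩ := hpb
    obtain ⟨n, hn⟩ := exists_nat_one_div_lt hε
    refine ⟨n, ?_⟩
    rw [mem_interior]
    refine ⟨N, ?_, hNopen, hvN⟩
    intro w hw r hr hrn
    refine hab (hN w hw) (hε2 ?_ hr)
    rw [Real.dist_eq, sub_zero, abs_of_pos hr]
    linarith
  let D : ℕ → Set (E d) := fun n => ball (0 : E d) 1 \ O n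
  have hDmeas : ∀ n, NullMeasurableSet (D n) volume := fun n =>
    (measurableSet_ball.diff (hOopen n).measurableSet).nullMeasurableSet
  have hDanti : Antitone D := fun m n hmn => sdiff_subset_sdiff_right (hOmono m n hmn)
  have hDfin : ∃ n, volume (D n) ≠ ⊤ :=
    ⟨0, ((measure_mono sdiff_subset).trans_lt measure_ball_lt_top).ne⟩
  have hDlim := tendsto_measure_iInter_atTop hDmeas hDanti hDfin
  have hD0 : volume (⋂ n, D n) = 0 := by
    refine measure_mono_null ?_ hS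
    intro v hv hvS
    obtain ⟨n, hn⟩ := hcover v hvS
    exact (mem_iInter.1 hv n).2 hn
  rw [hD0] at hDlim
  rw [ENNReal.tendsto_nhds_zero] at hDlim ⊢
  intro ε hε
  obtain ⟨n, hn⟩ := (hDlim ε hε).exists
  have hmem : Ioo (0 : ℝ) (1 / ((n : ℝ) + 1)) ∈ 𝓝[>] (0 : ℝ) :=
    Ioo_mem_nhdsGT (by positivity)
  filter_upwards [hmem] with r hr
  refine le_trans (measure_mono ?_) hn
  rintro v ⟨hv1, hv2⟩
  refine ⟨hv1, fun hv3 => ?_⟩
  exact (interior_subset hv3) r hr.1 hr.2 hv2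

end Pool.Agent.H79.Eul
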