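import Pool.Agent.H79.Eul.Defs

set_option autoImplicit false

open Filter Topology Polynomial Metric Set

namespace Pool.Agent.H79.Eul

open Pool.Agent.H44.Fatou Pool.Agent.H32.BT

/-
PROOF of scaling. ball v0 r ∩ M is the image of ball 0 1 ∩ {v | v0 + r • v ∈ M} under v ↦ v0 + r • v, which
multiplies volume by ofReal (r^n), n = finrank ℝ (E d) (Measure.addHaar_smul, measure_preimage_add; the set is
{v0} + r • (...)); Measure.addHaar_ball for the balls. The factor is neither 0 nor infinity and cancels
(ENNReal.mul_div_mul_left). MeasureTheory.volume on E d is an additive Haar measure.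
-/

open MeasureTheory in
theorem scaling {d : ℕ} (v0 : E d) (M : Set (E d)) {r : ℝ} (hr : 0 < r) :
    volume (ball v0 r ∩ M) / volume (ball v0 r) =
      volume (ball (0 : E d) 1 ∩ {v | v0 + r • v ∈ M}) / volume (ball (0 : E d) 1) := by
  haveI : Measure.IsAddHaarMeasure (volume : Measure (E d)) :=
    Measure.prod.instIsAddHaarMeasure (volume : Measure (Fin (d + 1) → ℂ))
      (volume : Measure (Fin (d + 1) → ℂ))
  have key : ∀ N : Set (E d), volume (ball (0 : E d) 1 ∩ {v | v0 + r • v ∈ N}) =
      ENNReal.ofReal |(r ^ Module.finrank ℝ (E d))⁻¹| * volume (ball v0 r ∩ N) := by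
    intro N
    have h1 : ball (0 : E d) 1 ∩ {v | v0 + r • v ∈ N} =
        (fun v : E d => r • v) ⁻¹' ((fun w : E d => v0 + w) ⁻¹' (ball v0 r ∩ N)) := by
      ext v
      simp only [mem_inter_iff, mem_preimage, Set.mem_ofPred_eq, mem_ball, dist_zero_right,
        dist_self_add_left, norm_smul, Real.norm_eq_abs, abs_of_pos hr]
      refine and_congr_left fun _ => ?_
      constructor
      · intro h
        calc r * ‖v‖ < r * 1 := mul_lt_mul_of_pos_left h hr
          _ = r := mul_one r
      · intro h
        have h2 : r * ‖v‖ < r * 1 := by rwa [mul_one]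
        exact lt_of_mul_lt_mul_left h2 hr.le
    rw [h1, Measure.addHaar_preimage_smul volume hr.ne', measure_preimage_add]
  have hc0 : ENNReal.ofReal |(r ^ Module.finrank ℝ (E d))⁻¹| ≠ 0 := by
    rw [Ne, ENNReal.ofReal_eq_zero, not_le]
    positivity
  have h1 := key M
  have h2 := key univ
  simp only [mem_univ, Set.ofPred_true, inter_univ] at h2
  rw [h1, h2, ENNReal.mul_div_mul_left _ _ hc0 ENNReal.ofReal_ne_top]

end Pool.Agent.H79.Eul
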