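import Mathlib
import Pool.Agent.H32.BT.TrapSink
import Pool.Agent.H32.BT.Cj

/-!
# Hyperbolicity near the identity: definitions

Near the degenerate pair `(X Q, Q)` a rational map of degree `d` is `z + h V + o(h)` with
`V = P / Q`, `P = A - X B`.
-/

set_option autoImplicit false

open Filter Topology Polynomial Metric Set

namespace Pool.Agent.H79.Eul

open Pool.Agent.H44.Fatou Pool.Agent.H32.BT

/-! ### Plane curves -/

/-- a simple closed curve of class `C^1` with nonvanishing derivative, as a periodic function -/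
structure Loop where
  γ : ℝ → ℂ
  γ' : ℝ → ℂ
  L : ℝ
  hL : 0 < L
  deriv : ∀ t, HasDerivAt γ (γ' t) t
  cont : Continuous γ'
  ne : ∀ t, γ' t ≠ 0
  per : ∀ t, γ (t + L) = γ t
  inj : ∀ s ∈ Ico (0 : ℝ) L, ∀ t ∈ Ico (0 : ℝ) L, γ s = γ t → s = t

/-- the winding number (a complex number, which turns out to be an integer) -/
noncomputable def wind (c : Loop) (z : ℂ) : ℂ :=
  (2 * Real.pi * Complex.I)⁻¹ * ∫ t in (0 : ℝ)..c.L, c.γ' t / (c.γ t - z)

/-! ### Rational vector fields -/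

/-- the zeros of `P` -/
noncomputable def Z (P : Polynomial ℂ) : Finset ℂ := P.roots.toFinset

/-- the residue of `Q / P` at a simple zero of `P` -/
noncomputable def res (P Q : Polynomial ℂ) (a : ℂ) : ℂ := Q.eval a / (derivative P).eval a

/-- `z` is neither a zero nor a pole of `P / Q` -/
def Reg (P Q : Polynomial ℂ) (z : ℂ) : Prop := P.eval z ≠ 0 ∧ Q.eval z ≠ 0

/-- the complete vector field `P conj Q = |Q|^2 P / Q` -/
noncomputable def Xf (P Q : Polynomial ℂ) (z : ℂ) : ℂ := P.eval z * (starRingEnd ℂ) (Q.eval z)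

/-- a (forward) trajectory of `Xf P Q` -/
def IsOrb (P Q : Polynomial ℂ) (x : ℝ → ℂ) : Prop :=
  ∀ s : ℝ, 0 ≤ s → HasDerivAt x (Xf P Q (x s)) s

/-- no sum of residues is purely imaginary, except zero -/
def G1 (P Q : Polynomial ℂ) : Prop :=
  ∀ J ⊆ Z P, (∑ a ∈ J, res P Q a).re = 0 → ∑ a ∈ J, res P Q a = 0

/-- no `P / Q`-trajectory from `z` to `b` in finite positive time (in fact more) -/
def NoConn (P Q : Polynomial ℂ) (z b : ℂ) : Prop :=
  ∀ l : ℂ → ℂ, (∀ a ∈ Z P, Complex.exp (l a) = (b - a) / (z - a)) →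
    ∀ t : ℝ, 0 < t → ∑ a ∈ Z P, res P Q a * l a ≠ (t : ℂ)

/-- a flow box chart of `P / Q` at `p`: in the coordinate `e` the vector field is `1` -/
structure Chart (P Q : Polynomial ℂ) (p : ℂ) where
  e : OpenPartialHomeomorph ℂ ℂ
  mem : p ∈ e.source
  zero : e p = 0
  reg : ∀ z ∈ e.source, Reg P Q z
  deriv : ∀ z ∈ e.source, HasDerivAt e (Q.eval z / P.eval z) z
  deriv_symm : ∀ w ∈ e.target,
    HasDerivAt e.symm (P.eval (e.symm w) / Q.eval (e.symm w)) w

/-- the closed rectangle of half width `δ` and half height `η` -/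
def Box (δ η : ℝ) : Set ℂ := {w | |w.re| ≤ δ ∧ |w.im| ≤ η}

/-! ### Families of maps `z + h p / (Q + h b)` -/

/-- An abstract family of maps `z + h p / (Q + h b)` along a filter `l`, with `h → 0`, `p → P`,
`b → B` (continuous convergence, with derivatives), and a set of attracted points `att`. -/
structure Sys (T : Type) (l : Filter T) (P Q B : Polynomial ℂ) where
  h : T → ℝ
  p : T → ℂ → ℂ
  b : T → ℂ → ℂ
  dp : T → ℂ → ℂ
  db : T → ℂ → ℂ
  att : T → ℂ → Prop
  h_pos : ∀ᶠ τ in l, 0 < h τ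
  h_lim : Tendsto h l (𝓝 0)
  p_lim : ∀ z : ℂ, Tendsto (fun y : T × ℂ => p y.1 y.2) (l ×ˢ 𝓝 z) (𝓝 (P.eval z))
  b_lim : ∀ z : ℂ, Tendsto (fun y : T × ℂ => b y.1 y.2) (l ×ˢ 𝓝 z) (𝓝 (B.eval z))
  dp_lim : ∀ z : ℂ, Tendsto (fun y : T × ℂ => dp y.1 y.2) (l ×ˢ 𝓝 z)
    (𝓝 ((derivative P).eval z))
  db_lim : ∀ z : ℂ, Tendsto (fun y : T × ℂ => db y.1 y.2) (l ×ˢ 𝓝 z)
    (𝓝 ((derivative B).eval z))
  p_deriv : ∀ (τ : T) (z : ℂ), HasDerivAt (p τ) (dp τ z) z
  b_deriv : ∀ (τ : T) (z : ℂ), HasDerivAt (b τ) (db τ z) z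
  step : ∀ᶠ τ in l, ∀ z : ℂ, Q.eval z + h τ * b τ z ≠ 0 →
    att τ (z + h τ * p τ z / (Q.eval z + h τ * b τ z)) → att τ z
  trap : ∀ᶠ τ in l, ∀ (c : ℂ) (r q : ℝ), 0 < r → 0 ≤ q → q < 1 →
    (∀ z ∈ closedBall c r, Q.eval z + h τ * b τ z ≠ 0) →
    (∀ z ∈ closedBall c r, z + h τ * p τ z / (Q.eval z + h τ * b τ z) ∈ ball c r) →
    (∀ z ∈ closedBall c r, ∀ w ∈ closedBall c r,
      ‖(z + h τ * p τ z / (Q.eval z + h τ * b τ z)) -
        (w + h τ * p τ w / (Q.eval w + h τ * b τ w))‖ ≤ q * ‖z - w‖) →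
    ∀ z ∈ closedBall c r, att τ z

namespace Sys

variable {T : Type} {l : Filter T} {P Q B : Polynomial ℂ} (s : Sys T l P Q B)

/-- the denominator -/
noncomputable def den (τ : T) (z : ℂ) : ℂ := Q.eval z + s.h τ * s.b τ z

/-- the map -/
noncomputable def g (τ : T) (z : ℂ) : ℂ := z + s.h τ * s.p τ z / s.den τ z

/-- the critical equation -/
def crit (τ : T) (z : ℂ) : Prop :=
  s.den τ z ^ 2 + s.h τ * (s.dp τ z * s.den τ z -
    s.p τ z * ((derivative Q).eval z + s.h τ * s.db τ z)) = 0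

/-- all points near `z` are attracted, eventually -/
def Good (z : ℂ) : Prop := ∀ᶠ y : T × ℂ in l ×ˢ 𝓝 z, s.att y.1 y.2

end Sys

/-! ### The family of rational maps -/

/-- pairs of coefficient vectors -/
abbrev E (d : ℕ) : Type := (Fin (d + 1) → ℂ) × (Fin (d + 1) → ℂ)

/-- the polynomial with given coefficients -/
noncomputable def pol {d : ℕ} (v : Fin (d + 1) → ℂ) : Polynomial ℂ :=
  ∑ i, C (v i) * X ^ (i : ℕ)

/-- numerator and denominator at scale `h` near `(X Q, Q)` -/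
noncomputable def nu {d : ℕ} (Q : Polynomial ℂ) (v : E d) (h : ℝ) : Polynomial ℂ :=
  X * Q + C (h : ℂ) * pol v.1

noncomputable def de {d : ℕ} (Q : Polynomial ℂ) (v : E d) (h : ℝ) : Polynomial ℂ :=
  Q + C (h : ℂ) * pol v.2

/-- the map `(X Q + h A) / (Q + h B)` is a hyperbolic rational map of degree `d` -/
def HypAt {d : ℕ} (Q : Polynomial ℂ) (v : E d) (h : ℝ) : Prop :=
  IsCoprime (nu Q v h) (de Q v h) ∧ max (nu Q v h).natDegree (de Q v h).natDegree = d ∧
    HypMap (rat (nu Q v h) (de Q v h))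

/-- the filter of parameters -/
noncomputable def flt {d : ℕ} (v : E d) : Filter (E d × ℝ) := 𝓝 v ×ˢ 𝓝[>] (0 : ℝ)

/-- generic data in the chart where infinity is a repelling zero of the vector field -/
structure GenN (d : ℕ) (Q A B : Polynomial ℂ) : Prop where
  hQ : Q.natDegree + 1 = d
  hA : A.natDegree ≤ d
  hB : B.natDegree ≤ d
  hP : (A - X * B).natDegree = d
  sq : IsCoprime (A - X * B) (derivative (A - X * B))
  cop : IsCoprime (A - X * B) Q
  rep : ((A - X * B).leadingCoeff / Q.leadingCoeff).re < 0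
  g1 : G1 (A - X * B) Q
  g2 : ∀ a b : ℂ, Q.eval a = 0 → Q.eval b = 0 → NoConn (A - X * B) Q a b
  mul : ∀ a : ℂ, Q.eval a = 0 → (derivative Q).eval a = 0 →
    B.eval a ≠ 0 ∧ Reg (A - X * B) Q (A.eval a / B.eval a) ∧
      ∀ b : ℂ, Q.eval b = 0 → NoConn (A - X * B) Q (A.eval a / B.eval a) b

/-- algebraically generic pairs, in the original chart -/
structure Nice (d : ℕ) (Q A B : Polynomial ℂ) : Prop where
  hQ : Q.natDegree + 1 ≤ d
  hA : A.natDegree ≤ d
  hB : B.natDegree ≤ d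
  hP : (A - X * B).natDegree = d + 1
  sq : IsCoprime (A - X * B) (derivative (A - X * B))
  cop : IsCoprime (A - X * B) Q
  mul : ∀ a : ℂ, Q.eval a = 0 → B.eval a ≠ 0 ∧ Reg (A - X * B) Q (A.eval a / B.eval a)
  inf : Q.natDegree + 1 < d → Reg (A - X * B) Q (A.coeff d / B.coeff d)

/-- the polynomial `Q` in the coordinate `1 / (z - s)` -/
noncomputable def qh (s : ℂ) (d : ℕ) (Q : Polynomial ℂ) : Polynomial ℂ :=
  reflect (d - 1) (Q.comp (X + C s))

end Pool.Agent.H79.Eul
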