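import Pool.Agent.H79.Eul.Defs

set_option autoImplicit false

open Filter Topology Polynomial Metric Set

namespace Pool.Agent.H79.Eul

open Pool.Agent.H44.Fatou Pool.Agent.H32.BT

/-
PROOF of arc_fun: L = 4 δ / (α + β), u' t = α + (β - α) t / L, u t = -δ + α t + (β - α) t^2 / (2 L) (so
u L = -δ + (α + β) L / 2 = δ), and with θ = t / L: y t = y2 + (y1 - y2) (3 θ^2 - 2 θ^3),
y' t = (y1 - y2) (6 θ - 6 θ^2) / L. On [0, L]: u' > 0 (convex combination of α and β), so u is monotone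
from -δ to δ; 3 θ^2 - 2 θ^3 ∈ [0, 1], so y is a convex combination of y1 and y2.
-/

theorem arc_fun {δ α β η y1 y2 : ℝ} (hδ : 0 < δ) (hα : 0 < α) (hβ : 0 < β) (h1 : |y1| ≤ η)
    (h2 : |y2| ≤ η) : ∃ (L : ℝ) (u y u' y' : ℝ → ℝ), 0 < L ∧ (∀ t, HasDerivAt u (u' t) t) ∧
      (∀ t, HasDerivAt y (y' t) t) ∧ Continuous u' ∧ Continuous y' ∧ u 0 = -δ ∧ u L = δ ∧
      u' 0 = α ∧ u' L = β ∧ y 0 = y2 ∧ y L = y1 ∧ y' 0 = 0 ∧ y' L = 0 ∧
      ∀ t ∈ Icc 0 L, 0 < u' t ∧ |u t| ≤ δ ∧ |y t| ≤ η := by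
  have hab : 0 < α + β := by linarith
  obtain ⟨L, hL⟩ : ∃ L : ℝ, L = 4 * δ / (α + β) := ⟨_, rfl⟩
  have hLpos : 0 < L := by rw [hL]; positivity
  have hLab : L * (α + β) = 4 * δ := by
    rw [hL, div_mul_cancel₀ _ hab.ne']
  have hL0 : L ≠ 0 := hLpos.ne'
  refine ⟨L, fun t => -δ + α * t + (β - α) / (2 * L) * t ^ 2,
    fun t => y2 + (y1 - y2) * (3 * (t / L) ^ 2 - 2 * (t / L) ^ 3),
    fun t => α + (β - α) / (2 * L) * (2 * t),
    fun t => (y1 - y2) * (3 * (2 * (t / L) * (1 / L)) - 2 * (3 * (t / L) ^ 2 * (1 / L))),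
    hLpos, ?_, ?_, ?_, ?_, ?_, ?_, ?_, ?_, ?_, ?_, ?_, ?_, ?_⟩
  · intro t
    have e1 : HasDerivAt (fun t : ℝ => -δ + α * t) α t := by
      simpa using ((hasDerivAt_id t).const_mul α).const_add (-δ)
    have e2 : HasDerivAt (fun t : ℝ => (β - α) / (2 * L) * t ^ 2) ((β - α) / (2 * L) * (2 * t)) t := by
      simpa using (hasDerivAt_pow 2 t).const_mul ((β - α) / (2 * L))
    exact e1.add e2
  · intro t
    have e0 : HasDerivAt (fun t : ℝ => t / L) (1 / L) t := (hasDerivAt_id t).div_const L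
    have e1 : HasDerivAt (fun t : ℝ => (t / L) ^ 2) (2 * (t / L) * (1 / L)) t := by
      refine (HasDerivAt.fun_pow e0 2).congr_deriv ?_
      norm_num
    have e2 : HasDerivAt (fun t : ℝ => (t / L) ^ 3) (3 * (t / L) ^ 2 * (1 / L)) t := by
      refine (HasDerivAt.fun_pow e0 3).congr_deriv ?_
      norm_num
    exact (((e1.const_mul 3).sub (e2.const_mul 2)).const_mul (y1 - y2)).const_add y2
  · fun_prop
  · fun_prop
  · simp
  · have h3 : (β - α) / (2 * L) * L ^ 2 = (β - α) * L / 2 := by field_simp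
    change -δ + α * L + (β - α) / (2 * L) * L ^ 2 = δ
    rw [h3]
    linarith
  · simp
  · change α + (β - α) / (2 * L) * (2 * L) = β
    field_simp
    ring
  · simp
  · change y2 + (y1 - y2) * (3 * (L / L) ^ 2 - 2 * (L / L) ^ 3) = y1
    rw [div_self hL0]
    ring
  · simp
  · change (y1 - y2) * (3 * (2 * (L / L) * (1 / L)) - 2 * (3 * (L / L) ^ 2 * (1 / L))) = 0
    rw [div_self hL0]
    ring
  · rintro t ⟨ht0, htL⟩
    obtain ⟨θ, hθ⟩ : ∃ θ : ℝ, θ = t / L := ⟨_, rfl⟩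
    have ht : t = θ * L := by rw [hθ, div_mul_cancel₀ _ hL0]
    have hθ0 : 0 ≤ θ := by rw [hθ]; positivity
    have hθ1 : θ ≤ 1 := by rw [hθ, div_le_one hLpos]; exact htL
    have hL4 : L * α + L * β = 4 * δ := by linarith
    have hLα : 0 < L * α := by positivity
    have hLβ : 0 < L * β := by positivity
    refine ⟨?_, ?_, ?_⟩
    · have h3 : α + (β - α) / (2 * L) * (2 * t) = (1 - θ) * α + θ * β := by
        rw [ht]
        field_simp
        ring
      change 0 < α + (β - α) / (2 * L) * (2 * t)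
      rw [h3]
      rcases eq_or_lt_of_le hθ0 with h4 | h4
      · rw [← h4]
        linarith
      · have h5 : 0 < θ * β := by positivity
        have h6 : 0 ≤ (1 - θ) * α := mul_nonneg (by linarith) hα.le
        linarith
    · have h3 : -δ + α * t + (β - α) / (2 * L) * t ^ 2 =
          -δ + θ * (L * α) * (1 - θ / 2) + θ ^ 2 * (L * β) / 2 := by
        rw [ht]
        field_simp
        ring
      change |-δ + α * t + (β - α) / (2 * L) * t ^ 2| ≤ δ
      rw [h3, abs_le]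
      have h5 : 0 ≤ θ * (L * α) * (1 - θ / 2) :=
        mul_nonneg (mul_nonneg hθ0 hLα.le) (by linarith)
      have h6 : 0 ≤ θ ^ 2 * (L * β) / 2 := by positivity
      constructor
      · linarith
      · have h7 : θ * (1 - θ / 2) ≤ 1 / 2 := by nlinarith [sq_nonneg (1 - θ)]
        have h8 : θ * (L * α) * (1 - θ / 2) ≤ (L * α) / 2 := by
          have := mul_le_mul_of_nonneg_left h7 hLα.le
          nlinarith
        have h9 : θ ^ 2 ≤ 1 := by nlinarith
        have h10 : θ ^ 2 * (L * β) / 2 ≤ (L * β) / 2 := by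
          have := mul_le_mul_of_nonneg_right h9 hLβ.le
          linarith
        linarith
    · change |y2 + (y1 - y2) * (3 * (t / L) ^ 2 - 2 * (t / L) ^ 3)| ≤ η
      rw [← hθ]
      obtain ⟨κ, hκ⟩ : ∃ κ : ℝ, κ = 3 * θ ^ 2 - 2 * θ ^ 3 := ⟨_, rfl⟩
      have hκ0 : 0 ≤ κ := by
        have h3 : κ = θ ^ 2 * (3 - 2 * θ) := by rw [hκ]; ring
        rw [h3]
        exact mul_nonneg (sq_nonneg θ) (by linarith)
      have hκ1 : κ ≤ 1 := by
        have h3 : 1 - κ = (1 - θ) ^ 2 * (1 + 2 * θ) := by rw [hκ]; ring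
        have h4 : 0 ≤ (1 - θ) ^ 2 * (1 + 2 * θ) := mul_nonneg (sq_nonneg _) (by linarith)
        linarith
      rw [← hκ]
      have h3 : y2 + (y1 - y2) * κ = (1 - κ) * y2 + κ * y1 := by ring
      rw [h3]
      calc |(1 - κ) * y2 + κ * y1| ≤ |(1 - κ) * y2| + |κ * y1| := abs_add_le _ _
        _ = (1 - κ) * |y2| + κ * |y1| := by
            rw [abs_mul, abs_mul, abs_of_nonneg (by linarith : 0 ≤ 1 - κ), abs_of_nonneg hκ0]
        _ ≤ (1 - κ) * η + κ * η := by
            apply add_le_add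
            · exact mul_le_mul_of_nonneg_left h2 (by linarith)
            · exact mul_le_mul_of_nonneg_left h1 hκ0
        _ = η := by ring

end Pool.Agent.H79.Eul
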