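import Pool.Agent.H79.Eul.Pol

set_option autoImplicit false

open Filter Topology Polynomial Metric Set

namespace Pool.Agent.H79.Eul

open Pool.Agent.H44.Fatou Pool.Agent.H32.BT

/-
PROOF of cj_family: reflect and comp are additive and homogeneous (reflect_add, reflect_C_mul, add_comp,
mul_comp). For natDegree R ≤ d - 1 one has reflect d R = X * reflect (d-1) R and
reflect d (X * R) = reflect (d-1) R (compare coefficients, coeff_reflect, revAt; d ≥ 1). Here
R = Q0.comp (X + C s) (natDegree ≤ d - 1 by mob_deg1), and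
(X * Q0 - C s * Q0).comp (X + C s) = X * Q0.comp (X + C s).
PROOF of lin_cont: every coefficient of cj1 s d (pol v.1) (pol v.2) and cj2 is a finite linear combination
of the coefficients of v (the composition with X + C s of ∑ C (v i) X^i is ∑ C (v i) (X + C s)^i, then reflect
permutes the coefficients), hence continuous; or continuity of a linear map on a finite
dimensional space (LinearMap.continuous_of_finiteDimensional); or near_cj in H32/BT/Cj.
-/

theorem reflect_one_X : reflect 1 (X : Polynomial ℂ) = 1 := by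
  have h := reflect_monomial (R := ℂ) 1 1
  rw [pow_one, revAt_le le_rfl, Nat.sub_self, pow_zero] at h
  exact h

theorem reflect_one_one : reflect 1 (1 : Polynomial ℂ) = X := by
  have h := reflect_monomial (R := ℂ) 1 0
  rw [pow_zero, revAt_le (Nat.zero_le 1), Nat.sub_zero, pow_one] at h
  exact h

theorem reflect_up {e : ℕ} {R : Polynomial ℂ} (hR : R.natDegree ≤ e) :
    reflect (e + 1) R = X * reflect e R := by
  have h := reflect_mul (1 : Polynomial ℂ) R (F := 1) (G := e) (by rw [natDegree_one]; omega) hR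
  rw [one_mul, reflect_one_one, add_comm] at h
  exact h

theorem reflect_up_X {e : ℕ} {R : Polynomial ℂ} (hR : R.natDegree ≤ e) :
    reflect (e + 1) (X * R) = reflect e R := by
  have h := reflect_mul (X : Polynomial ℂ) R (F := 1) (G := e) (by rw [natDegree_X]) hR
  rw [reflect_one_X, one_mul, add_comm] at h
  exact h

theorem cj1_add (s : ℂ) (d : ℕ) (A B A' B' : Polynomial ℂ) :
    cj1 s d (A + A') (B + B') = cj1 s d A B + cj1 s d A' B' := by
  unfold cj1
  rw [add_comp, reflect_add]

theorem cj2_add (s : ℂ) (d : ℕ) (A B A' B' : Polynomial ℂ) :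
    cj2 s d (A + A') (B + B') = cj2 s d A B + cj2 s d A' B' := by
  unfold cj2
  rw [← reflect_add, ← add_comp]
  congr 2
  ring

theorem cj1_smul (s : ℂ) (d : ℕ) (c : ℂ) (A B : Polynomial ℂ) :
    cj1 s d (C c * A) (C c * B) = C c * cj1 s d A B := by
  unfold cj1
  rw [mul_comp, C_comp, reflect_C_mul]

theorem cj2_smul (s : ℂ) (d : ℕ) (c : ℂ) (A B : Polynomial ℂ) :
    cj2 s d (C c * A) (C c * B) = C c * cj2 s d A B := by
  unfold cj2
  have h : C c * A - C s * (C c * B) = C c * (A - C s * B) := by ring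
  rw [h, mul_comp, C_comp, reflect_C_mul]

theorem cj_family (s : ℂ) {d : ℕ} {Q0 : Polynomial ℂ} (hQ : Q0.natDegree + 1 ≤ d)
    (A B : Polynomial ℂ) (h : ℂ) :
    cj1 s d (X * Q0 + C h * A) (Q0 + C h * B) = X * qh s d Q0 + C h * cj1 s d A B ∧
    cj2 s d (X * Q0 + C h * A) (Q0 + C h * B) = qh s d Q0 + C h * cj2 s d A B := by
  obtain ⟨e, rfl⟩ : ∃ e, d = e + 1 := ⟨d - 1, by omega⟩
  have hQe : (Q0.comp (X + C s)).natDegree ≤ e := mob_deg1 s (by omega)
  constructor
  · rw [cj1_add, cj1_smul]
    congr 1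
    unfold cj1 qh
    exact reflect_up hQe
  · rw [cj2_add, cj2_smul]
    congr 1
    unfold cj2 qh
    have h1 : (X * Q0 - C s * Q0).comp (X + C s) = X * Q0.comp (X + C s) := by
      rw [sub_comp, mul_comp, mul_comp, X_comp, C_comp]
      ring
    rw [h1]
    exact reflect_up_X hQe

/-- the linear change of coordinates on coefficient vectors -/
noncomputable def Lin (s : ℂ) {d : ℕ} (v : E d) : E d :=
  (cf d (cj1 s d (pol v.1) (pol v.2)), cf d (cj2 s d (pol v.1) (pol v.2)))

theorem lin_cont (s : ℂ) {d : ℕ} : Continuous (Lin s : E d → E d) := by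
  have hadd : ∀ v w : E d, Lin s (v + w) = Lin s v + Lin s w := by
    intro v w
    unfold Lin
    rw [Prod.fst_add, Prod.snd_add, pol_add, pol_add, cj1_add, cj2_add]
    ext i
    · simp only [cf, coeff_add, Prod.mk_add_mk, Pi.add_apply]
    · simp only [cf, coeff_add, Prod.mk_add_mk, Pi.add_apply]
  have hsmul : ∀ (c : ℂ) (v : E d), Lin s (c • v) = c • Lin s v := by
    intro c v
    unfold Lin
    rw [Prod.smul_fst, Prod.smul_snd, pol_smul, pol_smul, cj1_smul, cj2_smul]
    ext i
    · simp only [cf, coeff_C_mul, Prod.smul_mk, Pi.smul_apply, smul_eq_mul]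
    · simp only [cf, coeff_C_mul, Prod.smul_mk, Pi.smul_apply, smul_eq_mul]
  have h := LinearMap.continuous_of_finiteDimensional
    (⟨⟨Lin s, hadd⟩, hsmul⟩ : E d →ₗ[ℂ] E d)
  exact h

end Pool.Agent.H79.Eul
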