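import Pool.Agent.H79.Eul.Planar
import Pool.Agent.H79.Eul.PartFrac

set_option autoImplicit false

open Filter Topology Polynomial Metric Set

namespace Pool.Agent.H79.Eul

open Pool.Agent.H44.Fatou Pool.Agent.H32.BT

/-
PROOF of loop_int. By part_frac Q/P (γ t) = ∑_{a ∈ Z P} res a / (γ t - a), so the integral is
∑ res a * ∫ γ' / (γ - a) = 2 π I ∑ res a * wind c a (intervalIntegral.integral_finset_sum, the
integrands are continuous since γ t ≠ a: P (γ t) ≠ 0). By planar there is σ with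
wind c a ∈ {0, σ} for all a ∈ Z P; take J = {a ∈ Z P | wind c a = σ}.
-/

theorem loop_int {P Q : Polynomial ℂ} (hsq : IsCoprime P (derivative P))
    (hdeg : Q.natDegree < P.natDegree) (c : Loop) (hP : ∀ t, P.eval (c.γ t) ≠ 0) :
    ∃ J ⊆ Z P, ∃ σ : ℤ, (σ = 1 ∨ σ = -1) ∧
      ∫ t in (0 : ℝ)..c.L, c.γ' t * (Q.eval (c.γ t) / P.eval (c.γ t)) =
        σ * (2 * Real.pi * Complex.I) * ∑ a ∈ J, res P Q a := by
  classical
  have hP0 : P ≠ 0 := by
    intro h
    apply hP 0
    rw [h, eval_zero]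
  have hne : ∀ a ∈ Z P, ∀ t, c.γ t ≠ a := by
    intro a ha t h
    apply hP t
    rw [h]
    exact (mem_Z hP0).mp ha
  have hγ : Continuous c.γ := continuous_iff_continuousAt.mpr fun t => (c.deriv t).continuousAt
  obtain ⟨σ, hσ, hw⟩ := planar c
  have hσ0 : (σ : ℂ) ≠ 0 := by
    rcases hσ with rfl | rfl <;> simp
  have h2 : (2 * Real.pi * Complex.I : ℂ) ≠ 0 := Complex.two_pi_I_ne_zero
  have hint : ∀ a ∈ Z P, ∫ t in (0 : ℝ)..c.L, res P Q a * (c.γ' t / (c.γ t - a)) =
      res P Q a * ((2 * Real.pi * Complex.I) * wind c a) := by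
    intro a _
    rw [intervalIntegral.integral_const_mul]
    congr 1
    unfold wind
    rw [← mul_assoc, mul_inv_cancel₀ h2, one_mul]
  have hsum : ∫ t in (0 : ℝ)..c.L, c.γ' t * (Q.eval (c.γ t) / P.eval (c.γ t)) =
      ∑ a ∈ Z P, res P Q a * ((2 * Real.pi * Complex.I) * wind c a) := by
    have h3 : ∀ t, c.γ' t * (Q.eval (c.γ t) / P.eval (c.γ t)) =
        ∑ a ∈ Z P, res P Q a * (c.γ' t / (c.γ t - a)) := by
      intro t
      rw [part_frac hsq hdeg (hP t), Finset.mul_sum]
      refine Finset.sum_congr rfl fun a _ => ?_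
      ring
    simp only [h3]
    rw [intervalIntegral.integral_finsetSum]
    · exact Finset.sum_congr rfl hint
    · intro a ha
      refine Continuous.intervalIntegrable ?_ _ _
      refine continuous_const.mul (c.cont.div (hγ.sub continuous_const) fun t => ?_)
      exact sub_ne_zero.mpr (hne a ha t)
  refine ⟨(Z P).filter (fun a => wind c a = σ), Finset.filter_subset _ _, σ, hσ, ?_⟩
  rw [hsum, Finset.mul_sum, Finset.sum_filter]
  refine Finset.sum_congr rfl fun a ha => ?_
  rcases hw a (hne a ha) with h | h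
  · rw [h, if_neg (fun h' => hσ0 h'.symm)]
    ring
  · rw [if_pos h, h]
    ring

end Pool.Agent.H79.Eul
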