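import Pool.Agent.H79.Eul.ClosingLoop
import Pool.Agent.H79.Eul.LoopInt

set_option autoImplicit false

open Filter Topology Polynomial Metric Set

namespace Pool.Agent.H79.Eul

open Pool.Agent.H44.Fatou Pool.Agent.H32.BT

/-
PROOF of closing. Take the loop of closing_loop, S = s2 - s1. P ≠ 0 on the whole loop: for t in Icc 0 S,
x (s1 + t) is regular (x s1 is in c.e.source, so regular by c.reg; orb_shift and orb_reg), for the second
part the points are in c.e.source (c.e.map_target, c.reg); for t outside Icc 0 (S+L) by periodicity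
(lp.per; any t is congruent to a point of Ico 0 lp.L). So loop_int applies. The integral over [0, S + L] splits
(intervalIntegral.integral_add_adjacent_intervals; the integrand is continuous as γ is continuous and P ≠ 0 on
it): the first part is ∫_0^S Xf (x) (Q/P)(x) = ∫_0^S |Q (x)|^2 > 0 (real, integral of a positive continuous
function; intervalIntegral.intervalIntegral_pos_of_pos_on), the second part (substitution
t ↦ S + t, intervalIntegral.integral_comp_add_left) is ∫_0^L (u' + y' I) = 2 δ + (y1 - y2) I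
(integral_eq_sub_of_hasDerivAt). T = first part + 2 δ.
-/

theorem closing {P Q : Polynomial ℂ} (hsq : IsCoprime P (derivative P))
    (hdeg : Q.natDegree < P.natDegree) {p : ℂ} (c : Chart P Q p) {δ η : ℝ} (hδ : 0 < δ)
    (hη : 0 < η) (hB : Box δ η ⊆ c.e.target) {x : ℝ → ℂ} (hx : IsOrb P Q x)
    {s1 s2 y1 y2 : ℝ} (hs1 : 0 ≤ s1) (h12 : s1 < s2) (hy1 : |y1| ≤ η) (hy2 : |y2| ≤ η)
    (hx1 : x s1 = c.e.symm (δ + y1 * Complex.I)) (hx2 : x s2 = c.e.symm (-δ + y2 * Complex.I))
    (hout : ∀ s ∈ Ioo s1 s2, x s ∉ c.e.symm '' Box δ η) :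
    ∃ J ⊆ Z P, ∃ σ : ℤ, (σ = 1 ∨ σ = -1) ∧ ∃ T : ℝ, 0 < T ∧
      (T : ℂ) + (y1 - y2) * Complex.I = σ * (2 * Real.pi * Complex.I) * ∑ a ∈ J, res P Q a := by
  obtain ⟨lp, L, u, y, u', y', hL, hlpL, hp1, hp2, hu, hy, hcu, hcy, hu0, huL, hy0, hyL⟩ :=
    closing_loop c hδ hη hB hx hs1 h12 hy1 hy2 hx1 hx2 hout
  have hS : 0 < s2 - s1 := sub_pos.2 h12
  set S := s2 - s1 with hSdef
  -- regularity of the points of the loop
  have hmem1 : (δ : ℂ) + y1 * Complex.I ∈ Box δ η := by
    constructor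
    · simp [abs_of_pos hδ]
    · simpa using hy1
  have hreg0 : Reg P Q (x s1) := by
    apply c.reg
    rw [hx1]
    exact c.e.map_target (hB hmem1)
  have hregx : ∀ t, 0 ≤ t → Reg P Q (x (s1 + t)) := by
    have h1 := orb_reg (orb_shift hx hs1) (by simpa using hreg0)
    exact h1
  have hreg1 : ∀ t ∈ Icc 0 S, Reg P Q (lp.γ t) := by
    intro t ht
    rw [(hp1 t ht).1]
    exact hregx t ht.1
  have hreg2 : ∀ t ∈ Icc 0 L, Reg P Q (lp.γ (S + t)) := by
    intro t ht
    apply c.reg
    rw [(hp2 t ht).2.1]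
    exact c.e.map_target (hB (hp2 t ht).1)
  have hP : ∀ t, P.eval (lp.γ t) ≠ 0 := by
    intro t
    have hper : Function.Periodic lp.γ lp.L := lp.per
    obtain ⟨r, hr, hrt⟩ := hper.exists_mem_Ico₀ lp.hL t
    rw [hrt]
    rcases le_total r S with h | h
    · exact (hreg1 r ⟨hr.1, h⟩).1
    · have h2 := (hreg2 (r - S) ⟨by linarith, by
        have := hr.2
        rw [hlpL] at this
        linarith⟩).1
      rwa [add_sub_cancel] at h2
  obtain ⟨J, hJ, σ, hσ, hint⟩ := loop_int hsq hdeg lp hP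
  -- the integrand is continuous
  have hγ : Continuous lp.γ := continuous_iff_continuousAt.2 fun t => (lp.deriv t).continuousAt
  have hQc : Continuous fun t => Q.eval (lp.γ t) := Q.continuous.comp hγ
  have hPc : Continuous fun t => P.eval (lp.γ t) := P.continuous.comp hγ
  have hF : Continuous fun t => lp.γ' t * (Q.eval (lp.γ t) / P.eval (lp.γ t)) :=
    lp.cont.mul (hQc.div hPc hP)
  -- the first part
  have hI1 : ∫ t in (0 : ℝ)..S, lp.γ' t * (Q.eval (lp.γ t) / P.eval (lp.γ t)) =
      ((∫ t in (0 : ℝ)..S, ‖Q.eval (lp.γ t)‖ ^ 2 : ℝ) : ℂ) := by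
    rw [← intervalIntegral.integral_ofReal]
    refine intervalIntegral.integral_congr fun t ht => ?_
    rw [uIcc_of_le hS.le] at ht
    have h1 := hP t
    rw [(hp1 t ht).2, ← (hp1 t ht).1]
    unfold Xf
    rw [← Complex.normSq_eq_norm_sq, ← Complex.mul_conj]
    field_simp
  have hT1 : 0 < ∫ t in (0 : ℝ)..S, ‖Q.eval (lp.γ t)‖ ^ 2 := by
    refine intervalIntegral.intervalIntegral_pos_of_pos_on
      ((hQc.norm.pow 2).intervalIntegrable _ _) (fun t ht => ?_) hS
    have := (hreg1 t ⟨ht.1.le, ht.2.le⟩).2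
    positivity
  -- the second part
  have hI2 : ∫ t in S..(S + L), lp.γ' t * (Q.eval (lp.γ t) / P.eval (lp.γ t)) =
      2 * δ + (y1 - y2) * Complex.I := by
    have h1 : ∫ t in (0 : ℝ)..L, lp.γ' (S + t) * (Q.eval (lp.γ (S + t)) / P.eval (lp.γ (S + t))) =
        ∫ t in S..(S + L), lp.γ' t * (Q.eval (lp.γ t) / P.eval (lp.γ t)) := by
      have := intervalIntegral.integral_comp_add_left (a := 0) (b := L)
        (fun t => lp.γ' t * (Q.eval (lp.γ t) / P.eval (lp.γ t))) S
      rw [add_zero] at this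
      exact this
    rw [← h1]
    have h2 : ∫ t in (0 : ℝ)..L, lp.γ' (S + t) *
        (Q.eval (lp.γ (S + t)) / P.eval (lp.γ (S + t))) =
        ∫ t in (0 : ℝ)..L, ((u' t : ℂ) + y' t * Complex.I) := by
      refine intervalIntegral.integral_congr fun t ht => ?_
      rw [uIcc_of_le hL.le] at ht
      have h3 := (hreg2 t ht).1
      have h4 := (hreg2 t ht).2
      rw [(hp2 t ht).2.2]
      field_simp
    rw [h2]
    have h5 : ∀ t, HasDerivAt (fun t => (u t : ℂ) + y t * Complex.I)
        ((u' t : ℂ) + y' t * Complex.I) t := by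
      intro t
      exact (hu t).ofReal_comp.add ((hy t).ofReal_comp.mul_const _)
    rw [intervalIntegral.integral_eq_sub_of_hasDerivAt (fun t _ => h5 t)]
    · rw [hu0, huL, hy0, hyL]
      push_cast
      ring
    · refine Continuous.intervalIntegrable ?_ _ _
      exact (Complex.continuous_ofReal.comp hcu).add
        ((Complex.continuous_ofReal.comp hcy).mul continuous_const)
  refine ⟨J, hJ, σ, hσ, (∫ t in (0 : ℝ)..S, ‖Q.eval (lp.γ t)‖ ^ 2) + 2 * δ, by positivity, ?_⟩
  rw [← hint, hlpL, ← intervalIntegral.integral_add_adjacent_intervals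
    (hF.intervalIntegrable 0 S) (hF.intervalIntegrable S (S + L)), hI1, hI2]
  push_cast
  ring

end Pool.Agent.H79.Eul
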