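import Pool.Agent.H79.Eul.Defs

set_option autoImplicit false

open Filter Topology Polynomial Metric Set

namespace Pool.Agent.H79.Eul

open Pool.Agent.H44.Fatou Pool.Agent.H32.BT

/-
PROOF of glue. Let K = S + L, F t = f t for t < S and g (t - S) for t ≥ S (on [0, K]), F' similarly, and
γ t = F (r t), γ' t = F' (r t), where r t ∈ [0, K) is the representative of t modulo K (toIcoMod, or
K * Int.fract (t / K)).
Derivatives: at points whose representative is in (0, S) or (S, K) the function agrees near the point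
with a translate of f or g. At the representative S: the left derivative is f' S and the right
derivative is g' 0 = f' S, and f S = g 0 (HasDerivWithinAt on Iic and Ici, union; the one sided
statements follow from HasDerivAt of f, g and congruence on a one sided neighbourhood). At the
representative 0: the left neighbourhood is the end of g: g L = f 0, g' L = f' 0.
Continuity of γ' : same cases, with ContinuousOn of f', g' on the closed intervals.
Injectivity on [0, K): both representatives in [0, S]: fi; both in [S, K): gi; one in (0, S) and one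
in [S, K): hd; one equal to 0 and the other t in [S, K): f 0 = g L = g (t - S) with t - S < L
contradicts gi.
-/


/-- the periodic extension of the restriction of `φ` to `[0, K)` -/
private noncomputable def per {K : ℝ} (hK : 0 < K) (φ : ℝ → ℂ) (t : ℝ) : ℂ := φ (toIcoMod hK 0 t)

private theorem per_add {K : ℝ} (hK : 0 < K) (φ : ℝ → ℂ) (t : ℝ) :
    per hK φ (t + K) = per hK φ t := by
  unfold per
  rw [toIcoMod_add_right]

private theorem per_sub_zsmul {K : ℝ} (hK : 0 < K) (φ : ℝ → ℂ) (t : ℝ) (n : ℤ) :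
    per hK φ (t - n • K) = per hK φ t := by
  unfold per
  rw [toIcoMod_sub_zsmul]

private theorem per_of_mem {K : ℝ} (hK : 0 < K) (φ : ℝ → ℂ) {t : ℝ} (ht : t ∈ Ico 0 K) :
    per hK φ t = φ t := by
  unfold per
  rw [(toIcoMod_eq_self hK).2 (by rwa [zero_add])]

private theorem glue_at {φ a b : ℝ → ℂ} {r u v : ℝ} {d : ℂ} (hu : u < r) (hv : r < v)
    (ha : ∀ t ∈ Icc u r, φ t = a t) (hb : ∀ t ∈ Icc r v, φ t = b t) (da : HasDerivAt a d r)
    (db : HasDerivAt b d r) : HasDerivAt φ d r := by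
  have h1 : HasDerivWithinAt φ d (Iic r) r := by
    refine (da.hasDerivWithinAt (s := Iic r)).congr_of_eventuallyEq ?_ (ha r ⟨hu.le, le_rfl⟩)
    rw [← nhdsWithin_Icc_eq_nhdsLE hu]
    filter_upwards [self_mem_nhdsWithin] with t ht
    exact ha t ht
  have h2 : HasDerivWithinAt φ d (Ici r) r := by
    refine (db.hasDerivWithinAt (s := Ici r)).congr_of_eventuallyEq ?_ (hb r ⟨le_rfl, hv.le⟩)
    rw [← nhdsWithin_Icc_eq_nhdsGE hv]
    filter_upwards [self_mem_nhdsWithin] with t ht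
    exact hb t ht
  have h3 := h1.union h2
  rw [Iic_union_Ici] at h3
  exact hasDerivWithinAt_univ.1 h3

private theorem glue_cont {φ a b : ℝ → ℂ} {r u v : ℝ} (hu : u < r) (hv : r < v)
    (ha : ∀ t ∈ Icc u r, φ t = a t) (hb : ∀ t ∈ Icc r v, φ t = b t)
    (ca : ContinuousWithinAt a (Icc u r) r) (cb : ContinuousWithinAt b (Icc r v) r) :
    ContinuousAt φ r := by
  rw [continuousAt_iff_continuous_left_right]
  constructor
  · have h := ca.congr ha (ha r ⟨hu.le, le_rfl⟩)
    unfold ContinuousWithinAt at h ⊢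
    rwa [nhdsWithin_Icc_eq_nhdsLE hu] at h
  · have h := cb.congr hb (hb r ⟨le_rfl, hv.le⟩)
    unfold ContinuousWithinAt at h ⊢
    rwa [nhdsWithin_Icc_eq_nhdsGE hv] at h

/-- the values of the glued function -/
private theorem jn_vals {f g : ℝ → ℂ} {S L : ℝ} (hS : 0 < S) (hL : 0 < L) (hK : 0 < S + L)
    (h1 : f S = g 0) (h3 : g L = f 0) :
    (∀ t ∈ Icc 0 S, per hK (fun t => if t < S then f t else g (t - S)) t = f t) ∧
    (∀ t ∈ Icc S (S + L), per hK (fun t => if t < S then f t else g (t - S)) t = g (t - S)) ∧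
    (∀ t ∈ Icc (-L) 0, per hK (fun t => if t < S then f t else g (t - S)) t = g (t + L)) := by
  have hA : ∀ t ∈ Icc 0 S, per hK (fun t => if t < S then f t else g (t - S)) t = f t := by
    intro t ht
    rw [per_of_mem hK _ ⟨ht.1, lt_of_le_of_lt ht.2 (by linarith)⟩]
    rcases lt_or_eq_of_le ht.2 with h | h
    · rw [if_pos h]
    · rw [if_neg (by rw [h]; exact lt_irrefl _), h, sub_self, h1]
  have hB : ∀ t ∈ Icc S (S + L),
      per hK (fun t => if t < S then f t else g (t - S)) t = g (t - S) := by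
    intro t ht
    rcases lt_or_eq_of_le ht.2 with h | h
    · rw [per_of_mem hK _ ⟨hS.le.trans ht.1, h⟩]
      rw [if_neg (not_lt.2 ht.1)]
    · rw [h]
      have := per_add hK (fun t => if t < S then f t else g (t - S)) 0
      rw [zero_add] at this
      rw [this, hA 0 ⟨le_rfl, hS.le⟩, add_sub_cancel_left, h3]
  refine ⟨hA, hB, ?_⟩
  intro t ht
  rw [← per_add hK, hB (t + (S + L)) ⟨by linarith [ht.1], by linarith [ht.2]⟩]
  congr 1
  ring

/-- two arcs with matching ends form a closed curve -/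
theorem glue {f g f' g' : ℝ → ℂ} {S L : ℝ} (hS : 0 < S) (hL : 0 < L)
    (hf : ∀ t ∈ Icc 0 S, HasDerivAt f (f' t) t) (hg : ∀ t ∈ Icc 0 L, HasDerivAt g (g' t) t)
    (hfc : ContinuousOn f' (Icc 0 S)) (hgc : ContinuousOn g' (Icc 0 L))
    (hf0 : ∀ t ∈ Icc 0 S, f' t ≠ 0) (hg0 : ∀ t ∈ Icc 0 L, g' t ≠ 0)
    (h1 : f S = g 0) (h2 : f' S = g' 0) (h3 : g L = f 0) (h4 : g' L = f' 0)
    (fi : InjOn f (Icc 0 S)) (gi : InjOn g (Icc 0 L))
    (hd : ∀ t ∈ Ioo 0 S, ∀ s ∈ Icc 0 L, f t ≠ g s) :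
    ∃ c : Loop, c.L = S + L ∧ (∀ t ∈ Icc 0 S, c.γ t = f t ∧ c.γ' t = f' t) ∧
      ∀ t ∈ Icc 0 L, c.γ (S + t) = g t ∧ c.γ' (S + t) = g' t := by
  have hK : 0 < S + L := by linarith
  obtain ⟨hA, hB, hC⟩ := jn_vals hS hL hK h1 h3
  obtain ⟨hA', hB', hC'⟩ := jn_vals (f := f') (g := g') hS hL hK h2 h4
  set γ := per hK (fun t => if t < S then f t else g (t - S)) with hγ
  set γ' := per hK (fun t => if t < S then f' t else g' (t - S)) with hγ'
  have hγper : ∀ t (n : ℤ), γ (t - n • (S + L)) = γ t := fun t n => per_sub_zsmul hK _ t n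
  have hγ'per : ∀ t (n : ℤ), γ' (t - n • (S + L)) = γ' t := fun t n => per_sub_zsmul hK _ t n
  have hder0 : ∀ r ∈ Ico 0 (S + L), HasDerivAt γ (γ' r) r := by
    intro r hr
    rcases lt_trichotomy r S with h | h | h
    · rcases lt_or_eq_of_le hr.1 with h0 | h0
      · rw [hA' r ⟨hr.1, h.le⟩]
        exact glue_at h0 h (fun t ht => hA t ⟨ht.1, ht.2.trans h.le⟩)
          (fun t ht => hA t ⟨h0.le.trans ht.1, ht.2⟩) (hf r ⟨hr.1, h.le⟩) (hf r ⟨hr.1, h.le⟩)
      · subst h0
        rw [hA' 0 ⟨le_rfl, hS.le⟩]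
        refine glue_at (a := fun t => g (t + L)) (neg_lt_zero.2 hL) hS hC hA ?_
          (hf 0 ⟨le_rfl, hS.le⟩)
        rw [← h4]
        have h5 := hg L ⟨hL.le, le_rfl⟩
        have h6 : HasDerivAt g (g' L) (0 + L) := by rwa [zero_add]
        exact h6.comp_add_const 0 L
    · subst h
      rw [hA' r ⟨hS.le, le_rfl⟩]
      refine glue_at (b := fun t => g (t - r)) hS (by linarith) hA hB (hf r ⟨hS.le, le_rfl⟩) ?_
      rw [h2]
      have h6 : HasDerivAt g (g' 0) (r - r) := by rw [sub_self]; exact hg 0 ⟨le_rfl, hL.le⟩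
      exact h6.comp_sub_const r r
    · rw [hB' r ⟨h.le, hr.2.le⟩]
      have h6 : HasDerivAt (fun t => g (t - S)) (g' (r - S)) r :=
        (hg (r - S) ⟨by linarith, by linarith [hr.2]⟩).comp_sub_const r S
      exact glue_at h hr.2 (fun t ht => hB t ⟨ht.1, ht.2.trans hr.2.le⟩)
        (fun t ht => hB t ⟨h.le.trans ht.1, ht.2⟩) h6 h6
  have hcont0 : ∀ r ∈ Ico 0 (S + L), ContinuousAt γ' r := by
    intro r hr
    have hgS : ContinuousOn (fun t => g' (t - S)) (Icc S (S + L)) := by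
      refine hgc.comp (by fun_prop) ?_
      intro t ht
      exact ⟨by linarith [ht.1], by linarith [ht.2]⟩
    have hgL : ContinuousOn (fun t => g' (t + L)) (Icc (-L) 0) := by
      refine hgc.comp (by fun_prop) ?_
      intro t ht
      exact ⟨by linarith [ht.1], by linarith [ht.2]⟩
    rcases lt_trichotomy r S with h | h | h
    · rcases lt_or_eq_of_le hr.1 with h0 | h0
      · exact glue_cont h0 h (fun t ht => hA' t ⟨ht.1, ht.2.trans h.le⟩)
          (fun t ht => hA' t ⟨h0.le.trans ht.1, ht.2⟩)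
          ((hfc r ⟨hr.1, h.le⟩).mono (Icc_subset_Icc le_rfl h.le))
          ((hfc r ⟨hr.1, h.le⟩).mono (Icc_subset_Icc h0.le le_rfl))
      · subst h0
        exact glue_cont (neg_lt_zero.2 hL) hS hC' hA' (hgL 0 ⟨by linarith, le_rfl⟩)
          (hfc 0 ⟨le_rfl, hS.le⟩)
    · subst h
      exact glue_cont hS (by linarith) hA' hB' (hfc r ⟨hS.le, le_rfl⟩)
        (hgS r ⟨le_rfl, by linarith⟩)
    · exact glue_cont h hr.2 (fun t ht => hB' t ⟨ht.1, ht.2.trans hr.2.le⟩)
        (fun t ht => hB' t ⟨h.le.trans ht.1, ht.2⟩)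
        ((hgS r ⟨h.le, hr.2.le⟩).mono (Icc_subset_Icc le_rfl hr.2.le))
        ((hgS r ⟨h.le, hr.2.le⟩).mono (Icc_subset_Icc h.le le_rfl))
  have hrep : ∀ t : ℝ, ∃ n : ℤ, t - n • (S + L) ∈ Ico 0 (S + L) := by
    intro t
    refine ⟨toIcoDiv hK 0 t, ?_⟩
    have h5 := toIcoMod_mem_Ico' hK t
    have h6 := toIcoMod_add_toIcoDiv_zsmul hK 0 t
    have h7 : t - toIcoDiv hK 0 t • (S + L) = toIcoMod hK 0 t := (eq_sub_of_add_eq h6).symm
    rw [h7]
    exact h5
  have hne0 : ∀ r ∈ Ico 0 (S + L), γ' r ≠ 0 := by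
    intro r hr
    rcases le_or_gt r S with h | h
    · rw [hA' r ⟨hr.1, h⟩]
      exact hf0 r ⟨hr.1, h⟩
    · rw [hB' r ⟨h.le, hr.2.le⟩]
      exact hg0 _ ⟨by linarith, by linarith [hr.2]⟩
  refine ⟨⟨γ, γ', S + L, hK, ?_, ?_, ?_, ?_, ?_⟩, rfl, ?_, ?_⟩
  · intro t
    obtain ⟨n, hn⟩ := hrep t
    have h5 := (hder0 _ hn).comp_sub_const t (n • (S + L))
    rw [hγ'per] at h5
    have h6 : (fun x => γ (x - n • (S + L))) = γ := funext fun x => hγper x n
    rwa [h6] at h5
  · rw [continuous_iff_continuousAt]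
    intro t
    obtain ⟨n, hn⟩ := hrep t
    have h5 : ContinuousAt (fun x => γ' (x - n • (S + L))) t :=
      ContinuousAt.comp (f := fun x : ℝ => x - n • (S + L)) (hcont0 _ hn) (by fun_prop)
    have h6 : (fun x => γ' (x - n • (S + L))) = γ' := funext fun x => hγ'per x n
    rwa [h6] at h5
  · intro t
    obtain ⟨n, hn⟩ := hrep t
    rw [← hγ'per t n]
    exact hne0 _ hn
  · intro t
    exact per_add hK _ t
  · have key : ∀ s ∈ Icc 0 S, ∀ t ∈ Ico S (S + L), γ s = γ t → s = t := by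
      intro s hs t ht hst
      rw [hA s hs, hB t ⟨ht.1, ht.2.le⟩] at hst
      have htm : t - S ∈ Icc 0 L := ⟨by linarith [ht.1], by linarith [ht.2]⟩
      rcases lt_or_eq_of_le hs.1 with h0 | h0
      · rcases lt_or_eq_of_le hs.2 with h5 | h5
        · exact absurd hst (hd s ⟨h0, h5⟩ (t - S) htm)
        · rw [h5, h1] at hst
          have := gi ⟨le_rfl, hL.le⟩ htm hst
          linarith
      · rw [← h0, ← h3] at hst
        have := gi ⟨hL.le, le_rfl⟩ htm hst
        linarith [ht.2]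
    intro s hs t ht hst
    rcases lt_or_ge s S with h5 | h5
    · rcases lt_or_ge t S with h6 | h6
      · rw [hA s ⟨hs.1, h5.le⟩, hA t ⟨ht.1, h6.le⟩] at hst
        exact fi ⟨hs.1, h5.le⟩ ⟨ht.1, h6.le⟩ hst
      · exact key s ⟨hs.1, h5.le⟩ t ⟨h6, ht.2⟩ hst
    · rcases lt_or_ge t S with h6 | h6
      · exact (key t ⟨ht.1, h6.le⟩ s ⟨h5, hs.2⟩ hst.symm).symm
      · rw [hB s ⟨h5, hs.2.le⟩, hB t ⟨h6, ht.2.le⟩] at hst
        have := gi ⟨by linarith, by linarith [hs.2]⟩ ⟨by linarith, by linarith [ht.2]⟩ hst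
        linarith
  · intro t ht
    exact ⟨hA t ht, hA' t ht⟩
  · intro t ht
    have h5 : S + t ∈ Icc S (S + L) := ⟨by linarith [ht.1], by linarith [ht.2]⟩
    refine ⟨?_, ?_⟩
    · rw [show (S + t : ℝ) = S + t from rfl]
      have := hB (S + t) h5
      rwa [add_sub_cancel_left] at this
    · have := hB' (S + t) h5
      rwa [add_sub_cancel_left] at this

end Pool.Agent.H79.Eul
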