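import Pool.Agent.H79.Eul.ExitA
import Pool.Agent.H79.Eul.Arc
import Pool.Agent.H79.Eul.Glue

set_option autoImplicit false

open Filter Topology Polynomial Metric Set

namespace Pool.Agent.H79.Eul

open Pool.Agent.H44.Fatou Pool.Agent.H32.BT

/-
PROOF of closing_loop. S = s2 - s1, f t = x (s1 + t), f' t = Xf P Q (f t). f is injective on Icc 0 S: if
f t = f t' with t < t' then by orb_back (r = t) x s1 = x (s1 + (t' - t)); if t' - t < S then
x (s1 + (t' - t)) is not in the box image (hout) but x s1 is; if t' - t = S then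
c.e.symm (δ + y1 I) = c.e.symm (-δ + y2 I), impossible as c.e.symm is injective on the target.
f' t ≠ 0: x s1 is regular (c.reg), so all x (s1 + t) are regular (orb_shift, orb_reg).
The other arc: arc_fun with α = |Q (x s2)|^2, β = |Q (x s1)|^2 gives u, y on [0, L]; put
g t = c.e.symm (u t + y t I), g' t = (P/Q)(g t) * (u' t + y' t I) (c.deriv_symm and the chain rule).
Matching: f S = x s2 = g 0; f' S = Xf (x s2) = (P/Q)(x s2) |Q (x s2)|^2 = g' 0 (y' 0 = 0); same at the
other end. g is injective on [0, L] (u is strictly monotone, c.e.symm injective on the target).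
hd: f t is not in the box image for t in (0, S), g s is. So glue gives the Loop.
-/

/-- the closed curve made of a piece of trajectory and an arc in the box -/
theorem closing_loop {P Q : Polynomial ℂ} {p : ℂ} (c : Chart P Q p) {δ η : ℝ} (hδ : 0 < δ)
    (hη : 0 < η) (hB : Box δ η ⊆ c.e.target) {x : ℝ → ℂ} (hx : IsOrb P Q x)
    {s1 s2 y1 y2 : ℝ} (hs1 : 0 ≤ s1) (h12 : s1 < s2) (hy1 : |y1| ≤ η) (hy2 : |y2| ≤ η)
    (hx1 : x s1 = c.e.symm (δ + y1 * Complex.I)) (hx2 : x s2 = c.e.symm (-δ + y2 * Complex.I))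
    (hout : ∀ s ∈ Ioo s1 s2, x s ∉ c.e.symm '' Box δ η) :
    ∃ (lp : Loop) (L : ℝ) (u y u' y' : ℝ → ℝ), 0 < L ∧ lp.L = (s2 - s1) + L ∧
      (∀ t ∈ Icc 0 (s2 - s1), lp.γ t = x (s1 + t) ∧ lp.γ' t = Xf P Q (x (s1 + t))) ∧
      (∀ t ∈ Icc 0 L, (u t : ℂ) + y t * Complex.I ∈ Box δ η ∧
        lp.γ ((s2 - s1) + t) = c.e.symm (u t + y t * Complex.I) ∧
        lp.γ' ((s2 - s1) + t) = P.eval (lp.γ ((s2 - s1) + t)) / Q.eval (lp.γ ((s2 - s1) + t)) *
          (u' t + y' t * Complex.I)) ∧
      (∀ t, HasDerivAt u (u' t) t) ∧ (∀ t, HasDerivAt y (y' t) t) ∧ Continuous u' ∧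
      Continuous y' ∧ u 0 = -δ ∧ u L = δ ∧ y 0 = y2 ∧ y L = y1 := by
  have hS : 0 < s2 - s1 := by linarith
  have hs2 : 0 ≤ s2 := hs1.trans h12.le
  -- the two end points in the box
  have hw1 : ((δ : ℂ) + y1 * Complex.I) ∈ Box δ η := by
    constructor
    · simpa using (abs_of_pos hδ).le
    · simpa using hy1
  have hw2 : (-(δ : ℂ) + y2 * Complex.I) ∈ Box δ η := by
    constructor
    · simpa using (abs_of_pos hδ).le
    · simpa using hy2
  have hin1 : x s1 ∈ c.e.symm '' Box δ η := ⟨_, hw1, hx1.symm⟩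
  have hin2 : x s2 ∈ c.e.symm '' Box δ η := ⟨_, hw2, hx2.symm⟩
  have hr1 : Reg P Q (x s1) := c.reg _ ((mem_box c hB).1 hin1).1
  have hr2 : Reg P Q (x s2) := c.reg _ ((mem_box c hB).1 hin2).1
  have hreg : ∀ t : ℝ, 0 ≤ t → Reg P Q (x (s1 + t)) := by
    have h := orb_reg (orb_shift hx hs1) (by simpa using hr1)
    exact h
  have hα : 0 < ‖Q.eval (x s2)‖ ^ 2 := by
    have := norm_pos_iff.2 hr2.2
    positivity
  have hβ : 0 < ‖Q.eval (x s1)‖ ^ 2 := by
    have := norm_pos_iff.2 hr1.2
    positivity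
  obtain ⟨L, u, y, u', y', hL, hu, hy, hu'c, hy'c, hu0, huL, hu'0, hu'L, hy0, hyL, hy'0, hy'L,
    hall⟩ := arc_fun (η := η) (y1 := y1) (y2 := y2) hδ hα hβ hy1 hy2
  have hbox : ∀ t ∈ Icc 0 L, (u t : ℂ) + y t * Complex.I ∈ Box δ η := by
    intro t ht
    obtain ⟨-, h2, h3⟩ := hall t ht
    constructor
    · simpa using h2
    · simpa using h3
  have hgder : ∀ t ∈ Icc 0 L, HasDerivAt (fun t : ℝ => c.e.symm (u t + y t * Complex.I))
      (P.eval (c.e.symm (u t + y t * Complex.I)) / Q.eval (c.e.symm (u t + y t * Complex.I)) *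
        (u' t + y' t * Complex.I)) t := by
    intro t ht
    have e1 : HasDerivAt (fun t : ℝ => (u t : ℂ) + y t * Complex.I)
        ((u' t : ℂ) + y' t * Complex.I) t :=
      ((hu t).ofReal_comp).add (((hy t).ofReal_comp).mul_const Complex.I)
    exact (c.deriv_symm _ (hB (hbox t ht))).comp t e1
  have hgreg : ∀ t ∈ Icc 0 L, Reg P Q (c.e.symm (u t + y t * Complex.I)) := by
    intro t ht
    exact c.reg _ (c.e.map_target (hB (hbox t ht)))
  have hgc0 : ContinuousOn (fun t : ℝ => c.e.symm (u t + y t * Complex.I)) (Icc 0 L) :=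
    fun t ht => (hgder t ht).continuousAt.continuousWithinAt
  have hmono : StrictMonoOn u (Icc 0 L) := by
    refine strictMonoOn_of_deriv_pos (convex_Icc 0 L)
      (fun t _ => (hu t).continuousAt.continuousWithinAt) ?_
    intro t ht
    rw [(hu t).deriv]
    exact (hall t (interior_subset ht)).1
  have hglue := glue (f := fun t => x (s1 + t))
    (g := fun t : ℝ => c.e.symm (u t + y t * Complex.I))
    (f' := fun t => Xf P Q (x (s1 + t)))
    (g' := fun t : ℝ => P.eval (c.e.symm (u t + y t * Complex.I)) /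
      Q.eval (c.e.symm (u t + y t * Complex.I)) * (u' t + y' t * Complex.I))
    (S := s2 - s1) (L := L) hS hL ?_ hgder ?_ ?_ ?_ ?_ ?_ ?_ ?_ ?_ ?_ ?_ ?_
  · obtain ⟨lp, hlL, hlf, hlg⟩ := hglue
    refine ⟨lp, L, u, y, u', y', hL, hlL, hlf, ?_, hu, hy, hu'c, hy'c, hu0, huL, hy0, hyL⟩
    intro t ht
    refine ⟨hbox t ht, (hlg t ht).1, ?_⟩
    rw [(hlg t ht).2, (hlg t ht).1]
  · intro t ht
    exact orb_shift hx hs1 t ht.1
  · have h := (orb_cont (orb_shift hx hs1)).mono
      (fun t (ht : t ∈ Icc 0 (s2 - s1)) => (ht.1 : (0 : ℝ) ≤ t))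
    unfold Xf
    exact (P.continuous.comp_continuousOn h).mul
      (Complex.continuous_conj.comp_continuousOn (Q.continuous.comp_continuousOn h))
  · refine ContinuousOn.mul (ContinuousOn.div (P.continuous.comp_continuousOn hgc0)
      (Q.continuous.comp_continuousOn hgc0) (fun t ht => (hgreg t ht).2)) ?_
    exact Continuous.continuousOn (by fun_prop)
  · intro t ht
    have h := hreg t ht.1
    unfold Xf
    exact mul_ne_zero h.1 ((_root_.map_ne_zero _).2 h.2)
  · intro t ht
    have h := hgreg t ht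
    refine mul_ne_zero (div_ne_zero h.1 h.2) ?_
    intro h0
    have h1 := congrArg Complex.re h0
    simp only [Complex.add_re, Complex.ofReal_re, Complex.mul_re, Complex.I_re, mul_zero,
      Complex.ofReal_im, Complex.I_im, mul_one, sub_self, add_zero, Complex.zero_re] at h1
    exact (hall t ht).1.ne' h1
  · change x (s1 + (s2 - s1)) = c.e.symm (u 0 + y 0 * Complex.I)
    rw [add_sub_cancel, hu0, hy0, hx2]
    push_cast
    rfl
  · change Xf P Q (x (s1 + (s2 - s1))) = P.eval (c.e.symm (u 0 + y 0 * Complex.I)) /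
      Q.eval (c.e.symm (u 0 + y 0 * Complex.I)) * (u' 0 + y' 0 * Complex.I)
    have e1 : c.e.symm (u 0 + y 0 * Complex.I) = x s2 := by
      rw [hu0, hy0, hx2]
      push_cast
      rfl
    rw [add_sub_cancel, e1, hu'0, hy'0]
    have e2 := hr2.2
    unfold Xf
    rw [← Complex.normSq_eq_norm_sq, ← Complex.mul_conj]
    field_simp
    push_cast
    ring
  · change c.e.symm (u L + y L * Complex.I) = x (s1 + 0)
    rw [add_zero, huL, hyL, hx1]
  · change P.eval (c.e.symm (u L + y L * Complex.I)) /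
      Q.eval (c.e.symm (u L + y L * Complex.I)) * (u' L + y' L * Complex.I) =
        Xf P Q (x (s1 + 0))
    have e1 : c.e.symm (u L + y L * Complex.I) = x s1 := by
      rw [huL, hyL, hx1]
    rw [add_zero, e1, hu'L, hy'L]
    have e2 := hr1.2
    unfold Xf
    rw [← Complex.normSq_eq_norm_sq, ← Complex.mul_conj]
    field_simp
    push_cast
    ring
  · -- injectivity of the trajectory piece
    have key : ∀ t ∈ Icc 0 (s2 - s1), ∀ t' ∈ Icc 0 (s2 - s1), t < t' →
        x (s1 + t) ≠ x (s1 + t') := by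
      intro t ht t' ht' htt h
      have h5 := orb_back hx (s := s1 + t) (s' := s1 + t') (r := t) (by linarith [ht.1])
        (by linarith [ht'.1]) h ht.1 (by linarith) (by linarith)
      rw [add_sub_cancel_right] at h5
      rcases lt_or_eq_of_le (show s1 + t' - t ≤ s2 by linarith [ht'.2, ht.1]) with h6 | h6
      · refine hout (s1 + t' - t) ⟨by linarith, h6⟩ ?_
        rw [← h5]
        exact hin1
      · rw [h6, hx1, hx2] at h5
        have h7 := c.e.symm.injOn (hB hw1) (hB hw2) h5
        have h8 := congrArg Complex.re h7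
        simp at h8
        linarith
    intro t ht t' ht' h
    rcases lt_trichotomy t t' with h5 | h5 | h5
    · exact absurd h (key t ht t' ht' h5)
    · exact h5
    · exact absurd h.symm (key t' ht' t ht h5)
  · -- injectivity of the arc
    intro t ht t' ht' h
    have h7 := c.e.symm.injOn (hB (hbox t ht)) (hB (hbox t' ht')) h
    have h8 := congrArg Complex.re h7
    simp at h8
    exact hmono.injOn ht ht' h8
  · intro t ht s hs h
    refine hout (s1 + t) ⟨by linarith [ht.1], by linarith [ht.2]⟩ ?_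
    exact ⟨_, hbox s hs, h.symm⟩

end Pool.Agent.H79.Eul
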