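import Pool.Agent.H79.Eul.PartFrac

set_option autoImplicit false

open Filter Topology Polynomial Metric Set

namespace Pool.Agent.H79.Eul

open Pool.Agent.H44.Fatou Pool.Agent.H32.BT

/-
PROOFS. u = exp (φ I) ≠ 0. Z_mul: roots_C_mul. res_mul: derivative_C_mul.
re_countable: with W = ‖W‖ exp (i θ) the real part is ‖W‖ cos (φ + θ) (W ≠ 0), zero only for
φ = π/2 - θ + k π, k ∈ ℤ: a countable set. pos_countable: W = 0: empty set; otherwise exp (φ I) = W/‖W‖ (taking
norms t = ‖W‖), so φ = arg W + 2 π k (Complex.exp_eq_exp_iff_exists_int or Real.Angle): countable.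
g1_countable: G1 fails for φ only if for some J ⊆ Z P, S = ∑_J res P Q satisfies u⁻¹ S ≠ 0 and
Re (u⁻¹ S) = 0. Re (u⁻¹ S) = Re (u conj S) (conj of u⁻¹ S, as |u| = 1), so re_countable for W = conj S ≠ 0:
a finite union of countable sets.
-/

theorem Z_mul (P : Polynomial ℂ) {u : ℂ} (hu : u ≠ 0) : Z (C u * P) = Z P := by
  unfold Z
  rw [roots_C_mul P hu]

theorem res_mul (P Q : Polynomial ℂ) (u a : ℂ) : res (C u * P) Q a = u⁻¹ * res P Q a := by
  unfold res
  rw [derivative_C_mul, eval_mul, eval_C, div_eq_mul_inv, div_eq_mul_inv, mul_inv]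
  ring

theorem re_countable {W : ℂ} (hW : W ≠ 0) :
    {φ : ℝ | (Complex.exp (φ * Complex.I) * W).re = 0}.Countable := by
  have hn : ‖W‖ ≠ 0 := norm_ne_zero_iff.2 hW
  refine Set.Countable.mono (s₂ := Set.range (fun k : ℤ => (2 * (k : ℝ) + 1) * Real.pi / 2 - W.arg))
    ?_ (Set.countable_range _)
  intro φ hφ
  have h1 : (Complex.exp (φ * Complex.I) * W).re = 0 := hφ
  have h2 : Complex.exp (φ * Complex.I) * W =
      (‖W‖ : ℂ) * Complex.exp (((φ + W.arg : ℝ) : ℂ) * Complex.I) := by
    conv_lhs => rw [← Complex.norm_mul_exp_arg_mul_I W]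
    push_cast
    rw [add_mul, Complex.exp_add]
    ring
  rw [h2, Complex.re_ofReal_mul, Complex.exp_ofReal_mul_I_re] at h1
  have h3 : Real.cos (φ + W.arg) = 0 := by
    rcases mul_eq_zero.1 h1 with h | h
    · exact absurd h hn
    · exact h
  obtain ⟨k, hk⟩ := Real.cos_eq_zero_iff.1 h3
  exact ⟨k, by simp only; linarith⟩

theorem pos_countable (W : ℂ) :
    {φ : ℝ | ∃ t : ℝ, 0 < t ∧ (Complex.exp (φ * Complex.I))⁻¹ * W = t}.Countable := by
  by_cases hW : W = 0
  · refine Set.Countable.mono (s₂ := ∅) ?_ Set.countable_empty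
    rintro φ ⟨t, ht, h⟩
    rw [hW, mul_zero] at h
    have : t = 0 := by exact_mod_cast h.symm
    linarith
  · have hI : Complex.I * W ≠ 0 := mul_ne_zero Complex.I_ne_zero hW
    have hI2 : (starRingEnd ℂ) (Complex.I * W) ≠ 0 := by
      intro h
      apply hI
      have := congrArg (starRingEnd ℂ) h
      rwa [Complex.conj_conj, map_zero] at this
    refine Set.Countable.mono ?_ (re_countable hI2)
    rintro φ ⟨t, ht, h⟩
    have h1 : W = Complex.exp (φ * Complex.I) * t := by
      rw [← h, ← mul_assoc, mul_inv_cancel₀ (Complex.exp_ne_zero _), one_mul]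
    have h2 : (starRingEnd ℂ) (Complex.exp (φ * Complex.I)) = (Complex.exp (φ * Complex.I))⁻¹ := by
      rw [← Complex.exp_conj, ← Complex.exp_neg]
      congr 1
      rw [map_mul, Complex.conj_ofReal, Complex.conj_I]
      ring
    have h3 : Complex.exp (φ * Complex.I) * (starRingEnd ℂ) (Complex.I * W) = -(Complex.I * t) := by
      rw [h1, map_mul, map_mul, h2, Complex.conj_I, Complex.conj_ofReal]
      field_simp
    change (Complex.exp (φ * Complex.I) * (starRingEnd ℂ) (Complex.I * W)).re = 0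
    rw [h3]
    simp

theorem g1_countable (P Q : Polynomial ℂ) :
    {φ : ℝ | ¬ G1 (C (Complex.exp (φ * Complex.I)) * P) Q}.Countable := by
  have hc : (⋃ J ∈ {J : Finset ℂ | J ∈ (Z P).powerset ∧ ∑ a ∈ J, res P Q a ≠ 0},
      {φ : ℝ | (Complex.exp (φ * Complex.I) *
        (starRingEnd ℂ) (∑ a ∈ J, res P Q a)).re = 0}).Countable := by
    refine Set.Countable.biUnion ?_ ?_
    · exact ((Z P).powerset.finite_toSet.subset (fun J hJ => hJ.1)).countable
    · intro J hJ
      apply re_countable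
      intro h
      apply hJ.2
      have := congrArg (starRingEnd ℂ) h
      rwa [Complex.conj_conj, map_zero] at this
  refine hc.mono ?_
  intro φ hφ
  have hφ' : ¬ G1 (C (Complex.exp (φ * Complex.I)) * P) Q := hφ
  unfold G1 at hφ'
  push Not at hφ'
  obtain ⟨J, hJ, h1, h2⟩ := hφ'
  rw [Z_mul P (Complex.exp_ne_zero _)] at hJ
  have h3 : ∑ a ∈ J, res (C (Complex.exp (φ * Complex.I)) * P) Q a =
      (Complex.exp (φ * Complex.I))⁻¹ * ∑ a ∈ J, res P Q a := by
    rw [Finset.mul_sum]
    exact Finset.sum_congr rfl (fun a _ => res_mul P Q _ a)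
  rw [h3] at h1 h2
  refine Set.mem_biUnion (x := J) ⟨Finset.mem_powerset.2 hJ, right_ne_zero_of_mul h2⟩ ?_
  have h4 : (starRingEnd ℂ) ((Complex.exp (φ * Complex.I))⁻¹) = Complex.exp (φ * Complex.I) := by
    rw [← Complex.exp_neg, ← Complex.exp_conj]
    congr 1
    rw [map_neg, map_mul, Complex.conj_ofReal, Complex.conj_I]
    ring
  change (Complex.exp (φ * Complex.I) * (starRingEnd ℂ) (∑ a ∈ J, res P Q a)).re = 0
  rw [← h4, ← map_mul, Complex.conj_re]
  exact h1

end Pool.Agent.H79.Eul
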