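import Pool.Agent.H79.Eul.Cpt

set_option autoImplicit false

open Filter Topology Polynomial Metric Set

namespace Pool.Agent.H79.Eul

open Pool.Agent.H44.Fatou Pool.Agent.H32.BT

/-
PROOF of euler_step. K is a compact subset of c.e.source. Choose r > 0 such that the closed
r-neighbourhood K' of K is contained in c.e.source (compact in open,
IsCompact.exists_cthickening_subset_open). On K' : P, Q are nonzero, so for τ far den τ z → Q z is bounded
away from 0 uniformly (unif_compact, s.b_lim, s.h_lim) and ‖g τ z - z‖ = h ‖p/den‖ ≤ C h. Also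
(g τ z - z)/h = p τ z/den τ z → P z/Q z uniformly on K. Uniform differentiability of c.e on K: for every ε'
there is r' ≤ r with ‖c.e (z + k) - c.e z - (Q z/P z) k‖ ≤ ε' ‖k‖ for z ∈ K, ‖k‖ ≤ r' (mean value inequality
on the segment, which lies in K', and uniform continuity of Q/P on the compact K'). So with
k = g τ z - z: ‖c.e (g τ z) - c.e z - h‖ ≤ ε' C h + h ‖(Q z/P z) (p/den) - 1‖ ≤ ε h for τ far.
-/

theorem euler_step {T : Type} {l : Filter T} {P Q B : Polynomial ℂ} (s : Sys T l P Q B) {p : ℂ}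
    (c : Chart P Q p) {K : Set ℂ} (hK : IsCompact K) (hKs : K ⊆ c.e.source) {ε : ℝ} (hε : 0 < ε) :
    ∀ᶠ τ in l, ∀ z ∈ K, s.den τ z ≠ 0 ∧ s.g τ z ∈ c.e.source ∧
      ‖c.e (s.g τ z) - c.e z - s.h τ‖ ≤ ε * s.h τ := by
  apply ev_compact hK
  intro z0 hz0
  have hz0s := hKs hz0
  obtain ⟨hP0, hQ0⟩ := c.reg z0 hz0s
  have hh : Tendsto (fun y : T × ℂ => ((s.h y.1 : ℝ) : ℂ)) (l ×ˢ 𝓝 z0) (𝓝 0) := by
    have h1 := (Complex.continuous_ofReal.tendsto 0).comp (s.h_lim.comp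
      (tendsto_fst (f := l) (g := 𝓝 z0)))
    simpa [Function.comp_def] using h1
  have hQ : Tendsto (fun y : T × ℂ => Q.eval y.2) (l ×ˢ 𝓝 z0) (𝓝 (Q.eval z0)) :=
    (Q.continuous.tendsto z0).comp tendsto_snd
  have hden : Tendsto (fun y : T × ℂ => s.den y.1 y.2) (l ×ˢ 𝓝 z0) (𝓝 (Q.eval z0)) := by
    have h1 := hQ.add (hh.mul (s.b_lim z0))
    rw [zero_mul, add_zero] at h1
    exact h1
  have hquo : Tendsto (fun y : T × ℂ => s.p y.1 y.2 / s.den y.1 y.2) (l ×ˢ 𝓝 z0)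
      (𝓝 (P.eval z0 / Q.eval z0)) := (s.p_lim z0).div hden hQ0
  have hg : ∀ y : T × ℂ, s.g y.1 y.2 = y.2 + s.h y.1 * (s.p y.1 y.2 / s.den y.1 y.2) := by
    intro y
    unfold Sys.g
    rw [mul_div_assoc]
  have hglim : Tendsto (fun y : T × ℂ => s.g y.1 y.2) (l ×ˢ 𝓝 z0) (𝓝 z0) := by
    have h1 := (tendsto_snd (f := l) (g := 𝓝 z0)).add (hh.mul hquo)
    rw [zero_mul, add_zero] at h1
    exact h1.congr fun y => (hg y).symm
  have hstrict : HasStrictDerivAt c.e (Q.eval z0 / P.eval z0) z0 := by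
    refine hasStrictDerivAt_of_hasDerivAt_of_continuousAt
      (f' := fun z => Q.eval z / P.eval z) ?_ ?_
    · filter_upwards [c.e.open_source.mem_nhds hz0s] with z hz
      exact c.deriv z hz
    · exact (Q.continuous.continuousAt).div (P.continuous.continuousAt) hP0
  obtain ⟨C, hC⟩ : ∃ C : ℝ, C = ‖P.eval z0 / Q.eval z0‖ + 1 := ⟨_, rfl⟩
  have hC0 : 0 < C := by
    rw [hC]
    positivity
  have hlo := hstrict.hasStrictFDerivAt.isLittleO
  have hlo' := hlo.def (c := ε / (2 * C)) (by positivity)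
  have hpair : Tendsto (fun y : T × ℂ => (s.g y.1 y.2, y.2)) (l ×ˢ 𝓝 z0) (𝓝 (z0, z0)) := by
    rw [nhds_prod_eq]
    exact hglim.prodMk tendsto_snd
  have h1 := hpair.eventually hlo'
  have h2 : ∀ᶠ y : T × ℂ in l ×ˢ 𝓝 z0, s.den y.1 y.2 ≠ 0 := hden.eventually_ne hQ0
  have h3 : ∀ᶠ y : T × ℂ in l ×ˢ 𝓝 z0, s.g y.1 y.2 ∈ c.e.source :=
    hglim.eventually (c.e.open_source.mem_nhds hz0s)
  have h4 : ∀ᶠ y : T × ℂ in l ×ˢ 𝓝 z0, ‖s.p y.1 y.2 / s.den y.1 y.2‖ < C := by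
    apply hquo.norm.eventually_lt_const
    rw [hC]
    linarith
  have h5 : ∀ᶠ y : T × ℂ in l ×ˢ 𝓝 z0,
      ‖Q.eval z0 / P.eval z0 * (s.p y.1 y.2 / s.den y.1 y.2) - 1‖ < ε / 2 := by
    have h6 := ((hquo.const_mul (Q.eval z0 / P.eval z0)).sub_const 1).norm
    have h7 : Q.eval z0 / P.eval z0 * (P.eval z0 / Q.eval z0) - 1 = 0 := by
      field_simp
      ring
    rw [h7, norm_zero] at h6
    exact h6.eventually_lt_const (by positivity)
  have h6 : ∀ᶠ y : T × ℂ in l ×ˢ 𝓝 z0, 0 < s.h y.1 :=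
    (tendsto_fst (f := l) (g := 𝓝 z0)).eventually s.h_pos
  filter_upwards [h1, h2, h3, h4, h5, h6] with y e1 e2 e3 e4 e5 e6
  refine ⟨e2, e3, ?_⟩
  have e7 : s.g y.1 y.2 - y.2 = s.h y.1 * (s.p y.1 y.2 / s.den y.1 y.2) := by
    rw [hg]
    ring
  simp only [ContinuousLinearMap.toSpanSingleton_apply, smul_eq_mul] at e1
  rw [e7] at e1
  have e8 : ‖(s.h y.1 : ℂ) * (s.p y.1 y.2 / s.den y.1 y.2)‖ ≤ s.h y.1 * C := by
    rw [norm_mul, Complex.norm_real, Real.norm_eq_abs, abs_of_pos e6]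
    exact mul_le_mul_of_nonneg_left e4.le e6.le
  have e9 : ‖(s.h y.1 : ℂ) * (Q.eval z0 / P.eval z0 * (s.p y.1 y.2 / s.den y.1 y.2) - 1)‖ ≤
      s.h y.1 * (ε / 2) := by
    rw [norm_mul, Complex.norm_real, Real.norm_eq_abs, abs_of_pos e6]
    exact mul_le_mul_of_nonneg_left e5.le e6.le
  have e10 : c.e (s.g y.1 y.2) - c.e y.2 - s.h y.1 =
      (c.e (s.g y.1 y.2) - c.e y.2 - s.h y.1 * (s.p y.1 y.2 / s.den y.1 y.2) *
        (Q.eval z0 / P.eval z0)) +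
      (s.h y.1 : ℂ) * (Q.eval z0 / P.eval z0 * (s.p y.1 y.2 / s.den y.1 y.2) - 1) := by ring
  rw [e10]
  refine (norm_add_le _ _).trans ?_
  have e11 : ε / (2 * C) * ‖(s.h y.1 : ℂ) * (s.p y.1 y.2 / s.den y.1 y.2)‖ ≤
      ε / (2 * C) * (s.h y.1 * C) := mul_le_mul_of_nonneg_left e8 (by positivity)
  have e12 : ε / (2 * C) * (s.h y.1 * C) = s.h y.1 * (ε / 2) := by
    field_simp
  linarith

end Pool.Agent.H79.Eul
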