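import Pool.Agent.H79.Eul.ExitA

set_option autoImplicit false

open Filter Topology Polynomial Metric Set

namespace Pool.Agent.H79.Eul

open Pool.Agent.H44.Fatou Pool.Agent.H32.BT

/-
C = c.e.symm '' Box δ η is a compact subset of c.e.source (box_image_compact) and z ∈ C iff z ∈ c.e.source and
c.e z ∈ Box δ η (mem_box). While x s is in c.e.source the function w s = c.e (x s) has derivative
|Q (x s)|^2 > 0, a real number (chart_rate). So its imaginary part is locally constant and its real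
part is strictly increasing.
PROOF of exit_box. Let A = {s ≥ s0 | ∀ σ ∈ Icc s0 s, x σ ∈ C}. On A, w has constant imaginary part y
and Re w increases at rate ≥ m = min_C |Q|^2 > 0, and Re w ∈ [-δ, δ], so A is bounded by s0 + 2δ/m.
Let s1 = sup A; x s1 ∈ C (closed). Re (w s1) = δ: otherwise Re (w s1) < δ and for s slightly larger
than s1 one has x s ∈ c.e.source (open), Im (w s) = y, Re (w s) ∈ [Re (w s1), δ], so x s ∈ C,
contradicting the definition of s1. So x s1 = c.e.symm (δ + y I). For s slightly larger than s1, x s is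
in c.e.source and Re (w s) > δ, so x s is not in C.
-/

theorem exit_box {P Q : Polynomial ℂ} {p : ℂ} (c : Chart P Q p) {δ η : ℝ} (hδ : 0 < δ)
    (hη : 0 < η) (hB : Box δ η ⊆ c.e.target) {x : ℝ → ℂ} (hx : IsOrb P Q x) {s0 : ℝ}
    (hs0 : 0 ≤ s0) (hin : x s0 ∈ c.e.symm '' Box δ η) :
    ∃ s1 y : ℝ, s0 ≤ s1 ∧ |y| ≤ η ∧ x s1 = c.e.symm (δ + y * Complex.I) ∧
      ∃ ε : ℝ, 0 < ε ∧ ∀ s ∈ Ioo s1 (s1 + ε), x s ∉ c.e.symm '' Box δ η := by
  classical
  have hCc : IsCompact (c.e.symm '' Box δ η) := box_image_compact c hB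
  have hCcl : IsClosed (c.e.symm '' Box δ η) := hCc.isClosed
  -- minimal rate
  obtain ⟨z0, hz0, hmin⟩ := hCc.exists_isMinOn ⟨x s0, hin⟩
    (f := fun z : ℂ => ‖Q.eval z‖ ^ 2) (by fun_prop)
  have hQne : ∀ z ∈ c.e.source, 0 < ‖Q.eval z‖ ^ 2 := fun z hz =>
    pow_pos (norm_pos_iff.2 (c.reg z hz).2) 2
  have hm : 0 < ‖Q.eval z0‖ ^ 2 := hQne z0 ((mem_box c hB).1 hz0).1
  set m : ℝ := ‖Q.eval z0‖ ^ 2 with hmdef
  have hmle : ∀ z ∈ c.e.symm '' Box δ η, m ≤ ‖Q.eval z‖ ^ 2 := fun z hz => hmin hz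
  set u : ℝ → ℝ := fun s => (c.e (x s)).re with hu
  set v : ℝ → ℝ := fun s => (c.e (x s)).im with hv
  have hud : ∀ s : ℝ, 0 ≤ s → x s ∈ c.e.source → HasDerivAt u (‖Q.eval (x s)‖ ^ 2) s := by
    intro s hs hxs
    have h1 := chart_rate c hx hs hxs
    have h2 := (Complex.reCLM.hasFDerivAt.comp_hasDerivAt s h1)
    exact h2.congr_deriv (Complex.ofReal_re _)
  have hvd : ∀ s : ℝ, 0 ≤ s → x s ∈ c.e.source → HasDerivAt v 0 s := by
    intro s hs hxs
    have h1 := chart_rate c hx hs hxs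
    have h2 := (Complex.imCLM.hasFDerivAt.comp_hasDerivAt s h1)
    exact h2.congr_deriv (Complex.ofReal_im (‖Q.eval (x s)‖ ^ 2))
  have hxc : ∀ s : ℝ, 0 ≤ s → ContinuousAt x s := fun s hs => (hx s hs).continuousAt
  -- constancy of the imaginary part and growth of the real part
  have hvc : ∀ a b : ℝ, 0 ≤ a → (∀ s ∈ Icc a b, x s ∈ c.e.source) → ∀ s ∈ Icc a b,
      v s = v a := by
    intro a b ha hab
    refine constant_of_has_deriv_right_zero ?_ ?_
    · intro s hs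
      exact (hvd s (ha.trans hs.1) (hab s hs)).continuousAt.continuousWithinAt
    · intro s hs
      exact (hvd s (ha.trans hs.1) (hab s ⟨hs.1, hs.2.le⟩)).hasDerivWithinAt
  have huc : ∀ a b : ℝ, 0 ≤ a → (∀ s ∈ Icc a b, x s ∈ c.e.source) → ∀ s ∈ Icc a b,
      a < s → u a < u s := by
    intro a b ha hab s hs has
    have h1 : StrictMonoOn u (Icc a b) := by
      refine strictMonoOn_of_deriv_pos (convex_Icc a b) ?_ ?_
      · intro s hs
        exact (hud s (ha.trans hs.1) (hab s hs)).continuousAt.continuousWithinAt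
      · intro s hs
        rw [interior_Icc] at hs
        have h2 := hab s ⟨hs.1.le, hs.2.le⟩
        rw [(hud s (ha.trans hs.1.le) h2).deriv]
        exact hQne _ h2
    exact h1 ⟨le_rfl, has.le.trans hs.2⟩ hs has
  set A : Set ℝ := {s | s0 ≤ s ∧ ∀ σ ∈ Icc s0 s, x σ ∈ c.e.symm '' Box δ η} with hA
  have hs0A : s0 ∈ A := ⟨le_rfl, fun σ hσ => by
    have h1 : σ = s0 := le_antisymm hσ.2 hσ.1
    rw [h1]
    exact hin⟩
  have hAb : ∀ s ∈ A, s ≤ s0 + 2 * δ / m := by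
    intro s hs
    have h1 : ∀ σ ∈ Icc s0 s, x σ ∈ c.e.source := fun σ hσ => ((mem_box c hB).1 (hs.2 σ hσ)).1
    have h2 : m * (s - s0) ≤ u s - u s0 := by
      refine Convex.mul_sub_le_image_sub_of_le_deriv (convex_Icc s0 s) ?_ ?_ ?_ s0
        ⟨le_rfl, hs.1⟩ s ⟨hs.1, le_rfl⟩ hs.1
      · intro σ hσ
        exact (hud σ (hs0.trans hσ.1) (h1 σ hσ)).continuousAt.continuousWithinAt
      · intro σ hσ
        rw [interior_Icc] at hσ
        exact (hud σ (hs0.trans hσ.1.le)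
          (h1 σ ⟨hσ.1.le, hσ.2.le⟩)).differentiableAt.differentiableWithinAt
      · intro σ hσ
        rw [interior_Icc] at hσ
        rw [(hud σ (hs0.trans hσ.1.le) (h1 σ ⟨hσ.1.le, hσ.2.le⟩)).deriv]
        exact hmle _ (hs.2 σ ⟨hσ.1.le, hσ.2.le⟩)
    have h3 : u s ≤ δ := (abs_le.1 ((mem_box c hB).1 (hs.2 s ⟨hs.1, le_rfl⟩)).2.1).2
    have h4 : -δ ≤ u s0 := (abs_le.1 ((mem_box c hB).1 (hs.2 s0 ⟨le_rfl, hs.1⟩)).2.1).1
    have h5 : s - s0 ≤ 2 * δ / m := by
      rw [le_div_iff₀ hm]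
      linarith [mul_comm m (s - s0)]
    linarith
  have hbdd : BddAbove A := ⟨_, hAb⟩
  set s1 : ℝ := sSup A with hs1def
  have hs01 : s0 ≤ s1 := le_csSup hbdd hs0A
  have hs1 : 0 ≤ s1 := hs0.trans hs01
  have hlt : ∀ σ ∈ Ico s0 s1, x σ ∈ c.e.symm '' Box δ η := by
    intro σ hσ
    obtain ⟨s, hsA, hσs⟩ := exists_lt_of_lt_csSup ⟨s0, hs0A⟩ hσ.2
    exact hsA.2 σ ⟨hσ.1, hσs.le⟩
  have hx1 : x s1 ∈ c.e.symm '' Box δ η := by
    rcases hs01.eq_or_lt with h1 | h1
    · rw [← h1]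
      exact hin
    · have h2 : s1 ∈ closure (Ico s0 s1) := by
        rw [closure_Ico h1.ne]
        exact ⟨hs01, le_rfl⟩
      have h3 := (hxc s1 hs1).continuousWithinAt.mem_closure_image h2
      have h4 : x '' Ico s0 s1 ⊆ c.e.symm '' Box δ η := by
        rintro _ ⟨σ, hσ, rfl⟩
        exact hlt σ hσ
      have h5 := closure_mono h4 h3
      rwa [hCcl.closure_eq] at h5
  have hs1A : s1 ∈ A := by
    refine ⟨hs01, fun σ hσ => ?_⟩
    rcases hσ.2.eq_or_lt with h1 | h1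
    · rw [h1]
      exact hx1
    · exact hlt σ ⟨hσ.1, h1⟩
  have hx1' := (mem_box c hB).1 hx1
  -- a right neighbourhood on which the orbit is in the chart
  obtain ⟨ε1, hε1, hsrc⟩ : ∃ ε : ℝ, 0 < ε ∧ ∀ s, |s - s1| < ε → x s ∈ c.e.source := by
    have h1 : ∀ᶠ s in 𝓝 s1, x s ∈ c.e.source :=
      (hxc s1 hs1).eventually (c.e.open_source.mem_nhds hx1'.1)
    obtain ⟨ε, hε, h2⟩ := Metric.eventually_nhds_iff.1 h1
    exact ⟨ε, hε, fun s hs => h2 (by rwa [Real.dist_eq])⟩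
  have hu1 : u s1 ≤ δ := (abs_le.1 hx1'.2.1).2
  have hu1' : u s1 = δ := by
    by_contra hne
    have hlt1 : u s1 < δ := lt_of_le_of_ne hu1 hne
    obtain ⟨ε2, hε2, hu2⟩ : ∃ ε : ℝ, 0 < ε ∧ ∀ s, |s - s1| < ε → u s < δ := by
      have h1 : ∀ᶠ s in 𝓝 s1, u s < δ :=
        (hud s1 hs1 hx1'.1).continuousAt.eventually (gt_mem_nhds hlt1)
      obtain ⟨ε, hε, h2⟩ := Metric.eventually_nhds_iff.1 h1
      exact ⟨ε, hε, fun s hs => h2 (by rwa [Real.dist_eq])⟩
    set t : ℝ := min ε1 ε2 / 2 with ht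
    have ht0 : 0 < t := by
      have := lt_min hε1 hε2
      rw [ht]
      linarith
    have ht1 : t < ε1 := by
      have := min_le_left ε1 ε2
      have := lt_min hε1 hε2
      rw [ht]
      linarith
    have ht2 : t < ε2 := by
      have := min_le_right ε1 ε2
      have := lt_min hε1 hε2
      rw [ht]
      linarith
    have hsrc' : ∀ s ∈ Icc s1 (s1 + t), x s ∈ c.e.source := by
      intro s hs
      refine hsrc s ?_
      rw [abs_lt]
      constructor <;> linarith [hs.1, hs.2]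
    have hnew : s1 + t ∈ A := by
      refine ⟨by linarith, fun σ hσ => ?_⟩
      rcases le_or_gt σ s1 with h1 | h1
      · exact hs1A.2 σ ⟨hσ.1, h1⟩
      · have hσ' : σ ∈ Icc s1 (s1 + t) := ⟨h1.le, hσ.2⟩
        refine (mem_box c hB).2 ⟨hsrc' σ hσ', ?_, ?_⟩
        · have h2 := huc s1 (s1 + t) hs1 hsrc' σ hσ' h1
          have h3 : u σ < δ := by
            refine hu2 σ ?_
            rw [abs_lt]
            constructor <;> linarith [hσ'.1, hσ'.2]
          have h4 : -δ ≤ u s1 := (abs_le.1 hx1'.2.1).1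
          exact abs_le.2 ⟨by linarith, h3.le⟩
        · have h2 := hvc s1 (s1 + t) hs1 hsrc' σ hσ'
          have h3 : |v s1| ≤ η := hx1'.2.2
          change |v σ| ≤ η
          rw [h2]
          exact h3
    have := le_csSup hbdd hnew
    linarith
  refine ⟨s1, v s1, hs01, hx1'.2.2, ?_, ε1, hε1, ?_⟩
  · have h1 : c.e (x s1) = (δ : ℂ) + (v s1 : ℂ) * Complex.I := by
      refine Complex.ext ?_ ?_
      · simpa using hu1'
      · simp [hv]
    rw [← h1, c.e.left_inv hx1'.1]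
  · intro s hs hmem
    have hsrc' : ∀ σ ∈ Icc s1 s, x σ ∈ c.e.source := by
      intro σ hσ
      refine hsrc σ ?_
      rw [abs_lt]
      constructor <;> linarith [hσ.1, hσ.2, hs.2]
    have h2 := huc s1 s hs1 hsrc' s ⟨hs.1.le, le_rfl⟩ hs.1
    have h3 : u s ≤ δ := (abs_le.1 ((mem_box c hB).1 hmem).2.1).2
    rw [hu1'] at h2
    linarith

end Pool.Agent.H79.Eul
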