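import Pool.Agent.H79.Eul.GenEval

set_option autoImplicit false

open Filter Topology Polynomial Metric Set

namespace Pool.Agent.H79.Eul

open Pool.Agent.H44.Fatou Pool.Agent.H32.BT

/-
P = A - X B, Ph = cj1 s d A B - X * cj2 s d A B, Qh = qh s d Q. PROOF. The coefficient of X^(d-1) in Qh is
Q(s) ≠ 0 (mob_coeff_top; hn.cop and P s = 0), so natDegree Qh = d - 1 and leadingCoeff Qh = Q s.
natDegree of cj1, cj2 ≤ d: natDegree_reflect_le', mob_deg1, mob_deg2. P = (X - C s) P1 with P1 s = P' s ≠ 0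
(hn.sq), natDegree P1 = d, and Ph = - reflect d (P1.comp (X + C s)): both sides agree at all ζ ≠ 0 by ph_eval
(P (s + ζ⁻¹) = ζ⁻¹ P1 (s + ζ⁻¹) and eval_reflect), so they are equal (Polynomial.funext or eq_of_infinite_eval_eq).
The coefficient of X^d of reflect d (P1.comp (X + C s)) is (P1.comp (X + C s)).coeff 0 = P1 s = P' s ≠ 0.
-/

/-- coprime polynomials have no common root -/
theorem gd_ne {P R : Polynomial ℂ} (h : IsCoprime P R) {s : ℂ} (hs : P.eval s = 0) :
    R.eval s ≠ 0 := by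
  intro h0
  obtain ⟨a, b, hab⟩ := h
  have h1 := congrArg (Polynomial.eval s) hab
  simp [hs, h0] at h1

/-- a polynomial of degree at most `m` with nonzero coefficient `m` -/
theorem gd_top {R : Polynomial ℂ} {m : ℕ} (h1 : R.natDegree ≤ m) (h2 : R.coeff m ≠ 0) :
    R.natDegree = m ∧ R.leadingCoeff = R.coeff m := by
  have h3 : R.natDegree = m := le_antisymm h1 (le_natDegree_of_ne_zero h2)
  refine ⟨h3, ?_⟩
  unfold Polynomial.leadingCoeff
  rw [h3]

theorem gen_deg {d : ℕ} (hd : 2 ≤ d) {Q A B : Polynomial ℂ} (hn : Nice d Q A B) {s : ℂ}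
    (hs : (A - X * B).eval s = 0) :
    (qh s d Q).natDegree + 1 = d ∧ (cj1 s d A B).natDegree ≤ d ∧ (cj2 s d A B).natDegree ≤ d ∧
    (cj1 s d A B - X * cj2 s d A B).natDegree = d ∧
    (cj1 s d A B - X * cj2 s d A B).leadingCoeff / (qh s d Q).leadingCoeff =
      -((derivative (A - X * B)).eval s / Q.eval s) := by
  have hQs : Q.eval s ≠ 0 := gd_ne hn.cop hs
  have hPs : (derivative (A - X * B)).eval s ≠ 0 := gd_ne hn.sq hs
  have hQd : Q.natDegree ≤ d - 1 := by have := hn.hQ; omega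
  -- Qh
  have hq1 : (qh s d Q).natDegree ≤ d - 1 := natDegree_reflect_le' (mob_deg1 s hQd)
  have hq2 : (qh s d Q).coeff (d - 1) = Q.eval s := mob_coeff_top s (d - 1) Q
  have hq := gd_top hq1 (by rw [hq2]; exact hQs)
  -- Ph
  obtain ⟨P1, hP1⟩ : (X - C s) ∣ (A - X * B) := dvd_iff_isRoot.2 hs
  have hP1d : P1.natDegree = d := by
    have h1 := hn.hP
    rw [hP1, natDegree_mul (X_sub_C_ne_zero s), natDegree_X_sub_C] at h1
    · omega
    · rintro rfl
      rw [mul_zero, natDegree_zero] at h1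
      omega
  have hP1s : P1.eval s = (derivative (A - X * B)).eval s := by
    rw [hP1, derivative_mul]
    simp
  have hPh : cj1 s d A B - X * cj2 s d A B = -reflect d (P1.comp (X + C s)) := by
    refine eq_of_infinite_eval_eq _ _ ?_
    refine Set.Infinite.mono (s := {0}ᶜ) ?_ (Set.Finite.infinite_compl (Set.finite_singleton 0))
    intro ζ hζ
    have hζ0 : ζ ≠ 0 := hζ
    show (cj1 s d A B - X * cj2 s d A B).eval ζ = (-reflect d (P1.comp (X + C s))).eval ζ
    rw [ph_eval hn.hA hn.hB s hζ0, hP1, eval_mul, eval_neg]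
    have hne : s + ζ⁻¹ ≠ s := by
      intro h
      have : ζ⁻¹ = 0 := by linear_combination h
      exact inv_ne_zero hζ0 this
    have h1 := mob_eval s (Q := P1) (d := d) hP1d.le hne
    have h2 : (s + ζ⁻¹ - s)⁻¹ = ζ := by
      rw [add_sub_cancel_left, inv_inv]
    rw [h2, add_sub_cancel_left] at h1
    rw [h1, eval_sub, eval_X, eval_C, add_sub_cancel_left]
    have h3 : ζ ^ (d + 1) * (ζ⁻¹ * (eval ζ (reflect d (P1.comp (X + C s))) * ζ⁻¹ ^ d)) =
        (ζ * ζ⁻¹) ^ (d + 1) * eval ζ (reflect d (P1.comp (X + C s))) := by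
      ring
    rw [h3, mul_inv_cancel₀ hζ0, one_pow, one_mul]
  have hp1 : (cj1 s d A B - X * cj2 s d A B).natDegree ≤ d := by
    rw [hPh, natDegree_neg]
    exact natDegree_reflect_le' (mob_deg1 s hP1d.le)
  have hp2 : (cj1 s d A B - X * cj2 s d A B).coeff d = -(derivative (A - X * B)).eval s := by
    rw [hPh, coeff_neg, mob_coeff_top, hP1s]
  have hp := gd_top hp1 (by rw [hp2]; exact neg_ne_zero.2 hPs)
  refine ⟨by rw [hq.1]; omega, ?_, ?_, hp.1, ?_⟩
  · exact natDegree_reflect_le' (mob_deg1 s hn.hB)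
  · exact natDegree_reflect_le' (mob_deg1 s (mob_deg2 s hn.hA hn.hB))
  · rw [hp.2, hq.2, hp2, hq2, neg_div]

end Pool.Agent.H79.Eul
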