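import Pool.Agent.H79.Eul.PartFrac

set_option autoImplicit false

open Filter Topology Polynomial Metric Set

namespace Pool.Agent.H79.Eul

open Pool.Agent.H44.Fatou Pool.Agent.H32.BT

/-
Evaluations for ζ ≠ 0, z = s + ζ⁻¹ ≠ s, (z - s)⁻¹ = ζ: mob_eval, mob_eval2 in H32/BT/Mob
(Q z = (reflect d (Q.comp (X + C s))).eval (z - s)⁻¹ * (z - s)^d). At ζ = 0: eval_reflect_zero, mob_coeff_comp
(the coefficient d of R.comp (X + C s) is R.coeff d if natDegree R ≤ d). Coefficient d: mob_cj2_coeff.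
ph_eval: ζ^d (B z - ζ (A z - s B z)) = - ζ^(d+1) (A z - (s + ζ⁻¹) B z).
-/

theorem ge_mob {n : ℕ} {Q : Polynomial ℂ} (hQ : Q.natDegree ≤ n) (s : ℂ) {ζ : ℂ} (hζ : ζ ≠ 0) :
    (reflect n (Q.comp (X + C s))).eval ζ = ζ ^ n * Q.eval (s + ζ⁻¹) := by
  have hne : s + ζ⁻¹ ≠ s := by
    intro h
    exact inv_ne_zero hζ (by simpa using h)
  have h := mob_eval s hQ hne
  rw [add_sub_cancel_left, inv_inv] at h
  rw [h, mul_comm, mul_assoc, ← mul_pow, inv_mul_cancel₀ hζ, one_pow, mul_one]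

theorem cj1_eval {d : ℕ} {A B : Polynomial ℂ} (hB : B.natDegree ≤ d) (s : ℂ) {ζ : ℂ}
    (hζ : ζ ≠ 0) : (cj1 s d A B).eval ζ = ζ ^ d * B.eval (s + ζ⁻¹) := ge_mob hB s hζ

theorem cj2_eval {d : ℕ} {A B : Polynomial ℂ} (hA : A.natDegree ≤ d) (hB : B.natDegree ≤ d)
    (s : ℂ) {ζ : ℂ} (hζ : ζ ≠ 0) :
    (cj2 s d A B).eval ζ = ζ ^ d * (A.eval (s + ζ⁻¹) - s * B.eval (s + ζ⁻¹)) := by
  have h := ge_mob (mob_deg2 s hA hB) s hζ
  rw [eval_sub, eval_mul, eval_C] at h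
  exact h

theorem qh_eval {d : ℕ} {Q : Polynomial ℂ} (hQ : Q.natDegree + 1 ≤ d) (s : ℂ) {ζ : ℂ}
    (hζ : ζ ≠ 0) : (qh s d Q).eval ζ = ζ ^ (d - 1) * Q.eval (s + ζ⁻¹) :=
  ge_mob (by omega) s hζ

theorem ph_eval {d : ℕ} {A B : Polynomial ℂ} (hA : A.natDegree ≤ d) (hB : B.natDegree ≤ d)
    (s : ℂ) {ζ : ℂ} (hζ : ζ ≠ 0) : (cj1 s d A B - X * cj2 s d A B).eval ζ =
      -(ζ ^ (d + 1) * (A - X * B).eval (s + ζ⁻¹)) := by
  rw [eval_sub, eval_mul, eval_X, cj1_eval hB s hζ, cj2_eval hA hB s hζ, eval_sub, eval_mul, eval_X]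
  have h1 : ζ * ζ⁻¹ = 1 := mul_inv_cancel₀ hζ
  generalize ζ⁻¹ = w at *
  have h2 : ζ ^ d * B.eval (s + w) = ζ ^ d * B.eval (s + w) * (ζ * w) := by rw [h1, mul_one]
  rw [h2]
  ring

theorem cj1_zero {d : ℕ} {A B : Polynomial ℂ} (hB : B.natDegree ≤ d) (s : ℂ) :
    (cj1 s d A B).eval 0 = B.coeff d := by
  unfold cj1
  rw [eval_reflect_zero, mob_coeff_comp s hB]

theorem cj2_zero {d : ℕ} {A B : Polynomial ℂ} (hA : A.natDegree ≤ d) (hB : B.natDegree ≤ d)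
    (s : ℂ) : (cj2 s d A B).eval 0 = A.coeff d - s * B.coeff d := by
  unfold cj2
  rw [eval_reflect_zero, mob_coeff_comp s (mob_deg2 s hA hB), coeff_sub, coeff_C_mul]

theorem qh_zero {d : ℕ} {Q : Polynomial ℂ} (hQ : Q.natDegree + 1 ≤ d) (s : ℂ) :
    (qh s d Q).eval 0 = Q.coeff (d - 1) := by
  unfold qh
  rw [eval_reflect_zero, mob_coeff_comp s (by omega)]

theorem ph_zero {d : ℕ} {A B : Polynomial ℂ} (hB : B.natDegree ≤ d) (s : ℂ) :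
    (cj1 s d A B - X * cj2 s d A B).eval 0 = B.coeff d := by
  rw [eval_sub, eval_mul, eval_X, zero_mul, sub_zero, cj1_zero hB s]

theorem top_coeff {d : ℕ} {A B : Polynomial ℂ} (hA : A.natDegree ≤ d) :
    (A - X * B).coeff (d + 1) = -B.coeff d := by
  rw [coeff_sub, coeff_X_mul, coeff_eq_zero_of_natDegree_lt (by omega), zero_sub]

end Pool.Agent.H79.Eul
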