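import Pool.Agent.H79.Eul.Unif

set_option autoImplicit false

open Filter Topology Polynomial Metric Set

namespace Pool.Agent.H79.Eul

open Pool.Agent.H44.Fatou Pool.Agent.H32.BT

/-
PROOF of tube. Take m, M from loop_bounds, δ from loop_unif with ε = m/2, κ from loop_sep with
this δ, and η0 = κ / (2 (M + 1)) (then |η| ‖γ' s‖ < κ). Suppose γ t = γ s + η I γ' s. By
periodicity (c.per, an integer multiple of L) we may replace t by t' with |t' - s| ≤ L/2.
If |t' - s| ≥ δ then κ ≤ ‖γ t' - γ s‖ = |η| ‖γ' s‖ < κ, contradiction. Otherwise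
‖(η I - (t' - s)) γ' s‖ ≤ (m/2) |t' - s| and ‖η I - (t' - s)‖ ≥ |t' - s|, so
m |t' - s| ≤ (m/2) |t' - s|, hence t' = s, and then η I γ' s = 0, so η = 0, contradiction.
-/

/-- the points `γ s + η I γ' s` with `0 < |η|` small do not lie on the curve -/
theorem tube (c : Loop) : ∃ η0 : ℝ, 0 < η0 ∧ ∀ η : ℝ, 0 < |η| → |η| ≤ η0 → ∀ s t : ℝ,
    c.γ t ≠ c.γ s + η * Complex.I * c.γ' s := by
  obtain ⟨m, M, hm, hmin, hmax⟩ := loop_bounds c
  obtain ⟨δ, hδ, hunif⟩ := loop_unif c (half_pos hm)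
  obtain ⟨κ, hκ, hsep⟩ := loop_sep c hδ
  have hM : 0 ≤ M := (norm_nonneg _).trans (hmax 0)
  refine ⟨κ / (2 * (M + 1)), by positivity, ?_⟩
  intro η h0 h1 s t heq
  obtain ⟨k, hk⟩ : ∃ k : ℤ, k = round ((t - s) / c.L) := ⟨_, rfl⟩
  obtain ⟨t', ht'⟩ : ∃ t' : ℝ, t' = t - k * c.L := ⟨_, rfl⟩
  have hper : c.γ t' = c.γ t := by
    have hp : Function.Periodic c.γ c.L := c.per
    rw [ht']
    exact hp.sub_int_mul_eq k
  have hdist : |t' - s| ≤ c.L / 2 := by
    have h2 := abs_sub_round ((t - s) / c.L)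
    rw [← hk] at h2
    have h3 : t' - s = ((t - s) / c.L - k) * c.L := by
      rw [ht', sub_mul, div_mul_cancel₀ _ c.hL.ne']
      ring
    rw [h3, abs_mul, abs_of_pos c.hL]
    nlinarith [c.hL]
  have heq' : c.γ t' - c.γ s = η * Complex.I * c.γ' s := by rw [hper, heq]; ring
  rcases le_or_gt δ |t' - s| with hd | hd
  · have h2 := hsep s t' hd hdist
    have h3 : ‖(η : ℂ) * Complex.I * c.γ' s‖ = |η| * ‖c.γ' s‖ := by
      rw [norm_mul, norm_mul, Complex.norm_real, Complex.norm_I, mul_one, Real.norm_eq_abs]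
    rw [heq', h3] at h2
    have h4 : |η| * ‖c.γ' s‖ ≤ κ / (2 * (M + 1)) * M :=
      mul_le_mul h1 (hmax s) (norm_nonneg _) (by positivity)
    have h5 : κ / (2 * (M + 1)) * M < κ := by
      rw [div_mul_eq_mul_div, div_lt_iff₀ (by positivity)]
      nlinarith
    linarith
  · obtain ⟨-, h2⟩ := hunif s t' hd.le
    have h3 : (η : ℂ) * Complex.I * c.γ' s - (t' - s) * c.γ' s =
        ((η : ℂ) * Complex.I - ((t' - s : ℝ) : ℂ)) * c.γ' s := by
      push_cast
      ring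
    rw [heq', h3, norm_mul] at h2
    have h4 : |t' - s| ≤ ‖(η : ℂ) * Complex.I - ((t' - s : ℝ) : ℂ)‖ := by
      have h := Complex.abs_re_le_norm ((η : ℂ) * Complex.I - ((t' - s : ℝ) : ℂ))
      have e : ((η : ℂ) * Complex.I - ((t' - s : ℝ) : ℂ)).re = -(t' - s) := by simp
      rw [e, abs_neg] at h
      exact h
    have h4' : |η| ≤ ‖(η : ℂ) * Complex.I - ((t' - s : ℝ) : ℂ)‖ := by
      have h := Complex.abs_im_le_norm ((η : ℂ) * Complex.I - ((t' - s : ℝ) : ℂ))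
      have e : ((η : ℂ) * Complex.I - ((t' - s : ℝ) : ℂ)).im = η := by simp
      rw [e] at h
      exact h
    have h5 := hmin s
    have h6 : ‖(η : ℂ) * Complex.I - ((t' - s : ℝ) : ℂ)‖ * m ≤ m / 2 * |t' - s| :=
      (mul_le_mul_of_nonneg_left h5 (norm_nonneg _)).trans h2
    have h7 : |t' - s| * m ≤ m / 2 * |t' - s| := (mul_le_mul_of_nonneg_right h4 hm.le).trans h6
    have h8 : |t' - s| = 0 := by
      by_contra hne
      have : 0 < |t' - s| := lt_of_le_of_ne (abs_nonneg _) (Ne.symm hne)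
      nlinarith
    rw [h8, mul_zero] at h6
    have h9 : 0 < ‖(η : ℂ) * Complex.I - ((t' - s : ℝ) : ℂ)‖ * m :=
      mul_pos (h0.trans_le h4') hm
    linarith

end Pool.Agent.H79.Eul
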