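import Pool.Agent.H79.Eul.WindCont
import Pool.Agent.H79.Eul.Tube

set_option autoImplicit false

open Filter Topology Polynomial Metric Set

namespace Pool.Agent.H79.Eul

open Pool.Agent.H44.Fatou Pool.Agent.H32.BT

/-
PROOF of jump. Write κ = γ' 0 ≠ 0, z± = γ 0 ± η I κ, w t = γ t - γ 0. For η small both points are
off the curve (tube) so both winding numbers are integers (wind_int); it is enough to show that the
difference D satisfies |D - 1| < 1. By periodicity of the integrand the integrals may be taken over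
[-L/2, L/2] (Function.Periodic.intervalIntegral_add_eq; γ' is periodic by loop_per'). Hence
2 π I D = ∫_{-L/2}^{L/2} γ' t * (2 I η κ) / ((w t)^2 + η^2 κ^2) dt.
Take δ from loop_unif with ε = ‖κ‖/100 at s = 0, δ ≤ L/2: for |t| ≤ δ: γ' t = κ (1 + e2),
w t = t κ (1 + e1), |e1|, |e2| ≤ 1/100, so the integrand is
2 I η (1 + e2) / (t^2 (1+e1)^2 + η^2), and it differs from 2 I η / (t^2 + η^2) by at most
2 η (1/10) / (t^2 + η^2) (numerator (1+e2)(t^2+η^2) - (t^2 (1+e1)^2 + η^2) is at most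
(1/20)(t^2+η^2) in norm, and |t^2 (1+e1)^2 + η^2| ≥ (t^2+η^2)/2). As ∫_{-δ}^{δ} η/(t^2+η^2) dt =
2 arctan (δ/η) ≤ π, the part over [-δ, δ] is within 2 π / 10 of 4 I arctan (δ/η), which tends to
2 π I as η → 0. For δ ≤ |t| ≤ L/2 one has ‖w t‖ ≥ κ1 > 0 (loop_sep), so for η small the integrand
is at most M * 2 η ‖κ‖ / (κ1^2 / 2), and this part tends to 0 with η.
-/

theorem jump_arctan {η : ℝ} (hη : 0 < η) (a : ℝ) :
    ∫ t in (-a)..a, η / (t ^ 2 + η ^ 2) = 2 * Real.arctan (a / η) := by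
  have hS : ∀ t : ℝ, t ^ 2 + η ^ 2 ≠ 0 := fun t => by positivity
  have h1 : ∀ t : ℝ, HasDerivAt (fun t => Real.arctan (t / η)) (η / (t ^ 2 + η ^ 2)) t := by
    intro t
    have h2 := ((hasDerivAt_id t).div_const η).arctan
    have h3 : 1 / (1 + (id t / η) ^ 2) * (1 / η) = η / (t ^ 2 + η ^ 2) := by
      have := hS t
      simp only [id]
      field_simp
      ring
    rw [h3] at h2
    exact h2
  have hcont : Continuous (fun t : ℝ => η / (t ^ 2 + η ^ 2)) :=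
    continuous_const.div (by fun_prop) hS
  rw [intervalIntegral.integral_eq_sub_of_hasDerivAt (fun t _ => h1 t)
    (hcont.intervalIntegrable _ _), neg_div, Real.arctan_neg]
  ring

/-- the pointwise estimate near the point `γ 0` -/
theorem jump_inner {κ w p : ℂ} {t η : ℝ} (hκ : κ ≠ 0) (hη : 0 < η)
    (hw : ‖w - t * κ‖ ≤ ‖κ‖ / 100 * |t|) (hp : ‖p - κ‖ ≤ ‖κ‖ / 100) :
    ‖p * (2 * Complex.I * η * κ) / (w ^ 2 + η ^ 2 * κ ^ 2) -
      2 * Complex.I * ((η / (t ^ 2 + η ^ 2) : ℝ) : ℂ)‖ ≤ 1 / 5 * (η / (t ^ 2 + η ^ 2)) := by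
  have hK : 0 < ‖κ‖ := norm_pos_iff.mpr hκ
  set a : ℂ := w / κ - t with ha
  set b : ℂ := p / κ - 1 with hb
  set S : ℝ := t ^ 2 + η ^ 2 with hS
  have hSpos : 0 < S := by positivity
  have hw' : w = κ * (t + a) := by rw [ha]; field_simp; ring
  have hp' : p = κ * (1 + b) := by rw [hb]; field_simp; ring
  have ha' : ‖a‖ ≤ |t| / 100 := by
    have h1 : w - t * κ = κ * a := by rw [hw']; ring
    rw [h1, norm_mul] at hw
    have h2 : ‖κ‖ * ‖a‖ ≤ ‖κ‖ * (|t| / 100) := by linarith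
    exact le_of_mul_le_mul_left h2 hK
  have hb' : ‖b‖ ≤ 1 / 100 := by
    have h1 : p - κ = κ * b := by rw [hp']; ring
    rw [h1, norm_mul] at hp
    have h2 : ‖κ‖ * ‖b‖ ≤ ‖κ‖ * (1 / 100) := by linarith
    exact le_of_mul_le_mul_left h2 hK
  set D : ℂ := (t + a) ^ 2 + η ^ 2 with hD
  have ht0 : 0 ≤ |t| := abs_nonneg t
  have ht2 : |t| ^ 2 = t ^ 2 := sq_abs t
  have htn : ‖(t : ℂ)‖ = |t| := by rw [Complex.norm_real, Real.norm_eq_abs]
  have hdiff : ‖(S : ℂ) - D‖ ≤ 3 / 100 * S := by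
    have h1 : (S : ℂ) - D = -(2 * t * a + a ^ 2) := by
      rw [hS, hD]; push_cast; ring
    rw [h1, norm_neg]
    calc ‖2 * (t : ℂ) * a + a ^ 2‖ ≤ ‖2 * (t : ℂ) * a‖ + ‖a ^ 2‖ := norm_add_le _ _
      _ = 2 * |t| * ‖a‖ + ‖a‖ ^ 2 := by
          rw [norm_mul, norm_mul, norm_pow, htn]
          norm_num
      _ ≤ 2 * |t| * (|t| / 100) + (|t| / 100) ^ 2 := by
          gcongr
      _ = (2 / 100 + 1 / 10000) * t ^ 2 := by rw [← ht2]; ring
      _ ≤ 3 / 100 * S := by rw [hS]; nlinarith [sq_nonneg t, sq_nonneg η]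
  have hSn : ‖(S : ℂ)‖ = S := by rw [Complex.norm_real, Real.norm_of_nonneg hSpos.le]
  have hDn : 97 / 100 * S ≤ ‖D‖ := by
    have h1 : ‖(S : ℂ)‖ ≤ ‖(S : ℂ) - D‖ + ‖D‖ := by
      calc ‖(S : ℂ)‖ = ‖((S : ℂ) - D) + D‖ := by rw [sub_add_cancel]
        _ ≤ _ := norm_add_le _ _
    rw [hSn] at h1
    linarith
  have hDpos : 0 < ‖D‖ := by linarith
  have hD0 : D ≠ 0 := norm_pos_iff.mp hDpos
  have hS0 : (S : ℂ) ≠ 0 := by exact_mod_cast hSpos.ne'
  have hden : w ^ 2 + η ^ 2 * κ ^ 2 = κ ^ 2 * D := by rw [hw', hD]; ring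
  have hid : p * (2 * Complex.I * η * κ) / (w ^ 2 + η ^ 2 * κ ^ 2) -
      2 * Complex.I * ((η / S : ℝ) : ℂ) =
      2 * Complex.I * η * (((1 + b) * S - D) / (D * S)) := by
    rw [hden, hp']
    push_cast
    field_simp
  rw [hid, norm_mul, norm_mul, norm_mul, norm_div, norm_mul, Complex.norm_I, hSn,
    Complex.norm_real, Real.norm_of_nonneg hη.le]
  have h2 : ‖(2 : ℂ)‖ = 2 := by norm_num
  rw [h2]
  have hnum : ‖(1 + b) * S - D‖ ≤ 4 / 100 * S := by
    have h1 : (1 + b) * S - D = b * S + (S - D) := by ring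
    rw [h1]
    calc ‖b * (S : ℂ) + (S - D)‖ ≤ ‖b * (S : ℂ)‖ + ‖(S : ℂ) - D‖ := norm_add_le _ _
      _ ≤ 1 / 100 * S + 3 / 100 * S := by
          rw [norm_mul, hSn]
          gcongr
      _ = 4 / 100 * S := by ring
  have h3 : ‖(1 + b) * S - D‖ / (‖D‖ * S) ≤ (4 / 100 * S) / (97 / 100 * S * S) := by
    gcongr
  have h4 : (4 / 100 * S) / (97 / 100 * S * S) = 4 / 97 * (1 / S) := by
    field_simp
  rw [h4] at h3
  calc 2 * 1 * η * (‖(1 + b) * S - D‖ / (‖D‖ * S)) ≤ 2 * 1 * η * (4 / 97 * (1 / S)) := by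
        gcongr
    _ = 8 / 97 * (η / S) := by ring
    _ ≤ 1 / 5 * (η / S) := by
        have : 0 ≤ η / S := by positivity
        nlinarith

/-- the pointwise estimate far from the point `γ 0` -/
theorem jump_outer {κ w p : ℂ} {t η δ κ1 M : ℝ} (hη : 0 < η) (hδ : 0 < δ) (hκ1 : 0 < κ1)
    (hw : κ1 ≤ ‖w‖) (hp : ‖p‖ ≤ M) (ht : δ ≤ |t|) (hηκ : η * ‖κ‖ ≤ κ1 / 2) :
    ‖p * (2 * Complex.I * η * κ) / (w ^ 2 + η ^ 2 * κ ^ 2) -
      2 * Complex.I * ((η / (t ^ 2 + η ^ 2) : ℝ) : ℂ)‖ ≤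
        η * (4 * M * ‖κ‖ / κ1 ^ 2 + 2 / δ ^ 2) := by
  have hη' : ‖(η : ℂ)‖ = η := by rw [Complex.norm_real, Real.norm_of_nonneg hη.le]
  have h2 : ‖(2 : ℂ)‖ = 2 := by norm_num
  have hM : 0 ≤ M := (norm_nonneg _).trans hp
  have hden : κ1 ^ 2 / 2 ≤ ‖w ^ 2 + η ^ 2 * κ ^ 2‖ := by
    have h1 : ‖w ^ 2‖ ≤ ‖w ^ 2 + η ^ 2 * κ ^ 2‖ + ‖(η : ℂ) ^ 2 * κ ^ 2‖ := by
      calc ‖w ^ 2‖ = ‖(w ^ 2 + η ^ 2 * κ ^ 2) - (η : ℂ) ^ 2 * κ ^ 2‖ := by
            rw [add_sub_cancel_right]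
        _ ≤ _ := norm_sub_le _ _
    rw [norm_mul, norm_pow, norm_pow, norm_pow, hη'] at h1
    have h3 : κ1 ^ 2 ≤ ‖w‖ ^ 2 := by gcongr
    have h4 : η ^ 2 * ‖κ‖ ^ 2 ≤ (κ1 / 2) ^ 2 := by
      rw [← mul_pow]; gcongr
    nlinarith
  have hF : ‖p * (2 * Complex.I * η * κ) / (w ^ 2 + η ^ 2 * κ ^ 2)‖ ≤
      η * (4 * M * ‖κ‖ / κ1 ^ 2) := by
    rw [norm_div, norm_mul, norm_mul, norm_mul, norm_mul, Complex.norm_I, hη', h2]
    calc ‖p‖ * (2 * 1 * η * ‖κ‖) / ‖w ^ 2 + η ^ 2 * κ ^ 2‖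
        ≤ M * (2 * 1 * η * ‖κ‖) / (κ1 ^ 2 / 2) := by gcongr
      _ = η * (4 * M * ‖κ‖ / κ1 ^ 2) := by field_simp; ring
  have hG : ‖2 * Complex.I * ((η / (t ^ 2 + η ^ 2) : ℝ) : ℂ)‖ ≤ η * (2 / δ ^ 2) := by
    rw [norm_mul, norm_mul, Complex.norm_I, h2, Complex.norm_real,
      Real.norm_of_nonneg (by positivity)]
    have h3 : δ ^ 2 ≤ t ^ 2 + η ^ 2 := by
      have : δ ^ 2 ≤ |t| ^ 2 := by gcongr
      rw [sq_abs] at this
      nlinarith [sq_nonneg η]
    calc 2 * 1 * (η / (t ^ 2 + η ^ 2)) ≤ 2 * 1 * (η / δ ^ 2) := by gcongr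
      _ = η * (2 / δ ^ 2) := by ring
  calc _ ≤ ‖p * (2 * Complex.I * η * κ) / (w ^ 2 + η ^ 2 * κ ^ 2)‖ +
        ‖2 * Complex.I * ((η / (t ^ 2 + η ^ 2) : ℝ) : ℂ)‖ := norm_sub_le _ _
    _ ≤ η * (4 * M * ‖κ‖ / κ1 ^ 2) + η * (2 / δ ^ 2) := add_le_add hF hG
    _ = _ := by ring

/-- crossing the curve from right to left increases the winding number by one -/
theorem jump (c : Loop) : ∃ η1 : ℝ, 0 < η1 ∧ ∀ η : ℝ, 0 < η → η ≤ η1 →
    wind c (c.γ 0 + η * Complex.I * c.γ' 0) - wind c (c.γ 0 - η * Complex.I * c.γ' 0) = 1 := by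
  obtain ⟨η0, hη0, htube⟩ := tube c
  set κ : ℂ := c.γ' 0 with hκdef
  have hκ : κ ≠ 0 := c.ne 0
  have hK : 0 < ‖κ‖ := norm_pos_iff.mpr hκ
  obtain ⟨m, M, hm, hmM, hM⟩ := loop_bounds c
  obtain ⟨δ, hδ, hunif⟩ := loop_unif c (ε := ‖κ‖ / 100) (by positivity)
  obtain ⟨κ1, hκ1, hsep⟩ := loop_sep c hδ
  have hM0 : 0 < M := hK.trans_le (hM 0)
  set C : ℝ := 4 * M * ‖κ‖ / κ1 ^ 2 + 2 / δ ^ 2 with hC
  have hC0 : 0 < C := by positivity
  have hL := c.hL
  refine ⟨min (min η0 (c.L / 2)) (min (κ1 / (2 * ‖κ‖)) (1 / (C * c.L))), by positivity, ?_⟩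
  intro η hη hηle
  have hηη0 : η ≤ η0 := hηle.trans ((min_le_left _ _).trans (min_le_left _ _))
  have hηL : η ≤ c.L / 2 := hηle.trans ((min_le_left _ _).trans (min_le_right _ _))
  have hηκ : η * ‖κ‖ ≤ κ1 / 2 := by
    have := hηle.trans ((min_le_right _ _).trans (min_le_left _ _))
    rw [le_div_iff₀ (by positivity)] at this
    linarith
  have hηC : η * C * c.L ≤ 1 := by
    have := hηle.trans ((min_le_right _ _).trans (min_le_right _ _))
    rw [le_div_iff₀ (by positivity)] at this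
    linarith
  have hzp : ∀ t, c.γ t ≠ c.γ 0 + η * Complex.I * κ := fun t =>
    htube η (by rw [abs_of_pos hη]; exact hη) (by rw [abs_of_pos hη]; exact hηη0) 0 t
  have hzm : ∀ t, c.γ t ≠ c.γ 0 - η * Complex.I * κ := fun t h => by
    refine htube (-η) (by rw [abs_neg, abs_of_pos hη]; exact hη)
      (by rw [abs_neg, abs_of_pos hη]; exact hηη0) 0 t ?_
    rw [h]; push_cast; ring
  obtain ⟨np, hnp⟩ := wind_int c _ hzp
  obtain ⟨nm, hnm⟩ := wind_int c _ hzm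
  have hγc : Continuous c.γ := continuous_iff_continuousAt.mpr fun t => (c.deriv t).continuousAt
  let F : ℝ → ℂ := fun t => c.γ' t * (2 * Complex.I * η * κ) /
    ((c.γ t - c.γ 0) ^ 2 + η ^ 2 * κ ^ 2)
  have hFeq : ∀ t, F t = c.γ' t / (c.γ t - (c.γ 0 + η * Complex.I * κ)) -
      c.γ' t / (c.γ t - (c.γ 0 - η * Complex.I * κ)) := by
    intro t
    have h1 : c.γ t - (c.γ 0 + η * Complex.I * κ) ≠ 0 := sub_ne_zero.mpr (hzp t)
    have h2 : c.γ t - (c.γ 0 - η * Complex.I * κ) ≠ 0 := sub_ne_zero.mpr (hzm t)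
    have h3 : (c.γ t - c.γ 0) ^ 2 + η ^ 2 * κ ^ 2 =
        (c.γ t - (c.γ 0 + η * Complex.I * κ)) * (c.γ t - (c.γ 0 - η * Complex.I * κ)) := by
      have hI : Complex.I ^ 2 = -1 := Complex.I_sq
      linear_combination (η : ℂ) ^ 2 * κ ^ 2 * hI
    simp only [F]
    rw [h3, div_sub_div _ _ h1 h2]
    congr 1
    ring
  have hc1 : Continuous (fun t => c.γ' t / (c.γ t - (c.γ 0 + η * Complex.I * κ))) :=
    c.cont.div (hγc.sub continuous_const) fun t => sub_ne_zero.mpr (hzp t)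
  have hc2 : Continuous (fun t => c.γ' t / (c.γ t - (c.γ 0 - η * Complex.I * κ))) :=
    c.cont.div (hγc.sub continuous_const) fun t => sub_ne_zero.mpr (hzm t)
  have hFc : Continuous F := by
    have : F = fun t => c.γ' t / (c.γ t - (c.γ 0 + η * Complex.I * κ)) -
      c.γ' t / (c.γ t - (c.γ 0 - η * Complex.I * κ)) := funext hFeq
    rw [this]
    exact hc1.sub hc2
  have hFper : Function.Periodic F c.L := by
    intro t
    simp only [F]
    rw [c.per, loop_per']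
  have hint : ∫ t in (0 : ℝ)..c.L, F t = ∫ t in (-(c.L / 2))..(c.L / 2), F t := by
    have h1 := hFper.intervalIntegral_add_eq 0 (-(c.L / 2))
    rw [zero_add] at h1
    have h2 : -(c.L / 2) + c.L = c.L / 2 := by ring
    rw [h2] at h1
    exact h1
  have hwind : wind c (c.γ 0 + η * Complex.I * κ) - wind c (c.γ 0 - η * Complex.I * κ) =
      (2 * Real.pi * Complex.I)⁻¹ * ∫ t in (-(c.L / 2))..(c.L / 2), F t := by
    rw [← hint, wind, wind, ← mul_sub, ← intervalIntegral.integral_sub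
      (hc1.intervalIntegrable _ _) (hc2.intervalIntegrable _ _)]
    congr 1
    exact intervalIntegral.integral_congr fun t _ => (hFeq t).symm
  -- comparison
  let F0 : ℝ → ℂ := fun t => 2 * Complex.I * ((η / (t ^ 2 + η ^ 2) : ℝ) : ℂ)
  have hgc : Continuous (fun t : ℝ => η / (t ^ 2 + η ^ 2)) :=
    continuous_const.div (by fun_prop) fun t => by positivity
  have hF0c : Continuous F0 := continuous_const.mul (Complex.continuous_ofReal.comp hgc)
  have hF0int : ∫ t in (-(c.L / 2))..(c.L / 2), F0 t =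
      2 * Complex.I * ((2 * Real.arctan (c.L / 2 / η) : ℝ) : ℂ) := by
    rw [← jump_arctan hη (c.L / 2)]
    simp only [F0]
    rw [intervalIntegral.integral_const_mul, intervalIntegral.integral_ofReal]
  have hbound : ‖∫ t in (-(c.L / 2))..(c.L / 2), (F t - F0 t)‖ ≤
      ∫ t in (-(c.L / 2))..(c.L / 2), (1 / 5 * (η / (t ^ 2 + η ^ 2)) + η * C) := by
    refine intervalIntegral.norm_integral_le_of_norm_le (by linarith) ?_ ?_
    · refine Filter.Eventually.of_forall fun t ht => ?_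
      have hpos : 0 ≤ 1 / 5 * (η / (t ^ 2 + η ^ 2)) := by positivity
      rcases le_total |t| δ with h | h
      · obtain ⟨h1, h2⟩ := hunif 0 t (by simpa using h)
        have h3 : ‖c.γ t - c.γ 0 - t * κ‖ ≤ ‖κ‖ / 100 * |t| := by simpa using h2
        have h4 := jump_inner (t := t) hκ hη h3 h1
        have h5 : 0 ≤ η * C := by positivity
        simp only [F, F0]
        linarith
      · have habs : |t| ≤ c.L / 2 := abs_le.mpr ⟨ht.1.le, ht.2⟩
        have h3 := hsep 0 t (by simpa using h) (by simpa using habs)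
        have h4 := jump_outer (κ := κ) hη hδ hκ1 h3 (hM t) h hηκ
        simp only [F, F0]
        rw [hC]
        linarith
    · exact (((continuous_const.mul hgc).add continuous_const).intervalIntegrable _ _)
  have hgint : ∫ t in (-(c.L / 2))..(c.L / 2), (1 / 5 * (η / (t ^ 2 + η ^ 2)) + η * C) =
      1 / 5 * (2 * Real.arctan (c.L / 2 / η)) + η * C * c.L := by
    have hgc' : Continuous (fun t : ℝ => 1 / 5 * (η / (t ^ 2 + η ^ 2))) :=
      continuous_const.mul hgc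
    have hcc : Continuous (fun _ : ℝ => η * C) := continuous_const
    rw [intervalIntegral.integral_add (hgc'.intervalIntegrable _ _)
      (hcc.intervalIntegrable _ _), intervalIntegral.integral_const_mul,
      jump_arctan hη, intervalIntegral.integral_const, smul_eq_mul]
    ring
  rw [hgint] at hbound
  rw [intervalIntegral.integral_sub (hFc.intervalIntegrable _ _) (hF0c.intervalIntegrable _ _),
    hF0int] at hbound
  have hat1 : Real.arctan (c.L / 2 / η) < Real.pi / 2 := Real.arctan_lt_pi_div_two _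
  have hat2 : Real.pi / 4 ≤ Real.arctan (c.L / 2 / η) := by
    rw [← Real.arctan_one]
    apply Real.arctan_strictMono.monotone
    rw [le_div_iff₀ hη]
    linarith
  have hpi := Real.pi_gt_three
  set J : ℂ := ∫ t in (-(c.L / 2))..(c.L / 2), F t with hJ
  have hJ2 : ‖J - 2 * Real.pi * Complex.I‖ < 2 * Real.pi := by
    have h1 : ‖2 * Complex.I * ((2 * Real.arctan (c.L / 2 / η) : ℝ) : ℂ) -
        2 * Real.pi * Complex.I‖ ≤ Real.pi := by
      have h2 : 2 * Complex.I * ((2 * Real.arctan (c.L / 2 / η) : ℝ) : ℂ) -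
          2 * Real.pi * Complex.I =
          ((4 * Real.arctan (c.L / 2 / η) - 2 * Real.pi : ℝ) : ℂ) * Complex.I := by
        push_cast; ring
      rw [h2, norm_mul, Complex.norm_I, mul_one, Complex.norm_real, Real.norm_eq_abs, abs_le]
      constructor <;> linarith
    have h3 : ‖J - 2 * Real.pi * Complex.I‖ ≤
        ‖J - 2 * Complex.I * ((2 * Real.arctan (c.L / 2 / η) : ℝ) : ℂ)‖ +
        ‖2 * Complex.I * ((2 * Real.arctan (c.L / 2 / η) : ℝ) : ℂ) -
        2 * Real.pi * Complex.I‖ := by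
      have h4 : J - 2 * Real.pi * Complex.I =
        (J - 2 * Complex.I * ((2 * Real.arctan (c.L / 2 / η) : ℝ) : ℂ)) +
        (2 * Complex.I * ((2 * Real.arctan (c.L / 2 / η) : ℝ) : ℂ) -
        2 * Real.pi * Complex.I) := by ring
      rw [h4]
      exact norm_add_le _ _
    linarith
  have h2pi : (2 * Real.pi * Complex.I : ℂ) ≠ 0 := Complex.two_pi_I_ne_zero
  have hfin : ‖((np - nm - 1 : ℤ) : ℂ)‖ < 1 := by
    have h1 : ((np - nm - 1 : ℤ) : ℂ) = (2 * Real.pi * Complex.I)⁻¹ *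
        (J - 2 * Real.pi * Complex.I) := by
      rw [mul_sub, ← hwind, inv_mul_cancel₀ h2pi, hnp, hnm]
      push_cast; ring
    have h2 : ‖(2 * Real.pi * Complex.I : ℂ)‖ = 2 * Real.pi := by
      rw [norm_mul, norm_mul, Complex.norm_I, Complex.norm_real,
        Real.norm_of_nonneg Real.pi_pos.le]
      norm_num
    rw [h1, norm_mul, norm_inv, h2, inv_mul_lt_iff₀ (by positivity), mul_one]
    exact hJ2
  rw [Complex.norm_intCast] at hfin
  have hz : np - nm - 1 = 0 := by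
    have h1 : |np - nm - 1| < 1 := by exact_mod_cast hfin
    exact Int.abs_lt_one_iff.mp h1
  rw [hnp, hnm]
  have h2 : np = nm + 1 := by omega
  rw [h2]
  push_cast
  ring

end Pool.Agent.H79.Eul
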