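import Pool.Agent.H79.Eul.ExitA

set_option autoImplicit false

open Filter Topology Polynomial Metric Set

namespace Pool.Agent.H79.Eul

open Pool.Agent.H44.Fatou Pool.Agent.H32.BT

/-
C = c.e.symm '' Box δ η is a compact subset of c.e.source (box_image_compact) and z ∈ C iff z ∈ c.e.source and
c.e z ∈ Box δ η (mem_box). While x s is in c.e.source the function w s = c.e (x s) has derivative
|Q (x s)|^2 > 0, a real number (chart_rate). So its imaginary part is locally constant and its real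
part is strictly increasing.
PROOF of first_return. Let D = {s' ≥ s1 + ε/2 | x s' ∈ C}: closed, nonempty (s1 + ε ≤ s by hout), let s2
be its minimum; s2 ≥ s1 + ε > s1. On Ioo s1 s2, x is not in C (hout and minimality). x s2 ∈ C; let
w s2 = u + y2 I with |u| ≤ δ, |y2| ≤ η. If u > -δ then for s' slightly smaller than s2, x s' is in the
source with Im w = y2 and -δ ≤ Re (w s') ≤ u, so x s' ∈ C, contradiction. So u = -δ.
-/

/-- along an orbit inside the chart, the chart coordinate moves to the right -/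
theorem h58_chart_mono {P Q : Polynomial ℂ} {p : ℂ} (c : Chart P Q p) {x : ℝ → ℂ}
    (hx : IsOrb P Q x) {s t : ℝ} (hs : 0 ≤ s) (hst : s < t)
    (hin : ∀ u ∈ Icc s t, x u ∈ c.e.source) :
    (c.e (x s)).re ≤ (c.e (x t)).re ∧ (c.e (x s)).im = (c.e (x t)).im := by
  have hre : ∀ u ∈ Icc s t, HasDerivAt (fun u => (c.e (x u)).re) (‖Q.eval (x u)‖ ^ 2) u := by
    intro u hu
    have h := (Complex.reCLM.hasFDerivAt (x := c.e (x u))).comp_hasDerivAt u
      (chart_rate c hx (hs.trans hu.1) (hin u hu))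
    have h0 : Complex.reCLM (((‖Q.eval (x u)‖ ^ 2 : ℝ) : ℂ)) = ‖Q.eval (x u)‖ ^ 2 := by
      rw [Complex.reCLM_apply, Complex.ofReal_re]
    rw [h0] at h
    exact h
  have him : ∀ u ∈ Icc s t, HasDerivAt (fun u => (c.e (x u)).im) 0 u := by
    intro u hu
    have h := (Complex.imCLM.hasFDerivAt (x := c.e (x u))).comp_hasDerivAt u
      (chart_rate c hx (hs.trans hu.1) (hin u hu))
    have h0 : Complex.imCLM (((‖Q.eval (x u)‖ ^ 2 : ℝ) : ℂ)) = 0 := by simp [-Complex.ofReal_pow]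
    rw [h0] at h
    exact h
  constructor
  · obtain ⟨u, hu, h⟩ := exists_hasDerivAt_eq_slope (fun u => (c.e (x u)).re)
      (fun u => ‖Q.eval (x u)‖ ^ 2) hst
      (fun u hu => (hre u hu).continuousAt.continuousWithinAt)
      (fun u hu => hre u (Ioo_subset_Icc_self hu))
    have h1 : 0 ≤ ((c.e (x t)).re - (c.e (x s)).re) / (t - s) := by
      rw [← h]
      positivity
    have h2 : 0 < t - s := by linarith
    have h3 := mul_nonneg h1 h2.le
    rw [div_mul_cancel₀ _ h2.ne'] at h3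
    linarith
  · obtain ⟨u, hu, h⟩ := exists_hasDerivAt_eq_slope (fun u => (c.e (x u)).im)
      (fun _ => 0) hst
      (fun u hu => (him u hu).continuousAt.continuousWithinAt)
      (fun u hu => him u (Ioo_subset_Icc_self hu))
    have h2 : 0 < t - s := by linarith
    have h3 : ((c.e (x t)).im - (c.e (x s)).im) / (t - s) * (t - s) = 0 := by
      rw [← h, zero_mul]
    rw [div_mul_cancel₀ _ h2.ne'] at h3
    linarith

theorem first_return {P Q : Polynomial ℂ} {p : ℂ} (c : Chart P Q p) {δ η : ℝ} (hδ : 0 < δ)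
    (hη : 0 < η) (hB : Box δ η ⊆ c.e.target) {x : ℝ → ℂ} (hx : IsOrb P Q x) {s1 ε : ℝ}
    (hs1 : 0 ≤ s1) (hε : 0 < ε) (hout : ∀ s ∈ Ioo s1 (s1 + ε), x s ∉ c.e.symm '' Box δ η)
    {s : ℝ} (hs : s1 < s) (hin : x s ∈ c.e.symm '' Box δ η) :
    ∃ s2 y2 : ℝ, s1 < s2 ∧ |y2| ≤ η ∧ x s2 = c.e.symm (-δ + y2 * Complex.I) ∧
      ∀ s' ∈ Ioo s1 s2, x s' ∉ c.e.symm '' Box δ η := by
  have hC : IsClosed (c.e.symm '' Box δ η) := (box_image_compact c hB).isClosed
  have hs1s : s1 + ε ≤ s := by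
    by_contra hcon
    exact hout s ⟨hs, not_le.1 hcon⟩ hin
  have hxc : ContinuousOn x (Icc (s1 + ε) s) := fun u hu =>
    (hx u (by linarith [hu.1])).continuousAt.continuousWithinAt
  have hD : IsCompact (Icc (s1 + ε) s ∩ x ⁻¹' (c.e.symm '' Box δ η)) :=
    isCompact_Icc.of_isClosed_subset (hxc.preimage_isClosed_of_isClosed isClosed_Icc hC)
      inter_subset_left
  have hne : (Icc (s1 + ε) s ∩ x ⁻¹' (c.e.symm '' Box δ η)).Nonempty :=
    ⟨s, ⟨hs1s, le_rfl⟩, hin⟩
  obtain ⟨s2, hs2, hleast⟩ := hD.exists_isLeast hne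
  have hlt : s1 < s2 := by linarith [hs2.1.1]
  have hnot : ∀ s' ∈ Ioo s1 s2, x s' ∉ c.e.symm '' Box δ η := by
    intro s' hs' hmem
    by_cases h : s' < s1 + ε
    · exact hout s' ⟨hs'.1, h⟩ hmem
    · have h1 : s2 ≤ s' := hleast ⟨⟨not_lt.1 h, by linarith [hs'.2, hs2.1.2]⟩, hmem⟩
      linarith [hs'.2]
  have hbox := (mem_box c hB).1 hs2.2
  obtain ⟨hsrc, hre, him⟩ := hbox
  have hs20 : 0 ≤ s2 := by linarith
  have hxat : ContinuousAt x s2 := (hx s2 hs20).continuousAt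
  have hkey : (c.e (x s2)).re = -δ := by
    by_contra hcon
    have hgt : -δ < (c.e (x s2)).re := lt_of_le_of_ne (abs_le.1 hre).1 (Ne.symm hcon)
    have hcat : ContinuousAt (fun u => (c.e (x u)).re) s2 :=
      (Complex.continuous_re.continuousAt).comp
        ((c.e.continuousAt hsrc).comp_of_eq hxat rfl)
    have e1 : ∀ᶠ u in 𝓝 s2, x u ∈ c.e.source := hxat.eventually (c.e.open_source.mem_nhds hsrc)
    have e2 : ∀ᶠ u in 𝓝 s2, -δ < (c.e (x u)).re := hcat.eventually (lt_mem_nhds hgt)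
    have e3 : ∀ᶠ u in 𝓝 s2, s1 < u := lt_mem_nhds hlt
    obtain ⟨κ, hκ, hball⟩ := Metric.eventually_nhds_iff.1 (e1.and (e2.and e3))
    have hin' : ∀ u ∈ Icc (s2 - κ / 2) s2, x u ∈ c.e.source ∧ -δ < (c.e (x u)).re ∧ s1 < u := by
      intro u hu
      apply hball
      rw [Real.dist_eq, abs_lt]
      constructor <;> linarith [hu.1, hu.2]
    have hA := hin' (s2 - κ / 2) ⟨le_rfl, by linarith⟩
    have hm := h58_chart_mono c hx (s := s2 - κ / 2) (t := s2) (by linarith [hA.2.2])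
      (by linarith) (fun u hu => (hin' u hu).1)
    refine hnot (s2 - κ / 2) ⟨hA.2.2, by linarith⟩ ((mem_box c hB).2 ⟨hA.1, ?_, ?_⟩)
    · rw [abs_le]
      exact ⟨hA.2.1.le, hm.1.trans (abs_le.1 hre).2⟩
    · rw [hm.2]
      exact him
  refine ⟨s2, (c.e (x s2)).im, hlt, him, ?_, hnot⟩
  have hw : (-δ + (c.e (x s2)).im * Complex.I : ℂ) = c.e (x s2) := by
    apply Complex.ext
    · simp [hkey]
    · simp
  rw [hw, c.e.left_inv hsrc]

end Pool.Agent.H79.Eul
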