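import Pool.Agent.H79.Eul.Closing
import Pool.Agent.H79.Eul.Exit
import Pool.Agent.H79.Eul.Return
import Pool.Agent.H79.Eul.ChartEx

set_option autoImplicit false

open Filter Topology Polynomial Metric Set

namespace Pool.Agent.H79.Eul

open Pool.Agent.H44.Fatou Pool.Agent.H32.BT

/-
PROOF of leave_box. There is κ > 0 with κ ≤ |Re ∑_J res| for every J ⊆ Z P with Re ∑_J res ≠ 0 (finitely
many J: Z P has a finite powerset). Take a chart c at p, and δ, η > 0 with Box δ η ⊆ c.e.target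
(c.e.target is open and contains 0 = c.e p) and 2 η < 2 π κ. Let W be the set of z ∈ c.e.source with
|Re (c.e z)| < δ, |Im (c.e z)| < η, a neighbourhood of p (c.e is continuous at p and c.e p = 0), contained
in the box image (mem_box). Suppose x visits W at arbitrarily large times; take one such time s0 ≥ 0,
exit_box gives s1, and then a later visit s > s1 gives by first_return a time s2. By closing,
T + (y1 - y2) I = σ 2 π I S with S = ∑_J res. Imaginary parts: y1 - y2 = ± 2 π Re S and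
|y1 - y2| ≤ 2 η < 2 π κ, so Re S = 0, so S = 0 by G1, so T = 0: contradiction.
So with s1 as above (if W is ever visited at a time ≥ 0; otherwise S0 = 0), x s ∉ W for all s > s1.
-/

theorem leave_box {P Q : Polynomial ℂ} (hsq : IsCoprime P (derivative P))
    (hdeg : Q.natDegree < P.natDegree) (hG : G1 P Q) {p : ℂ} (hp : Reg P Q p) :
    ∃ W ∈ 𝓝 p, ∀ x : ℝ → ℂ, IsOrb P Q x → ∃ S0 : ℝ, ∀ s : ℝ, S0 ≤ s → x s ∉ W := by
  -- the gap
  obtain ⟨κ, hκ, hκJ⟩ : ∃ κ : ℝ, 0 < κ ∧ ∀ J ⊆ Z P, (∑ a ∈ J, res P Q a).re ≠ 0 →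
      κ ≤ |(∑ a ∈ J, res P Q a).re| := by
    classical
    rcases ((Z P).powerset.filter (fun J => (∑ a ∈ J, res P Q a).re ≠ 0)).eq_empty_or_nonempty
      with h | h
    · refine ⟨1, one_pos, fun J hJ hne => ?_⟩
      exfalso
      have : J ∈ (Z P).powerset.filter (fun J => (∑ a ∈ J, res P Q a).re ≠ 0) :=
        Finset.mem_filter.2 ⟨Finset.mem_powerset.2 hJ, hne⟩
      rw [h] at this
      simp at this
    · obtain ⟨J0, hJ0, hmin⟩ := Finset.exists_min_image _
        (fun J => |(∑ a ∈ J, res P Q a).re|) h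
      refine ⟨|(∑ a ∈ J0, res P Q a).re|, abs_pos.2 (Finset.mem_filter.1 hJ0).2, ?_⟩
      intro J hJ hne
      exact hmin J (Finset.mem_filter.2 ⟨Finset.mem_powerset.2 hJ, hne⟩)
  obtain ⟨c⟩ := exists_chart hp
  have h0 : (0 : ℂ) ∈ c.e.target := by
    rw [← c.zero]
    exact c.e.map_source c.mem
  obtain ⟨ε, hε, hball⟩ := Metric.isOpen_iff.1 c.e.open_target 0 h0
  obtain ⟨δ, hδ, hδε⟩ : ∃ δ : ℝ, 0 < δ ∧ δ = ε / 3 := ⟨ε / 3, by positivity, rfl⟩
  obtain ⟨η, hη, hηε, hηκ⟩ : ∃ η : ℝ, 0 < η ∧ η ≤ ε / 3 ∧ η ≤ κ :=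
    ⟨min (ε / 3) κ, lt_min (by positivity) hκ, min_le_left _ _, min_le_right _ _⟩
  have hB : Box δ η ⊆ c.e.target := by
    intro w hw
    apply hball
    rw [mem_ball_zero_iff]
    have h1 := Complex.norm_le_abs_re_add_abs_im w
    have h2 := hw.1
    have h3 := hw.2
    linarith
  have hW : c.e.source ∩ c.e ⁻¹' {w : ℂ | |w.re| < δ ∧ |w.im| < η} ∈ 𝓝 p := by
    apply Filter.inter_mem (c.e.open_source.mem_nhds c.mem)
    apply (c.e.continuousAt c.mem).preimage_mem_nhds
    rw [c.zero]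
    have hop : IsOpen {w : ℂ | |w.re| < δ ∧ |w.im| < η} :=
      (isOpen_lt (continuous_abs.comp Complex.continuous_re) continuous_const).inter
        (isOpen_lt (continuous_abs.comp Complex.continuous_im) continuous_const)
    apply hop.mem_nhds
    simp [hδ, hη]
  refine ⟨_, hW, fun x hx => ?_⟩
  have hmem : ∀ s : ℝ, x s ∈ c.e.source ∩ c.e ⁻¹' {w : ℂ | |w.re| < δ ∧ |w.im| < η} →
      x s ∈ c.e.symm '' Box δ η := by
    intro s hs
    rw [mem_box c hB]
    exact ⟨hs.1, le_of_lt hs.2.1, le_of_lt hs.2.2⟩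
  by_cases hv : ∃ s0 : ℝ, 0 ≤ s0 ∧
      x s0 ∈ c.e.source ∩ c.e ⁻¹' {w : ℂ | |w.re| < δ ∧ |w.im| < η}
  · obtain ⟨s0, hs0, hin⟩ := hv
    obtain ⟨s1, y1, h01, hy1, hx1, ε1, hε1, hout⟩ := exit_box c hδ hη hB hx hs0 (hmem s0 hin)
    refine ⟨s1 + 1, fun s hs hsW => ?_⟩
    obtain ⟨s2, y2, h12, hy2, hx2, hout2⟩ := first_return c hδ hη hB hx (hs0.trans h01) hε1 hout
      (by linarith : s1 < s) (hmem s hsW)
    obtain ⟨J, hJ, σ, hσ, T, hT, heq⟩ := closing hsq hdeg c hδ hη hB hx (hs0.trans h01) h12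
      hy1 hy2 hx1 hx2 hout2
    have hsig : (σ : ℝ) ^ 2 = 1 := by
      rcases hσ with h | h <;> rw [h] <;> norm_num
    have him : y1 - y2 = σ * (2 * Real.pi) * (∑ a ∈ J, res P Q a).re := by
      have h := congrArg Complex.im heq
      simp only [Complex.add_im, Complex.ofReal_im, Complex.mul_im, Complex.sub_re,
        Complex.ofReal_re, Complex.I_im, Complex.sub_im, Complex.I_re, Complex.intCast_re,
        Complex.intCast_im, Complex.mul_re, Complex.re_ofNat, Complex.im_ofNat] at h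
      linarith
    have hre : T = -(σ * (2 * Real.pi) * (∑ a ∈ J, res P Q a).im) := by
      have h := congrArg Complex.re heq
      simp only [Complex.add_re, Complex.ofReal_im, Complex.mul_im, Complex.sub_re,
        Complex.ofReal_re, Complex.I_im, Complex.sub_im, Complex.I_re, Complex.intCast_re,
        Complex.intCast_im, Complex.mul_re, Complex.re_ofNat, Complex.im_ofNat] at h
      linarith
    by_cases hzero : (∑ a ∈ J, res P Q a).re = 0
    · have hS := hG J hJ hzero
      rw [hS] at hre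
      simp at hre
      linarith
    · have hk := hκJ J hJ hzero
      have habs : |y1 - y2| = 2 * Real.pi * |(∑ a ∈ J, res P Q a).re| := by
        rw [him, abs_mul, abs_mul]
        have h1 : |(σ : ℝ)| = 1 := by
          rcases hσ with h | h <;> rw [h] <;> norm_num
        rw [h1, one_mul, abs_of_pos (by positivity : (0 : ℝ) < 2 * Real.pi)]
      have hle : |y1 - y2| ≤ 2 * η := by
        have := abs_sub y1 y2
        linarith
      have hpi : 3 < Real.pi := Real.pi_gt_three
      nlinarith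
  · refine ⟨0, fun s hs hsW => hv ⟨s, hs, hsW⟩⟩

end Pool.Agent.H79.Eul
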