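import Pool.Agent.H79.Eul.EulerStep

set_option autoImplicit false

open Filter Topology Polynomial Metric Set

namespace Pool.Agent.H79.Eul

open Pool.Agent.H44.Fatou Pool.Agent.H32.BT

/-
PROOF of local_euler. The segment {w0 + θ | θ ∈ [0, t]} is compact in the open set c.e.target; let ρ > 0 be
such that its closed ρ-neighbourhood N (cthickening, or {w | ∃ θ ∈ Icc 0 t, ‖w - (w0 + θ)‖ ≤ ρ}) is
contained in c.e.target and compact, K = c.e.symm '' N, compact in c.e.source. hg gives (continuity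
of c.e.symm at w0 + t) ρ' ∈ (0, ρ) such that eventually att τ (c.e.symm w) for all w with
‖w - (w0 + t)‖ < ρ'. Take ε with ε t < ρ'/4 in euler_step. For τ far (also h < ρ'/4) and z with
‖c.e z - w0‖ < ρ'/4 (z near c.e.symm w0, z ∈ c.e.source): by induction on n, as long as n h ≤ t: the
point z_n = (g τ)^[n] z satisfies c.e z_n ∈ N, z_n ∈ c.e.source and
‖c.e z_n - c.e z - n h‖ ≤ n ε h ≤ ρ'/4. For n = ⌊t/h⌋ one gets ‖c.e z_n - (w0 + t)‖ < ρ', so att τ z_n;
going backwards with s.step (den ≠ 0) att τ z.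
-/

theorem local_euler {T : Type} {l : Filter T} {P Q B : Polynomial ℂ} (s : Sys T l P Q B) {p : ℂ}
    (c : Chart P Q p) {w0 : ℂ} {t : ℝ} (ht : 0 < t)
    (hseg : ∀ θ ∈ Icc (0 : ℝ) t, w0 + θ ∈ c.e.target) (hg : s.Good (c.e.symm (w0 + t))) :
    s.Good (c.e.symm w0) := by
  have hw0 : w0 ∈ c.e.target := by
    have := hseg 0 ⟨le_rfl, ht.le⟩
    simpa using this
  have hwt : w0 + t ∈ c.e.target := hseg t ⟨ht.le, le_rfl⟩
  set S : Set ℂ := (fun θ : ℝ => w0 + (θ : ℂ)) '' Icc (0 : ℝ) t with hS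
  have hScomp : IsCompact S := by
    refine isCompact_Icc.image ?_
    fun_prop
  have hSt : S ⊆ c.e.target := by
    rintro _ ⟨θ, hθ, rfl⟩
    exact hseg θ hθ
  obtain ⟨ρ, hρ, hN⟩ := hScomp.exists_cthickening_subset_open c.e.open_target hSt
  have hNc : IsCompact (cthickening ρ S) := hScomp.cthickening
  set K : Set ℂ := c.e.symm '' (cthickening ρ S) with hK
  have hKc : IsCompact K := hNc.image_of_continuousOn (c.e.continuousOn_symm.mono hN)
  have hKs : K ⊆ c.e.source := by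
    rintro _ ⟨w, hw, rfl⟩
    exact c.e.map_target (hN hw)
  -- the good neighbourhood of the end point
  have hcont : ContinuousAt c.e.symm (w0 + t) := c.e.continuousAt_symm hwt
  have hg1 : ∀ᶠ y : T × ℂ in l ×ˢ 𝓝 (w0 + (t : ℂ)), s.att y.1 (c.e.symm y.2) := by
    have htend : Tendsto (fun y : T × ℂ => (y.1, c.e.symm y.2)) (l ×ˢ 𝓝 (w0 + (t : ℂ)))
        (l ×ˢ 𝓝 (c.e.symm (w0 + t))) :=
      tendsto_fst.prodMk (hcont.tendsto.comp tendsto_snd)
    exact htend.eventually hg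
  rw [Filter.eventually_prod_iff] at hg1
  obtain ⟨pa, hpa, pb, hpb, hab⟩ := hg1
  obtain ⟨ρ', hρ', hball⟩ := Metric.eventually_nhds_iff_ball.1 hpb
  set r : ℝ := min ρ ρ' with hr
  have hrpos : 0 < r := lt_min hρ hρ'
  have hrρ : r ≤ ρ := min_le_left _ _
  have hrρ' : r ≤ ρ' := min_le_right _ _
  set ε : ℝ := r / (8 * t) with hε
  have hεpos : 0 < ε := by positivity
  have hεt : ε * t = r / 8 := by
    rw [hε]; field_simp
  have hstep := euler_step s c hKc hKs hεpos
  have hsmall : ∀ᶠ τ in l, s.h τ < r / 8 := s.h_lim.eventually (gt_mem_nhds (by positivity))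
  have hcont0 : ContinuousAt c.e (c.e.symm w0) :=
    c.e.continuousAt (c.e.map_target hw0)
  have hz1 : ∀ᶠ z in 𝓝 (c.e.symm w0), z ∈ c.e.source :=
    c.e.open_source.mem_nhds (c.e.map_target hw0)
  have hz2 : ∀ᶠ z in 𝓝 (c.e.symm w0), ‖c.e z - w0‖ < r / 8 := by
    have h1 : Tendsto c.e (𝓝 (c.e.symm w0)) (𝓝 w0) := by
      have := hcont0.tendsto
      rwa [c.e.right_inv hw0] at this
    have := h1.eventually (Metric.ball_mem_nhds w0 (by positivity : (0 : ℝ) < r / 8))
    filter_upwards [this] with z hz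
    rwa [dist_eq_norm] at hz
  unfold Sys.Good
  rw [Filter.eventually_prod_iff]
  refine ⟨_, ((hpa.and hstep).and (hsmall.and (s.h_pos.and s.step))), _, hz1.and hz2, ?_⟩
  rintro τ ⟨⟨h1, h2⟩, h3, h4, h5⟩ z ⟨hzs, hzw⟩
  have key : ∀ n : ℕ, (n : ℝ) * s.h τ ≤ t → (s.g τ)^[n] z ∈ c.e.source ∧
      ‖c.e ((s.g τ)^[n] z) - c.e z - n * s.h τ‖ ≤ n * (ε * s.h τ) ∧
      (s.g τ)^[n] z ∈ K := by
    have aux : ∀ n : ℕ, (n : ℝ) * s.h τ ≤ t → (s.g τ)^[n] z ∈ c.e.source →
        ‖c.e ((s.g τ)^[n] z) - c.e z - n * s.h τ‖ ≤ n * (ε * s.h τ) → (s.g τ)^[n] z ∈ K := by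
      intro n hn ha hb
      refine ⟨c.e ((s.g τ)^[n] z), ?_, c.e.left_inv ha⟩
      refine mem_cthickening_of_dist_le _ (w0 + ((n * s.h τ : ℝ) : ℂ)) ρ S
        ⟨n * s.h τ, ⟨by positivity, hn⟩, rfl⟩ ?_
      rw [dist_eq_norm]
      have e1 : c.e ((s.g τ)^[n] z) - (w0 + ((n * s.h τ : ℝ) : ℂ)) =
          (c.e ((s.g τ)^[n] z) - c.e z - n * s.h τ) + (c.e z - w0) := by
        push_cast; ring
      rw [e1]
      have h6 := norm_add_le (c.e ((s.g τ)^[n] z) - c.e z - n * s.h τ) (c.e z - w0)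
      have h7 : (n : ℝ) * (ε * s.h τ) ≤ r / 8 := by
        rw [← hεt]
        have : (n : ℝ) * (ε * s.h τ) = ε * (n * s.h τ) := by ring
        rw [this]
        exact mul_le_mul_of_nonneg_left hn hεpos.le
      linarith
    intro n
    induction n with
    | zero =>
      intro hn
      have hb : ‖c.e ((s.g τ)^[0] z) - c.e z - ((0 : ℕ) : ℂ) * s.h τ‖ ≤
          ((0 : ℕ) : ℝ) * (ε * s.h τ) := by simp
      exact ⟨hzs, hb, aux 0 hn hzs hb⟩
    | succ n ih =>
      intro hn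
      have hn' : (n : ℝ) * s.h τ ≤ t := by
        push_cast at hn
        nlinarith
      obtain ⟨ha, hb, hc⟩ := ih hn'
      obtain ⟨-, h7, h8⟩ := h2 _ hc
      have ha' : (s.g τ)^[n + 1] z ∈ c.e.source := by
        rw [Function.iterate_succ_apply']; exact h7
      have hb' : ‖c.e ((s.g τ)^[n + 1] z) - c.e z - ((n + 1 : ℕ) : ℂ) * s.h τ‖ ≤
          ((n + 1 : ℕ) : ℝ) * (ε * s.h τ) := by
        rw [Function.iterate_succ_apply']
        have e2 : c.e (s.g τ ((s.g τ)^[n] z)) - c.e z - ((n + 1 : ℕ) : ℂ) * s.h τ =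
            (c.e (s.g τ ((s.g τ)^[n] z)) - c.e ((s.g τ)^[n] z) - s.h τ) +
              (c.e ((s.g τ)^[n] z) - c.e z - n * s.h τ) := by
          push_cast; ring
        rw [e2]
        refine (norm_add_le _ _).trans ?_
        push_cast
        linarith
      exact ⟨ha', hb', aux (n + 1) hn ha' hb'⟩
  -- the last index
  set N := ⌊t / s.h τ⌋₊ with hNdef
  have hN1 : (N : ℝ) * s.h τ ≤ t := by
    have := Nat.floor_le (div_nonneg ht.le h4.le)
    rwa [le_div_iff₀ h4] at this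
  have hN2 : t < (N + 1) * s.h τ := by
    have := Nat.lt_floor_add_one (t / s.h τ)
    rwa [div_lt_iff₀ h4] at this
  have hend : s.att τ ((s.g τ)^[N] z) := by
    obtain ⟨ha, hb, -⟩ := key N hN1
    have h6 : c.e ((s.g τ)^[N] z) ∈ ball (w0 + (t : ℂ)) ρ' := by
      rw [mem_ball, dist_eq_norm]
      have e1 : c.e ((s.g τ)^[N] z) - (w0 + (t : ℂ)) =
          (c.e ((s.g τ)^[N] z) - c.e z - N * s.h τ) + (c.e z - w0) +
            ((N * s.h τ - t : ℝ) : ℂ) := by
        push_cast; ring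
      rw [e1]
      have h7 : (N : ℝ) * (ε * s.h τ) ≤ r / 8 := by
        rw [← hεt]
        have : (N : ℝ) * (ε * s.h τ) = ε * (N * s.h τ) := by ring
        rw [this]
        exact mul_le_mul_of_nonneg_left hN1 hεpos.le
      have h8 : ‖((N * s.h τ - t : ℝ) : ℂ)‖ ≤ r / 8 := by
        rw [Complex.norm_real, Real.norm_eq_abs, abs_le]
        constructor <;> nlinarith
      have h9 := norm_add₃_le (a := c.e ((s.g τ)^[N] z) - c.e z - N * s.h τ)
        (b := c.e z - w0) (c := ((N * s.h τ - t : ℝ) : ℂ))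
      linarith
    have h7 := hab h1 (hball _ h6)
    simp only at h7
    rwa [c.e.left_inv ha] at h7
  have hback : ∀ n : ℕ, (n : ℝ) * s.h τ ≤ t → s.att τ ((s.g τ)^[n] z) → s.att τ z := by
    intro n
    induction n with
    | zero => intro _ h; exact h
    | succ n ih =>
      intro hn hatt
      have hn' : (n : ℝ) * s.h τ ≤ t := by
        push_cast at hn
        nlinarith
      obtain ⟨-, -, hc⟩ := key n hn'
      obtain ⟨h7, -, -⟩ := h2 _ hc
      refine ih hn' (h5 _ h7 ?_)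
      rw [Function.iterate_succ_apply'] at hatt
      exact hatt
  exact hback N hN1 hend

end Pool.Agent.H79.Eul
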