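import Pool.Agent.H79.Eul.PhiLocal
import Pool.Agent.H79.Eul.Cpt

set_option autoImplicit false

open Filter Topology Polynomial Metric Set

namespace Pool.Agent.H79.Eul

open Pool.Agent.H44.Fatou Pool.Agent.H32.BT

/-
PROOF of macro_step. Choose ρ1 ≤ min ρ/2 1 with ‖k z‖ between ‖k a‖/2 and 2 ‖k a‖ on ball a ρ1 and constants
c0, C0 > 0 with, on closedBall a (2 ρ1) or so: c0 ‖z-a‖^m ≤ ‖Q z‖ ≤ C0 ‖z-a‖^m, ‖1/P‖ ≤ C0, and
‖(Q/P)'(z)‖ ≤ C0 ‖z - a‖^(m-1) (Q/P = (z-a)^m r(z) with r = q/P holomorphic). For τ far: ‖p‖, ‖b‖ ≤ C0 on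
the closed ball (unif_compact). Let z ∈ ball a ρ1 with K h ≤ ‖Φ z‖ (in particular z ≠ a). Then
‖z-a‖^(m+1) ≥ K h/(2 ‖k a‖), so h C0 ≤ (c0/2) ‖z-a‖^m for K large (ρ1 ≤ 1), ‖den‖ ≥ (c0/2)‖z-a‖^m > 0 and
‖g - z‖ = h ‖p/den‖ ≤ (2 C0/c0) h/‖z-a‖^m ≤ ‖z-a‖/2 for K large.
Φ(g) - Φ(z) - (Q/P)(z)(g - z): on the segment [z, g] one has ‖z-a‖/2 ≤ ‖w-a‖ ≤ 3‖z-a‖/2, so this is
≤ C ‖z-a‖^(m-1) ‖g-z‖^2 ≤ C' h^2/‖z-a‖^(m+1) ≤ C'' h^2/‖Φ z‖. Finally
(Q/P)(g - z) - h = h [ (p/P) Q/(Q + h b) - 1 ] = h [ (p/P - 1) - (p/P) h b/den ], where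
‖p/P - 1‖ ≤ δ for τ far and ‖h b/den‖ ≤ C h/‖z-a‖^m ≤ C h/‖z-a‖^(m+1) ≤ C' h/‖Φ z‖.
-/

/-- bounds on a compact set -/
theorem ms_upper (F : Polynomial ℂ) (a : ℂ) (r : ℝ) :
    ∃ M : ℝ, 0 < M ∧ ∀ z ∈ closedBall a r, ‖F.eval z‖ ≤ M := by
  have hc : IsCompact (closedBall a r) := isCompact_closedBall a r
  obtain ⟨M, hM⟩ := hc.exists_bound_of_continuousOn (f := fun z => F.eval z)
    (F.continuous.continuousOn)
  exact ⟨max M 1, lt_of_lt_of_le one_pos (le_max_right _ _),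
    fun z hz => (hM z hz).trans (le_max_left _ _)⟩

theorem ms_lower (F : Polynomial ℂ) (a : ℂ) {r : ℝ}
    (h : ∀ z ∈ closedBall a r, F.eval z ≠ 0) :
    ∃ c : ℝ, 0 < c ∧ ∀ z ∈ closedBall a r, c ≤ ‖F.eval z‖ := by
  have hc : IsCompact (closedBall a r) := isCompact_closedBall a r
  rcases (closedBall a r).eq_empty_or_nonempty with he | hne
  · exact ⟨1, one_pos, fun z hz => by rw [he] at hz; exact hz.elim⟩
  obtain ⟨w, hw, hmin⟩ := hc.exists_isMinOn hne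
    (f := fun z => ‖F.eval z‖) (F.continuous.norm.continuousOn)
  refine ⟨‖F.eval w‖, norm_pos_iff.2 (h w hw), fun z hz => ?_⟩
  exact hmin hz

/-- the derivative of `Q / P` -/
theorem ms_deriv {P q : Polynomial ℂ} {a : ℂ} {m : ℕ} (hm : 1 ≤ m) {r : ℝ} (hr : r ≤ 2)
    (hP : ∀ z ∈ closedBall a r, P.eval z ≠ 0) :
    ∃ D : ℝ, 0 < D ∧ ∀ z ∈ closedBall a r, ∃ f' : ℂ,
      HasDerivAt (fun w => ((X - C a) ^ m * q).eval w / P.eval w) f' z ∧
      ‖f'‖ ≤ D * ‖z - a‖ ^ (m - 1) := by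
  obtain ⟨c, hc0, hc⟩ := ms_lower P a hP
  obtain ⟨M1, hM10, hM1⟩ := ms_upper q a r
  obtain ⟨M2, hM20, hM2⟩ := ms_upper (derivative q) a r
  obtain ⟨M3, hM30, hM3⟩ := ms_upper (derivative P) a r
  refine ⟨m * (M1 / c) + 2 * (M2 / c + M1 * M3 / c ^ 2) + 1, by positivity, fun z hz => ?_⟩
  have hPz := hP z hz
  have hcz := hc z hz
  have hPn : 0 < ‖P.eval z‖ := norm_pos_iff.2 hPz
  have d1 : HasDerivAt (fun w => (w - a) ^ m) (m * (z - a) ^ (m - 1)) z := by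
    have h0 := ((hasDerivAt_id z).sub_const a).pow m
    have h2 : HasDerivAt (fun w : ℂ => (w - a) ^ m) (m * (z - a) ^ (m - 1) * 1) z := h0
    rwa [mul_one] at h2
  have d2 : HasDerivAt (fun w => q.eval w) ((derivative q).eval z) z := q.hasDerivAt z
  have d3 : HasDerivAt (fun w => P.eval w) ((derivative P).eval z) z := P.hasDerivAt z
  have d4 := (d1.mul (d2.div d3 hPz))
  refine ⟨_, d4.congr_of_eventuallyEq (Eventually.of_forall fun w => ?_), ?_⟩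
  · simp only [eval_mul, eval_pow, eval_sub, eval_X, eval_C, Pi.mul_apply, Pi.div_apply]
    ring
  · have hs : 0 ≤ ‖z - a‖ := norm_nonneg _
    have hs2 : ‖z - a‖ ≤ 2 := by
      rw [mem_closedBall, dist_eq_norm] at hz; linarith
    have e1 : ‖(m * (z - a) ^ (m - 1) : ℂ) * (q.eval z / P.eval z)‖ ≤
        m * (M1 / c) * ‖z - a‖ ^ (m - 1) := by
      rw [norm_mul, norm_mul, norm_pow, norm_div, Complex.norm_natCast]
      have : ‖q.eval z‖ / ‖P.eval z‖ ≤ M1 / c := div_le_div₀ hM10.le (hM1 z hz) hc0 hcz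
      calc (m : ℝ) * ‖z - a‖ ^ (m - 1) * (‖q.eval z‖ / ‖P.eval z‖)
          ≤ (m : ℝ) * ‖z - a‖ ^ (m - 1) * (M1 / c) := by gcongr
        _ = _ := by ring
    have e2 : ‖((derivative q).eval z * P.eval z - q.eval z * (derivative P).eval z) /
        P.eval z ^ 2‖ ≤ M2 / c + M1 * M3 / c ^ 2 := by
      have : ((derivative q).eval z * P.eval z - q.eval z * (derivative P).eval z) /
          P.eval z ^ 2 = (derivative q).eval z / P.eval z -
            q.eval z * (derivative P).eval z / P.eval z ^ 2 := by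
        field_simp
      rw [this]
      refine (norm_sub_le _ _).trans ?_
      rw [norm_div, norm_div, norm_mul, norm_pow]
      have t1 : ‖(derivative q).eval z‖ / ‖P.eval z‖ ≤ M2 / c :=
        div_le_div₀ hM20.le (hM2 z hz) hc0 hcz
      have t2 : ‖q.eval z‖ * ‖(derivative P).eval z‖ / ‖P.eval z‖ ^ 2 ≤ M1 * M3 / c ^ 2 := by
        apply div_le_div₀ (by positivity) _ (by positivity) (by gcongr)
        exact mul_le_mul (hM1 z hz) (hM3 z hz) (norm_nonneg _) hM10.le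
      linarith
    have e3 : ‖z - a‖ ^ m ≤ 2 * ‖z - a‖ ^ (m - 1) := by
      obtain ⟨n, rfl⟩ : ∃ n, m = n + 1 := ⟨m - 1, by omega⟩
      rw [pow_succ, Nat.add_sub_cancel]
      nlinarith [pow_nonneg hs n]
    have hpow : 0 ≤ ‖z - a‖ ^ (m - 1) := pow_nonneg hs _
    refine (norm_add_le _ _).trans ?_
    rw [norm_mul ((z - a) ^ m), norm_pow]
    have e4 : ‖z - a‖ ^ m * ‖((derivative q).eval z * P.eval z -
        q.eval z * (derivative P).eval z) / P.eval z ^ 2‖ ≤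
        2 * ‖z - a‖ ^ (m - 1) * (M2 / c + M1 * M3 / c ^ 2) :=
      mul_le_mul e3 e2 (norm_nonneg _) (by positivity)
    calc _ ≤ m * (M1 / c) * ‖z - a‖ ^ (m - 1) +
          2 * ‖z - a‖ ^ (m - 1) * (M2 / c + M1 * M3 / c ^ 2) := add_le_add e1 e4
      _ ≤ _ := by nlinarith

/-- second order Taylor estimate -/
theorem ms_taylor {Φ F : ℂ → ℂ} {z g : ℂ} {D : ℝ} (hD : 0 ≤ D)
    (h1 : ∀ w ∈ closedBall z ‖g - z‖, HasDerivAt Φ (F w) w)
    (h2 : ∀ w ∈ closedBall z ‖g - z‖, ∃ f' : ℂ, HasDerivAt F f' w ∧ ‖f'‖ ≤ D) :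
    ‖Φ g - Φ z - F z * (g - z)‖ ≤ D * ‖g - z‖ ^ 2 := by
  have hz : z ∈ closedBall z ‖g - z‖ := mem_closedBall_self (norm_nonneg _)
  have hg : g ∈ closedBall z ‖g - z‖ := by rw [mem_closedBall, dist_eq_norm]
  have hconv : Convex ℝ (closedBall z ‖g - z‖) := convex_closedBall _ _
  have key1 : ∀ w ∈ closedBall z ‖g - z‖, ‖F w - F z‖ ≤ D * ‖g - z‖ := by
    intro w hw
    have := hconv.norm_image_sub_le_of_norm_hasDerivWithin_le (f := F) (f' := deriv F) (C := D)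
      (fun x hx => by
        obtain ⟨f', hf, -⟩ := h2 x hx
        rw [hf.deriv]; exact hf.hasDerivWithinAt)
      (fun x hx => by
        obtain ⟨f', hf, hb⟩ := h2 x hx
        rw [hf.deriv]; exact hb) hz hw
    refine this.trans ?_
    rw [mem_closedBall, dist_eq_norm] at hw
    gcongr
  have key2 := hconv.norm_image_sub_le_of_norm_hasDerivWithin_le
    (f := fun w => Φ w - F z * w) (f' := fun w => F w - F z) (C := D * ‖g - z‖)
    (fun x hx => by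
      have e1 : HasDerivAt (fun w => F z * w) (F z) x := by
        simpa using (hasDerivAt_id x).const_mul (F z)
      exact ((h1 x hx).sub e1).hasDerivWithinAt)
    key1 hz hg
  calc ‖Φ g - Φ z - F z * (g - z)‖ = ‖(Φ g - F z * g) - (Φ z - F z * z)‖ := by
        congr 1; ring
    _ ≤ D * ‖g - z‖ * ‖g - z‖ := key2
    _ = _ := by ring

theorem macro_step {T : Type} {l : Filter T} {P Q B : Polynomial ℂ} (s : Sys T l P Q B)
    {q : Polynomial ℂ} {a : ℂ} {m : ℕ} {ρ : ℝ} {Φ k : ℂ → ℂ} (hp : Pole P Q q a m ρ Φ k) :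
    ∃ ρ1 K C0 : ℝ, 0 < ρ1 ∧ 2 * ρ1 ≤ ρ ∧ 0 < K ∧ 0 < C0 ∧
      (∀ z ∈ ball a ρ1, ‖z - a‖ ^ (m + 1) ≤ C0 * ‖Φ z‖ ∧ ‖Φ z‖ ≤ C0 * ‖z - a‖ ^ (m + 1)) ∧
      ∀ δ : ℝ, 0 < δ → ∀ᶠ τ in l, ∀ z ∈ ball a ρ1, K * s.h τ ≤ ‖Φ z‖ →
        s.den τ z ≠ 0 ∧ ‖s.g τ z - z‖ ≤ ‖z - a‖ / 2 ∧
        ‖Φ (s.g τ z) - Φ z - s.h τ‖ ≤ s.h τ * (δ + C0 * s.h τ / ‖Φ z‖) := by
  have hρ := hp.hρ
  have hm := hp.hm
  have hPa : P.eval a ≠ 0 := hp.hP a (mem_ball_self hρ)
  have hka : k a ≠ 0 := by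
    rw [hp.ka]
    apply div_ne_zero hp.hq (mul_ne_zero _ hPa)
    exact_mod_cast Nat.succ_ne_zero m
  have hκ : 0 < ‖k a‖ := norm_pos_iff.2 hka
  obtain ⟨r1, hr1, hk1⟩ := Metric.continuousAt_iff.1 hp.kcont (‖k a‖ / 2) (by positivity)
  -- choice of the radius
  set ρ1 : ℝ := min (min (ρ / 4) 1) r1 with hρ1def
  have hρ1 : 0 < ρ1 := by
    rw [hρ1def]; exact lt_min (lt_min (by linarith) one_pos) hr1
  have hρ1a : ρ1 ≤ ρ / 4 := (min_le_left _ _).trans (min_le_left _ _)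
  have hρ1b : ρ1 ≤ 1 := (min_le_left _ _).trans (min_le_right _ _)
  have hρ1c : ρ1 ≤ r1 := min_le_right _ _
  have hsub : closedBall a (2 * ρ1) ⊆ ball a ρ := by
    intro z hz
    rw [mem_closedBall] at hz
    rw [mem_ball]
    linarith
  have hkb : ∀ z ∈ ball a ρ1, ‖k a‖ / 2 ≤ ‖k z‖ ∧ ‖k z‖ ≤ 2 * ‖k a‖ := by
    intro z hz
    rw [mem_ball] at hz
    have h1 := hk1 (lt_of_lt_of_le hz hρ1c)
    rw [dist_eq_norm] at h1
    have h2 := norm_sub_norm_le (k z) (k a)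
    have h3 := norm_sub_norm_le (k a) (k z)
    rw [norm_sub_rev] at h3
    constructor <;> linarith
  have hqne : ∀ z ∈ closedBall a (2 * ρ1), q.eval z ≠ 0 := by
    intro z hz h0
    by_cases hza : z = a
    · rw [hza] at h0; exact hp.hq h0
    · apply hp.reg z (hsub hz) hza
      rw [hp.hQ, eval_mul, h0, mul_zero]
  have hPne : ∀ z ∈ closedBall a (2 * ρ1), P.eval z ≠ 0 := fun z hz => hp.hP z (hsub hz)
  obtain ⟨c, hc0, hc⟩ := ms_lower q a hqne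
  obtain ⟨cP, hcP0, hcP⟩ := ms_lower P a hPne
  obtain ⟨MP, hMP0, hMP⟩ := ms_upper P a (2 * ρ1)
  obtain ⟨MB, hMB0, hMB⟩ := ms_upper B a (2 * ρ1)
  obtain ⟨D, hD0, hD⟩ := ms_deriv (q := q) hm (by linarith) hPne
  set Mp : ℝ := MP + 1 with hMp
  set Mb : ℝ := MB + 1 with hMb
  have hMp0 : 0 < Mp := by positivity
  have hMb0 : 0 < Mb := by positivity
  set K : ℝ := 4 * ‖k a‖ * Mb / c + 8 * Mp * ‖k a‖ / c with hK
  have hK0 : 0 < K := by positivity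
  set C1 : ℝ := D * (3 / 2) ^ (m - 1) * (2 * Mp / c) ^ 2 * (2 * ‖k a‖) with hC1
  set C2 : ℝ := Mp / cP * (2 * Mb / c) * (2 * ‖k a‖) with hC2
  have hC10 : 0 < C1 := by positivity
  have hC20 : 0 < C2 := by positivity
  have hΦ : ∀ z ∈ ball a ρ1, ‖z - a‖ ^ (m + 1) ≤ 2 / ‖k a‖ * ‖Φ z‖ ∧
      ‖Φ z‖ ≤ 2 * ‖k a‖ * ‖z - a‖ ^ (m + 1) := by
    intro z hz
    have hzρ : z ∈ ball a ρ := ball_subset_ball (by linarith) hz
    rw [hp.hk z hzρ, norm_mul, norm_pow]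
    obtain ⟨h1, h2⟩ := hkb z hz
    have h3 : 0 ≤ ‖z - a‖ ^ (m + 1) := by positivity
    constructor
    · have : ‖z - a‖ ^ (m + 1) = 2 / ‖k a‖ * (‖z - a‖ ^ (m + 1) * (‖k a‖ / 2)) := by
        field_simp
      calc ‖z - a‖ ^ (m + 1) = 2 / ‖k a‖ * (‖z - a‖ ^ (m + 1) * (‖k a‖ / 2)) := this
        _ ≤ _ := by gcongr
    · calc ‖z - a‖ ^ (m + 1) * ‖k z‖ ≤ ‖z - a‖ ^ (m + 1) * (2 * ‖k a‖) := by gcongr
        _ = _ := by ring
  refine ⟨ρ1, K, C1 + C2 + 2 * ‖k a‖ + 2 / ‖k a‖, hρ1, by linarith, hK0, by positivity,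
    ?_, ?_⟩
  · intro z hz
    obtain ⟨h1, h2⟩ := hΦ z hz
    constructor
    · refine h1.trans (mul_le_mul_of_nonneg_right ?_ (norm_nonneg _))
      have : 0 < 2 * ‖k a‖ := by positivity
      linarith
    · refine h2.trans (mul_le_mul_of_nonneg_right ?_ (by positivity))
      have : 0 < 2 / ‖k a‖ := by positivity
      linarith
  intro δ hδ
  have hKc : IsCompact (closedBall a (2 * ρ1)) := isCompact_closedBall a _
  have ev1 := unif_compact (l := l) hKc (f := s.p) (F := fun z => P.eval z)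
    (fun z _ => P.continuous.continuousAt) (fun z _ => s.p_lim z)
    (ε := min 1 (δ * cP)) (lt_min one_pos (by positivity))
  have ev2 := unif_compact (l := l) hKc (f := s.b) (F := fun z => B.eval z)
    (fun z _ => B.continuous.continuousAt) (fun z _ => s.b_lim z)
    (ε := 1) one_pos
  filter_upwards [ev1, ev2, s.h_pos] with τ e1 e2 hh z hz hKz
  set h : ℝ := s.h τ with hhdef
  have hz2 : z ∈ closedBall a (2 * ρ1) := by
    rw [mem_closedBall]; rw [mem_ball] at hz; linarith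
  obtain ⟨hΦ1, hΦ2⟩ := hΦ z hz
  have hΦpos : 0 < ‖Φ z‖ := lt_of_lt_of_le (by positivity) hKz
  have hza : z ≠ a := by
    rintro rfl
    rw [hp.zero, norm_zero] at hΦpos
    exact lt_irrefl _ hΦpos
  have hs0 : 0 < ‖z - a‖ := norm_pos_iff.2 (sub_ne_zero.2 hza)
  have hsρ : ‖z - a‖ < ρ1 := by rw [mem_ball, dist_eq_norm] at hz; exact hz
  have hs1 : ‖z - a‖ ≤ 1 := by linarith
  set t : ℝ := ‖z - a‖ with ht
  have htm : 0 < t ^ m := by positivity
  have hb : ‖s.b τ z‖ ≤ Mb := by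
    have h1 := e2 z hz2
    have h2 := norm_sub_norm_le (s.b τ z) (B.eval z)
    have h3 := hMB z hz2
    rw [hMb]; linarith
  have hpb : ‖s.p τ z‖ ≤ Mp := by
    have h1 := (e1 z hz2).trans_le (min_le_left _ _)
    have h2 := norm_sub_norm_le (s.p τ z) (P.eval z)
    have h3 := hMP z hz2
    rw [hMp]; linarith
  have hpP : ‖s.p τ z - P.eval z‖ ≤ δ * cP := ((e1 z hz2).trans_le (min_le_right _ _)).le
  have hQz : c * t ^ m ≤ ‖Q.eval z‖ := by
    rw [hp.hQ, eval_mul, eval_pow, eval_sub, eval_X, eval_C, norm_mul, norm_pow]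
    rw [mul_comm]
    gcongr
    exact hc z hz2
  have hKh : K * h ≤ 2 * ‖k a‖ * t ^ (m + 1) := hKz.trans hΦ2
  have hK1 : 4 * ‖k a‖ * Mb / c * h ≤ 2 * ‖k a‖ * t ^ (m + 1) := by
    refine le_trans ?_ hKh
    gcongr
    rw [hK]
    have : 0 < 8 * Mp * ‖k a‖ / c := by positivity
    linarith
  have hK2 : 8 * Mp * ‖k a‖ / c * h ≤ 2 * ‖k a‖ * t ^ (m + 1) := by
    refine le_trans ?_ hKh
    gcongr
    rw [hK]
    have : 0 < 4 * ‖k a‖ * Mb / c := by positivity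
    linarith
  -- h Mb ≤ (c/2) t^m
  have hhb' : h * Mb ≤ c / 2 * t ^ (m + 1) := by
    have h1 : 4 * ‖k a‖ * Mb / c * h = (4 * ‖k a‖ / c) * (h * Mb) := by ring
    have h2 : 2 * ‖k a‖ * t ^ (m + 1) = (4 * ‖k a‖ / c) * (c / 2 * t ^ (m + 1)) := by
      field_simp; ring
    rw [h1, h2] at hK1
    exact le_of_mul_le_mul_left hK1 (by positivity)
  have htt : t ^ (m + 1) ≤ t ^ m := by
    rw [pow_succ]; nlinarith
  have hhb : h * Mb ≤ c / 2 * t ^ m := hhb'.trans (by gcongr)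
  have hden : c / 2 * t ^ m ≤ ‖s.den τ z‖ := by
    have h1 : ‖(h : ℂ) * s.b τ z‖ ≤ c / 2 * t ^ m := by
      rw [norm_mul, Complex.norm_real, Real.norm_of_nonneg hh.le]
      refine le_trans ?_ hhb
      gcongr
    have h2 : ‖Q.eval z‖ - ‖(h : ℂ) * s.b τ z‖ ≤ ‖Q.eval z + (h : ℂ) * s.b τ z‖ := by
      have := norm_sub_norm_le (Q.eval z) (-((h : ℂ) * s.b τ z))
      rw [norm_neg, sub_neg_eq_add] at this
      exact this
    have h3 : s.den τ z = Q.eval z + (h : ℂ) * s.b τ z := rfl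
    rw [h3]
    linarith
  have hdpos : 0 < ‖s.den τ z‖ := lt_of_lt_of_le (by positivity) hden
  have hdne : s.den τ z ≠ 0 := norm_pos_iff.1 hdpos
  have hgz : s.g τ z - z = h * s.p τ z / s.den τ z := by
    rw [Sys.g]; ring
  have hgn : ‖s.g τ z - z‖ ≤ 2 * Mp / c * (h / t ^ m) := by
    rw [hgz, norm_div, norm_mul, Complex.norm_real, Real.norm_of_nonneg hh.le]
    calc h * ‖s.p τ z‖ / ‖s.den τ z‖ ≤ h * Mp / (c / 2 * t ^ m) := by
          apply div_le_div₀ (by positivity) _ (by positivity) hden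
          gcongr
      _ = _ := by field_simp
  have hgn2 : ‖s.g τ z - z‖ ≤ t / 2 := by
    refine hgn.trans ?_
    have h1 : 8 * Mp * ‖k a‖ / c * h = (4 * ‖k a‖ * t ^ m) * (2 * Mp / c * (h / t ^ m)) := by
      field_simp; ring
    have h2 : 2 * ‖k a‖ * t ^ (m + 1) = (4 * ‖k a‖ * t ^ m) * (t / 2) := by
      rw [pow_succ]; ring
    rw [h1, h2] at hK2
    exact le_of_mul_le_mul_left hK2 (by positivity)
  refine ⟨hdne, hgn2, ?_⟩
  -- the balls
  have hball : ∀ w ∈ closedBall z ‖s.g τ z - z‖, w ∈ closedBall a (2 * ρ1) ∧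
      ‖w - a‖ ≤ 3 / 2 * t := by
    intro w hw
    rw [mem_closedBall, dist_eq_norm] at hw
    have h1 : ‖w - a‖ ≤ ‖w - z‖ + ‖z - a‖ := by
      have := norm_add_le (w - z) (z - a)
      rwa [sub_add_sub_cancel] at this
    have h2 : ‖w - a‖ ≤ 3 / 2 * t := by linarith
    refine ⟨?_, h2⟩
    rw [mem_closedBall, dist_eq_norm]
    linarith
  set F : ℂ → ℂ := fun w => ((X - C a) ^ m * q).eval w / P.eval w with hF
  have hFe : ∀ w, F w = Q.eval w / P.eval w := fun w => by rw [hF, hp.hQ]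
  have hE1 : ‖Φ (s.g τ z) - Φ z - F z * (s.g τ z - z)‖ ≤
      D * (3 / 2 * t) ^ (m - 1) * ‖s.g τ z - z‖ ^ 2 := by
    apply ms_taylor (by positivity)
    · intro w hw
      rw [hFe]
      exact hp.deriv w (hsub (hball w hw).1)
    · intro w hw
      obtain ⟨f', hf, hb⟩ := hD w (hball w hw).1
      refine ⟨f', hf, hb.trans ?_⟩
      gcongr
      exact (hball w hw).2
  have hinv : 1 / t ^ (m + 1) ≤ 2 * ‖k a‖ / ‖Φ z‖ := by
    rw [div_le_div_iff₀ (by positivity) hΦpos]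
    linarith
  have hE1' : ‖Φ (s.g τ z) - Φ z - F z * (s.g τ z - z)‖ ≤ C1 * h ^ 2 / ‖Φ z‖ := by
    calc _ ≤ D * (3 / 2 * t) ^ (m - 1) * ‖s.g τ z - z‖ ^ 2 := hE1
      _ ≤ D * (3 / 2 * t) ^ (m - 1) * (2 * Mp / c * (h / t ^ m)) ^ 2 := by gcongr
      _ = (D * (3 / 2) ^ (m - 1) * (2 * Mp / c) ^ 2 * h ^ 2) * (1 / t ^ (m + 1)) := by
          have : t ^ (m - 1) * (1 / t ^ m) ^ 2 = 1 / t ^ (m + 1) := by
            obtain ⟨n, hn⟩ : ∃ n, m = n + 1 := ⟨m - 1, by omega⟩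
            rw [hn, Nat.add_sub_cancel, div_pow, one_pow, ← mul_div_assoc, mul_one,
              div_eq_div_iff (by positivity) (by positivity)]
            ring
          rw [← this, mul_pow]
          ring
      _ ≤ (D * (3 / 2) ^ (m - 1) * (2 * Mp / c) ^ 2 * h ^ 2) * (2 * ‖k a‖ / ‖Φ z‖) := by
          gcongr
      _ = _ := by rw [hC1]; ring
  have hPz : P.eval z ≠ 0 := hPne z hz2
  have hPn : cP ≤ ‖P.eval z‖ := hcP z hz2
  have hE2eq : F z * (s.g τ z - z) - h =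
      h * ((s.p τ z - P.eval z) / P.eval z - s.p τ z / P.eval z * (h * s.b τ z / s.den τ z)) := by
    have h3 : Q.eval z = s.den τ z - (h : ℂ) * s.b τ z := by
      rw [Sys.den]; ring
    rw [hFe, hgz, h3]
    field_simp
    ring
  have hE2 : ‖F z * (s.g τ z - z) - h‖ ≤ h * (δ + C2 * h / ‖Φ z‖) := by
    rw [hE2eq, norm_mul, Complex.norm_real, Real.norm_of_nonneg hh.le]
    apply mul_le_mul_of_nonneg_left _ hh.le
    refine (norm_sub_le _ _).trans (add_le_add ?_ ?_)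
    · rw [norm_div]
      calc _ ≤ δ * cP / cP := div_le_div₀ (by positivity) hpP hcP0 hPn
        _ = δ := by field_simp
    · rw [norm_mul, norm_div, norm_div, norm_mul, Complex.norm_real,
        Real.norm_of_nonneg hh.le]
      have t1 : ‖s.p τ z‖ / ‖P.eval z‖ ≤ Mp / cP := div_le_div₀ hMp0.le hpb hcP0 hPn
      have t2 : h * ‖s.b τ z‖ / ‖s.den τ z‖ ≤ 2 * Mb / c * h * (1 / t ^ m) := by
        calc h * ‖s.b τ z‖ / ‖s.den τ z‖ ≤ h * Mb / (c / 2 * t ^ m) := by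
              apply div_le_div₀ (by positivity) _ (by positivity) hden
              gcongr
          _ = _ := by field_simp
      have t3 : 1 / t ^ m ≤ 1 / t ^ (m + 1) := by
        apply one_div_le_one_div_of_le (by positivity) htt
      calc ‖s.p τ z‖ / ‖P.eval z‖ * (h * ‖s.b τ z‖ / ‖s.den τ z‖)
          ≤ Mp / cP * (2 * Mb / c * h * (1 / t ^ m)) := by gcongr
        _ ≤ Mp / cP * (2 * Mb / c * h * (2 * ‖k a‖ / ‖Φ z‖)) := by
            apply mul_le_mul_of_nonneg_left _ (by positivity)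
            apply mul_le_mul_of_nonneg_left _ (by positivity)
            exact t3.trans hinv
        _ = _ := by rw [hC2]; ring
  have hfin : Φ (s.g τ z) - Φ z - h =
      (Φ (s.g τ z) - Φ z - F z * (s.g τ z - z)) + (F z * (s.g τ z - z) - h) := by ring
  rw [hfin]
  refine (norm_add_le _ _).trans ?_
  calc _ ≤ C1 * h ^ 2 / ‖Φ z‖ + h * (δ + C2 * h / ‖Φ z‖) := add_le_add hE1' hE2
    _ = h * (δ + (C1 + C2) * h / ‖Φ z‖) := by ring
    _ ≤ _ := by
        have g1 : 0 < 2 * ‖k a‖ := by positivity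
        have g2 : 0 < 2 / ‖k a‖ := by positivity
        have g3 : (C1 + C2) * h / ‖Φ z‖ ≤ (C1 + C2 + 2 * ‖k a‖ + 2 / ‖k a‖) * h / ‖Φ z‖ := by
          apply div_le_div_of_nonneg_right _ hΦpos.le
          apply mul_le_mul_of_nonneg_right _ hh.le
          linarith
        exact mul_le_mul_of_nonneg_left (by linarith) hh.le

end Pool.Agent.H79.Eul
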