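import Pool.Agent.H79.Eul.NiceNull

set_option autoImplicit false

open Filter Topology Polynomial Metric Set

namespace Pool.Agent.H79.Eul

open Pool.Agent.H44.Fatou Pool.Agent.H32.BT

/-
PROOF. Write A = pol v.1, B = pol v.2, P = A - X B, e0 = (Pi.single 0 1, 0): v + c • e0 has polynomials A + C c and
B (pol_add, pol_smul, pol_single, mul_one). B.coeff d = v.2 (Fin.last d) ≠ 0 (pol_coeff).
natDegree (P + C c) = d + 1 for all c since the coefficient of X^(d+1) is - B.coeff d ≠ 0.
sq: P + C c and P' have a common zero only for c ∈ {- P w | P' w = 0}, a finite set (P' ≠ 0 as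
natDegree P = d + 1 ≥ 1). cop: c ∉ {- P a | Q0 a = 0}. mul: B a ≠ 0 (v ∉ Bad); y = (A a + c)/B a; Q0 y = 0 only for
finitely many c (y is an injective affine function of c); (P + C c)(y) = 0: as a polynomial in c it is
P.comp (C (B a)⁻¹ * (X + C (A a))) + X, of degree d + 1 ≥ 2 (natDegree_comp), so it is a nonzero polynomial with
finitely many zeros. inf: y = A.coeff d/B.coeff d (d ≥ 1, so adding c does not change the coefficient of X^d):
Q0 y ≠ 0 as v ∉ Bad, and P y + c ≠ 0 for c ≠ - P y. F = union of these finite sets.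
-/

namespace NiceGenAux

/-- coprimality after adding a constant -/
theorem cop_aux (P R : Polynomial ℂ) {c : ℂ}
    (hc : c ∉ (fun w => - P.eval w) '' {w | R.eval w = 0}) : IsCoprime (P + C c) R := by
  rw [isCoprime_iff_aeval_ne_zero_of_isAlgClosed ℂ ℂ]
  intro a
  by_contra h
  push Not at h
  obtain ⟨h1, h2⟩ := h
  rw [coe_aeval_eq_eval] at h1 h2
  apply hc
  refine ⟨a, h2, ?_⟩
  rw [eval_add, eval_C] at h1
  exact (eq_neg_of_add_eq_zero_right h1).symm

theorem roots_fin {R : Polynomial ℂ} (hR : R ≠ 0) : {w | R.eval w = 0}.Finite :=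
  finite_setOfPred_isRoot hR

end NiceGenAux

open NiceGenAux in
theorem nice_alg {d : ℕ} (hd : 2 ≤ d) {Q0 : Polynomial ℂ} (h0 : Q0 ≠ 0)
    (hQ : Q0.natDegree + 1 ≤ d) {v : E d} (hv : v ∉ (Bad Q0 : Set (E d))) :
    ∃ F : Set ℂ, F.Countable ∧ ∀ c : ℂ, c ∉ F →
      Nice d Q0 (pol v.1 + C c) (pol v.2) := by
  set A := pol v.1 with hA
  set B := pol v.2 with hB
  have hAd : A.natDegree ≤ d := pol_deg v.1
  have hBd : B.natDegree ≤ d := pol_deg v.2
  have hbd : B.coeff d = v.2 (Fin.last d) := pol_coeff v.2 (Fin.last d)
  have had : A.coeff d = v.1 (Fin.last d) := pol_coeff v.1 (Fin.last d)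
  have hb0 : B.coeff d ≠ 0 := by
    rw [hbd]
    intro h
    exact hv (Or.inl h)
  have hroot : ∀ a : ℂ, Q0.eval a = 0 → B.eval a ≠ 0 ∧ A.coeff d ≠ a * B.coeff d := by
    intro a ha
    constructor
    · intro h
      exact hv (Or.inr (Set.mem_biUnion ha (Or.inl h)))
    · intro h
      rw [had, hbd] at h
      exact hv (Or.inr (Set.mem_biUnion ha (Or.inr h)))
  have hdeg : ∀ c : ℂ, (A - X * B + C c).natDegree = d + 1 := by
    intro c
    apply le_antisymm
    · refine (natDegree_add_le _ _).trans (max_le ((natDegree_sub_le _ _).trans (max_le ?_ ?_)) ?_)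
      · omega
      · refine natDegree_mul_le.trans ?_
        rw [natDegree_X]
        omega
      · rw [natDegree_C]
        omega
    · apply le_natDegree_of_ne_zero
      rw [coeff_add, coeff_sub, coeff_X_mul, coeff_C_succ,
        coeff_eq_zero_of_natDegree_lt (by omega : A.natDegree < d + 1)]
      simpa using hb0
  have hP : (A - X * B).natDegree = d + 1 := by
    have := hdeg 0
    rwa [C_0, add_zero] at this
  have hP' : derivative (A - X * B) ≠ 0 := by
    intro h
    have := derivative_eq_zero.1 h
    omega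
  have hsum : ∀ c : ℂ, A + C c - X * B = A - X * B + C c := fun c => by ring
  -- the polynomial in `c`
  have hR : ∀ a : ℂ, B.eval a ≠ 0 →
      (A - X * B).comp (C (B.eval a)⁻¹ * (X + C (A.eval a))) + X ≠ 0 := by
    intro a ha h
    have h1 : ((A - X * B).comp (C (B.eval a)⁻¹ * (X + C (A.eval a)))).natDegree = d + 1 := by
      rw [natDegree_comp, hP, natDegree_C_mul (inv_ne_zero ha), natDegree_X_add_C, mul_one]
    have h2 : (A - X * B).comp (C (B.eval a)⁻¹ * (X + C (A.eval a))) = - X :=
      eq_neg_of_add_eq_zero_left h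
    rw [h2, natDegree_neg, natDegree_X] at h1
    omega
  refine ⟨((fun w => - (A - X * B).eval w) '' {w | (derivative (A - X * B)).eval w = 0}) ∪
    ((fun w => - (A - X * B).eval w) '' {w | Q0.eval w = 0}) ∪
    {- (A - X * B).eval (A.coeff d / B.coeff d)} ∪
    ⋃ a ∈ {a : ℂ | Q0.eval a = 0},
      (((fun y => y * B.eval a - A.eval a) '' {w | Q0.eval w = 0}) ∪
        {c | ((A - X * B).comp (C (B.eval a)⁻¹ * (X + C (A.eval a))) + X).eval c = 0}), ?_, ?_⟩
  · refine ((((roots_fin hP').image _).countable.union ((roots_fin h0).image _).countable).union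
      (Set.countable_singleton _)).union ?_
    refine (roots_fin h0).countable.biUnion fun a ha => ?_
    exact ((roots_fin h0).image _).countable.union (roots_fin (hR a (hroot a ha).1)).countable
  · intro c hc
    simp only [Set.mem_union, not_or] at hc
    obtain ⟨⟨⟨hc1, hc2⟩, hc3⟩, hc4⟩ := hc
    have hder : derivative (A + C c - X * B) = derivative (A - X * B) := by
      rw [hsum, derivative_add, derivative_C, add_zero]
    exact
      { hQ := hQ
        hA := (natDegree_add_le _ _).trans (max_le hAd (by rw [natDegree_C]; omega))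
        hB := hBd
        hP := by rw [hsum]; exact hdeg c
        sq := by
          rw [hder, hsum]
          exact cop_aux _ _ hc1
        cop := by
          rw [hsum]
          exact cop_aux _ _ hc2
        mul := by
          intro a ha
          have hBa := (hroot a ha).1
          refine ⟨hBa, ?_, ?_⟩
          · intro h
            apply hc4
            refine Set.mem_biUnion ha (Or.inr ?_)
            show ((A - X * B).comp (C (B.eval a)⁻¹ * (X + C (A.eval a))) + X).eval c = 0
            rw [hsum, eval_add, eval_C, eval_add, eval_C] at h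
            rw [eval_add, eval_comp, eval_X, eval_mul, eval_C, eval_add, eval_X, eval_C]
            rw [← h]
            congr 2
            rw [div_eq_mul_inv]
            ring
          · intro h
            apply hc4
            refine Set.mem_biUnion ha (Or.inl ⟨_, h, ?_⟩)
            rw [eval_add, eval_C]
            show (A.eval a + c) / B.eval a * B.eval a - A.eval a = c
            rw [div_mul_cancel₀ _ hBa]
            ring
        inf := by
          intro _
          have hco : (A + C c).coeff d = A.coeff d := by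
            rw [coeff_add, coeff_C_of_ne_zero (by omega), add_zero]
          rw [hco]
          refine ⟨?_, ?_⟩
          · intro h
            rw [hsum, eval_add, eval_C] at h
            exact hc3 (eq_neg_of_add_eq_zero_right h)
          · intro h
            refine (hroot _ h).2 ?_
            rw [div_mul_cancel₀ _ hb0] }

theorem nice_gen {d : ℕ} (hd : 2 ≤ d) {Q0 : Polynomial ℂ} (h0 : Q0 ≠ 0)
    (hQ : Q0.natDegree + 1 ≤ d) :
    ∃ N0 : Set (E d), MeasureTheory.volume N0 = 0 ∧ ∀ v : E d, v ∉ N0 →
      ∃ F : Set ℂ, F.Countable ∧ ∀ c : ℂ, c ∉ F → ∀ w : E d,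
        w = v + c • ((Pi.single 0 1, 0) : E d) → Nice d Q0 (pol w.1) (pol w.2) := by
  refine ⟨Bad Q0, bad_null h0, fun v hv => ?_⟩
  obtain ⟨F, hF, h⟩ := nice_alg hd h0 hQ hv
  refine ⟨F, hF, fun c hc w hw => ?_⟩
  have h1 : pol w.1 = pol v.1 + C c := by
    rw [hw]
    show pol (v.1 + c • Pi.single 0 1) = _
    rw [pol_add, pol_smul, pol_single, C_1, mul_one]
  have h2 : pol w.2 = pol v.2 := by
    rw [hw]
    show pol (v.2 + c • 0) = _
    rw [smul_zero, add_zero]
  rw [h1, h2]
  exact h c hc

end Pool.Agent.H79.Eul
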