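import Pool.Agent.H79.Eul.Transport
import Pool.Agent.H79.Eul.NiceRot
import Pool.Agent.H79.Eul.NiceGen
import Pool.Agent.H79.Eul.NullB
import Pool.Agent.H79.Eul.Density
import Pool.Agent.H79.Eul.Scaling

set_option autoImplicit false

open Filter Topology Polynomial Metric Set

namespace Pool.Agent.H79.Eul

open Pool.Agent.H44.Fatou Pool.Agent.H32.BT

theorem isOpen_flt {d : ℕ} (p : E d × ℝ → Prop) : IsOpen {v : E d | ∀ᶠ τ in flt v, p τ} := by
  rw [isOpen_iff_mem_nhds]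
  intro v hv
  have hv' : ∀ᶠ τ in 𝓝 v ×ˢ 𝓝[>] (0 : ℝ), p τ := hv
  obtain ⟨pa, hpa, pb, hpb, h⟩ := Filter.eventually_prod_iff.1 hv'
  have h2 := eventually_eventually_nhds.2 hpa
  refine Filter.mem_of_superset h2 ?_
  intro w hw
  exact Filter.eventually_prod_iff.2 ⟨pa, hw, pb, hpb, h⟩

theorem good_of_nice {d : ℕ} (hd : 2 ≤ d) {Q0 : Polynomial ℂ} (hQ : Q0.natDegree + 1 ≤ d)
    {w : E d} (hn : Nice d Q0 (pol w.1) (pol w.2)) :
    ∃ bad : Set ℝ, bad.Countable ∧ ∀ φ : ℝ, φ ∉ bad →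
      ∀ᶠ τ in flt (Complex.exp (φ * Complex.I) • w), HypAt Q0 τ.1 τ.2 := by
  obtain ⟨bad, hbad, hφ⟩ := nice_rot hd hn
  refine ⟨bad, hbad, fun φ hφb => ?_⟩
  obtain ⟨s, hs⟩ := hφ φ hφb
  set u := Complex.exp (φ * Complex.I) with hu
  have h1 : pol (u • w.1) = C u * pol w.1 := pol_smul u w.1
  have h2 : pol (u • w.2) = C u * pol w.2 := pol_smul u w.2
  rw [← h1, ← h2] at hs
  have h3 := transport hd hQ (pol_deg _) (pol_deg _) hs
  rw [cf_pol, cf_pol] at h3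
  exact h3

theorem good_null {d : ℕ} (hd : 2 ≤ d) {Q0 : Polynomial ℂ} (h0 : Q0 ≠ 0)
    (hQ : Q0.natDegree + 1 ≤ d) :
    MeasureTheory.volume {v : E d | ∀ᶠ τ in flt v, HypAt Q0 τ.1 τ.2}ᶜ = 0 := by
  obtain ⟨N0, hN0, hnice⟩ := nice_gen hd h0 hQ
  refine null_of_lines (isOpen_flt _).isClosed_compl (Pi.single 0 1, 0) hN0 ?_
  intro v hv
  obtain ⟨F, hF, hF'⟩ := hnice v hv
  refine ⟨F, hF, fun c hc => ?_⟩
  obtain ⟨bad, hbad, hφ⟩ := good_of_nice hd hQ (hF' c hc _ rfl)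
  exact ⟨bad, hbad, fun φ hφb h => h (hφ φ hφb)⟩

/-- the proportion of non-hyperbolic pairs near `(X Q0, Q0)` tends to `0` -/
theorem density_one {d : ℕ} (hd : 2 ≤ d) {Q0 : Polynomial ℂ} (h0 : Q0 ≠ 0)
    (hQ : Q0.natDegree + 1 ≤ d) :
    Tendsto (fun r : ℝ => MeasureTheory.volume (ball ((cf d (X * Q0), cf d Q0) : E d) r ∩
      {v | ¬ (IsCoprime (pol v.1) (pol v.2) ∧ max (pol v.1).natDegree (pol v.2).natDegree = d ∧
        HypMap (rat (pol v.1) (pol v.2)))}) /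
      MeasureTheory.volume (ball ((cf d (X * Q0), cf d Q0) : E d) r)) (𝓝[>] 0) (𝓝 0) := by
  have h1 := density (bad := fun r => {v : E d | ¬ HypAt Q0 v r}) (good_null hd h0 hQ)
    (fun v hv => by
      filter_upwards [show ∀ᶠ τ in flt v, HypAt Q0 τ.1 τ.2 from hv] with τ hτ
      exact fun h => h hτ)
  have hb : MeasureTheory.volume (ball (0 : E d) 1) ≠ 0 :=
    (measure_ball_pos _ _ one_pos).ne'
  have h2 := ENNReal.Tendsto.div_const h1 (b := MeasureTheory.volume (ball (0 : E d) 1))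
    (Or.inr hb)
  rw [ENNReal.zero_div] at h2
  refine h2.congr' ?_
  filter_upwards [self_mem_nhdsWithin] with r hr
  rw [scaling _ _ hr]
  congr 3
  ext v
  simp only [mem_ofPred_eq]
  have hd1 : (X * Q0).natDegree ≤ d := by
    refine natDegree_mul_le.trans ?_
    rw [natDegree_X]
    omega
  have e1 : pol (((cf d (X * Q0), cf d Q0) : E d) + r • v).1 = nu Q0 v r := by
    show pol (cf d (X * Q0) + r • v.1) = _
    have : (r • v.1 : Fin (d + 1) → ℂ) = (r : ℂ) • v.1 := by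
      funext i
      simp
    rw [this, pol_add, pol_smul, pol_cf hd1]
    rfl
  have e2 : pol (((cf d (X * Q0), cf d Q0) : E d) + r • v).2 = de Q0 v r := by
    show pol (cf d Q0 + r • v.2) = _
    have : (r • v.2 : Fin (d + 1) → ℂ) = (r : ℂ) • v.2 := by
      funext i
      simp
    rw [this, pol_add, pol_smul, pol_cf (by omega)]
    rfl
  rw [e1, e2]
  rfl

end Pool.Agent.H79.Eul
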