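import Pool.Agent.H79.Eul.PhiLocal

set_option autoImplicit false

open Filter Topology Polynomial Metric Set

namespace Pool.Agent.H79.Eul

open Pool.Agent.H44.Fatou Pool.Agent.H32.BT

/-
PROOF of micro_step. Along G: z → a and (z - a)^(m+1)/h = (Φ z/h)/(k z) → x/k a =: y ≠ 0 (eventually
z ≠ a and k z ≠ 0). Write W = (z-a)^m q z + h b, the denominator den; (z - a) W/h =
((z-a)^(m+1)/h) q z + (z - a) b → y q(a) ≠ 0, so eventually W ≠ 0 and
(g - a)/(z - a) = 1 + h p/((z - a) W) = 1 + p/((z-a) W/h) → 1 + P a/(y q a) = 1 + 1/((m+1) x)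
(as k a = q a/((m+1) P a)). So g - a = (z - a) * ratio → 0, k (g) → k a, and
Φ(g)/h = k(g) (g-a)^(m+1)/h = k(g) ratio^(m+1) (z-a)^(m+1)/h → k a (1 + 1/((m+1)x))^(m+1) x/k a. (For
Φ (g) = (g - a)^(m+1) k g use g ∈ ball a ρ, eventually.)
-/

theorem micro_step {T : Type} {l : Filter T} {P Q B : Polynomial ℂ} (s : Sys T l P Q B)
    {q : Polynomial ℂ} {a : ℂ} {m : ℕ} {ρ : ℝ} {Φ k : ℂ → ℂ} (hp : Pole P Q q a m ρ Φ k)
    {G : Filter (T × ℂ)} (hG : G ≤ l ×ˢ 𝓝 a) {x : ℂ} (hx : x ≠ 0)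
    (hlim : Tendsto (fun y : T × ℂ => Φ y.2 / s.h y.1) G (𝓝 x)) :
    Tendsto (fun y : T × ℂ => Φ (s.g y.1 y.2) / s.h y.1) G
        (𝓝 (x * (1 + 1 / ((m + 1) * x)) ^ (m + 1))) ∧
      Tendsto (fun y : T × ℂ => s.g y.1 y.2) G (𝓝 a) ∧
      ∀ᶠ y in G, s.den y.1 y.2 ≠ 0 := by
  have hPa : P.eval a ≠ 0 := hp.hP a (mem_ball_self hp.hρ)
  have hm1 : ((m : ℂ) + 1) ≠ 0 := Nat.cast_add_one_ne_zero m
  have hka0 : k a ≠ 0 := by
    rw [hp.ka]
    exact div_ne_zero hp.hq (mul_ne_zero hm1 hPa)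
  have hz : Tendsto (fun y : T × ℂ => y.2) G (𝓝 a) := tendsto_snd.mono_left hG
  have h1 : Tendsto (fun y : T × ℂ => y.1) G l := tendsto_fst.mono_left hG
  have hpos : ∀ᶠ y in G, 0 < s.h y.1 := h1.eventually s.h_pos
  have hpl : Tendsto (fun y : T × ℂ => s.p y.1 y.2) G (𝓝 (P.eval a)) := (s.p_lim a).mono_left hG
  have hbl : Tendsto (fun y : T × ℂ => s.b y.1 y.2) G (𝓝 (B.eval a)) := (s.b_lim a).mono_left hG
  have hkl : Tendsto (fun y : T × ℂ => k y.2) G (𝓝 (k a)) := hp.kcont.tendsto.comp hz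
  have hql : Tendsto (fun y : T × ℂ => q.eval y.2) G (𝓝 (q.eval a)) :=
    (q.continuous.tendsto a).comp hz
  have hza : Tendsto (fun y : T × ℂ => y.2 - a) G (𝓝 0) := by
    have := hz.sub_const a
    rwa [sub_self] at this
  have hball : ∀ᶠ y in G, (y : T × ℂ).2 ∈ ball a ρ := hz.eventually (ball_mem_nhds a hp.hρ)
  have hk0 : ∀ᶠ y in G, k (y : T × ℂ).2 ≠ 0 := hkl.eventually_ne hka0
  have hΦ0 : ∀ᶠ y in G, Φ (y : T × ℂ).2 / s.h y.1 ≠ 0 := hlim.eventually_ne hx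
  have hne : ∀ᶠ y in G, (y : T × ℂ).2 - a ≠ 0 := by
    filter_upwards [hΦ0] with y hy h
    apply hy
    rw [sub_eq_zero.1 h, hp.zero, zero_div]
  -- u = (z - a)^(m+1) / h
  have hu : Tendsto (fun y : T × ℂ => (y.2 - a) ^ (m + 1) / s.h y.1) G (𝓝 (x / k a)) := by
    have h2 := hlim.div hkl hka0
    refine h2.congr' ?_
    filter_upwards [hball, hk0] with y hy hk
    show Φ y.2 / s.h y.1 / k y.2 = (y.2 - a) ^ (m + 1) / s.h y.1
    rw [hp.hk y.2 hy]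
    field_simp
  -- v = (z - a) den / h
  have hv : Tendsto (fun y : T × ℂ => (y.2 - a) * s.den y.1 y.2 / s.h y.1) G
      (𝓝 (x / k a * q.eval a)) := by
    have h2 := (hu.mul hql).add (hza.mul hbl)
    rw [zero_mul, add_zero] at h2
    refine h2.congr' ?_
    filter_upwards [hpos] with y hy
    have hh0 : (s.h y.1 : ℂ) ≠ 0 := by exact_mod_cast hy.ne'
    have hQ : Q.eval y.2 = (y.2 - a) ^ m * q.eval y.2 := by
      rw [hp.hQ]
      simp
    show (y.2 - a) ^ (m + 1) / s.h y.1 * q.eval y.2 + (y.2 - a) * s.b y.1 y.2 =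
      (y.2 - a) * s.den y.1 y.2 / s.h y.1
    rw [Sys.den, hQ, pow_succ]
    field_simp
  have hv0 : x / k a * q.eval a ≠ 0 := mul_ne_zero (div_ne_zero hx hka0) hp.hq
  have hvne := hv.eventually_ne hv0
  have hden : ∀ᶠ y in G, s.den (y : T × ℂ).1 y.2 ≠ 0 := by
    filter_upwards [hvne] with y hy h
    apply hy
    rw [h, mul_zero, zero_div]
  -- R = (g - a) / (z - a)
  have hR : Tendsto (fun y : T × ℂ => (s.g y.1 y.2 - a) / (y.2 - a)) G
      (𝓝 (1 + 1 / ((m + 1) * x))) := by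
    have h2 := (tendsto_const_nhds (x := (1 : ℂ))).add (hpl.div hv hv0)
    have e : (1 : ℂ) + P.eval a / (x / k a * q.eval a) = 1 + 1 / ((m + 1) * x) := by
      congr 1
      rw [hp.ka]
      have hqa := hp.hq
      field_simp
    rw [e] at h2
    refine h2.congr' ?_
    filter_upwards [hpos, hne, hden] with y hy hy2 hy3
    have hh0 : (s.h y.1 : ℂ) ≠ 0 := by exact_mod_cast hy.ne'
    show 1 + s.p y.1 y.2 / ((y.2 - a) * s.den y.1 y.2 / s.h y.1) =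
      (s.g y.1 y.2 - a) / (y.2 - a)
    rw [Sys.g]
    field_simp
    ring
  have hg0 : Tendsto (fun y : T × ℂ => s.g y.1 y.2 - a) G (𝓝 0) := by
    have h2 := hza.mul hR
    rw [zero_mul] at h2
    refine h2.congr' ?_
    filter_upwards [hne] with y hy
    exact mul_div_cancel₀ _ hy
  have hg : Tendsto (fun y : T × ℂ => s.g y.1 y.2) G (𝓝 a) := by
    have h2 := hg0.add_const a
    rw [zero_add] at h2
    refine h2.congr fun y => ?_
    ring
  refine ⟨?_, hg, hden⟩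
  have hgball : ∀ᶠ y in G, s.g (y : T × ℂ).1 y.2 ∈ ball a ρ := hg.eventually (ball_mem_nhds a hp.hρ)
  have hkg : Tendsto (fun y : T × ℂ => k (s.g y.1 y.2)) G (𝓝 (k a)) := hp.kcont.tendsto.comp hg
  have h2 := (hu.mul (hR.pow (m + 1))).mul hkg
  have e : x / k a * (1 + 1 / ((m + 1) * x)) ^ (m + 1) * k a =
      x * (1 + 1 / ((m + 1) * x)) ^ (m + 1) := by
    rw [mul_right_comm, div_mul_cancel₀ _ hka0]
  rw [e] at h2
  refine h2.congr' ?_
  filter_upwards [hgball, hne] with y hy hy2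
  show (y.2 - a) ^ (m + 1) / s.h y.1 * ((s.g y.1 y.2 - a) / (y.2 - a)) ^ (m + 1) *
    k (s.g y.1 y.2) = Φ (s.g y.1 y.2) / s.h y.1
  rw [hp.hk _ hy, div_pow]
  have h3 : (y.2 - a) ^ (m + 1) ≠ 0 := pow_ne_zero _ hy2
  field_simp

end Pool.Agent.H79.Eul
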