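import Pool.Agent.H79.Eul.Pol

set_option autoImplicit false

open Filter Topology Polynomial Metric Set

namespace Pool.Agent.H79.Eul

open Pool.Agent.H44.Fatou Pool.Agent.H32.BT

/-
PROOF of bad_null: the set is a finite union of kernels of nonzero linear functionals E d → ℂ: v ↦ v.2 (last),
v ↦ ev v.2 a = (pol v.2).eval a and v ↦ v.1 (last) - a v.2 (last), where last = Fin.last d. Each kernel
is a real submodule different from ⊤ (v = (0, Pi.single 0 1) has (pol v.2).eval a = 1, etc.), so has
volume 0 (Measure.addHaar_submodule; the volume on E d, a product of pi types, is an additive Haar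
measure). Zeros of Q0: a ∈ Q0.roots.toFinset = Z Q0; finite union: measure_biUnion_null_iff.
-/

/-- the coefficient vectors excluded from the beginning -/
def Bad {d : ℕ} (Q0 : Polynomial ℂ) : Set (E d) :=
  {v | v.2 (Fin.last d) = 0} ∪
    ⋃ a ∈ {a : ℂ | Q0.eval a = 0}, ({v : E d | (pol v.2).eval a = 0} ∪
      {v : E d | v.1 (Fin.last d) = a * v.2 (Fin.last d)})

private theorem haar_E (d : ℕ) :
    (MeasureTheory.volume : MeasureTheory.Measure (E d)).IsAddHaarMeasure := by
  have h : (MeasureTheory.volume : MeasureTheory.Measure (Fin (d + 1) → ℂ)).IsAddHaarMeasure := by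
    rw [MeasureTheory.volume_pi]
    infer_instance
  exact MeasureTheory.Measure.prod.instIsAddHaarMeasure (MeasureTheory.volume : MeasureTheory.Measure (Fin (d + 1) → ℂ))
    (MeasureTheory.volume : MeasureTheory.Measure (Fin (d + 1) → ℂ))

private theorem null_ker {d : ℕ} (f : E d →ₗ[ℝ] ℂ) (v0 : E d) (hv : f v0 ≠ 0) :
    MeasureTheory.volume {v : E d | f v = 0} = 0 := by
  have := haar_E d
  have h1 : LinearMap.ker f ≠ ⊤ := by
    intro h
    have : v0 ∈ LinearMap.ker f := by rw [h]; trivial
    exact hv (LinearMap.mem_ker.mp this)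
  have h2 := MeasureTheory.Measure.addHaar_submodule (MeasureTheory.volume : MeasureTheory.Measure (E d))
    (LinearMap.ker f) h1
  have h3 : ((LinearMap.ker f : Submodule ℝ (E d)) : Set (E d)) = {v : E d | f v = 0} := by
    ext v
    simp
  rw [h3] at h2
  exact h2

theorem bad_null {d : ℕ} {Q0 : Polynomial ℂ} (h0 : Q0 ≠ 0) :
    MeasureTheory.volume (Bad Q0 : Set (E d)) = 0 := by
  unfold Bad
  rw [MeasureTheory.measure_union_null_iff]
  constructor
  · let f : E d →ₗ[ℝ] ℂ :=
      { toFun := fun v => v.2 (Fin.last d)
        map_add' := fun v w => rfl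
        map_smul' := fun c v => rfl }
    exact null_ker f (0, Pi.single (Fin.last d) 1) (by
      show (Pi.single (Fin.last d) (1 : ℂ) : Fin (d + 1) → ℂ) (Fin.last d) ≠ 0
      simp)
  · have hfin : {a : ℂ | Q0.eval a = 0}.Finite := by
      refine (Q0.roots.toFinset.finite_toSet).subset ?_
      intro a ha
      simp only [Finset.mem_coe, Multiset.mem_toFinset]
      exact (mem_roots h0).mpr ha
    rw [MeasureTheory.measure_biUnion_null_iff hfin.countable]
    intro a _
    rw [MeasureTheory.measure_union_null_iff]
    constructor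
    · let f : E d →ₗ[ℝ] ℂ :=
        { toFun := fun v => (pol v.2).eval a
          map_add' := fun v w => by
            show (pol (v.2 + w.2)).eval a = _
            rw [pol_add, eval_add]
          map_smul' := fun c v => by
            show (pol ((c : ℂ) • v.2)).eval a = _
            rw [pol_smul, eval_mul, eval_C]
            rfl }
      exact null_ker f (0, Pi.single 0 1) (by
        show (pol (Pi.single 0 (1 : ℂ) : Fin (d + 1) → ℂ)).eval a ≠ 0
        rw [pol_single]
        simp)
    · let f : E d →ₗ[ℝ] ℂ :=
        { toFun := fun v => v.1 (Fin.last d) - a * v.2 (Fin.last d)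
          map_add' := fun v w => by
            show (v.1 (Fin.last d) + w.1 (Fin.last d)) -
              a * (v.2 (Fin.last d) + w.2 (Fin.last d)) = _
            ring
          map_smul' := fun c v => by
            show ((c : ℂ) * v.1 (Fin.last d)) - a * ((c : ℂ) * v.2 (Fin.last d)) =
              (c : ℂ) * (v.1 (Fin.last d) - a * v.2 (Fin.last d))
            ring }
      have h := null_ker f (Pi.single (Fin.last d) 1, 0) (by
        show (Pi.single (Fin.last d) (1 : ℂ) : Fin (d + 1) → ℂ) (Fin.last d) - a * 0 ≠ 0
        simp)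
      have e : {v : E d | v.1 (Fin.last d) = a * v.2 (Fin.last d)} = {v : E d | f v = 0} := by
        ext v
        exact sub_eq_zero.symm
      rw [e]
      exact h

end Pool.Agent.H79.Eul
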