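import Pool.Agent.H79.Eul.Defs

set_option autoImplicit false

open Filter Topology Polynomial Metric Set

namespace Pool.Agent.H79.Eul

open Pool.Agent.H44.Fatou Pool.Agent.H32.BT

/-
PROOF of fubini_line. Let ν = volume on ℂ × ℝ, T (c, φ) v = exp (φ I) • (v + c • e), continuous in
(c, φ, v). The set S = {(y, v) | T y v ∈ F} ⊆ (ℂ × ℝ) × E d is closed, hence measurable. For v ∉ N0 the
section {y | T y v ∈ F} has ν measure 0: it is closed, and by h for all c outside a countable (so null)
set the section {φ | T (c, φ) v ∈ F} is contained in a countable set, so is null: measure_prod_null.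
So for almost every v the v-section of S is null, so S (swapped) is null, so for ν-almost every y the set
{v | T y v ∈ F} has measure 0: Measure.measure_prod_null twice with Measure.prod_swap
(or Measure.measure_prod_null and Measure.measure_ae_null_of_prod_null). As ν ≠ 0 such a y exists.
-/

open MeasureTheory in
theorem fubini_line {d : ℕ} {F : Set (E d)} (hF : IsClosed F) (e : E d) {N0 : Set (E d)}
    (hN : volume N0 = 0) (h : ∀ v : E d, v ∉ N0 → ∃ Fc : Set ℂ, Fc.Countable ∧ ∀ c : ℂ, c ∉ Fc →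
      ∃ Fφ : Set ℝ, Fφ.Countable ∧ ∀ φ : ℝ, φ ∉ Fφ →
        Complex.exp (φ * Complex.I) • (v + c • e) ∉ F) :
    ∃ (c : ℂ) (φ : ℝ), volume {v : E d | Complex.exp (φ * Complex.I) • (v + c • e) ∈ F} = 0 := by
  -- the closed set
  have hcont : Continuous (fun x : E d × (ℂ × ℝ) =>
      Complex.exp ((x.2.2 : ℝ) * Complex.I) • (x.1 + x.2.1 • e)) := by
    fun_prop
  set S : Set (E d × (ℂ × ℝ)) := {x | Complex.exp ((x.2.2 : ℝ) * Complex.I) •
    (x.1 + x.2.1 • e) ∈ F} with hS
  have hSc : IsClosed S := hF.preimage hcont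
  have hSm : MeasurableSet S := hSc.measurableSet
  have h1 : ∀ᵐ v : E d, v ∉ N0 := by
    rw [ae_iff]
    simpa using hN
  have h2 : (volume : Measure (E d × (ℂ × ℝ))) S = 0 := by
    change ((volume : Measure (E d)).prod (volume : Measure (ℂ × ℝ))) S = 0
    rw [Measure.measure_prod_null hSm]
    filter_upwards [h1] with v hv
    obtain ⟨Fc, hFc, h3⟩ := h v hv
    change (volume : Measure (ℂ × ℝ)) (Prod.mk v ⁻¹' S) = 0
    have hm : MeasurableSet (Prod.mk v ⁻¹' S) := measurable_prodMk_left hSm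
    change ((volume : Measure ℂ).prod (volume : Measure ℝ)) (Prod.mk v ⁻¹' S) = 0
    rw [Measure.measure_prod_null hm]
    have h4 : ∀ᵐ c : ℂ, c ∉ Fc := by
      rw [ae_iff]
      simpa using hFc.measure_zero volume
    filter_upwards [h4] with c hc
    obtain ⟨Fφ, hFφ, h5⟩ := h3 c hc
    change (volume : Measure ℝ) (Prod.mk c ⁻¹' (Prod.mk v ⁻¹' S)) = 0
    refine measure_mono_null ?_ (hFφ.measure_zero volume)
    intro φ hφ
    by_contra hn
    exact h5 φ hn hφ
  have h3 : (volume : Measure ((ℂ × ℝ) × E d)) (Prod.swap ⁻¹' S) = 0 := by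
    change ((volume : Measure (ℂ × ℝ)).prod (volume : Measure (E d))) (Prod.swap ⁻¹' S) = 0
    rw [← Measure.map_apply measurable_swap hSm, Measure.prod_swap]
    exact h2
  have h4 : ∀ᵐ y : ℂ × ℝ, (volume : Measure (E d)) (Prod.mk y ⁻¹' (Prod.swap ⁻¹' S)) = 0 :=
    Measure.measure_ae_null_of_prod_null (μ := (volume : Measure (ℂ × ℝ)))
      (ν := (volume : Measure (E d))) h3
  obtain ⟨y, hy⟩ := h4.exists
  exact ⟨y.1, y.2, hy⟩

end Pool.Agent.H79.Eul
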