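import Pool.Agent.H79.Eul.Defs

set_option autoImplicit false

open Filter Topology Polynomial Metric Set

namespace Pool.Agent.H79.Eul

open Pool.Agent.H44.Fatou Pool.Agent.H32.BT

/-
PROOFS. orb_unique: x and y are continuous on Icc a b, so both stay in some closedBall 0 M. Xf P Q is
C^1 as a real map (polynomials, conjugation is real linear), hence Lipschitz on the compact convex
set closedBall 0 M (bounded derivative, Convex.lipschitzOnWith_of_nnnorm_fderiv_le or the
estimate |Xf z - Xf w| ≤ |P z - P w| |Q z| + |P w| |Q z - Q w| and Lipschitz bounds of polynomials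
on balls). Apply ODE_solution_unique_of_mem_Icc_right on Icc s0 b and
ODE_solution_unique_of_mem_Icc_left on Icc a s0 (or ODE_solution_unique_of_mem_Ioo and
continuity).
orb_reg: if P (x s) = 0 or Q (x s) = 0 then Xf P Q (x s) = 0 and the constant function x s is
another solution on Icc 0 s, so x 0 = x s by orb_unique, contradicting h0.
orb_shift: HasDerivAt.comp_const_add or comp_add_const.
orb_cont: HasDerivAt.continuousAt.
-/

theorem contDiff_Xf (P Q : Polynomial ℂ) : ContDiff ℝ 1 (Xf P Q) := by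
  have h1 : ∀ R : Polynomial ℂ, ContDiff ℝ 1 (fun z : ℂ => R.eval z) := by
    intro R
    have h2 : ContDiff ℂ 1 (fun z : ℂ => R.eval z) := by
      have h3 := R.contDiff_aeval (𝕜 := ℂ) 1
      simpa [Polynomial.aeval_def] using h3
    exact h2.restrict_scalars ℝ
  unfold Xf
  exact (h1 P).mul (Complex.conjCLE.contDiff.comp (h1 Q))

theorem lip_Xf (P Q : Polynomial ℂ) (M : ℝ) :
    ∃ K, LipschitzOnWith K (Xf P Q) (closedBall (0 : ℂ) M) :=
  LocallyLipschitzOn.exists_lipschitzOnWith_of_compact (isCompact_closedBall _ _)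
    (contDiff_Xf P Q).locallyLipschitz.locallyLipschitzOn

theorem orb_unique {P Q : Polynomial ℂ} {x y : ℝ → ℂ} {a b : ℝ}
    (hx : ∀ s ∈ Icc a b, HasDerivAt x (Xf P Q (x s)) s)
    (hy : ∀ s ∈ Icc a b, HasDerivAt y (Xf P Q (y s)) s) {s0 : ℝ} (hs0 : s0 ∈ Icc a b)
    (h : x s0 = y s0) : ∀ s ∈ Icc a b, x s = y s := by
  have cx : ContinuousOn x (Icc a b) := fun s hs => (hx s hs).continuousAt.continuousWithinAt
  have cy : ContinuousOn y (Icc a b) := fun s hs => (hy s hs).continuousAt.continuousWithinAt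
  obtain ⟨M1, hM1⟩ := isCompact_Icc.exists_bound_of_continuousOn cx
  obtain ⟨M2, hM2⟩ := isCompact_Icc.exists_bound_of_continuousOn cy
  obtain ⟨K, hK⟩ := lip_Xf P Q (max M1 M2)
  have bx : ∀ s ∈ Icc a b, x s ∈ closedBall (0 : ℂ) (max M1 M2) := by
    intro s hs
    rw [mem_closedBall_zero_iff]
    exact (hM1 s hs).trans (le_max_left _ _)
  have bY : ∀ s ∈ Icc a b, y s ∈ closedBall (0 : ℂ) (max M1 M2) := by
    intro s hs
    rw [mem_closedBall_zero_iff]
    exact (hM2 s hs).trans (le_max_right _ _)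
  intro s hs
  rcases le_total s0 s with hle | hle
  · have hsub : Icc s0 s ⊆ Icc a b := Icc_subset_Icc hs0.1 hs.2
    have hsub2 : Ico s0 s ⊆ Icc a b := Ico_subset_Icc_self.trans hsub
    refine ODE_solution_unique_of_mem_Icc_right (v := fun _ => Xf P Q)
      (s := fun _ => closedBall (0 : ℂ) (max M1 M2)) (K := K) (fun _ _ => hK) (cx.mono hsub)
      (fun t ht => (hx t (hsub2 ht)).hasDerivWithinAt) (fun t ht => bx t (hsub2 ht))
      (cy.mono hsub) (fun t ht => (hy t (hsub2 ht)).hasDerivWithinAt)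
      (fun t ht => bY t (hsub2 ht)) h ⟨hle, le_rfl⟩
  · have hsub : Icc s s0 ⊆ Icc a b := Icc_subset_Icc hs.1 hs0.2
    have hsub2 : Ioc s s0 ⊆ Icc a b := Ioc_subset_Icc_self.trans hsub
    refine ODE_solution_unique_of_mem_Icc_left (v := fun _ => Xf P Q)
      (s := fun _ => closedBall (0 : ℂ) (max M1 M2)) (K := K) (fun _ _ => hK) (cx.mono hsub)
      (fun t ht => (hx t (hsub2 ht)).hasDerivWithinAt) (fun t ht => bx t (hsub2 ht))
      (cy.mono hsub) (fun t ht => (hy t (hsub2 ht)).hasDerivWithinAt)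
      (fun t ht => bY t (hsub2 ht)) h ⟨le_rfl, hle⟩

theorem orb_reg {P Q : Polynomial ℂ} {x : ℝ → ℂ} (hx : IsOrb P Q x) (h0 : Reg P Q (x 0)) :
    ∀ s : ℝ, 0 ≤ s → Reg P Q (x s) := by
  intro s hs
  by_contra hc
  have hX : Xf P Q (x s) = 0 := by
    unfold Reg at hc
    unfold Xf
    by_cases h1 : P.eval (x s) = 0
    · rw [h1, zero_mul]
    · have h2 : Q.eval (x s) = 0 := by
        by_contra h3
        exact hc ⟨h1, h3⟩
      rw [h2, map_zero, mul_zero]
  have h1 := orb_unique (P := P) (Q := Q) (x := x) (y := fun _ => x s) (a := 0) (b := s)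
    (fun t ht => hx t ht.1) (fun t _ => by
      show HasDerivAt (fun _ : ℝ => x s) (Xf P Q (x s)) t
      rw [hX]
      exact hasDerivAt_const t (x s)) (s0 := s) ⟨hs, le_rfl⟩ rfl 0 ⟨le_rfl, hs⟩
  rw [h1] at h0
  exact hc h0

theorem orb_shift {P Q : Polynomial ℂ} {x : ℝ → ℂ} (hx : IsOrb P Q x) {s1 : ℝ} (h1 : 0 ≤ s1) :
    IsOrb P Q (fun s => x (s1 + s)) := by
  intro s hs
  exact (hx (s1 + s) (add_nonneg h1 hs)).comp_const_add s1 s

theorem orb_cont {P Q : Polynomial ℂ} {x : ℝ → ℂ} (hx : IsOrb P Q x) :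
    ContinuousOn x (Ici 0) :=
  fun s hs => (hx s hs).continuousAt.continuousWithinAt

/-- backward uniqueness: equal values at `s` and `s'` propagate to earlier times -/
theorem orb_back {P Q : Polynomial ℂ} {x : ℝ → ℂ} (hx : IsOrb P Q x) {s s' r : ℝ}
    (hs : 0 ≤ s) (hs' : 0 ≤ s') (h : x s = x s') (hr : 0 ≤ r) (hrs : r ≤ s) (hrs' : r ≤ s') :
    x (s - r) = x (s' - r) := by
  have e1 : ∀ s1 : ℝ, r ≤ s1 → ∀ t ∈ Icc (-r) 0,
      HasDerivAt (fun t => x (s1 + t)) (Xf P Q (x (s1 + t))) t := by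
    intro s1 h1 t ht
    exact (hx (s1 + t) (by linarith [ht.1])).comp_const_add s1 t
  have h2 := orb_unique (P := P) (Q := Q) (x := fun t => x (s + t)) (y := fun t => x (s' + t))
    (a := -r) (b := 0) (e1 s hrs) (e1 s' hrs') (s0 := 0) ⟨by linarith, le_rfl⟩
    (by simpa using h) (-r) ⟨le_rfl, by linarith⟩
  simpa [sub_eq_add_neg] using h2

end Pool.Agent.H79.Eul
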