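import Pool.Agent.H79.Eul.Jump

set_option autoImplicit false

open Filter Topology Polynomial Metric Set

namespace Pool.Agent.H79.Eul

open Pool.Agent.H44.Fatou Pool.Agent.H32.BT

/-
PROOF of planar. Let η0 be from tube, η1 from jump. The sets
TL = {γ s + η I γ' s | s : ℝ, 0 < η ≤ η0} and TR (with - η) are images of the convex set
ℝ × (0, η0] under a continuous map, hence preconnected, and do not meet the curve (tube). By
wind_const wind c is constant on TL, say nL, and on TR, say nR, and nL - nR = 1 by jump.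
CLAIM: every z off the curve has wind c z = nL or nR. Let t* minimise ‖γ t - z‖ (compactness of
Icc 0 L and periodicity). Then the derivative of ‖γ t - z‖^2 vanishes at t*, so
Re (conj (γ t* - z) γ' t*) = 0, so z = γ t* + ρ I γ' t* with ρ real, and ρ ≠ 0. Put
ρ' = sign ρ * min |ρ| η0. The segment between z and z' = γ t* + ρ' I γ' t* does not meet the curve: a
point of it on the curve would have distance to z smaller than ‖γ t* - z‖ (all its points are
z + θ (γ t* - z), 0 ≤ θ < 1). So wind c z = wind c z' (wind_const on the segment) which is nL or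
nR. Finally wind_far gives a point with winding number 0, so 0 ∈ {nL, nR}: if nR = 0 then nL = 1,
σ = 1; if nL = 0 then nR = -1, σ = -1.
-/

/-- all winding numbers of a simple closed curve are in {0, 1} or all are in {0, -1} -/
theorem planar (c : Loop) : ∃ σ : ℤ, (σ = 1 ∨ σ = -1) ∧ ∀ z : ℂ, (∀ t, c.γ t ≠ z) →
    wind c z = 0 ∨ wind c z = σ := by
  have hγc : Continuous c.γ := continuous_iff_continuousAt.2 fun t => (c.deriv t).continuousAt
  obtain ⟨η0, hη0, htube⟩ := tube c
  obtain ⟨η1, hη1, hjump⟩ := jump c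
  -- the two sides
  set TL : Set ℂ := (fun q : ℝ × ℝ => c.γ q.1 + q.2 * Complex.I * c.γ' q.1) ''
    (Set.univ ×ˢ Set.Ioc (0 : ℝ) η0) with hTL
  set TR : Set ℂ := (fun q : ℝ × ℝ => c.γ q.1 - q.2 * Complex.I * c.γ' q.1) ''
    (Set.univ ×ˢ Set.Ioc (0 : ℝ) η0) with hTR
  have hconv : IsPreconnected ((Set.univ : Set ℝ) ×ˢ Set.Ioc (0 : ℝ) η0) :=
    isPreconnected_univ.prod isPreconnected_Ioc
  have hcontL : Continuous (fun q : ℝ × ℝ => c.γ q.1 + q.2 * Complex.I * c.γ' q.1) := by
    have h1 : Continuous (fun q : ℝ × ℝ => c.γ' q.1) := c.cont.comp continuous_fst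
    have h2 : Continuous (fun q : ℝ × ℝ => c.γ q.1) := hγc.comp continuous_fst
    have h3 : Continuous (fun q : ℝ × ℝ => (q.2 : ℂ)) :=
      Complex.continuous_ofReal.comp continuous_snd
    exact h2.add ((h3.mul continuous_const).mul h1)
  have hcontR : Continuous (fun q : ℝ × ℝ => c.γ q.1 - q.2 * Complex.I * c.γ' q.1) := by
    have h1 : Continuous (fun q : ℝ × ℝ => c.γ' q.1) := c.cont.comp continuous_fst
    have h2 : Continuous (fun q : ℝ × ℝ => c.γ q.1) := hγc.comp continuous_fst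
    have h3 : Continuous (fun q : ℝ × ℝ => (q.2 : ℂ)) :=
      Complex.continuous_ofReal.comp continuous_snd
    exact h2.sub ((h3.mul continuous_const).mul h1)
  have hTLc : IsPreconnected TL := hconv.image _ hcontL.continuousOn
  have hTRc : IsPreconnected TR := hconv.image _ hcontR.continuousOn
  have hTLo : ∀ z ∈ TL, ∀ t, c.γ t ≠ z := by
    rintro z ⟨⟨s, η⟩, ⟨-, hη⟩, rfl⟩ t
    have hη' : 0 < η ∧ η ≤ η0 := hη
    exact htube η (abs_pos.2 hη'.1.ne') (by rw [abs_of_pos hη'.1]; exact hη'.2) s t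
  have hTRo : ∀ z ∈ TR, ∀ t, c.γ t ≠ z := by
    rintro z ⟨⟨s, η⟩, ⟨-, hη⟩, rfl⟩ t
    have hη' : 0 < η ∧ η ≤ η0 := hη
    have h1 := htube (-η) (by rw [abs_neg]; exact abs_pos.2 hη'.1.ne')
      (by rw [abs_neg, abs_of_pos hη'.1]; exact hη'.2) s t
    intro h2
    apply h1
    rw [h2]
    push_cast
    ring
  -- base points
  set η2 : ℝ := min η0 η1 with hη2
  have hη2p : 0 < η2 := lt_min hη0 hη1
  have hzL : c.γ 0 + η2 * Complex.I * c.γ' 0 ∈ TL :=
    ⟨(0, η2), ⟨Set.mem_univ _, hη2p, min_le_left _ _⟩, rfl⟩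
  have hzR : c.γ 0 - η2 * Complex.I * c.γ' 0 ∈ TR :=
    ⟨(0, η2), ⟨Set.mem_univ _, hη2p, min_le_left _ _⟩, rfl⟩
  have hj := hjump η2 hη2p (min_le_right _ _)
  obtain ⟨nL, hnL⟩ := wind_int c _ (hTLo _ hzL)
  obtain ⟨nR, hnR⟩ := wind_int c _ (hTRo _ hzR)
  have hLR : nL - nR = 1 := by
    rw [hnL, hnR] at hj
    exact_mod_cast hj
  -- the claim
  have hclaim : ∀ z : ℂ, (∀ t, c.γ t ≠ z) → wind c z = nL ∨ wind c z = nR := by
    intro z hz
    have hfc : Continuous fun t => ‖c.γ t - z‖ := (hγc.sub continuous_const).norm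
    obtain ⟨t0, -, ht0⟩ := (isCompact_Icc (a := (0 : ℝ)) (b := c.L)).exists_isMinOn
      ⟨0, le_rfl, c.hL.le⟩ hfc.continuousOn
    have hper : Function.Periodic (fun t => ‖c.γ t - z‖) c.L := by
      intro t
      show ‖c.γ (t + c.L) - z‖ = ‖c.γ t - z‖
      rw [c.per t]
    have hmin : ∀ t, ‖c.γ t0 - z‖ ≤ ‖c.γ t - z‖ := by
      intro t
      obtain ⟨y, hy, hty⟩ := hper.exists_mem_Ico₀ c.hL t
      have h1 : ‖c.γ t - z‖ = ‖c.γ y - z‖ := hty
      rw [h1]
      exact ht0 ⟨hy.1, hy.2.le⟩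
    have hpos : 0 < ‖c.γ t0 - z‖ := norm_pos_iff.2 (sub_ne_zero.2 (hz t0))
    have hd : HasDerivAt (fun t => ‖c.γ t - z‖ ^ 2)
        (2 * inner ℝ (c.γ t0 - z) (c.γ' t0)) t0 :=
      ((c.deriv t0).sub_const z).norm_sq
    have hloc : IsLocalMin (fun t => ‖c.γ t - z‖ ^ 2) t0 := by
      refine Filter.Eventually.of_forall fun t => ?_
      exact pow_le_pow_left₀ (norm_nonneg _) (hmin t) 2
    have hin : inner ℝ (c.γ t0 - z) (c.γ' t0) = 0 := by
      have h1 := hloc.hasDerivAt_eq_zero hd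
      linarith
    have hb : c.γ' t0 ≠ 0 := c.ne t0
    -- `(γ t0 - z) / γ' t0` is purely imaginary
    obtain ⟨ρ, hρ⟩ : ∃ ρ : ℝ, c.γ t0 - z = -(ρ * Complex.I * c.γ' t0) := by
      have h1 : ((c.γ t0 - z) / c.γ' t0).re = 0 := by
        have h2 : (c.γ t0 - z) / c.γ' t0 =
            ((c.γ t0 - z) * (starRingEnd ℂ) (c.γ' t0)) * ((Complex.normSq (c.γ' t0))⁻¹ : ℝ) := by
          rw [div_eq_mul_inv, Complex.inv_def]
          push_cast
          ring
        rw [h2, Complex.re_mul_ofReal]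
        rw [Complex.inner] at hin
        have h3 : ((c.γ t0 - z) * (starRingEnd ℂ) (c.γ' t0)).re = 0 := by
          rw [← hin]
          simp only [Complex.mul_re, Complex.conj_re, Complex.conj_im]
          ring
        rw [h3, zero_mul]
      refine ⟨-((c.γ t0 - z) / c.γ' t0).im, ?_⟩
      have h2 : (c.γ t0 - z) / c.γ' t0 = ((c.γ t0 - z) / c.γ' t0).im * Complex.I := by
        conv_lhs => rw [← Complex.re_add_im ((c.γ t0 - z) / c.γ' t0)]
        rw [h1, Complex.ofReal_zero, zero_add]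
      have h3 : c.γ t0 - z = (c.γ t0 - z) / c.γ' t0 * c.γ' t0 := by
        field_simp
      conv_lhs => rw [h3, h2]
      push_cast
      ring
    have hρ0 : ρ ≠ 0 := by
      rintro rfl
      rw [Complex.ofReal_zero, zero_mul, zero_mul, neg_zero] at hρ
      exact hz t0 (sub_eq_zero.1 hρ)
    have hρa : 0 < |ρ| := abs_pos.2 hρ0
    set θ : ℝ := min 1 (η0 / |ρ|) with hθ
    have hθ0 : 0 < θ := lt_min one_pos (div_pos hη0 hρa)
    have hθ1 : θ ≤ 1 := min_le_left _ _
    have hθη : θ * |ρ| ≤ η0 := by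
      have h1 : θ ≤ η0 / |ρ| := min_le_right _ _
      rwa [le_div_iff₀ hρa] at h1
    set z' : ℂ := c.γ t0 + (θ * ρ : ℝ) * Complex.I * c.γ' t0 with hz'
    have hzz' : z' - z = (1 - θ : ℝ) * (c.γ t0 - z) := by
      have h1 : z' - z = (c.γ t0 - z) + (θ * ρ : ℝ) * Complex.I * c.γ' t0 := by
        rw [hz']
        ring
      rw [h1, hρ]
      push_cast
      ring
    have hseg : ∀ w ∈ segment ℝ z z', ∀ t, c.γ t ≠ w := by
      intro w hw t h1
      obtain ⟨u, hu, hw⟩ := (segment_eq_image' ℝ z z') ▸ hw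
      have h2 : w - z = ((u * (1 - θ) : ℝ) : ℂ) * (c.γ t0 - z) := by
        rw [← hw]
        show z + u • (z' - z) - z = _
        rw [hzz', Complex.real_smul]
        push_cast
        ring
      have h3 := hmin t
      rw [h1, h2, norm_mul, Complex.norm_real, Real.norm_eq_abs] at h3
      have h4 : |u * (1 - θ)| < 1 := by
        have h5 : 0 ≤ u * (1 - θ) := mul_nonneg hu.1 (by linarith)
        rw [abs_of_nonneg h5]
        have h6 : u * (1 - θ) ≤ 1 * (1 - θ) := mul_le_mul_of_nonneg_right hu.2 (by linarith)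
        linarith
      have h5 : |u * (1 - θ)| * ‖c.γ t0 - z‖ < 1 * ‖c.γ t0 - z‖ :=
        mul_lt_mul_of_pos_right h4 hpos
      linarith
    have hwz : wind c z = wind c z' :=
      wind_const c (convex_segment z z').isPreconnected hseg (left_mem_segment ℝ z z')
        (right_mem_segment ℝ z z')
    rw [hwz]
    rcases lt_or_gt_of_ne hρ0 with hneg | hpos'
    · right
      have hmem : z' ∈ TR := by
        refine ⟨(t0, -(θ * ρ)), ⟨Set.mem_univ _, ?_, ?_⟩, ?_⟩
        · show 0 < -(θ * ρ)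
          have := mul_pos hθ0 (neg_pos.2 hneg)
          linarith
        · show -(θ * ρ) ≤ η0
          rw [abs_of_neg hneg] at hθη
          linarith
        · show c.γ t0 - ((-(θ * ρ) : ℝ) : ℂ) * Complex.I * c.γ' t0 = z'
          rw [hz']
          push_cast
          ring
      rw [wind_const c hTRc hTRo hmem hzR, hnR]
    · left
      have hmem : z' ∈ TL := by
        refine ⟨(t0, θ * ρ), ⟨Set.mem_univ _, ?_, ?_⟩, ?_⟩
        · show 0 < θ * ρ
          exact mul_pos hθ0 hpos'
        · show θ * ρ ≤ η0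
          rwa [abs_of_pos hpos'] at hθη
        · rfl
      rw [wind_const c hTLc hTLo hmem hzL, hnL]
  obtain ⟨z0, hz0, hw0⟩ := wind_far c
  have h0 : nL = 0 ∨ nR = 0 := by
    rcases hclaim z0 hz0 with h | h
    · left
      rw [hw0] at h
      exact_mod_cast h.symm
    · right
      rw [hw0] at h
      exact_mod_cast h.symm
  rcases h0 with h0 | h0
  · have h1 : nR = -1 := by omega
    refine ⟨-1, Or.inr rfl, fun z hz => ?_⟩
    rcases hclaim z hz with h | h
    · left
      rw [h, h0, Int.cast_zero]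
    · right
      rw [h, h1]
  · have h1 : nL = 1 := by omega
    refine ⟨1, Or.inl rfl, fun z hz => ?_⟩
    rcases hclaim z hz with h | h
    · right
      rw [h, h1]
    · left
      rw [h, h0, Int.cast_zero]

end Pool.Agent.H79.Eul
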