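import Pool.Agent.H79.Eul.CopDeg

set_option autoImplicit false

open Filter Topology Polynomial Metric Set

namespace Pool.Agent.H79.Eul

open Pool.Agent.H44.Fatou Pool.Agent.H32.BT

/-
PROOF of exists_sys. Fields: h τ = τ.2, p τ z = ev τ.1.1 z - z * ev τ.1.2 z, b τ z = ev τ.1.2 z,
dp τ z = dev τ.1.1 z - ev τ.1.2 z - z * dev τ.1.2 z, db τ z = dev τ.1.2 z,
att τ z = Att (rat (nu Q τ.1 τ.2) (de Q τ.1 τ.2)) (z : OnePoint ℂ).
h_pos, h_lim: flt is a product with 𝓝[>] 0. The limits: continuity of ev, dev (ev1_cont, ev2_cont,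
dev1_cont, dev2_cont in H44/Fatou/Mob) and ev_cf, dev_cf; derivatives: tr_hasDerivAt_ev in
H32/BT/Trap (or pol_eval and Polynomial.hasDerivAt).
Identity: z + h p/(Q + h b) = (z Q + h ev1)/(Q + h ev2) = nu/de (evaluations) if the denominator is not 0,
so by rat_coe_of_ne rat maps z to this point.
step: for τ with IsCoprime nu de (cop_deg, eventually) rat is continuous (rat_continuous) and
att_map gives Att (f (f z)) ↔ Att f z.
trap: sink_of_contr (H32/BT/TrapSink) with n = 1 and F z = z + h p/(Q + h b).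
crit: Wr nu de = nu' de - nu de' with nu = z de + h p: equals de^2 + h (p' de - p de').
-/

theorem h61_ev_deriv {d : ℕ} (v : Fin (d + 1) → ℂ) (z : ℂ) :
    HasDerivAt (fun z => ev v z) (dev v z) z := by
  unfold ev dev
  apply HasDerivAt.fun_sum
  intro i _
  exact (hasDerivAt_pow (i : ℕ) z).const_mul (v i)

theorem h61_nu_deriv_eval {d : ℕ} (Q : Polynomial ℂ) (v : E d) (h : ℝ) (z : ℂ) :
    (derivative (nu Q v h)).eval z =
      Q.eval z + z * (derivative Q).eval z + h * dev v.1 z := by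
  unfold nu
  rw [derivative_add, derivative_mul, derivative_mul, derivative_X, derivative_C]
  simp only [eval_add, eval_mul, eval_X, eval_C, eval_one, eval_zero, zero_mul, one_mul,
    pol_deriv_eval, zero_add]

theorem h61_de_deriv_eval {d : ℕ} (Q : Polynomial ℂ) (v : E d) (h : ℝ) (z : ℂ) :
    (derivative (de Q v h)).eval z = (derivative Q).eval z + h * dev v.2 z := by
  unfold de
  rw [derivative_add, derivative_mul, derivative_C]
  simp only [eval_add, eval_mul, eval_C, eval_zero, zero_mul, pol_deriv_eval, zero_add]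

theorem h61_flt_tendsto {d : ℕ} (v : E d) (z : ℂ) :
    Tendsto (fun y : (E d × ℝ) × ℂ => (y.1.1, y.2)) (flt v ×ˢ 𝓝 z) (𝓝 (v, z)) := by
  rw [nhds_prod_eq]
  exact (tendsto_fst.comp tendsto_fst).prodMk tendsto_snd

theorem h61_step_eq {d : ℕ} (Q : Polynomial ℂ) (v : E d) (h : ℝ) (z : ℂ)
    (hne : Q.eval z + h * ev v.2 z ≠ 0) :
    z + h * (ev v.1 z - z * ev v.2 z) / (Q.eval z + h * ev v.2 z) =
      (nu Q v h).eval z / (de Q v h).eval z := by
  rw [nu_eval, de_eval, eq_div_iff hne, add_mul, div_mul_cancel₀ _ hne]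
  ring

theorem exists_sys {d : ℕ} {Q A B : Polynomial ℂ} (hQ : Q.natDegree + 1 = d) (hQ0 : Q ≠ 0)
    (hA : A.natDegree ≤ d) (hB : B.natDegree ≤ d) (hcop : IsCoprime (A - X * B) Q) :
    ∃ s : Sys (E d × ℝ) (flt (cf d A, cf d B)) (A - X * B) Q B,
      (∀ (τ : E d × ℝ) (z : ℂ),
        s.att τ z ↔ Att (rat (nu Q τ.1 τ.2) (de Q τ.1 τ.2)) (z : OnePoint ℂ)) ∧
      ∀ (τ : E d × ℝ) (z : ℂ),
        s.crit τ z ↔ (Wr (nu Q τ.1 τ.2) (de Q τ.1 τ.2)).eval z = 0 := by
  have l1 : ∀ z : ℂ, Tendsto (fun y : (E d × ℝ) × ℂ => ev y.1.1.1 y.2)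
      (flt (cf d A, cf d B) ×ˢ 𝓝 z) (𝓝 (A.eval z)) := by
    intro z
    have h1 := (ev1_cont.tendsto ((cf d A, cf d B), z)).comp (h61_flt_tendsto (cf d A, cf d B) z)
    simp only [ev_cf hA] at h1
    exact h1
  have l2 : ∀ z : ℂ, Tendsto (fun y : (E d × ℝ) × ℂ => ev y.1.1.2 y.2)
      (flt (cf d A, cf d B) ×ˢ 𝓝 z) (𝓝 (B.eval z)) := by
    intro z
    have h1 := (ev2_cont.tendsto ((cf d A, cf d B), z)).comp (h61_flt_tendsto (cf d A, cf d B) z)
    simp only [ev_cf hB] at h1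
    exact h1
  have l3 : ∀ z : ℂ, Tendsto (fun y : (E d × ℝ) × ℂ => dev y.1.1.1 y.2)
      (flt (cf d A, cf d B) ×ˢ 𝓝 z) (𝓝 ((derivative A).eval z)) := by
    intro z
    have h1 := (dev1_cont.tendsto ((cf d A, cf d B), z)).comp
      (h61_flt_tendsto (cf d A, cf d B) z)
    simp only [dev_cf hA] at h1
    exact h1
  have l4 : ∀ z : ℂ, Tendsto (fun y : (E d × ℝ) × ℂ => dev y.1.1.2 y.2)
      (flt (cf d A, cf d B) ×ˢ 𝓝 z) (𝓝 ((derivative B).eval z)) := by
    intro z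
    have h1 := (dev2_cont.tendsto ((cf d A, cf d B), z)).comp
      (h61_flt_tendsto (cf d A, cf d B) z)
    simp only [dev_cf hB] at h1
    exact h1
  have l5 : ∀ z : ℂ, Tendsto (fun y : (E d × ℝ) × ℂ => y.2)
      (flt (cf d A, cf d B) ×ˢ 𝓝 z) (𝓝 z) := fun z => tendsto_snd
  have hcd := cop_deg hQ hQ0 hA hB hcop
  refine ⟨{
    h := fun τ => τ.2
    p := fun τ z => ev τ.1.1 z - z * ev τ.1.2 z
    b := fun τ z => ev τ.1.2 z
    dp := fun τ z => dev τ.1.1 z - (ev τ.1.2 z + z * dev τ.1.2 z)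
    db := fun τ z => dev τ.1.2 z
    att := fun τ z => Att (rat (nu Q τ.1 τ.2) (de Q τ.1 τ.2)) (z : OnePoint ℂ)
    h_pos := ?_
    h_lim := ?_
    p_lim := ?_
    b_lim := l2
    dp_lim := ?_
    db_lim := l4
    p_deriv := ?_
    b_deriv := fun τ z => h61_ev_deriv _ z
    step := ?_
    trap := ?_ }, fun τ z => Iff.rfl, ?_⟩
  · have h1 : ∀ᶠ x : ℝ in 𝓝[>] (0 : ℝ), 0 < x := self_mem_nhdsWithin
    exact tendsto_snd.eventually h1
  · exact tendsto_snd.mono_right nhdsWithin_le_nhds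
  · intro z
    have h1 := (l1 z).sub ((l5 z).mul (l2 z))
    have h2 : (A - X * B).eval z = A.eval z - z * B.eval z := by simp
    rw [h2]
    exact h1
  · intro z
    have h1 := (l3 z).sub ((l2 z).add ((l5 z).mul (l4 z)))
    have h2 : (derivative (A - X * B)).eval z =
        (derivative A).eval z - (B.eval z + z * (derivative B).eval z) := by simp
    rw [h2]
    exact h1
  · intro τ z
    have h1 := (h61_ev_deriv τ.1.1 z).sub ((hasDerivAt_id z).mul (h61_ev_deriv τ.1.2 z))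
    simp only [one_mul, id] at h1
    exact h1
  · filter_upwards [hcd] with τ hτ z hz hatt
    rw [h61_step_eq Q τ.1 τ.2 z hz] at hatt
    have hz' : (de Q τ.1 τ.2).eval z ≠ 0 := by rw [de_eval]; exact hz
    rw [← rat_coe_of_ne hz'] at hatt
    exact (att_map (rat_continuous hτ.1) _).1 hatt
  · filter_upwards with τ c r q hr hq0 hq1 hden hmaps hlip z hz
    have hfF : ∀ w ∈ closedBall c r,
        (rat (nu Q τ.1 τ.2) (de Q τ.1 τ.2))^[1] (w : OnePoint ℂ) =
        ((w + (τ.2 : ℂ) * (ev τ.1.1 w - w * ev τ.1.2 w) / (Q.eval w + τ.2 * ev τ.1.2 w) : ℂ) :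
          OnePoint ℂ) := by
      intro w hw
      have hw' := hden w hw
      have hw'' : (de Q τ.1 τ.2).eval w ≠ 0 := by rw [de_eval]; exact hw'
      rw [Function.iterate_one, rat_coe_of_ne hw'', h61_step_eq Q τ.1 τ.2 w hw']
    obtain ⟨z0, _, hs, ht⟩ := sink_of_contr (f := rat (nu Q τ.1 τ.2) (de Q τ.1 τ.2)) one_pos hr
      hq0 hq1 hfF hmaps hlip
    exact ⟨z0, 1, hs, (ht z hz).1⟩
  · intro τ z
    unfold Sys.crit Sys.den Wr
    simp only [eval_sub, eval_mul, h61_nu_deriv_eval, h61_de_deriv_eval, nu_eval, de_eval]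
    constructor
    · intro h
      rw [← h]; ring
    · intro h
      rw [← h]; ring

end Pool.Agent.H79.Eul
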