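import Pool.Agent.H79.Eul.Defs

set_option autoImplicit false

open Filter Topology Polynomial Metric Set

namespace Pool.Agent.H79.Eul

open Pool.Agent.H44.Fatou Pool.Agent.H32.BT

/-
PROOFS. loop_per': uniqueness of derivatives applied to γ (t + L) = γ t.
loop_bounds: γ' is continuous, periodic, nowhere 0; compactness of Icc 0 L and reduction of t to
Icc 0 L (e.g. toIcoMod, or Function.Periodic.exists_mem_Ico₀).
loop_unif: a continuous periodic function is uniformly continuous: (Heine-Cantor on Icc (-1) (L+1)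
and reduction of s to Ico 0 L by periodicity, for δ ≤ 1). The second estimate follows from the
first one by the mean value inequality applied to t ↦ γ t - (t - s) γ' s on the segment between s
and t, whose derivative γ' t - γ' s has norm ≤ ε (Convex.norm_image_sub_le_of_norm_hasDerivWithin_le
or norm_image_sub_le_of_norm_deriv_le_segment).
loop_inj: γ s = γ t and |t - s| < L imply s = t: reduce s and t to Ico 0 L: s - t is an integer
multiple of L.
loop_sep: the set {(s,t) | s ∈ Icc 0 L, δ ≤ |t - s| ≤ L/2} is compact, ‖γ t - γ s‖ is continuous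
and positive on it by loop_inj (if the set is empty take κ = 1); reduce s to Icc 0 L by
periodicity (shift both s and t by the same multiple of L).
-/

theorem loop_per' (c : Loop) : ∀ t, c.γ' (t + c.L) = c.γ' t := by
  intro t
  have h1 : HasDerivAt (fun s => c.γ (s + c.L)) (c.γ' (t + c.L)) t :=
    (c.deriv (t + c.L)).comp_add_const t c.L
  have h2 : (fun s => c.γ (s + c.L)) = c.γ := funext c.per
  rw [h2] at h1
  exact h1.unique (c.deriv t)

theorem loop_bounds (c : Loop) :
    ∃ m M : ℝ, 0 < m ∧ (∀ t, m ≤ ‖c.γ' t‖) ∧ ∀ t, ‖c.γ' t‖ ≤ M := by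
  have hper : Function.Periodic c.γ' c.L := loop_per' c
  have hne : (Icc (0 : ℝ) c.L).Nonempty := nonempty_Icc.2 c.hL.le
  have hcont : ContinuousOn (fun t => ‖c.γ' t‖) (Icc (0 : ℝ) c.L) := c.cont.norm.continuousOn
  obtain ⟨a, ha, hmin⟩ := isCompact_Icc.exists_isMinOn hne hcont
  obtain ⟨b, hb, hmax⟩ := isCompact_Icc.exists_isMaxOn hne hcont
  refine ⟨‖c.γ' a‖, ‖c.γ' b‖, norm_pos_iff.2 (c.ne a), fun t => ?_, fun t => ?_⟩
  · obtain ⟨y, hy, hyt⟩ := hper.exists_mem_Ico₀ c.hL t
    rw [hyt]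
    exact hmin (Ico_subset_Icc_self hy)
  · obtain ⟨y, hy, hyt⟩ := hper.exists_mem_Ico₀ c.hL t
    rw [hyt]
    exact hmax (Ico_subset_Icc_self hy)

/-- shift by a multiple of the period -/
theorem loop_shift (c : Loop) (s : ℝ) : ∃ n : ℤ, s - n * c.L ∈ Ico (0 : ℝ) c.L := by
  refine ⟨toIcoDiv c.hL 0 s, ?_⟩
  have h := toIcoMod_mem_Ico' c.hL s
  have h2 : toIcoMod c.hL 0 s = s - toIcoDiv c.hL 0 s * c.L := by
    rw [toIcoMod, zsmul_eq_mul]
  rwa [h2] at h

theorem loop_shift_eq (c : Loop) (n : ℤ) (s : ℝ) : c.γ (s - n * c.L) = c.γ s := by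
  have hper : Function.Periodic c.γ c.L := c.per
  exact hper.sub_int_mul_eq n

theorem loop_shift_eq' (c : Loop) (n : ℤ) (s : ℝ) : c.γ' (s - n * c.L) = c.γ' s := by
  have hper : Function.Periodic c.γ' c.L := loop_per' c
  exact hper.sub_int_mul_eq n

theorem loop_unif (c : Loop) {ε : ℝ} (hε : 0 < ε) : ∃ δ : ℝ, 0 < δ ∧ ∀ s t : ℝ, |t - s| ≤ δ →
    ‖c.γ' t - c.γ' s‖ ≤ ε ∧ ‖c.γ t - c.γ s - (t - s) * c.γ' s‖ ≤ ε * |t - s| := by
  have hK : IsCompact (Icc (-1 : ℝ) (c.L + 1)) := isCompact_Icc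
  have huc : UniformContinuousOn c.γ' (Icc (-1 : ℝ) (c.L + 1)) :=
    hK.uniformContinuousOn_of_continuous c.cont.continuousOn
  rw [Metric.uniformContinuousOn_iff] at huc
  obtain ⟨δ₀, hδ₀, hu⟩ := huc ε hε
  have h1 : ∀ s t : ℝ, |t - s| ≤ min (δ₀ / 2) 1 → ‖c.γ' t - c.γ' s‖ ≤ ε := by
    intro s t hst
    obtain ⟨n, hn⟩ := loop_shift c s
    rw [← loop_shift_eq' c n t, ← loop_shift_eq' c n s]
    have hle1 : |t - s| ≤ 1 := hst.trans (min_le_right _ _)
    have hle2 : |t - s| ≤ δ₀ / 2 := hst.trans (min_le_left _ _)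
    have hb := abs_le.1 hle1
    have hs : s - n * c.L ∈ Icc (-1 : ℝ) (c.L + 1) := ⟨by linarith [hn.1], by linarith [hn.2]⟩
    have ht : t - n * c.L ∈ Icc (-1 : ℝ) (c.L + 1) :=
      ⟨by linarith [hn.1, hb.1], by linarith [hn.2, hb.2]⟩
    have hd : dist (t - n * c.L) (s - n * c.L) < δ₀ := by
      rw [Real.dist_eq]
      have : t - n * c.L - (s - n * c.L) = t - s := by ring
      rw [this]
      linarith
    have := hu _ ht _ hs hd
    rw [dist_eq_norm] at this
    exact this.le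
  refine ⟨min (δ₀ / 2) 1, lt_min (by linarith) one_pos, fun s t hst => ⟨h1 s t hst, ?_⟩⟩
  have hder : ∀ x ∈ uIcc s t,
      HasDerivWithinAt (fun x : ℝ => c.γ x - ((x : ℂ) - s) * c.γ' s) (c.γ' x - c.γ' s)
        (uIcc s t) x := by
    intro x _
    have h2 : HasDerivAt (fun x : ℝ => ((x : ℂ) - s) * c.γ' s) (c.γ' s) x := by
      have h3 : HasDerivAt (fun x : ℝ => ((x : ℂ) - s)) 1 x :=
        (Complex.ofRealCLM.hasDerivAt (x := x)).sub_const _
      simpa using h3.mul_const (c.γ' s)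
    exact ((c.deriv x).sub h2).hasDerivWithinAt
  have hbd : ∀ x ∈ uIcc s t, ‖c.γ' x - c.γ' s‖ ≤ ε := by
    intro x hx
    refine h1 s x (le_trans ?_ hst)
    exact Set.abs_sub_left_of_mem_uIcc hx
  have hmv := (convex_uIcc s t).norm_image_sub_le_of_norm_hasDerivWithin_le hder hbd
    left_mem_uIcc right_mem_uIcc
  have he : c.γ t - ((t : ℂ) - s) * c.γ' s - (c.γ s - ((s : ℂ) - s) * c.γ' s) =
      c.γ t - c.γ s - (t - s) * c.γ' s := by ring
  rw [he, Real.norm_eq_abs] at hmv
  exact hmv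

theorem loop_inj (c : Loop) {s t : ℝ} (h : |t - s| < c.L) (he : c.γ s = c.γ t) : s = t := by
  obtain ⟨n, hn⟩ := loop_shift c s
  obtain ⟨m, hm⟩ := loop_shift c t
  have h1 : s - n * c.L = t - m * c.L := by
    refine c.inj _ hn _ hm ?_
    rw [loop_shift_eq, loop_shift_eq, he]
  have h2 : t - s = ((m - n : ℤ) : ℝ) * c.L := by
    push_cast
    linarith
  have h3 : m - n = 0 := by
    rw [h2, abs_mul, abs_of_pos c.hL] at h
    have h4 : |((m - n : ℤ) : ℝ)| < 1 := by
      by_contra hcon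
      push Not at hcon
      nlinarith [c.hL]
    have h5 : |m - n| < 1 := by exact_mod_cast h4
    exact Int.abs_lt_one_iff.1 h5
  rw [h3] at h2
  simp at h2
  linarith

theorem loop_sep (c : Loop) {δ : ℝ} (hδ : 0 < δ) : ∃ κ : ℝ, 0 < κ ∧ ∀ s t : ℝ,
    δ ≤ |t - s| → |t - s| ≤ c.L / 2 → κ ≤ ‖c.γ t - c.γ s‖ := by
  have hγ : Continuous c.γ := continuous_iff_continuousAt.2 fun t => (c.deriv t).continuousAt
  set K : Set (ℝ × ℝ) := {p | p.1 ∈ Icc (0 : ℝ) c.L ∧ δ ≤ |p.2 - p.1| ∧ |p.2 - p.1| ≤ c.L / 2}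
    with hKdef
  have hKc : IsCompact K := by
    refine (isCompact_Icc (a := (0 : ℝ)) (b := c.L)).prod
      (isCompact_Icc (a := -(c.L / 2)) (b := c.L + c.L / 2)) |>.of_isClosed_subset ?_ ?_
    · refine (isClosed_Icc.preimage continuous_fst).inter (IsClosed.inter ?_ ?_)
      · exact isClosed_le continuous_const (continuous_snd.sub continuous_fst).abs
      · exact isClosed_le (continuous_snd.sub continuous_fst).abs continuous_const
    · rintro ⟨s, t⟩ ⟨hs, -, h2⟩
      have := abs_le.1 h2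
      dsimp at this hs
      exact ⟨hs, by dsimp; linarith [hs.1, this.1], by dsimp; linarith [hs.2, this.2]⟩
  rcases K.eq_empty_or_nonempty with hK | hK
  · refine ⟨1, one_pos, fun s t h1 h2 => ?_⟩
    exfalso
    obtain ⟨n, hn⟩ := loop_shift c s
    have : ((s - n * c.L, t - n * c.L) : ℝ × ℝ) ∈ K := by
      refine ⟨Ico_subset_Icc_self hn, ?_, ?_⟩
      · dsimp
        have : t - n * c.L - (s - n * c.L) = t - s := by ring
        rwa [this]
      · dsimp
        have : t - n * c.L - (s - n * c.L) = t - s := by ring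
        rwa [this]
    rw [hK] at this
    exact this
  · obtain ⟨p, hp, hmin⟩ := hKc.exists_isMinOn hK
      (((hγ.comp continuous_snd).sub (hγ.comp continuous_fst)).norm.continuousOn)
    refine ⟨‖c.γ p.2 - c.γ p.1‖, ?_, fun s t h1 h2 => ?_⟩
    · rw [norm_pos_iff, sub_ne_zero]
      intro h
      have h3 : |p.2 - p.1| < c.L := by
        have := hp.2.2
        have := c.hL
        linarith
      have h4 := loop_inj c h3 h.symm
      have h5 := hp.2.1
      rw [h4, sub_self, abs_zero] at h5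
      linarith
    · obtain ⟨n, hn⟩ := loop_shift c s
      have hmem : ((s - n * c.L, t - n * c.L) : ℝ × ℝ) ∈ K := by
        have : t - n * c.L - (s - n * c.L) = t - s := by ring
        refine ⟨Ico_subset_Icc_self hn, ?_, ?_⟩
        · dsimp
          rwa [this]
        · dsimp
          rwa [this]
      have h3 : ‖c.γ p.2 - c.γ p.1‖ ≤ ‖c.γ (t - n * c.L) - c.γ (s - n * c.L)‖ := hmin hmem
      rwa [loop_shift_eq, loop_shift_eq] at h3

end Pool.Agent.H79.Eul
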