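import Pool.Agent.H79.Eul.WindInt

set_option autoImplicit false

open Filter Topology Polynomial Metric Set

namespace Pool.Agent.H79.Eul

open Pool.Agent.H44.Fatou Pool.Agent.H32.BT

/-
PROOFS. wind_continuousOn: let z0 be off the curve. The curve is the compact set γ '' Icc 0 L
(periodicity), so there is r > 0 with r ≤ ‖γ t - z0‖ for all t. For z in ball z0 (r/2) the
integrand is bounded by M / (r/2) (M a bound of γ' on Icc 0 L) and is continuous in z for every
t: intervalIntegral.continuousAt_of_dominated_interval. Or estimate the difference directly: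
|1/(γ-z) - 1/(γ-z0)| ≤ 2 |z-z0| / r^2.
wind_const: wind c is continuous on S with values in range (Int.cast : ℤ → ℂ) (wind_int), which is
discrete: IsPreconnected.constant_of_mapsTo (or compose with the real part and use that an integer
valued continuous function on a preconnected set is constant).
wind_far: let K bound ‖γ‖ and M bound ‖γ'‖ on Icc 0 L. For real z > K + L M + 1 the integral has
norm ≤ L M / (z - K) < 1, so the integer wind c z has norm < 1 and is 0.
-/

theorem wind_continuousOn (c : Loop) : ContinuousOn (wind c) {z | ∀ t, c.γ t ≠ z} := by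
  have hγc : Continuous c.γ := continuous_iff_continuousAt.2 fun t => (c.deriv t).continuousAt
  rw [continuousOn_iff_continuous_domRestrict]
  have h : Continuous fun z : {z : ℂ | ∀ t, c.γ t ≠ z} =>
      ∫ t in (0 : ℝ)..c.L, c.γ' t / (c.γ t - (z : ℂ)) := by
    apply intervalIntegral.continuous_parametric_intervalIntegral_of_continuous'
      (f := fun (z : {z : ℂ | ∀ t, c.γ t ≠ z}) (t : ℝ) => c.γ' t / (c.γ t - (z : ℂ)))
    refine Continuous.div (c.cont.comp continuous_snd)
      ((hγc.comp continuous_snd).sub (continuous_subtype_val.comp continuous_fst)) ?_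
    rintro ⟨z, t⟩
    exact sub_ne_zero.2 (z.2 t)
  exact h.const_mul _

theorem wind_const (c : Loop) {S : Set ℂ} (hS : IsPreconnected S)
    (hS' : ∀ z ∈ S, ∀ t, c.γ t ≠ z) {z w : ℂ} (hz : z ∈ S) (hw : w ∈ S) :
    wind c z = wind c w := by
  have hcont : ContinuousOn (wind c) S := (wind_continuousOn c).mono hS'
  have hre : ContinuousOn (fun x => (wind c x).re) S :=
    Complex.continuous_re.comp_continuousOn hcont
  have hint : ∀ x ∈ S, ∃ n : ℤ, wind c x = n := fun x hx => wind_int c x (hS' x hx)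
  have key : (wind c z).re = (wind c w).re := by
    have hT : IsDiscrete (range ((↑) : ℤ → ℝ)) :=
      Int.isClosedEmbedding_coe_real.isEmbedding.isInducing.isDiscrete_range
    exact hS.constant_of_mapsTo (S := S) (T := range ((↑) : ℤ → ℝ)) hT hre
      (fun x hx => by
        obtain ⟨n, hn⟩ := hint x hx
        exact ⟨n, by simp [hn]⟩) hz hw
  obtain ⟨n, hn⟩ := hint z hz
  obtain ⟨m, hm⟩ := hint w hw
  rw [hn, hm] at key ⊢
  have : (n : ℝ) = m := by simpa using key
  have h2 : n = m := by exact_mod_cast this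
  rw [h2]

theorem wind_far (c : Loop) : ∃ z, (∀ t, c.γ t ≠ z) ∧ wind c z = 0 := by
  have hγc : Continuous c.γ := continuous_iff_continuousAt.2 fun t => (c.deriv t).continuousAt
  obtain ⟨K, hK⟩ := isCompact_Icc.exists_bound_of_continuousOn (s := Icc (0 : ℝ) c.L)
    hγc.continuousOn
  obtain ⟨M, hM⟩ := isCompact_Icc.exists_bound_of_continuousOn (s := Icc (0 : ℝ) c.L)
    c.cont.continuousOn
  have hL := c.hL
  have h0 : (0 : ℝ) ∈ Icc (0 : ℝ) c.L := ⟨le_refl _, hL.le⟩
  have hK0 : 0 ≤ K := (norm_nonneg _).trans (hK 0 h0)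
  have hM0 : 0 ≤ M := (norm_nonneg _).trans (hM 0 h0)
  have hper : ∀ t, ∃ s ∈ Icc (0 : ℝ) c.L, c.γ t = c.γ s := by
    intro t
    have hp : Function.Periodic c.γ c.L := c.per
    obtain ⟨s, hs, hs'⟩ := hp.exists_mem_Ico₀ hL t
    exact ⟨s, ⟨hs.1, hs.2.le⟩, hs'⟩
  have hKall : ∀ t, ‖c.γ t‖ ≤ K := by
    intro t
    obtain ⟨s, hs, hs'⟩ := hper t
    rw [hs']
    exact hK s hs
  set z : ℂ := ((K + c.L * M + 1 : ℝ) : ℂ) with hzdef
  have hLM : 0 ≤ c.L * M := mul_nonneg hL.le hM0
  have hznorm : ‖z‖ = K + c.L * M + 1 := by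
    rw [hzdef, Complex.norm_real, Real.norm_of_nonneg (by linarith)]
  have hlow : ∀ t, c.L * M + 1 ≤ ‖c.γ t - z‖ := by
    intro t
    have h1 := norm_sub_norm_le z (c.γ t)
    rw [norm_sub_rev] at h1
    have h2 := hKall t
    linarith
  have hz : ∀ t, c.γ t ≠ z := by
    intro t h
    have := hlow t
    rw [h, sub_self, norm_zero] at this
    linarith
  refine ⟨z, hz, ?_⟩
  obtain ⟨n, hn⟩ := wind_int c z hz
  have hbound : ‖∫ t in (0 : ℝ)..c.L, c.γ' t / (c.γ t - z)‖ ≤
      (M / (c.L * M + 1)) * |c.L - 0| := by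
    apply intervalIntegral.norm_integral_le_of_norm_le_const
    intro t ht
    rw [uIoc_of_le hL.le] at ht
    rw [norm_div]
    exact div_le_div₀ hM0 (hM t ⟨ht.1.le, ht.2⟩) (by linarith) (hlow t)
  have hlt : ‖∫ t in (0 : ℝ)..c.L, c.γ' t / (c.γ t - z)‖ < 1 := by
    refine hbound.trans_lt ?_
    rw [sub_zero, abs_of_pos hL, div_mul_eq_mul_div, div_lt_one (by linarith)]
    linarith [mul_comm M c.L]
  have hw : ‖wind c z‖ < 1 := by
    rw [wind, norm_mul]
    have h1 : ‖(2 * (Real.pi : ℂ) * Complex.I)⁻¹‖ ≤ 1 := by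
      rw [norm_inv, norm_mul, norm_mul, Complex.norm_I, mul_one, Complex.norm_real,
        Real.norm_of_nonneg Real.pi_pos.le, Complex.norm_two]
      apply inv_le_one_of_one_le₀
      linarith [Real.pi_gt_three]
    calc _ ≤ 1 * ‖∫ t in (0 : ℝ)..c.L, c.γ' t / (c.γ t - z)‖ :=
          mul_le_mul_of_nonneg_right h1 (norm_nonneg _)
      _ < 1 := by rw [one_mul]; exact hlt
  rw [hn] at hw ⊢
  rw [Complex.norm_intCast] at hw
  have : |n| < 1 := by exact_mod_cast hw
  have h2 : n = 0 := by
    rw [abs_lt] at this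
    omega
  rw [h2]
  simp

end Pool.Agent.H79.Eul
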