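import Pool.Agent.H79.Eul.Defs

set_option autoImplicit false

open Filter Topology Polynomial Metric Set

namespace Pool.Agent.H79.Eul

open Pool.Agent.H44.Fatou Pool.Agent.H32.BT

/-
PROOF of wind_int. Let g t = exp (- ∫ u in 0..t, γ' u / (γ u - z)) * (γ t - z). The integrand is
continuous (γ is continuous, γ u ≠ z), so by the fundamental theorem of calculus
(intervalIntegral.integral_hasDerivAt_right, or Continuous.deriv_integral) g has derivative 0
everywhere, hence g L = g 0 (is_const_of_deriv_eq_zero). As γ L = γ 0 (c.per 0) and γ 0 - z ≠ 0,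
exp (∫_0^L γ' / (γ - z)) = 1, so the integral is n * (2 π I) (Complex.exp_eq_one_iff).
-/

/-- the winding number of a point off the curve is an integer -/
theorem wind_int (c : Loop) (z : ℂ) (hz : ∀ t, c.γ t ≠ z) : ∃ n : ℤ, wind c z = n := by
  have hγc : Continuous c.γ := continuous_iff_continuousAt.2 fun t => (c.deriv t).continuousAt
  have hne : ∀ t, c.γ t - z ≠ 0 := fun t => sub_ne_zero.2 (hz t)
  have hfc : Continuous fun t => c.γ' t / (c.γ t - z) :=
    c.cont.div (hγc.sub continuous_const) hne
  have hF : ∀ t, HasDerivAt (fun t => ∫ u in (0 : ℝ)..t, c.γ' u / (c.γ u - z))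
      (c.γ' t / (c.γ t - z)) t := fun t =>
    intervalIntegral.integral_hasDerivAt_right (hfc.intervalIntegrable _ _)
      (hfc.stronglyMeasurableAtFilter _ _) hfc.continuousAt
  have hg : ∀ t, HasDerivAt (fun t => Complex.exp (-∫ u in (0 : ℝ)..t, c.γ' u / (c.γ u - z)) *
      (c.γ t - z)) 0 t := by
    intro t
    have h1 := ((hF t).neg.cexp).mul ((c.deriv t).sub_const z)
    refine h1.congr_deriv ?_
    have := hne t
    field_simp
    ring
  have hconst := is_const_of_deriv_eq_zero (fun t => (hg t).differentiableAt)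
    (fun t => (hg t).deriv) c.L 0
  have hL : c.γ c.L = c.γ 0 := by
    have := c.per 0
    rwa [zero_add] at this
  simp only [intervalIntegral.integral_same, neg_zero, Complex.exp_zero, one_mul, hL] at hconst
  have h2 : Complex.exp (-∫ u in (0 : ℝ)..c.L, c.γ' u / (c.γ u - z)) = 1 := by
    have h3 := hne 0
    field_simp at hconst
    exact hconst
  obtain ⟨n, hn⟩ := Complex.exp_eq_one_iff.1 h2
  refine ⟨-n, ?_⟩
  have h4 : (∫ u in (0 : ℝ)..c.L, c.γ' u / (c.γ u - z)) = -(n * (2 * Real.pi * Complex.I)) := by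
    rw [← hn, neg_neg]
  rw [wind, h4]
  have h5 : (2 * (Real.pi : ℂ) * Complex.I) ≠ 0 := Complex.two_pi_I_ne_zero
  push_cast
  field_simp

end Pool.Agent.H79.Eul
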